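import Mathlib

set_option autoImplicit false

open MeasureTheory ProbabilityTheory Filter Topology Finset

namespace Pool.Agent.P.MP_758450_pr

section

variable {ι : Type} [DecidableEq ι]

noncomputable def coinLaw (q : ι → unitInterval) : Measure (ι → Bool) :=
  Measure.infinitePi fun i => bernoulliMeasure true false (q i)

instance (q : ι → unitInterval) : IsProbabilityMeasure (coinLaw q) := by
  unfold coinLaw; infer_instance

def DepOn {α : Type} (T : Finset ι) (G : (ι → Bool) → α) : Prop :=
  ∀ B B' : ι → Bool, (∀ i ∈ T, B i = B' i) → G B = G B'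

def fill (T : Finset ι) (r : T → Bool) : ι → Bool := fun i => if h : i ∈ T then r ⟨i, h⟩ else false

theorem DepOn.factor {α : Type} {T : Finset ι} {G : (ι → Bool) → α} (hG : DepOn T G)
    (B : ι → Bool) : G B = G (fill T fun i => B i) :=
  hG _ _ fun i hi => by simp [fill, hi]

theorem DepOn.measurable {α : Type} [MeasurableSpace α] {T : Finset ι} {G : (ι → Bool) → α}
    (hG : DepOn T G) : Measurable G := by
  have : G = (fun r => G (fill T r)) ∘ (fun B (i : T) => B i) := funext hG.factor
  rw [this]
  exact Measurable.comp Measurable.of_discrete (by fun_prop)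

theorem DepOn.integrable {T : Finset ι} {G : (ι → Bool) → ℝ} (hG : DepOn T G)
    (q : ι → unitInterval) : Integrable G (coinLaw q) := by
  refine Integrable.of_bound hG.measurable.aestronglyMeasurable (∑ r : T → Bool, |G (fill T r)|)
    (ae_of_all _ fun B => ?_)
  rw [hG.factor, Real.norm_eq_abs]
  exact single_le_sum (f := fun r => |G (fill T r)|) (fun _ _ => abs_nonneg _) (mem_univ _)

theorem DepOn.integral_mul {T : Finset ι} {G : (ι → Bool) → ℝ} (hG : DepOn T G)
    (q : ι → unitInterval) {c : ι} (hc : c ∉ T) (φ : Bool → ℝ) :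
    ∫ B, G B * φ (B c) ∂coinLaw q =
      (∫ B, G B ∂coinLaw q) * ((q c : ℝ) * φ true + (1 - (q c : ℝ)) * φ false) := by
  have h1 : iIndepFun (fun (i : ι) (B : ι → Bool) => B i) (coinLaw q) :=
    iIndepFun_infinitePi (X := fun (_ : ι) (b : Bool) => b) (fun _ => measurable_id)
  have h2 := h1.indepFun_finset T {c} (disjoint_singleton_right.2 hc)
    (fun i => measurable_pi_apply i)
  have h3 := h2.integral_fun_comp_mul_comp (f := fun r => G (fill T r))
    (g := fun r => φ (r ⟨c, mem_singleton_self c⟩))
    (Measurable.aemeasurable (by fun_prop)) (Measurable.aemeasurable (by fun_prop))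
    Measurable.of_discrete.aestronglyMeasurable Measurable.of_discrete.aestronglyMeasurable
  simp only [← hG.factor] at h3
  rw [h3]
  congr 1
  rw [← integral_map (φ := fun B : ι → Bool => B c) (measurable_pi_apply c).aemeasurable
    Measurable.of_discrete.aestronglyMeasurable, coinLaw, Measure.infinitePi_map_eval,
    integral_bernoulliMeasure]
  simp

end

theorem integrable_of_lim {α : Type} [MeasurableSpace α] {μ : Measure α} {f : ℕ → α → ℝ}
    {g : α → ℝ} {C : ℝ} (hf : ∀ n, Integrable (f n) μ) (hpos : ∀ n a, 0 ≤ f n a)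
    (hC : ∀ n, ∫ a, f n a ∂μ ≤ C) (hlim : ∀ᵐ a ∂μ, Tendsto (fun n => f n a) atTop (𝓝 (g a))) :
    Integrable g μ := by
  rw [← memLp_one_iff_integrable]
  refine ⟨aestronglyMeasurable_of_tendsto_ae _ (fun n => (hf n).1) hlim, ?_⟩
  refine lt_of_le_of_lt (Lp.eLpNorm_le_of_ae_tendsto (C := ENNReal.ofReal C)
    (Eventually.of_forall fun n => ?_) (fun n => (hf n).1) hlim) ENNReal.ofReal_lt_top
  rw [eLpNorm_one_eq_lintegral_enorm, ← ofReal_integral_norm_eq_lintegral_enorm (hf n)]
  refine ENNReal.ofReal_le_ofReal (le_trans (le_of_eq ?_) (hC n))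
  congr 1
  funext a
  exact Real.norm_of_nonneg (hpos n a)

end Pool.Agent.P.MP_758450_pr
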