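import Mathlib

set_option autoImplicit false

open MeasureTheory ProbabilityTheory

namespace Pool.Agent.P.MP_758450_pr

/-- Law of independent Bernoulli trials; trial `i` (counted from `0`) succeeds (`true`) with
probability `p i`. -/
noncomputable def trials (p : ℕ → unitInterval) : Measure (ℕ → Bool) :=
  Measure.infinitePi fun i => bernoulliMeasure true false (p i)

/-- `U x B` is the number of successes before the `x`-th failure. -/
noncomputable def U (x : ℕ) (B : ℕ → Bool) : ℕ :=
  Set.ncard {i : ℕ | B i = true ∧ ((Finset.range i).filter fun j => B j = false).card < x}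

/-- `ρ(x) = E[U(x) - μ x]`. -/
noncomputable def rho (p : ℕ → unitInterval) (μ : ℝ) (x : ℕ) : ℝ :=
  ∫ B, ((U x B : ℝ) - μ * x) ∂trials p

/-- `ν(x) = E[(U(x) - μ x)^2] / x`. -/
noncomputable def nu (p : ℕ → unitInterval) (μ : ℝ) (x : ℕ) : ℝ :=
  (∫ B, ((U x B : ℝ) - μ * x) ^ 2 ∂trials p) / x

/-- `θ(x) = 2 ρ(x) / ν(x)`. -/
noncomputable def theta (p : ℕ → unitInterval) (μ : ℝ) (x : ℕ) : ℝ :=
  2 * rho p μ x / nu p μ x

/-- `X` is an excited random walk under `P` in the identically piled environment `p`: it starts at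
`0`, makes nearest-neighbour steps, and given `X 0, ..., X n` it steps right with probability
`p j`, where `j` is the number of visits to the current site before time `n`. -/
structure IsERW (p : ℕ → unitInterval) {Ω : Type} [MeasurableSpace Ω] (P : Measure Ω)
    (X : ℕ → Ω → ℤ) : Prop where
  meas : ∀ n, Measurable (X n)
  start : ∀ᵐ ω ∂P, X 0 ω = 0
  step : ∀ n, ∀ᵐ ω ∂P, X (n + 1) ω = X n ω + 1 ∨ X (n + 1) ω = X n ω - 1
  cond : ∀ n,
    condExp (MeasurableSpace.comap (fun ω (k : Fin (n + 1)) => X k ω) inferInstance) P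
        (Set.indicator {ω | X (n + 1) ω = X n ω + 1} fun _ => (1 : ℝ))
      =ᵐ[P] fun ω => (p ((Finset.range n).filter fun k => X k ω = X n ω).card : ℝ)

end Pool.Agent.P.MP_758450_pr
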