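import Mathlib

set_option autoImplicit false

open Filter Topology Finset

namespace Pool.Agent.P.MP_758450_pr

noncomputable def eta (l : ℕ) : ℝ := 8 / Real.log (l + 16)

theorem one_le_log {x : ℝ} (hx : 3 ≤ x) : 1 ≤ Real.log x := by
  rw [Real.le_log_iff_exp_le (by linarith)]
  have := Real.exp_one_lt_d9
  linarith

theorem one_le_log16 (l : ℕ) : 1 ≤ Real.log (l + 16) :=
  one_le_log (by have : (0 : ℝ) ≤ l := Nat.cast_nonneg l; linarith)

theorem eta_pos (l : ℕ) : 0 < eta l := by
  have := one_le_log16 l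
  unfold eta; positivity

theorem eta_le (l : ℕ) : eta l ≤ 8 := by
  have := one_le_log16 l
  unfold eta
  rw [div_le_iff₀ (by linarith)]; linarith

theorem eta_anti : Antitone eta := by
  intro a b hab
  have := one_le_log16 a
  have h : (a : ℝ) ≤ b := by exact_mod_cast hab
  unfold eta
  gcongr

theorem eta_diff (l : ℕ) : eta l - eta (l + 1) ≤ 1 / 2 := by
  have h1 := one_le_log16 l
  have h2 := one_le_log16 (l + 1)
  have h0 : (0 : ℝ) ≤ l := Nat.cast_nonneg l
  unfold eta
  push_cast at h2 ⊢
  set a := Real.log (l + 16)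
  set b := Real.log (l + 1 + 16)
  have h3 : b - a ≤ 1 / 16 := by
    have : b - a = Real.log ((l + 1 + 16) / (l + 16)) := by
      rw [Real.log_div (by linarith) (by linarith)]
    rw [this]
    refine (Real.log_le_sub_one_of_pos (by positivity)).trans ?_
    rw [div_sub_one (by linarith), div_le_div_iff₀ (by linarith) (by norm_num)]
    linarith
  have h4 : 1 ≤ a * b := by nlinarith
  rw [div_sub_div _ _ (by linarith) (by linarith), div_le_div_iff₀ (by linarith) (by norm_num)]
  nlinarith

theorem eta_tendsto : Tendsto eta atTop (𝓝 0) := by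
  refine Tendsto.div_atTop tendsto_const_nhds ?_
  exact Real.tendsto_log_atTop.comp
    (tendsto_atTop_add_const_right _ _ tendsto_natCast_atTop_atTop)

/-- total drift of the first `l` cookies -/
noncomputable def S (l : ℕ) : ℝ := min ((l : ℝ) / 2) (1 + eta l)

/-- drift of cookie `l` -/
noncomputable def d (l : ℕ) : ℝ := S (l + 1) - S l

theorem S_zero : S 0 = 0 := by
  have := eta_pos 0
  simp only [S, Nat.cast_zero, zero_div]
  exact min_eq_left (by linarith)

theorem S_nonneg (l : ℕ) : 0 ≤ S l :=
  le_min (by positivity) (by have := eta_pos l; linarith)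

theorem S_le (l : ℕ) : S l ≤ 9 := (min_le_right _ _).trans (by have := eta_le l; linarith)

theorem S_eq {l : ℕ} (h : 18 ≤ l) : S l = 1 + eta l := by
  have h1 : (18 : ℝ) ≤ l := by exact_mod_cast h
  exact min_eq_right (by have := eta_le l; linarith)

theorem sum_d (l : ℕ) : ∑ i ∈ range l, d i = S l := by
  simp only [d]
  rw [sum_range_sub, S_zero, sub_zero]

theorem abs_d_le (l : ℕ) : |d l| ≤ 1 / 2 := by
  refine (abs_min_sub_min_le_max _ _ _ _).trans (max_le ?_ ?_)
  · push_cast
    rw [show ((l : ℝ) + 1) / 2 - l / 2 = 1 / 2 by ring]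
    norm_num
  · have h1 := eta_diff l
    have h2 := eta_anti (Nat.le_succ l)
    rw [abs_le]
    constructor <;> linarith

theorem sum_abs_d (n : ℕ) : ∑ i ∈ range n, |d i| ≤ 18 := by
  have h0 : ∀ n, ∑ i ∈ range n, |d i| ≤ n / 2 := by
    intro n
    have := sum_le_card_nsmul (range n) (fun i => |d i|) (1 / 2) (fun i _ => abs_d_le i)
    simp only [card_range, nsmul_eq_mul] at this
    linarith
  by_cases hn : n ≤ 18
  · have : (n : ℝ) ≤ 18 := by exact_mod_cast hn
    linarith [h0 n]
  · have h1 : ∀ k, 18 ≤ k → ∑ i ∈ range k, |d i| + S k ≤ 18 := by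
      intro k hk
      induction k, hk using Nat.le_induction with
      | base => have := h0 18; have := S_le 18; push_cast at *; linarith
      | succ k hk ih =>
        have h2 : d k ≤ 0 := by
          rw [d, S_eq hk, S_eq (by omega)]
          have := eta_anti (Nat.le_succ k)
          linarith
        rw [sum_range_succ, abs_of_nonpos h2, d]
        linarith
    linarith [h1 n (by omega), S_nonneg n]

theorem sum_sq_d (n : ℕ) : ∑ i ∈ range n, d i ^ 2 ≤ 9 := by
  have h1 : ∑ i ∈ range n, d i ^ 2 ≤ ∑ i ∈ range n, (1 / 2) * |d i| := by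
    refine sum_le_sum fun i _ => ?_
    rw [← sq_abs]
    nlinarith [abs_d_le i, abs_nonneg (d i)]
  rw [← mul_sum] at h1
  linarith [sum_abs_d n]

/-- the cookie environment -/
noncomputable def pp (l : ℕ) : unitInterval :=
  ⟨(1 + d l) / 2, by have := abs_le.1 (abs_d_le l); constructor <;> linarith⟩

theorem pp_coe (l : ℕ) : (pp l : ℝ) = (1 + d l) / 2 := rfl

theorem pp_ge (l : ℕ) : 1 / 4 ≤ (pp l : ℝ) := by
  have := abs_le.1 (abs_d_le l); rw [pp_coe]; linarith

theorem pp_le (l : ℕ) : (pp l : ℝ) ≤ 3 / 4 := by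
  have := abs_le.1 (abs_d_le l); rw [pp_coe]; linarith

/-- a slightly concave profile -/
noncomputable def H (t : ℝ) : ℝ := t + 1 - 1 / t

noncomputable def gam (t : ℝ) : ℝ := (2 * H t - H (t - 1) - H (t + 1)) / (2 * H t)

noncomputable def bet (t : ℝ) : ℝ := (H (t + 1) - H (t - 1)) / (2 * H t)

theorem H_ge {t : ℝ} (ht : 1 ≤ t) : t ≤ H t := by
  have : 1 / t ≤ 1 := by rw [div_le_one (by linarith)]; exact ht
  unfold H; linarith

theorem H_le {t : ℝ} (ht : 1 ≤ t) : H t ≤ t + 1 := by
  have : 0 ≤ 1 / t := by positivity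
  unfold H; linarith

theorem H_lt {t : ℝ} (ht : 1 ≤ t) : H t < H (t + 1) := by
  have : 1 / (t + 1) ≤ 1 / t := one_div_le_one_div_of_le (by linarith) (by linarith)
  unfold H; linarith

theorem gam_ge {t : ℝ} (ht : 2 ≤ t) : 1 / (t ^ 3 * (t + 1)) ≤ gam t := by
  have h1 := H_ge (t := t) (by linarith)
  have h2 := H_le (t := t) (by linarith)
  have h3 : 2 * H t - H (t - 1) - H (t + 1) = 2 / (t * (t ^ 2 - 1)) := by
    have : t - 1 ≠ 0 := by linarith
    have : t ^ 2 - 1 ≠ 0 := by nlinarith
    unfold H; field_simp; ring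
  have h4 : 0 < t ^ 2 - 1 := by nlinarith
  have h5 : 0 < t := by linarith
  have h8 : 0 < H t := by linarith
  rw [gam, h3, div_div, div_le_div_iff₀ (by positivity) (by positivity)]
  have h6 : t * (t ^ 2 - 1) ≤ t ^ 3 := by nlinarith
  have h7 : t * (t ^ 2 - 1) * H t ≤ t ^ 3 * (t + 1) := by gcongr
  linarith

theorem bet_ge {t : ℝ} (ht : 2 ≤ t) : 1 / (t + 1) ≤ bet t := by
  have h1 := H_ge (t := t) (by linarith)
  have h2 := H_le (t := t) (by linarith)
  have h3 : 2 ≤ H (t + 1) - H (t - 1) := by
    have : 1 / (t + 1) ≤ 1 / (t - 1) := one_div_le_one_div_of_le (by linarith) (by linarith)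
    unfold H; linarith
  rw [bet, div_le_div_iff₀ (by linarith) (by linarith)]
  nlinarith

theorem site_bound (k : ℕ) (hk : 2 ≤ k) (L : ℕ) (hL : 18 ≤ L) :
    (1 + 2 / Real.log (k + 3)) / (k + 1) ≤ gam k * L + bet k * S L := by
  have ht : (2 : ℝ) ≤ k := by exact_mod_cast hk
  generalize (k : ℝ) = t at ht ⊢
  have h1 := gam_ge ht
  have h2 := bet_ge ht
  have h3 : 1 ≤ Real.log (t + 3) := one_le_log (by linarith)
  have h4 : (1 + 2 / Real.log (t + 3)) ≤ L / t ^ 3 + S L := by
    rw [S_eq hL]
    by_cases h : (L : ℝ) ≤ 2 * t ^ 3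
    · have h5 : 2 / Real.log (t + 3) ≤ eta L := by
        have h6 : Real.log (L + 16) ≤ 4 * Real.log (t + 3) := by
          have : (4 : ℝ) * Real.log (t + 3) = Real.log ((t + 3) ^ 4) := by
            rw [Real.log_pow]; norm_num
          rw [this]
          refine Real.log_le_log (by positivity) ?_
          have : 0 ≤ t := by linarith
          nlinarith [pow_nonneg this 4, pow_nonneg this 3, pow_nonneg this 2]
        have := one_le_log16 L
        rw [eta, div_le_div_iff₀ (by linarith) (by linarith)]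
        linarith
      have : (0 : ℝ) ≤ L / t ^ 3 := by positivity
      linarith
    · have h5 : 2 ≤ L / t ^ 3 := by
        rw [le_div_iff₀ (by positivity)]; linarith
      have h6 : 2 / Real.log (t + 3) ≤ 2 := by
        rw [div_le_iff₀ (by linarith)]; linarith
      linarith [eta_pos L]
  have h5 : (L / t ^ 3 + S L) / (t + 1) = 1 / (t ^ 3 * (t + 1)) * L + 1 / (t + 1) * S L := by
    field_simp
  calc _ ≤ (L / t ^ 3 + S L) / (t + 1) := by gcongr
    _ = _ := h5
    _ ≤ _ := by gcongr; exact S_nonneg L

/-- the summable weights -/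
noncomputable def wt (m : ℕ) : ℝ :=
  Real.exp (-∑ j ∈ range m, (1 + 2 / Real.log (((j + 2 : ℕ) : ℝ) + 3)) / (((j + 2 : ℕ) : ℝ) + 1))

theorem wt_le (m : ℕ) : wt m ≤ 5 * Real.log 5 ^ 2 / ((m + 5) * Real.log (m + 5) ^ 2) := by
  induction m with
  | zero =>
    have : 1 ≤ Real.log 5 := one_le_log (by norm_num)
    simp only [wt, range_zero, sum_empty, neg_zero, Real.exp_zero, Nat.cast_zero, zero_add]
    rw [div_self (by positivity)]
  | succ m ih =>
    have h0 : (0 : ℝ) ≤ m := Nat.cast_nonneg m
    have hrec : wt (m + 1) = wt m *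
        Real.exp (-((1 + 2 / Real.log (m + 5)) / (m + 3))) := by
      rw [wt, wt, sum_range_succ, neg_add, Real.exp_add]
      congr 3; push_cast; ring_nf
    have ha : 1 ≤ Real.log (m + 5) := one_le_log (by linarith)
    have hb : 1 ≤ Real.log (m + 1 + 5) := one_le_log (by linarith)
    set a := Real.log (m + 5)
    have hba : Real.log (m + 1 + 5) ≤ a * Real.exp (1 / (a * (m + 3))) := by
      have h1 : Real.log (m + 1 + 5) - a = Real.log ((m + 1 + 5) / (m + 5)) := by
        rw [Real.log_div (by linarith) (by linarith)]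
      have h2 : Real.log ((m + 1 + 5) / (m + 5)) ≤ 1 / (m + 3) := by
        refine (Real.log_le_sub_one_of_pos (by positivity)).trans ?_
        rw [div_sub_one (by linarith), div_le_div_iff₀ (by linarith) (by linarith)]
        linarith
      have h3 := Real.add_one_le_exp (1 / (a * (m + 3)))
      have h4 : a * (1 / (a * (m + 3)) + 1) = a + 1 / (m + 3) := by field_simp; ring
      nlinarith
    have hm : (m : ℝ) + 1 + 5 ≤ (m + 5) * Real.exp (1 / (m + 3)) := by
      have h3 := Real.add_one_le_exp (1 / ((m : ℝ) + 3))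
      have h4 : 1 ≤ (m + 5) * (1 / ((m : ℝ) + 3)) := by
        rw [mul_one_div, le_div_iff₀ (by linarith)]; linarith
      nlinarith
    have he : Real.exp ((1 + 2 / a) / (m + 3)) =
        Real.exp (1 / (m + 3)) * Real.exp (1 / (a * (m + 3))) ^ 2 := by
      rw [← Real.exp_nat_mul, ← Real.exp_add]
      congr 1
      field_simp
      push_cast
      ring
    have hfin : ((m : ℝ) + 1 + 5) * Real.log (m + 1 + 5) ^ 2 ≤
        ((m + 5) * a ^ 2) * Real.exp ((1 + 2 / a) / (m + 3)) := by
      rw [he]
      calc _ ≤ ((m + 5) * Real.exp (1 / (m + 3))) * (a * Real.exp (1 / (a * (m + 3)))) ^ 2 := by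
            gcongr
        _ = _ := by ring
    rw [hrec, Real.exp_neg]
    push_cast
    calc _ ≤ 5 * Real.log 5 ^ 2 / ((m + 5) * a ^ 2) * (Real.exp ((1 + 2 / a) / (m + 3)))⁻¹ := by
          gcongr
      _ = 5 * Real.log 5 ^ 2 / (((m + 5) * a ^ 2) * Real.exp ((1 + 2 / a) / (m + 3))) := by
          field_simp
      _ ≤ _ := by gcongr

theorem summable_log : Summable (fun m : ℕ => 1 / (((m : ℝ) + 5) * Real.log (m + 5) ^ 2)) := by
  refine summable_of_sum_range_le (c := 1) (fun m => ?_) fun n => ?_
  · have : (0 : ℝ) ≤ m := Nat.cast_nonneg m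
    positivity
  · have key : ∑ m ∈ range n, 1 / (((m : ℝ) + 5) * Real.log (m + 5) ^ 2) +
        1 / Real.log (n + 4) ≤ 1 := by
      induction n with
      | zero =>
        have : 1 ≤ Real.log 4 := one_le_log (by norm_num)
        simp only [range_zero, sum_empty, Nat.cast_zero, zero_add]
        rw [div_le_one (by linarith)]; exact this
      | succ n ih =>
        have h0 : (0 : ℝ) ≤ n := Nat.cast_nonneg n
        have ha : 1 ≤ Real.log (n + 4) := one_le_log (by linarith)
        have hab : Real.log (n + 4) ≤ Real.log (n + 5) :=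
          Real.log_le_log (by linarith) (by linarith)
        have h1 : Real.log (n + 4) - Real.log (n + 5) ≤ -(1 / (n + 5)) := by
          rw [← Real.log_div (by linarith) (by linarith)]
          refine (Real.log_le_sub_one_of_pos (by positivity)).trans (le_of_eq ?_)
          field_simp; ring
        rw [sum_range_succ]
        push_cast
        rw [show (n : ℝ) + 1 + 4 = n + 5 by ring]
        set a := Real.log (n + 4)
        set b := Real.log (n + 5)
        have h2 : 1 / ((n + 5) * b ^ 2) + 1 / b ≤ 1 / a := by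
          have hb0 : 0 < b := by linarith
          have ha0 : 0 < a := by linarith
          have h3 : 1 / a - 1 / b = (b - a) / (a * b) := by field_simp
          have h4 : 1 / ((n + 5) * b ^ 2) = (1 / (n + 5)) / (b * b) := by field_simp
          have h5 : (1 / (n + 5)) / (b * b) ≤ (b - a) / (a * b) := by
            have : 0 ≤ 1 / ((n : ℝ) + 5) := by positivity
            calc _ ≤ (1 / (n + 5)) / (a * b) := by gcongr
              _ ≤ _ := by gcongr; linarith
          linarith
        linarith
    have : 0 ≤ 1 / Real.log (n + 4) := by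
      have : 1 ≤ Real.log (n + 4) :=
        one_le_log (by have : (0 : ℝ) ≤ n := Nat.cast_nonneg n; linarith)
      positivity
    linarith

theorem summable_wt : Summable wt := by
  refine Summable.of_nonneg_of_le (fun m => (Real.exp_pos _).le) (fun m => ?_)
    (summable_log.mul_left (5 * Real.log 5 ^ 2))
  rw [mul_one_div]
  exact wt_le m

end Pool.Agent.P.MP_758450_pr
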