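import Mathlib
import Pool.Agent.P.MP_758450_pr.Defs
import Pool.Agent.P.MP_758450_pr.Env
import Pool.Agent.P.MP_758450_pr.Coins

set_option autoImplicit false

open MeasureTheory ProbabilityTheory Filter Topology Finset

namespace Pool.Agent.P.MP_758450_pr

theorem trials_eq (p : ℕ → unitInterval) : trials p = coinLaw p := rfl

def fails (B : ℕ → Bool) (i : ℕ) : ℕ := ((range i).filter fun j => B j = false).card

theorem fails_succ (B : ℕ → Bool) (i : ℕ) :
    fails B (i + 1) = if B i = false then fails B i + 1 else fails B i := by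
  unfold fails
  rw [range_add_one, filter_insert]
  split_ifs
  · rw [card_insert_of_notMem (by simp)]
  · rfl

theorem fails_mono (B : ℕ → Bool) : Monotone (fails B) :=
  monotone_nat_of_le_succ fun n => by rw [fails_succ]; split_ifs <;> omega

theorem fails_le (B : ℕ → Bool) (i : ℕ) : fails B i ≤ i :=
  (card_filter_le _ _).trans (by simp)

theorem fails_congr {B B' : ℕ → Bool} {n : ℕ} (h : ∀ i ∈ range n, B i = B' i) {k : ℕ}
    (hk : k ≤ n) : fails B k = fails B' k := by
  unfold fails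
  congr 1
  exact filter_congr fun j hj => by rw [h j (by simp at hj ⊢; omega)]

def act (x i : ℕ) (B : ℕ → Bool) : ℝ := if fails B i < x then 1 else 0

def tn (x n : ℕ) (B : ℕ → Bool) : ℕ := ((range n).filter fun i => fails B i < x).card

theorem tn_eq {x n : ℕ} {B : ℕ → Bool} (h : fails B n < x) : tn x n B = n := by
  rw [tn, filter_true_of_mem, card_range]
  exact fun i hi => lt_of_le_of_lt (fails_mono B (mem_range.1 hi).le) h

theorem tn_succ (x n : ℕ) (B : ℕ → Bool) :
    tn x (n + 1) B = if fails B n < x then tn x n B + 1 else tn x n B := by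
  unfold tn
  rw [range_add_one, filter_insert]
  split_ifs
  · rw [card_insert_of_notMem (by simp)]
  · rfl

theorem sum_act (x n : ℕ) (B : ℕ → Bool) (f : ℕ → ℝ) :
    ∑ i ∈ range n, act x i B * f i = ∑ i ∈ range (tn x n B), f i := by
  induction n with
  | zero => simp [tn]
  | succ n ih =>
    rw [sum_range_succ, ih, tn_succ, act]
    split_ifs with h
    · rw [sum_range_succ, tn_eq h, one_mul]
    · simp

noncomputable def xi (i : ℕ) (b : Bool) : ℝ := (if b = true then 1 else -1) - d i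

noncomputable def Nn (x n : ℕ) (B : ℕ → Bool) : ℝ := ∑ i ∈ range n, act x i B * xi i (B i)

def Un (x n : ℕ) (B : ℕ → Bool) : ℕ :=
  ((range n).filter fun i => B i = true ∧ fails B i < x).card

def Fn (x n : ℕ) (B : ℕ → Bool) : ℕ := min (fails B n) x

theorem Un_succ (x n : ℕ) (B : ℕ → Bool) :
    Un x (n + 1) B = if B n = true ∧ fails B n < x then Un x n B + 1 else Un x n B := by
  unfold Un
  rw [range_add_one, filter_insert]
  split_ifs
  · rw [card_insert_of_notMem (by simp)]
  · rfl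

theorem Un_zero (x : ℕ) (B : ℕ → Bool) : Un x 0 B = 0 := rfl

theorem Fn_zero (x : ℕ) (B : ℕ → Bool) : Fn x 0 B = 0 := Nat.zero_min x

theorem tn_split (x n : ℕ) (B : ℕ → Bool) : tn x n B = Un x n B + Fn x n B := by
  induction n with
  | zero => rw [Un_zero, Fn_zero]; rfl
  | succ n ih =>
    rw [tn_succ, Un_succ, ih, Fn, Fn, fails_succ]
    cases B n <;> simp <;> split_ifs <;> omega

theorem Y_eq (x n : ℕ) (B : ℕ → Bool) :
    (Un x n B : ℝ) - Fn x n B = Nn x n B + S (tn x n B) := by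
  rw [← sum_d, ← sum_act, Nn, ← sum_add_distrib]
  induction n with
  | zero => rw [Un_zero, Fn_zero]; simp
  | succ n ih =>
    rw [sum_range_succ, ← ih, Un_succ, Fn, Fn, fails_succ, act, xi]
    by_cases h : fails B n < x
    · rw [min_eq_left h.le]
      cases B n
      · simp only [Bool.false_eq_true, false_and, if_false, if_true, if_pos h]
        rw [min_eq_left (by omega)]
        push_cast; ring
      · simp only [true_and, if_pos h, Bool.true_eq_false, if_false, if_true]
        rw [min_eq_left h.le]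
        push_cast; ring
    · rw [if_neg (fun h' => h h'.2), if_neg h, min_eq_right (not_lt.1 h),
        min_eq_right (by split_ifs <;> omega)]
      ring

theorem dep_act (x : ℕ) {i n : ℕ} (h : i ≤ n) : DepOn (range n) (act x i) :=
  fun B B' hh => by rw [act, act, fails_congr hh h]

theorem dep_Nn (x n : ℕ) : DepOn (range n) (Nn x n) := fun B B' hh =>
  sum_congr rfl fun i hi => by rw [dep_act x (mem_range.1 hi).le B B' hh, hh i hi]

theorem dep_tn (x n : ℕ) : DepOn (range n) (tn x n) := fun B B' hh => by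
  unfold tn
  congr 1
  exact filter_congr fun i hi => by rw [fails_congr hh (mem_range.1 hi).le]

theorem dep_Un (x n : ℕ) : DepOn (range n) (Un x n) := fun B B' hh => by
  unfold Un
  congr 1
  exact filter_congr fun i hi => by rw [fails_congr hh (mem_range.1 hi).le, hh i hi]

theorem dep_Fn (x n : ℕ) : DepOn (range n) (Fn x n) := fun B B' hh => by
  rw [Fn, Fn, fails_congr hh le_rfl]

theorem DepOn.comp {ι α β : Type} {T : Finset ι} {G : (ι → Bool) → α} (hG : DepOn T G)
    (f : α → β) : DepOn T fun B => f (G B) := fun B B' h => by simp only [hG B B' h]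

theorem DepOn.comp₂ {ι α β γ : Type} {T : Finset ι} {G : (ι → Bool) → α} {G' : (ι → Bool) → β}
    (hG : DepOn T G) (hG' : DepOn T G') (f : α → β → γ) : DepOn T fun B => f (G B) (G' B) :=
  fun B B' h => by simp only [hG B B' h, hG' B B' h]

theorem DepOn.succ {α : Type} {n : ℕ} {G : (ℕ → Bool) → α} (hG : DepOn (range n) G) :
    DepOn (range (n + 1)) G := fun B B' h => hG B B' fun i hi => h i (by simp at hi ⊢; omega)

theorem dep_last (n : ℕ) : DepOn (range (n + 1)) fun B : ℕ → Bool => B n :=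
  fun B B' h => h n (by simp)

theorem int_xi {n : ℕ} {G : (ℕ → Bool) → ℝ} (hG : DepOn (range n) G) :
    ∫ B, G B * xi n (B n) ∂coinLaw pp = 0 := by
  rw [hG.integral_mul pp (by simp) (xi n), pp_coe]
  simp only [xi, if_true, Bool.false_eq_true, if_false]
  ring

theorem int_xi_sq {n : ℕ} {G : (ℕ → Bool) → ℝ} (hG : DepOn (range n) G) :
    ∫ B, G B * xi n (B n) ^ 2 ∂coinLaw pp = (∫ B, G B ∂coinLaw pp) * (1 - d n ^ 2) := by
  rw [hG.integral_mul pp (by simp) (fun b => xi n b ^ 2), pp_coe]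
  simp only [xi, if_true, Bool.false_eq_true, if_false]
  ring

theorem int_Nn (x n : ℕ) : ∫ B, Nn x n B ∂coinLaw pp = 0 := by
  unfold Nn
  rw [integral_finsetSum _ fun i _ =>
    (((dep_act x le_rfl).succ.comp₂ (dep_last i) fun a b => a * xi i b).integrable pp)]
  exact sum_eq_zero fun i _ => int_xi (dep_act x le_rfl)

theorem int_Nn_sq (x n : ℕ) : ∫ B, Nn x n B ^ 2 ∂coinLaw pp =
    ∫ B, ∑ i ∈ range n, act x i B * (1 - d i ^ 2) ∂coinLaw pp := by
  induction n with
  | zero => simp [Nn]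
  | succ n ih =>
    have h1 : ∀ B, Nn x (n + 1) B ^ 2 = Nn x n B ^ 2 +
        ((2 * Nn x n B * act x n B) * xi n (B n) + act x n B * xi n (B n) ^ 2) := by
      intro B
      rw [Nn, sum_range_succ, ← Nn, act]
      split_ifs <;> ring
    have hd : DepOn (range n) fun B => 2 * Nn x n B * act x n B :=
      (dep_Nn x n).comp₂ (dep_act x le_rfl) fun a b => 2 * a * b
    have i1 := (hd.succ.comp₂ (dep_last n) fun a b => a * xi n b).integrable pp
    have i2 := ((dep_act x (le_refl n)).succ.comp₂ (dep_last n) fun a b => a * xi n b ^ 2).integrable pp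
    have i3 : Integrable (fun B => ∑ i ∈ range n, act x i B * (1 - d i ^ 2)) (coinLaw pp) :=
      integrable_finsetSum _ fun i _ => ((dep_act x (le_refl i)).integrable pp).mul_const _
    have i4 : Integrable (fun B => (2 * Nn x n B * act x n B) * xi n (B n) +
      act x n B * xi n (B n) ^ 2) (coinLaw pp) := i1.add i2
    simp only [h1, sum_range_succ]
    rw [integral_add (((dep_Nn x n).comp fun a => a ^ 2).integrable pp) i4,
      integral_add i1 i2, int_xi hd, int_xi_sq (dep_act x le_rfl), ih,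
      integral_add i3 (((dep_act x (le_refl n)).integrable pp).mul_const _), integral_mul_const,
      zero_add]

theorem intg_tn (x n : ℕ) (f : ℕ → ℝ) : Integrable (fun B => f (tn x n B)) (coinLaw pp) :=
  ((dep_tn x n).comp f).integrable pp

theorem intg_Fn (x n : ℕ) : Integrable (fun B => (Fn x n B : ℝ)) (coinLaw pp) :=
  ((dep_Fn x n).comp fun a : ℕ => (a : ℝ)).integrable pp

theorem intg_Nn (x n : ℕ) (f : ℝ → ℝ) : Integrable (fun B => f (Nn x n B)) (coinLaw pp) :=
  ((dep_Nn x n).comp f).integrable pp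

theorem tn_real (x n : ℕ) (B : ℕ → Bool) :
    (tn x n B : ℝ) = 2 * Fn x n B + Nn x n B + S (tn x n B) := by
  have h1 := Y_eq x n B
  have h2 : (tn x n B : ℝ) = Un x n B + Fn x n B := by exact_mod_cast tn_split x n B
  linarith

theorem Fn_le (x n : ℕ) (B : ℕ → Bool) : (Fn x n B : ℝ) ≤ x := by
  exact_mod_cast min_le_right _ _

theorem int_tn (x n : ℕ) : ∫ B, (tn x n B : ℝ) ∂coinLaw pp =
    2 * ∫ B, (Fn x n B : ℝ) ∂coinLaw pp + ∫ B, S (tn x n B) ∂coinLaw pp := by
  have i1 : Integrable (fun B => 2 * (Fn x n B : ℝ) + Nn x n B) (coinLaw pp) :=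
    ((intg_Fn x n).const_mul 2).add (intg_Nn x n fun a => a)
  rw [integral_congr_ae (ae_of_all _ (tn_real x n)),
    integral_add i1 (intg_tn x n S),
    integral_add ((intg_Fn x n).const_mul 2) (intg_Nn x n fun a => a), int_Nn, integral_const_mul,
    add_zero]

theorem int_le_const {f : (ℕ → Bool) → ℝ} (hf : Integrable f (coinLaw pp)) {c : ℝ}
    (h : ∀ B, f B ≤ c) : ∫ B, f B ∂coinLaw pp ≤ c := by
  simpa using integral_mono hf (integrable_const c) h

theorem int_tn_le (x n : ℕ) : ∫ B, (tn x n B : ℝ) ∂coinLaw pp ≤ 2 * x + 9 := by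
  rw [int_tn]
  have h1 := int_le_const (intg_Fn x n) (Fn_le x n)
  have h2 := int_le_const (intg_tn x n S) fun B => S_le _
  linarith

theorem int_Nn_sq' (x n : ℕ) : ∫ B, Nn x n B ^ 2 ∂coinLaw pp =
    ∫ B, (tn x n B : ℝ) ∂coinLaw pp - ∫ B, ∑ i ∈ range (tn x n B), d i ^ 2 ∂coinLaw pp := by
  rw [int_Nn_sq, ← integral_sub (intg_tn x n fun a => (a : ℝ))
    (intg_tn x n fun a => ∑ i ∈ range a, d i ^ 2)]
  congr 1
  funext B
  rw [sum_act, sum_sub_distrib]
  simp

theorem int_Nn_sq_le (x n : ℕ) : ∫ B, Nn x n B ^ 2 ∂coinLaw pp ≤ 2 * x + 9 := by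
  rw [int_Nn_sq']
  have h1 : 0 ≤ ∫ B, ∑ i ∈ range (tn x n B), d i ^ 2 ∂coinLaw pp :=
    integral_nonneg fun B => sum_nonneg fun i _ => sq_nonneg _
  linarith [int_tn_le x n]

theorem int_Nn_sq_ge (x n : ℕ) :
    2 * ∫ B, (Fn x n B : ℝ) ∂coinLaw pp - 9 ≤ ∫ B, Nn x n B ^ 2 ∂coinLaw pp := by
  rw [int_Nn_sq', int_tn]
  have h1 := int_le_const (intg_tn x n fun a => ∑ i ∈ range a, d i ^ 2) fun B => sum_sq_d _
  have h2 : 0 ≤ ∫ B, S (tn x n B) ∂coinLaw pp := integral_nonneg fun B => S_nonneg _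
  linarith

theorem int_tn_sq_le (x n : ℕ) :
    ∫ B, (tn x n B : ℝ) ^ 2 ∂coinLaw pp ≤ 2 * (2 * x + 9) ^ 2 + 2 * (2 * x + 9) := by
  have h1 : ∫ B, (tn x n B : ℝ) ^ 2 ∂coinLaw pp ≤
      ∫ B, (2 * (2 * (x : ℝ) + 9) ^ 2 + 2 * Nn x n B ^ 2) ∂coinLaw pp := by
    refine integral_mono (intg_tn x n fun a => (a : ℝ) ^ 2)
      (intg_Nn x n fun a => 2 * (2 * (x : ℝ) + 9) ^ 2 + 2 * a ^ 2) fun B => ?_
    have h2 := tn_real x n B
    have h3 := Fn_le x n B
    have h4 := S_le (tn x n B)
    have h5 : (0 : ℝ) ≤ tn x n B := Nat.cast_nonneg _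
    have h6 : (tn x n B : ℝ) ^ 2 ≤ (2 * x + 9 + Nn x n B) ^ 2 :=
      pow_le_pow_left₀ h5 (by linarith) 2
    simp only
    nlinarith [sq_nonneg (2 * x + 9 - Nn x n B)]
  rw [integral_add (integrable_const _) (intg_Nn x n fun a => 2 * a ^ 2)] at h1
  simp only [integral_const, probReal_univ, integral_const_mul, smul_eq_mul] at h1
  linarith [int_Nn_sq_le x n]

theorem ae_stop (x : ℕ) : ∀ᵐ B ∂coinLaw pp, ∃ n, x ≤ fails B n := by
  rw [ae_iff]
  refine le_antisymm ?_ zero_le
  have h1 : Tendsto (fun N : ℕ => ENNReal.ofReal ((2 * (x : ℝ) + 9) / ((N : ℝ) + 1))) atTop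
      (𝓝 0) := by
    rw [← ENNReal.ofReal_zero]
    refine ENNReal.tendsto_ofReal ?_
    exact Tendsto.div_atTop tendsto_const_nhds
      (tendsto_atTop_add_const_right _ _ tendsto_natCast_atTop_atTop)
  refine ge_of_tendsto' h1 fun N => ?_
  have h2 := mul_meas_ge_le_integral_of_nonneg (μ := coinLaw pp)
    (f := fun B => (tn x (N + 1) B : ℝ)) (ae_of_all _ fun B => Nat.cast_nonneg _)
    (intg_tn x (N + 1) fun a => (a : ℝ)) ((N : ℝ) + 1)
  have h3 : (coinLaw pp).real {B | ¬ ∃ n, x ≤ fails B n} ≤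
      (coinLaw pp).real {B | (N : ℝ) + 1 ≤ (tn x (N + 1) B : ℝ)} := by
    refine measureReal_mono fun B hB => ?_
    simp only [not_exists, not_le, Set.mem_ofPred_eq] at hB ⊢
    rw [tn_eq (hB _)]
    simp
  rw [← ofReal_measureReal]
  refine ENNReal.ofReal_le_ofReal ?_
  rw [le_div_iff₀ (by positivity)]
  have h4 : (0 : ℝ) ≤ (N : ℝ) + 1 := by positivity
  nlinarith [int_tn_le x (N + 1)]

noncomputable def TT (x : ℕ) (B : ℕ → Bool) : ℕ := Set.ncard {i | fails B i < x}

theorem ae_ev (x : ℕ) : ∀ᵐ B ∂coinLaw pp,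
    ∀ᶠ n in atTop, tn x n B = TT x B ∧ Un x n B = U x B ∧ Fn x n B = x := by
  filter_upwards [ae_stop x] with B ⟨n0, hn0⟩
  filter_upwards [eventually_ge_atTop n0] with n hn
  have h1 : ∀ i, fails B i < x → i < n := by
    intro i hi
    by_contra hc
    have := fails_mono B (show n0 ≤ i by omega)
    omega
  refine ⟨?_, ?_, min_eq_right (hn0.trans (fails_mono B hn))⟩
  · rw [TT, tn, ← Set.ncard_coe_finset]
    congr 1
    ext i
    simp only [coe_filter, mem_range, Set.mem_ofPred_eq]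
    exact ⟨fun h => h.2, fun h => ⟨h1 i h, h⟩⟩
  · rw [U, Un, ← Set.ncard_coe_finset]
    congr 1
    ext i
    simp only [coe_filter, mem_range, Set.mem_ofPred_eq]
    exact ⟨fun h => h.2, fun h => ⟨h1 i h.2, h⟩⟩

theorem tn_mono (x : ℕ) (B : ℕ → Bool) : Monotone fun n => tn x n B :=
  monotone_nat_of_le_succ fun n => by rw [tn_succ]; split_ifs <;> omega

theorem ae_le_TT (x : ℕ) : ∀ᵐ B ∂coinLaw pp, ∀ n, tn x n B ≤ TT x B := by
  filter_upwards [ae_ev x] with B hB n
  obtain ⟨k, hk, hk'⟩ := (hB.and (eventually_ge_atTop n)).exists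
  rw [← hk.1]
  exact tn_mono x B hk'

theorem intg_TT (x : ℕ) : Integrable (fun B => (TT x B : ℝ) ^ 2) (coinLaw pp) := by
  refine integrable_of_lim (fun n => intg_tn x n fun a => (a : ℝ) ^ 2) (fun n B => sq_nonneg _)
    (int_tn_sq_le x) ?_
  filter_upwards [ae_ev x] with B hB
  refine tendsto_const_nhds.congr' ?_
  filter_upwards [hB] with n hn
  rw [hn.1]

/-- dominated convergence for functions of `(Un, Fn)` -/
theorem lim_int (x : ℕ) (f : ℕ → ℕ → ℝ) (hf : ∀ a b, |f a b| ≤ ((a : ℝ) + b) ^ 2 + 9) :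
    Integrable (fun B => f (U x B) x) (coinLaw pp) ∧
    Tendsto (fun n => ∫ B, f (Un x n B) (Fn x n B) ∂coinLaw pp) atTop
      (𝓝 (∫ B, f (U x B) x ∂coinLaw pp)) := by
  have h1 : ∀ n, AEStronglyMeasurable (fun B => f (Un x n B) (Fn x n B)) (coinLaw pp) :=
    fun n => (((dep_Un x n).comp₂ (dep_Fn x n) f).integrable pp).1
  have h2 : ∀ᵐ B ∂coinLaw pp, Tendsto (fun n => f (Un x n B) (Fn x n B)) atTop
      (𝓝 (f (U x B) x)) := by
    filter_upwards [ae_ev x] with B hB
    refine tendsto_const_nhds.congr' ?_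
    filter_upwards [hB] with n hn
    rw [hn.2.1, hn.2.2]
  have h3 := (intg_TT x).add (integrable_const (9 : ℝ))
  refine ⟨h3.mono' (aestronglyMeasurable_of_tendsto_ae _ h1 h2) ?_,
    tendsto_integral_of_dominated_convergence _ h1 h3 (fun n => ?_) h2⟩
  · filter_upwards [ae_ev x] with B hB
    obtain ⟨n, hn⟩ := hB.exists
    have := tn_split x n B
    rw [hn.1, hn.2.1, hn.2.2] at this
    simp only [Pi.add_apply, this]
    push_cast
    exact hf _ _
  · filter_upwards [ae_le_TT x] with B hB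
    refine (hf _ _).trans ?_
    have h4 : ((Un x n B : ℝ) + Fn x n B) ≤ TT x B := by
      have := hB n
      rw [tn_split] at this
      exact_mod_cast this
    simp only [Pi.add_apply]
    gcongr

theorem abs_le_sq (a b : ℕ) {c : ℝ} (h : |c| ≤ a + b) : |c| ≤ ((a : ℝ) + b) ^ 2 + 9 := by
  nlinarith [sq_nonneg ((a : ℝ) + b - 1)]

theorem abs_sub_le' (a b : ℕ) : |(a : ℝ) - b| ≤ a + b := by
  have h1 : (0 : ℝ) ≤ a := Nat.cast_nonneg a
  have h2 : (0 : ℝ) ≤ b := Nat.cast_nonneg b
  rw [abs_le]; constructor <;> linarith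

theorem intg_U (x : ℕ) : Integrable (fun B => (U x B : ℝ)) (coinLaw pp) :=
  (lim_int x (fun a _ => (a : ℝ)) fun a b => abs_le_sq a b (by simp)).1

theorem memLp_U (x : ℕ) : MemLp (fun B => (U x B : ℝ)) 2 (trials pp) := by
  rw [trials_eq, memLp_two_iff_integrable_sq (intg_U x).1]
  refine (lim_int x (fun a _ => (a : ℝ) ^ 2) fun a b => ?_).1
  have h1 : (0 : ℝ) ≤ a := Nat.cast_nonneg a
  have h2 : (0 : ℝ) ≤ b := Nat.cast_nonneg b
  rw [abs_of_nonneg (by positivity)]
  nlinarith

theorem rho_eq (x : ℕ) : rho pp 1 x = ∫ B, S (U x B + x) ∂coinLaw pp := by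
  have h1 := (lim_int x (fun a b => (a : ℝ) - b) fun a b => abs_le_sq a b (abs_sub_le' a b)).2
  have h2 := (lim_int x (fun a b => S (a + b)) fun a b => by
    rw [abs_of_nonneg (S_nonneg _)]
    nlinarith [S_le (a + b), sq_nonneg ((a : ℝ) + b)]).2
  simp only [rho, one_mul, trials_eq]
  refine tendsto_nhds_unique h1 (h2.congr fun n => ?_)
  simp only [Y_eq, ← tn_split]
  rw [integral_add (intg_Nn x n fun a => a) (intg_tn x n S), int_Nn, zero_add]

theorem rho_tendsto : Tendsto (rho pp 1) atTop (𝓝 1) := by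
  have h1 : Tendsto (fun x => 1 + eta x) atTop (𝓝 1) := by
    simpa using eta_tendsto.const_add 1
  refine tendsto_of_tendsto_of_tendsto_of_le_of_le' tendsto_const_nhds h1 ?_ ?_
  all_goals
    filter_upwards [eventually_ge_atTop 18] with x hx
    have h2 := (lim_int x (fun a b => S (a + b)) fun a b => by
      rw [abs_of_nonneg (S_nonneg _)]
      nlinarith [S_le (a + b), sq_nonneg ((a : ℝ) + b)]).1
    rw [rho_eq]
  · have := integral_mono (integrable_const (1 : ℝ)) h2 fun B => by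
      simp only
      rw [S_eq (by omega)]
      linarith [eta_pos (U x B + x)]
    simpa using this
  · refine int_le_const h2 fun B => ?_
    rw [S_eq (by omega)]
    linarith [eta_anti (Nat.le_add_left x (U x B))]

theorem mu_tendsto :
    Tendsto (fun x : ℕ => (∫ B, (U x B : ℝ) ∂trials pp) / x) atTop (𝓝 1) := by
  have h1 : Tendsto (fun x : ℕ => rho pp 1 x / x + 1) atTop (𝓝 (0 + 1)) :=
    (rho_tendsto.div_atTop tendsto_natCast_atTop_atTop).add_const 1
  rw [zero_add] at h1
  refine h1.congr' ?_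
  filter_upwards [eventually_ge_atTop 1] with x hx
  have h2 : (x : ℝ) ≠ 0 := by positivity
  rw [rho, trials_eq, integral_sub (intg_U x) (integrable_const _)]
  simp only [one_mul, integral_const, probReal_univ, one_smul]
  field_simp
  ring

theorem var_bounds (x : ℕ) {e : ℝ} (he : 0 < e) (he1 : e ≤ 1) :
    (1 - e) * (2 * x - 9) - 81 / e ≤ ∫ B, ((U x B : ℝ) - x) ^ 2 ∂coinLaw pp ∧
    ∫ B, ((U x B : ℝ) - x) ^ 2 ∂coinLaw pp ≤ (1 + e) * (2 * x + 9) + (81 + 81 / e) := by
  have h1 := (lim_int x (fun a b => ((a : ℝ) - b) ^ 2) fun a b => by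
    rw [abs_pow]
    have := pow_le_pow_left₀ (abs_nonneg _) (abs_sub_le' a b) 2
    linarith).2
  have h2 := (lim_int x (fun _ b => (b : ℝ)) fun a b => abs_le_sq a b (by simp)).2
  simp only [integral_const, probReal_univ, one_smul] at h2
  have hI : ∀ n, Integrable (fun B => ((Un x n B : ℝ) - Fn x n B) ^ 2) (coinLaw pp) := fun n =>
    ((dep_Un x n).comp₂ (dep_Fn x n) fun a b => ((a : ℝ) - b) ^ 2).integrable pp
  have hS : ∀ l, S l ^ 2 ≤ 81 := fun l => by nlinarith [S_nonneg l, S_le l]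
  have hS' : ∀ l, S l ^ 2 / e ≤ 81 / e := fun l => by gcongr; exact hS l
  have key : ∀ N s : ℝ, 2 * |N * s| ≤ e * N ^ 2 + s ^ 2 / e := by
    intro N s
    have h3 : 0 ≤ (e * |N| - |s|) ^ 2 / e := by positivity
    have h4 : (e * |N| - |s|) ^ 2 / e = e * |N| ^ 2 + |s| ^ 2 / e - 2 * (|N| * |s|) := by
      field_simp; ring
    rw [h4, sq_abs, sq_abs] at h3
    rw [abs_mul]; linarith
  constructor
  · refine le_of_tendsto_of_tendsto' ((((h2.const_mul 2).sub_const 9).const_mul (1 - e)).sub_const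
      (81 / e)) h1 fun n => ?_
    have h3 : ∫ B, ((1 - e) * Nn x n B ^ 2 - 81 / e) ∂coinLaw pp ≤
        ∫ B, ((Un x n B : ℝ) - Fn x n B) ^ 2 ∂coinLaw pp := by
      refine integral_mono (intg_Nn x n fun a => (1 - e) * a ^ 2 - 81 / e) (hI n) fun B => ?_
      simp only [Y_eq]
      have := key (Nn x n B) (S (tn x n B))
      have := neg_abs_le (Nn x n B * S (tn x n B))
      nlinarith [hS' (tn x n B), sq_nonneg (S (tn x n B))]
    rw [integral_sub (intg_Nn x n fun a => (1 - e) * a ^ 2) (integrable_const _),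
      integral_const_mul] at h3
    simp only [integral_const, probReal_univ, one_smul] at h3
    have := mul_le_mul_of_nonneg_left (int_Nn_sq_ge x n) (show 0 ≤ 1 - e by linarith)
    linarith
  · refine le_of_tendsto' h1 fun n => ?_
    have h3 : ∫ B, ((Un x n B : ℝ) - Fn x n B) ^ 2 ∂coinLaw pp ≤
        ∫ B, ((1 + e) * Nn x n B ^ 2 + (81 + 81 / e)) ∂coinLaw pp := by
      refine integral_mono (hI n) (intg_Nn x n fun a => (1 + e) * a ^ 2 + (81 + 81 / e))
        fun B => ?_
      simp only [Y_eq]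
      have := key (Nn x n B) (S (tn x n B))
      have := le_abs_self (Nn x n B * S (tn x n B))
      nlinarith [hS' (tn x n B), hS (tn x n B)]
    rw [integral_add (intg_Nn x n fun a => (1 + e) * a ^ 2) (integrable_const _),
      integral_const_mul] at h3
    simp only [integral_const, probReal_univ, one_smul] at h3
    have := mul_le_mul_of_nonneg_left (int_Nn_sq_le x n) (show 0 ≤ 1 + e by linarith)
    linarith

theorem nu_tendsto : Tendsto (nu pp 1) atTop (𝓝 2) := by
  rw [Metric.tendsto_nhds]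
  intro ε hε
  set e : ℝ := min 1 (ε / 4) with he
  have he0 : 0 < e := lt_min one_pos (by linarith)
  have he1 : e ≤ 1 := min_le_left _ _
  have he2 : e ≤ ε / 4 := min_le_right _ _
  have h1 : Tendsto (fun x : ℕ => (99 + 81 / e) / (x : ℝ)) atTop (𝓝 0) :=
    tendsto_const_nhds.div_atTop tendsto_natCast_atTop_atTop
  filter_upwards [h1.eventually (gt_mem_nhds (show 0 < ε / 2 by linarith)),
    eventually_ge_atTop 1] with x hx hx1
  have hx0 : (0 : ℝ) < x := by positivity
  obtain ⟨h2, h3⟩ := var_bounds x he0 he1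
  rw [div_lt_iff₀ hx0] at hx
  have h4 : 0 < 81 / e := by positivity
  have h5 : e * x ≤ ε / 4 * x := by gcongr
  simp only [nu, one_mul, trials_eq]
  rw [Real.dist_eq, abs_sub_lt_iff, sub_lt_iff_lt_add, div_lt_iff₀ hx0, sub_lt_comm,
    lt_div_iff₀ hx0]
  constructor <;> nlinarith

theorem theta_tendsto : Tendsto (theta pp 1) atTop (𝓝 1) := by
  have := (rho_tendsto.const_mul 2).div nu_tendsto (by norm_num)
  rw [show (2 : ℝ) * 1 / 2 = 1 by norm_num] at this
  exact this

end Pool.Agent.P.MP_758450_pr
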