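import Pool.Agent.P.MP_758450_pr.ITC

/-! Explicit test, part one: definitions, statements of the steps, smoothing. -/

set_option autoImplicit false
set_option linter.unusedSectionVars false

namespace Pool.Agent.P.MP_758450_pr.EX

section

open MeasureTheory ProbabilityTheory Filter Topology Finset
open Pool.Agent.P.MP_c7fa75_pr.T Pool.Agent.P.MP_c7fa75_pr.R2 Pool.Agent.P.MP_758450_pr.IT

/-! ### Definitions -/

/-- One step of a walk on `ℤ`: up with probability `q`. -/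
def sp (q : ℝ) (φ : ℤ → ℝ) : ℤ → ℝ := fun z => q * φ (z + 1) + (1 - q) * φ (z - 1)

/-- The steps of a list, one after the other. -/
def Op : List ℝ → (ℤ → ℝ) → ℤ → ℝ
  | [], φ => φ
  | q :: l, φ => sp q (Op l φ)

def dr (l : List ℝ) : ℝ := (l.map fun q => 2 * q - 1).sum

def Ins (ε : ℝ) (l : List ℝ) : Prop := ∀ q ∈ l, ε ≤ q ∧ q ≤ 1 - ε

/-- The list `w a, ..., w (a + n - 1)`. -/
def seg (w : ℕ → ℝ) : ℕ → ℕ → List ℝ
  | _, 0 => []
  | a, n + 1 => w a :: seg w (a + 1) n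

/-- The list `l` repeated `k` times. -/
def rep : ℕ → List ℝ → List ℝ
  | 0, _ => []
  | k + 1, l => l ++ rep k l

def D1 (φ : ℤ → ℝ) : ℤ → ℝ := fun z => φ (z + 1) - φ z

def D2 (φ : ℤ → ℝ) : ℤ → ℝ := fun z => φ (z + 2) - φ z

def Wn (w : ℕ → ℝ) (n : ℕ) : ℝ := ∑ i ∈ range n, 4 * (w i * (1 - w i))

def hr (w : ℕ → ℝ) (i : ℕ) : ℝ := 2 * (psum w (i + 1) * (1 - w i))

noncomputable def tt (γ : ℝ) (x : ℕ) : ℝ := (x : ℝ) ^ γ

noncomputable def uu (x y : ℕ) : ℝ := |(y : ℝ) - x| / √(x : ℝ)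

/-- Expectation of a function of `U x`. -/
noncomputable def EU (p : ℕ → unitInterval) (x : ℕ) (φ : ℕ → ℝ) : ℝ := ∫ B, φ (U x B) ∂trials p

/-- Expected drift eaten at the stopping time, with horizon `k`, from time `t` and place `z`. -/
noncomputable def Hh (w : ℕ → ℝ) : ℕ → ℕ → ℤ → ℝ
  | 0, t, _ => psum w t
  | k + 1, t, z => if z ≤ (t : ℤ) then psum w t else
      w t * Hh w k (t + 1) (z + 1) + (1 - w t) * Hh w k (t + 1) (z - 1)

/-- The standing hypotheses on the environment. -/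
structure St (p : ℕ → unitInterval) (ε γ CD : ℝ) (J : ℕ) : Prop where
  ue : UE p ε
  e4 : ε ≤ 1 / 4
  g0 : 0 < γ
  g1 : γ ≤ 1 / 64
  J1 : 1 ≤ J
  hJ : ∀ x : ℕ, 1 ≤ x → √(x : ℝ) ≤ tt γ x ^ J
  C1 : 1 ≤ CD
  hD : ∀ x n : ℕ, 1 ≤ x → psum (cw p) n ^ 2 ≤ CD ^ 2 * ((x : ℝ) + n + 1) / tt γ x ^ 32

/-- `y` lies in the window of `x`. -/
def Win (x y : ℕ) : Prop := x ≤ 2 * y ∧ y ≤ 3 * x

noncomputable def hh (p : ℕ → unitInterval) (z : ℤ) : ℝ :=
  (rho p 1 z.toNat + rho p 1 (z + 1).toNat) / 2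

noncomputable def Qk (p : ℕ → unitInterval) (b k : ℕ) : ℤ → ℝ :=
  Op (rep k (seg (cw p) 0 (2 * b))) (hh p)

noncomputable def ck (N : ℝ) (k : ℕ) : ℝ := max 0 (1 - (k : ℝ) / N)

/-- The corrector with base point `b`. -/
noncomputable def chi (p : ℕ → unitInterval) (γ : ℝ) (b : ℕ) (z : ℤ) : ℝ :=
  ∑ k ∈ range ⌈tt γ b ^ 2⌉₊, ck (tt γ b ^ 2) k * Qk p b k z

/-- The averaged drift with base point `b`. -/
noncomputable def rh (p : ℕ → unitInterval) (γ : ℝ) (b : ℕ) (z : ℤ) : ℝ :=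
  ∑ k ∈ range ⌈tt γ b ^ 2⌉₊, (ck (tt γ b ^ 2) k - ck (tt γ b ^ 2) (k + 1)) * Qk p b (k + 1) z

noncomputable def rb (p : ℕ → unitInterval) (γ : ℝ) (b : ℕ) : ℝ := rh p γ b b

noncomputable def sl (γ : ℝ) (j : ℕ) : ℝ := 1 / √(tt γ j)

noncomputable def lam (p : ℕ → unitInterval) (γ s : ℝ) (j : ℕ) : ℝ :=
  2 * (rb p γ j - s * sl γ j) / (Wn (cw p) (2 * j) + 1)

noncomputable def gl (la : ℕ → ℝ) (n : ℕ) : ℝ := Real.exp (-∑ j ∈ range n, la j)

noncomputable def fl (la : ℕ → ℝ) (n : ℕ) : ℝ := ∑ i ∈ range n, gl la i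

/-- The corrector on the diagonal, cut off below `y0`. -/
noncomputable def cht (p : ℕ → unitInterval) (γ : ℝ) (y0 y : ℕ) : ℝ :=
  if y < y0 then 0 else chi p γ y y

/-- The Lyapunov function. -/
noncomputable def FF (p : ℕ → unitInterval) (γ s : ℝ) (y0 y : ℕ) : ℝ :=
  fl (lam p γ s) y + gl (lam p γ s) y * cht p γ y0 y

/-- The terms of the explicit series. -/
noncomputable def ex (w : ℕ → ℝ) (m : ℕ) : ℝ :=
  Real.exp (-∑ i ∈ range m, hr w i / Wn w (i + 1))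

/-! ### The operator `Op` -/

theorem Op_nil (φ : ℤ → ℝ) : Op [] φ = φ := rfl
theorem Op_cons (q : ℝ) (l : List ℝ) (φ : ℤ → ℝ) : Op (q :: l) φ = sp q (Op l φ) := rfl

theorem Op_append (l l' : List ℝ) (φ : ℤ → ℝ) : Op (l ++ l') φ = Op l (Op l' φ) := by
  induction l with
  | nil => rfl
  | cons q l ih => rw [List.cons_append, Op_cons, Op_cons, ih]

theorem sp_comm (q r : ℝ) (φ : ℤ → ℝ) : sp q (sp r φ) = sp r (sp q φ) := by
  funext z
  simp only [sp, add_sub_cancel_right, sub_add_cancel]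
  ring

theorem Op_sp (l : List ℝ) (q : ℝ) (φ : ℤ → ℝ) : Op l (sp q φ) = sp q (Op l φ) := by
  induction l with
  | nil => rfl
  | cons r l ih => rw [Op_cons, Op_cons, ih, sp_comm]

theorem Op_comm (l l' : List ℝ) (φ : ℤ → ℝ) : Op l (Op l' φ) = Op l' (Op l φ) := by
  induction l with
  | nil => rfl
  | cons r l ih => rw [Op_cons, Op_cons, ih, Op_sp]

theorem Op_add (l : List ℝ) (φ ψ : ℤ → ℝ) (y : ℤ) :
    Op l (fun z => φ z + ψ z) y = Op l φ y + Op l ψ y := by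
  induction l generalizing y with
  | nil => rfl
  | cons r l ih => simp only [Op_cons, sp, ih]; ring

theorem Op_mul (l : List ℝ) (c : ℝ) (φ : ℤ → ℝ) (y : ℤ) :
    Op l (fun z => c * φ z) y = c * Op l φ y := by
  induction l generalizing y with
  | nil => rfl
  | cons r l ih => simp only [Op_cons, sp, ih]; ring

theorem Op_sub (l : List ℝ) (φ ψ : ℤ → ℝ) (y : ℤ) :
    Op l (fun z => φ z - ψ z) y = Op l φ y - Op l ψ y := by
  induction l generalizing y with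
  | nil => rfl
  | cons r l ih => simp only [Op_cons, sp, ih]; ring

theorem Op_const (l : List ℝ) (c : ℝ) (y : ℤ) : Op l (fun _ => c) y = c := by
  induction l generalizing y with
  | nil => rfl
  | cons r l ih => simp only [Op_cons, sp, ih]; ring

theorem Op_sum {ι : Type} (l : List ℝ) (s : Finset ι) (φ : ι → ℤ → ℝ) (y : ℤ) :
    Op l (fun z => ∑ i ∈ s, φ i z) y = ∑ i ∈ s, Op l (φ i) y := by
  induction l generalizing y with
  | nil => rfl
  | cons r l ih => simp only [Op_cons, sp, ih, mul_sum, sum_add_distrib]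

theorem Op_shift (l : List ℝ) (φ : ℤ → ℝ) (c y : ℤ) :
    Op l (fun z => φ (z + c)) y = Op l φ (y + c) := by
  induction l generalizing y with
  | nil => rfl
  | cons r l ih =>
    simp only [Op_cons, sp, ih]
    rw [add_right_comm y 1 c, sub_add_eq_add_sub]

theorem Ins.zero {ε : ℝ} {l : List ℝ} (h : Ins ε l) (hε : 0 ≤ ε) : Ins 0 l := fun q hq =>
  ⟨hε.trans (h q hq).1, by linarith [(h q hq).2]⟩

theorem Ins.tail {ε q : ℝ} {l : List ℝ} (h : Ins ε (q :: l)) : Ins ε l := fun r hr =>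
  h r (List.mem_cons_of_mem _ hr)

theorem Ins.append {ε : ℝ} {l l' : List ℝ} (h : Ins ε l) (h' : Ins ε l') : Ins ε (l ++ l') :=
  fun q hq => (List.mem_append.1 hq).elim (h q) (h' q)

theorem Op_mono_loc {l : List ℝ} (h : Ins 0 l) {φ ψ : ℤ → ℝ} {y : ℤ}
    (hle : ∀ z, |z - y| ≤ l.length → φ z ≤ ψ z) : Op l φ y ≤ Op l ψ y := by
  induction l generalizing y with
  | nil => exact hle y (by simp)
  | cons r l ih =>
    have hr := h r List.mem_cons_self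
    have k : ∀ y', |y' - y| ≤ 1 → Op l φ y' ≤ Op l ψ y' := fun y' hy => ih h.tail fun z hz =>
      hle z (by
        rw [List.length_cons]; push_cast
        rw [abs_le] at *; constructor <;> omega)
    exact add_le_add (mul_le_mul_of_nonneg_left (k _ (by simp)) hr.1)
      (mul_le_mul_of_nonneg_left (k _ (by simp)) (by linarith [hr.2]))

theorem Op_mono {l : List ℝ} (h : Ins 0 l) {φ ψ : ℤ → ℝ} (hle : ∀ z, φ z ≤ ψ z) (y : ℤ) :
    Op l φ y ≤ Op l ψ y := Op_mono_loc h fun z _ => hle z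

theorem Op_congr_loc {l : List ℝ} (h : Ins 0 l) {φ ψ : ℤ → ℝ} {y : ℤ}
    (he : ∀ z, |z - y| ≤ l.length → φ z = ψ z) : Op l φ y = Op l ψ y :=
  le_antisymm (Op_mono_loc h fun z hz => (he z hz).le) (Op_mono_loc h fun z hz => (he z hz).ge)

theorem Op_abs_le {l : List ℝ} (h : Ins 0 l) {φ ψ : ℤ → ℝ} (hle : ∀ z, |φ z| ≤ ψ z) (y : ℤ) :
    |Op l φ y| ≤ Op l ψ y := by
  refine abs_le.2 ⟨?_, Op_mono h (fun z => (abs_le.1 (hle z)).2) y⟩
  have := Op_mono h (φ := fun z => (-1) * ψ z) (ψ := φ)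
    (fun z => by linarith [(abs_le.1 (hle z)).1]) y
  rw [Op_mul] at this
  linarith

theorem Op_abs {l : List ℝ} (h : Ins 0 l) {φ : ℤ → ℝ} {M : ℝ} (hle : ∀ z, |φ z| ≤ M) (y : ℤ) :
    |Op l φ y| ≤ M := (Op_abs_le h hle y).trans_eq (Op_const l M y)

theorem dr_nil : dr [] = 0 := rfl
theorem dr_cons (q : ℝ) (l : List ℝ) : dr (q :: l) = (2 * q - 1) + dr l := by simp [dr]
theorem dr_append (l l' : List ℝ) : dr (l ++ l') = dr l + dr l' := by simp [dr]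

theorem Op_sq {l : List ℝ} (h : Ins 0 l) (c : ℝ) (y : ℤ) :
    Op l (fun z => ((z : ℝ) - c) ^ 2) y ≤ ((y : ℝ) - c + dr l) ^ 2 + l.length := by
  induction l generalizing y with
  | nil => simp [Op_nil, dr_nil]
  | cons r l ih =>
    have hr := h r List.mem_cons_self
    have a := mul_le_mul_of_nonneg_left (ih h.tail (y + 1)) hr.1
    have b := mul_le_mul_of_nonneg_left (ih h.tail (y - 1)) (show 0 ≤ 1 - r by linarith [hr.2])
    rw [Op_cons, sp, dr_cons, List.length_cons]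
    push_cast at a b ⊢
    nlinarith [sq_nonneg (2 * r - 1)]

theorem Op_dist {l : List ℝ} (h : Ins 0 l) (y : ℤ) :
    Op l (fun z => |(z : ℝ) - y|) y ≤ |dr l| + √(l.length : ℝ) := by
  rcases l with _ | ⟨r, l⟩
  · simp [Op_nil, dr_nil]
  set L := r :: l with hL
  have h1 : (0 : ℝ) < L.length := by rw [hL, List.length_cons]; positivity
  have h2 : 0 < √(L.length : ℝ) := Real.sqrt_pos.2 h1
  set a : ℝ := |dr L| + √(L.length : ℝ) with ha
  have a0 : 0 < a := by positivity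
  have h3 := Op_mono h (φ := fun z => |(z : ℝ) - y|)
    (ψ := fun z => 1 / (2 * a) * ((z : ℝ) - y) ^ 2 + a / 2) (fun z => by
      rw [← sq_abs, ← sub_nonneg]
      have : 1 / (2 * a) * |(z : ℝ) - y| ^ 2 + a / 2 - |(z : ℝ) - y| =
          (|(z : ℝ) - y| - a) ^ 2 / (2 * a) := by field_simp; ring
      rw [this]; positivity) y
  rw [Op_add L _ (fun _ => a / 2), Op_mul, Op_const] at h3
  have h4 := Op_sq h (y : ℝ) y
  rw [sub_self, zero_add] at h4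
  have h5 : dr L ^ 2 + L.length ≤ a ^ 2 := by
    have := Real.sq_sqrt h1.le
    rw [← sq_abs]
    nlinarith [abs_nonneg (dr L)]
  have h6 : 1 / (2 * a) * Op L (fun z => ((z : ℝ) - y) ^ 2) y ≤ 1 / (2 * a) * a ^ 2 :=
    mul_le_mul_of_nonneg_left (h4.trans h5) (by positivity)
  have h7 : 1 / (2 * a) * a ^ 2 = a / 2 := by field_simp
  linarith

/-- A function with an affine modulus of continuity moves little. -/
theorem Op_dev {l : List ℝ} (h : Ins 0 l) {φ : ℤ → ℝ} {e L : ℝ} (hL : 0 ≤ L)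
    (hφ : ∀ z z' : ℤ, |φ z - φ z'| ≤ e + L * |(z : ℝ) - z'|) (y : ℤ) :
    |Op l φ y - φ y| ≤ e + L * (|dr l| + √(l.length : ℝ)) := by
  have h1 := Op_abs_le h (φ := fun z => φ z - φ y) (fun z => hφ z y) y
  rw [Op_sub l φ (fun _ => φ y), Op_const, Op_add l (fun _ => e), Op_const, Op_mul] at h1
  exact h1.trans (add_le_add le_rfl (mul_le_mul_of_nonneg_left (Op_dist h y) hL))

theorem seg_succ (w : ℕ → ℝ) (a n : ℕ) : seg w a (n + 1) = w a :: seg w (a + 1) n := rfl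

theorem seg_length (w : ℕ → ℝ) (a n : ℕ) : (seg w a n).length = n := by
  induction n generalizing a with
  | zero => rfl
  | succ n ih => rw [seg_succ, List.length_cons, ih]

theorem seg_add (w : ℕ → ℝ) (a m n : ℕ) : seg w a (m + n) = seg w a m ++ seg w (a + m) n := by
  induction m generalizing a with
  | zero => simp [seg]
  | succ m ih =>
    rw [add_right_comm m 1 n, seg_succ, seg_succ, ih, List.cons_append, add_right_comm a 1 m,
      add_assoc]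

theorem dr_seg (w : ℕ → ℝ) (a n : ℕ) : dr (seg w a n) = psum w (a + n) - psum w a := by
  induction n generalizing a with
  | zero => simp [seg, dr_nil]
  | succ n ih =>
    rw [seg_succ, dr_cons, ih, psum_succ w a, add_right_comm a 1 n, add_assoc]
    ring

theorem Ins_seg {w : ℕ → ℝ} {ε : ℝ} (h : ∀ i, ε ≤ w i ∧ w i ≤ 1 - ε) (a n : ℕ) :
    Ins ε (seg w a n) := by
  induction n generalizing a with
  | zero => intro q hq; simp [seg] at hq
  | succ n ih =>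
    intro q hq
    rcases List.mem_cons.1 hq with e | e
    · exact e ▸ h a
    · exact ih _ q e

theorem rep_succ (k : ℕ) (l : List ℝ) : rep (k + 1) l = l ++ rep k l := rfl

theorem rep_length (k : ℕ) (l : List ℝ) : (rep k l).length = k * l.length := by
  induction k with
  | zero => simp [rep]
  | succ k ih => rw [rep_succ, List.length_append, ih]; ring

theorem dr_rep (k : ℕ) (l : List ℝ) : dr (rep k l) = k * dr l := by
  induction k with
  | zero => simp [rep, dr_nil]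
  | succ k ih => rw [rep_succ, dr_append, ih]; push_cast; ring

theorem Ins_rep {ε : ℝ} {l : List ℝ} (h : Ins ε l) (k : ℕ) : Ins ε (rep k l) := by
  induction k with
  | zero => intro q hq; simp [rep] at hq
  | succ k ih => exact h.append ih

theorem Op_rep_append (k : ℕ) (l l' : List ℝ) (φ : ℤ → ℝ) :
    Op (rep k (l ++ l')) φ = Op (rep k l) (Op (rep k l') φ) := by
  induction k with
  | zero => rfl
  | succ k ih =>
    simp only [rep_succ, Op_append, ih]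
    rw [Op_comm l' (rep k l)]

theorem Qk_zero (p : ℕ → unitInterval) (b : ℕ) : Qk p b 0 = hh p := rfl

theorem Qk_succ (p : ℕ → unitInterval) (b k : ℕ) :
    Qk p b (k + 1) = Op (seg (cw p) 0 (2 * b)) (Qk p b k) := Op_append _ _ _

/-! ### Scales -/

theorem one_le_tt {γ : ℝ} (h : 0 ≤ γ) {x : ℕ} (hx : 1 ≤ x) : 1 ≤ tt γ x :=
  Real.one_le_rpow (by exact_mod_cast hx) h

theorem tt_nonneg (γ : ℝ) (x : ℕ) : 0 ≤ tt γ x := Real.rpow_nonneg (Nat.cast_nonneg x) γ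

theorem tt_pow (γ : ℝ) (x k : ℕ) : tt γ x ^ k = tt (γ * k) x :=
  (Real.rpow_mul_natCast (Nat.cast_nonneg x) γ k).symm

theorem tt_mono {γ : ℝ} (h : 0 ≤ γ) {x y : ℕ} (hxy : x ≤ y) : tt γ x ≤ tt γ y :=
  Real.rpow_le_rpow (Nat.cast_nonneg x) (by exact_mod_cast hxy) h

theorem tt_top {γ : ℝ} (h : 0 < γ) : Tendsto (tt γ) atTop atTop :=
  (tendsto_rpow_atTop h).comp tendsto_natCast_atTop_atTop

theorem tt_32 {γ : ℝ} (h : γ ≤ 1 / 64) {x : ℕ} (hx : 1 ≤ x) : tt γ x ^ 32 ≤ √(x : ℝ) := by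
  rw [tt_pow, Real.sqrt_eq_rpow]
  exact Real.rpow_le_rpow_of_exponent_le (by exact_mod_cast hx) (by push_cast; linarith)

theorem one_le_sqrt' {x : ℕ} (hx : 1 ≤ x) : 1 ≤ √(x : ℝ) :=
  Real.one_le_sqrt.2 (by exact_mod_cast hx)

theorem sqrt_sq' (x : ℕ) : √(x : ℝ) ^ 2 = x := Real.sq_sqrt (Nat.cast_nonneg x)

/-- Powers with exponent in `[0, 1]` vary slowly. -/
theorem tt_sub {a : ℝ} (h0 : 0 ≤ a) (h1 : a ≤ 1) {x : ℕ} (hx : 1 ≤ x) (y : ℕ) :
    |tt a y - tt a x| ≤ tt a x * |(y : ℝ) - x| / x := by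
  have x0 : (0 : ℝ) < x := by exact_mod_cast hx
  have t0 : 0 < tt a x := Real.rpow_pos_of_pos x0 a
  have r0 : (0 : ℝ) ≤ (y : ℝ) / x := by positivity
  have e1 : tt a y = tt a x * ((y : ℝ) / x) ^ a := by
    rw [Real.div_rpow (Nat.cast_nonneg y) x0.le]
    show tt a y = tt a x * (tt a y / tt a x)
    field_simp
  have e2 : |(y : ℝ) - x| / x = |(y : ℝ) / x - 1| := by
    rw [show (y : ℝ) / x - 1 = ((y : ℝ) - x) / x by field_simp, abs_div, abs_of_pos x0]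
  rw [e1, mul_div_assoc, e2, ← mul_sub_one, abs_mul, abs_of_pos t0]
  refine mul_le_mul_of_nonneg_left ?_ t0.le
  generalize (y : ℝ) / x = r at r0
  rcases le_total 1 r with h | h
  · have a1 := Real.one_le_rpow h h0
    have a2 := Real.rpow_le_rpow_of_exponent_le h h1
    rw [Real.rpow_one] at a2
    rw [abs_of_nonneg (by linarith), abs_of_nonneg (by linarith)]
    linarith
  · have a1 := Real.rpow_le_one r0 h h0
    have a2 := Real.rpow_le_rpow_of_exponent_ge' r0 h h0 h1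
    rw [Real.rpow_one] at a2
    rw [abs_of_nonpos (by linarith), abs_of_nonpos (by linarith)]
    linarith

theorem uu_nonneg (x y : ℕ) : 0 ≤ uu x y := by unfold uu; positivity

theorem uu_mul {x : ℕ} (hx : 1 ≤ x) (y : ℕ) : uu x y * √(x : ℝ) = |(y : ℝ) - x| :=
  div_mul_cancel₀ _ (by linarith [one_le_sqrt' hx])

/-- Polynomials are below the exponential weight. -/
theorem poly_exp (k : ℕ) : ∃ C : ℝ, 1 ≤ C ∧ ∀ u : ℝ, 0 ≤ u → (1 + u) ^ k ≤ C * Real.exp (u / 32) := by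
  refine ⟨(k.factorial : ℝ) * 32 ^ k * Real.exp (1 / 32), ?_, fun u hu => ?_⟩
  · have a : (1 : ℝ) ≤ k.factorial := by exact_mod_cast k.factorial_pos
    have b : (1 : ℝ) ≤ 32 ^ k := one_le_pow₀ (by norm_num)
    have c : (1 : ℝ) ≤ Real.exp (1 / 32) := Real.one_le_exp (by norm_num)
    exact one_le_mul_of_one_le_of_one_le (one_le_mul_of_one_le_of_one_le a b) c
  · have h := Real.pow_div_factorial_le_exp ((1 + u) / 32) (by positivity) k
    rw [div_le_iff₀ (by positivity), div_pow, div_le_iff₀ (by positivity), add_div,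
      Real.exp_add] at h
    exact h.trans_eq (by ring)

theorem Wn_succ (w : ℕ → ℝ) (n : ℕ) : Wn w (n + 1) = Wn w n + 4 * (w n * (1 - w n)) :=
  sum_range_succ _ _

theorem Wn_le {p : ℕ → unitInterval} {ε : ℝ} (h : UE p ε) {m n : ℕ} (hmn : m ≤ n) :
    2 * ε * ((n : ℝ) - m) ≤ Wn (cw p) n - Wn (cw p) m ∧
      Wn (cw p) n - Wn (cw p) m ≤ (n : ℝ) - m := by
  induction n, hmn using Nat.le_induction with
  | base => simp
  | succ n _ ih =>
    have e := h.2 n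
    have e2 : 0 ≤ (cw p n - ε) * (1 - ε - cw p n) :=
      mul_nonneg (by linarith [e.1]) (by linarith [e.2])
    have e3 : 0 ≤ ε * (1 / 2 - ε) := mul_nonneg h.1.le (by linarith [e.1, e.2])
    rw [Wn_succ]
    push_cast
    constructor <;> nlinarith [sq_nonneg (2 * cw p n - 1), ih.1, ih.2]

theorem Wn_zero (w : ℕ → ℝ) : Wn w 0 = 0 := rfl

theorem Wn_bd {p : ℕ → unitInterval} {ε : ℝ} (h : UE p ε) (n : ℕ) :
    2 * ε * n ≤ Wn (cw p) n ∧ Wn (cw p) n ≤ n := by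
  simpa [Wn_zero] using Wn_le h (Nat.zero_le n)

theorem Wn_abs {p : ℕ → unitInterval} {ε : ℝ} (h : UE p ε) (m n : ℕ) :
    |Wn (cw p) n - Wn (cw p) m| ≤ |(n : ℝ) - m| := by
  have k : ∀ m n : ℕ, m ≤ n → |Wn (cw p) n - Wn (cw p) m| ≤ |(n : ℝ) - m| := fun m n hmn => by
    have a := Wn_le h hmn
    have b : (0 : ℝ) ≤ (n : ℝ) - m := sub_nonneg.2 (by exact_mod_cast hmn)
    have c := mul_nonneg h.1.le b
    rw [abs_of_nonneg b, abs_of_nonneg (by linarith [a.1])]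
    exact a.2
  rcases le_total m n with e | e
  · exact k m n e
  · rw [abs_sub_comm, abs_sub_comm (n : ℝ)]; exact k n m e

theorem cw_mem (p : ℕ → unitInterval) (i : ℕ) : cw p i ∈ Set.Icc (0 : ℝ) 1 := (p i).2

theorem psum_abs (p : ℕ → unitInterval) (n : ℕ) : |psum (cw p) n| ≤ n := by
  refine (abs_psum_le _ n).trans ?_
  have := sum_le_card_nsmul (range n) (fun i => |2 * cw p i - 1|) 1 fun i _ =>
    abs_le.2 ⟨by linarith [(cw_mem p i).1], by linarith [(cw_mem p i).2]⟩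
  simpa using this

/-- The drift sums in a window of bounded ratio. -/
theorem St.dabs {p : ℕ → unitInterval} {ε γ CD : ℝ} {J : ℕ} (h : St p ε γ CD J) {x : ℕ}
    (hx : 1 ≤ x) (n : ℕ) :
    |psum (cw p) n| ≤ CD * √(x : ℝ) / tt γ x ^ 16 * (2 + ((n : ℝ) + 1) / x) := by
  have x0 : (0 : ℝ) < x := by exact_mod_cast hx
  have t1 := one_le_tt h.g0.le hx
  have c1 := h.C1
  refine abs_le_of_sq_le_sq' ?_ (by positivity) |> abs_le.2
  refine (h.hD x n hx).trans ?_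
  have r0 : 0 ≤ ((n : ℝ) + 1) / x := by positivity
  have e : (x : ℝ) + n + 1 = x * (1 + ((n : ℝ) + 1) / x) := by field_simp; ring
  rw [e, mul_pow, div_pow, mul_pow, sqrt_sq', ← pow_mul, ← mul_assoc, mul_div_right_comm]
  exact mul_le_mul_of_nonneg_left (by nlinarith) (by positivity)

/-! ### Martingales up to a horizon -/

theorem Ex_rec {w : ℕ → ℝ} (hw : ∀ i, w i ∈ Set.Icc (0 : ℝ) 1) (y n : ℕ) (V : ℕ → ℕ → ℝ) :
    Ex w y (n + 1) V = Ex w y n (fun a b => w n * (if b < y then V (a + 1) b else V a b) +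
      (1 - w n) * (if b < y then V a (b + 1) else V a b)) := by
  set V1 : ℕ → ℕ → ℝ := fun a b => if b < y then V (a + 1) b else V a b with hV1
  set V0 : ℕ → ℕ → ℝ := fun a b => if b < y then V a (b + 1) else V a b with hV0
  have dep : ∀ (U : ℕ → ℕ → ℝ) (e e' : ℕ → Bool), (∀ i, i < n → e i = e' i) →
      U (Rr e (tau e y n)) (Ll e (tau e y n)) = U (Rr e' (tau e' y n)) (Ll e' (tau e' y n)) := by
    intro U e e' hh
    have := tau_le e' y n
    rw [tau_congr y hh, Rr_congr fun i hi => hh i (by omega), Ll_congr fun i hi => hh i (by omega)]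
  have key : ∀ e : ℕ → Bool, V (Rr e (tau e y (n + 1))) (Ll e (tau e y (n + 1))) =
      V1 (Rr e (tau e y n)) (Ll e (tau e y n)) * (if e n = true then 1 else 0) +
      V0 (Rr e (tau e y n)) (Ll e (tau e y n)) * (if e n = false then 1 else 0) := by
    intro e
    rw [tau_succ]
    by_cases hl : Ll e n < y
    · rw [if_pos hl, tau_of_lt hl, Rr_succ, Ll_succ]
      cases e n <;> simp [hV1, hV0, hl]
    · have h1 : ¬ Ll e (tau e y n) < y := by
        rcases tau_cases e y n with h1 | h1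
        · omega
        · exact absurd h1.2 hl
      rw [if_neg hl]
      cases e n <;> simp [hV1, hV0, h1]
  have ib : ∀ (U : ℕ → ℕ → ℝ) (b : Bool), Integrable (fun u =>
      U (Rr (arr w u) (tau (arr w u) y n)) (Ll (arr w u) (tau (arr w u) y n)) *
        (if arr w u n = b then (1 : ℝ) else 0)) (lamU ℕ) := by
    intro U b
    refine (intg w y n U).mul_bdd (c := 1) ?_ (ae_of_all _ fun u => ?_)
    · exact ((Measurable.of_discrete (f := fun c : Bool => if c = b then (1 : ℝ) else 0)).comp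
        ((measurable_pi_apply n).comp (meas_arr w))).aestronglyMeasurable
    · split_ifs <;> simp
  have e1 : Ex w y (n + 1) V = Ex w y n (fun a b => w n * V1 a b + (1 - w n) * V0 a b) := by
    rw [Ex_add, Ex_mul, Ex_mul]
    unfold Ex
    simp only [key]
    rw [integral_add (ib V1 true) (ib V0 false), integral_step hw (dep V1), integral_step hw (dep V0),
      pr_true, pr_false]
    ring
  exact e1

theorem Ex_congr (w : ℕ → ℝ) (y n : ℕ) {V V' : ℕ → ℕ → ℝ}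
    (h : ∀ a b, Reach y n a b → V a b = V' a b) : Ex w y n V = Ex w y n V' :=
  le_antisymm (Ex_mono w y n fun a b hr => (h a b hr).le) (Ex_mono w y n fun a b hr => (h a b hr).ge)

/-- A function of the state that is a martingale up to time `n`. -/
theorem Ex_dyn {w : ℕ → ℝ} (hw : ∀ i, w i ∈ Set.Icc (0 : ℝ) 1) (y n : ℕ) {V : ℕ → ℕ → ℝ}
    (h : ∀ a b, b < y → a + b < n →
      w (a + b) * V (a + 1) b + (1 - w (a + b)) * V a (b + 1) = V a b) :
    Ex w y n V = V 0 0 := by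
  induction n with
  | zero => exact Ex_zero w y V
  | succ n ih =>
    rw [Ex_rec hw, ← ih fun a b hb hn => h a b hb (by omega)]
    refine Ex_congr w y n fun a b hr => ?_
    by_cases hb : b < y
    · have e := hr.2.2 hb
      have := h a b hb (by omega)
      rw [e] at this
      simpa only [if_pos hb] using this
    · simp only [if_neg hb]
      ring

end

section

open MeasureTheory ProbabilityTheory Filter Topology Finset
open scoped ENNReal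
open Pool.Agent.P.MP_c7fa75_pr.T Pool.Agent.P.MP_c7fa75_pr.R2 Pool.Agent.P.MP_758450_pr.IT

def S_SM : Prop :=
  ∀ ε : ℝ, 0 < ε → ε ≤ 1 / 4 → ∀ l : List ℝ, Ins ε l → ∀ (φ : ℤ → ℝ) (M : ℝ), (∀ z, |φ z| ≤ M) →
    ∀ y, |Op l φ (y + 2) - Op l φ y| ≤ 2 * M / √(ε * l.length + 1)

def S_SMJ : Prop :=
  ∀ ε : ℝ, 0 < ε → ε ≤ 1 / 4 → ∀ (j m : ℕ) (l : List ℝ), Ins ε l → j * m ≤ l.length →
    ∀ (φ : ℤ → ℝ) (M : ℝ), (∀ z, |φ z| ≤ M) →
    ∀ y, |(D2^[j] (Op l φ)) y| ≤ M * (2 / √(ε * m + 1)) ^ j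

def S_MOD : Prop :=
  ∀ (f : ℤ → ℝ) (H j : ℕ) (a b : ℤ) (Mj M0 : ℝ), 1 ≤ H → (∀ y, |(D1^[j] f) y| ≤ Mj) →
    (∀ y, a ≤ y → y ≤ b + j * H → |f y| ≤ M0) → ∀ y y', a ≤ y → y ≤ b → a ≤ y' → y' ≤ b →
    |f y - f y'| ≤ 2 * (H : ℝ) ^ j * Mj + 2 ^ (j + 1) * M0 / H * |(y : ℝ) - y'|

def S_EXP : Prop :=
  ∀ (p : ℕ → unitInterval) (ε γ CD : ℝ) (J : ℕ), St p ε γ CD J →
    ∃ C : ℝ, 1 ≤ C ∧ ∀ x : ℕ, 1 ≤ x → ∀ (φ : ℕ → ℝ) (c : ℝ),
      (∀ y, |φ y| ≤ c * Real.exp (uu x y / 8)) →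
      Integrable (fun B => φ (U x B)) (trials p) ∧ |EU p x φ| ≤ c * C

def S_VAR : Prop :=
  ∀ (p : ℕ → unitInterval) (ε γ CD : ℝ) (J : ℕ), St p ε γ CD J →
    ∃ C : ℝ, ∀ x : ℕ, 1 ≤ x →
      |EU p x (fun y => ((y : ℝ) - x) ^ 2) - Wn (cw p) (2 * x)| ≤ C * x / tt γ x ^ 16

def S_HH : Prop :=
  (∀ (p : ℕ → unitInterval) (ε : ℝ), UE p ε → ∀ x : ℕ, 1 ≤ x →
    Tendsto (fun n => Hh (cw p) n 0 (2 * (x : ℤ))) atTop (𝓝 (rho p 1 x))) ∧
  (∀ (w : ℕ → ℝ) (k m t : ℕ) (z : ℤ), (t : ℤ) + 2 * m ≤ z →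
    Hh w (k + m) t z = Op (seg w t m) (Hh w k (t + m)) z) ∧
  ∀ (p : ℕ → unitInterval) (ε α β : ℝ), UE p ε → 0 ≤ β → (∀ n : ℕ, |psum (cw p) n| ≤ α + β * n) →
    ∀ (k t : ℕ) (z : ℤ), |Hh (cw p) k t z| ≤ α + β * (t + max ((z : ℝ) - t) 0 / ε)

def S_RMOD : Prop :=
  ∀ (p : ℕ → unitInterval) (ε γ CD : ℝ) (J : ℕ), St p ε γ CD J →
    ∀ M0 : ℝ, (∀ x, |rho p 1 x| ≤ M0) →
    ∃ C : ℝ, 0 ≤ C ∧ ∀ᶠ x : ℕ in atTop, ∀ y y' : ℕ, Win x y → Win x y' →
      |rho p 1 y - rho p 1 y'| ≤ C / tt γ x + C * tt γ x ^ 8 / √(x : ℝ) * |(y : ℝ) - y'|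

def S_SUMR : Prop :=
  ∀ (p : ℕ → unitInterval) (ε γ CD : ℝ) (J : ℕ), St p ε γ CD J →
    ∀ M0 : ℝ, (∀ x, |rho p 1 x| ≤ M0) →
    ∃ C : ℝ, ∀ m : ℕ, 1 ≤ m →
      |2 * ∑ j ∈ range m, rho p 1 j - ∑ i ∈ range (2 * m), hr (cw p) i| ≤ C * m / tt γ m

def S_COUP : Prop :=
  ∀ (p : ℕ → unitInterval) (ε γ CD : ℝ) (J : ℕ), St p ε γ CD J →
    ∃ C : ℝ, 0 ≤ C ∧ ∀ᶠ x : ℕ in atTop, ∀ (φ : ℤ → ℝ) (M e L : ℝ), 0 ≤ e → 0 ≤ L →
      (∀ z, |φ z| ≤ M) → (∀ z z' : ℤ, |φ z - φ z'| ≤ e + L * |(z : ℝ) - z'|) →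
      |EU p x (fun y => φ y) - Op (seg (cw p) 0 (2 * x)) φ x| ≤
        C * (e + L * √(x : ℝ) / tt γ x ^ 15 + M / tt γ x ^ 4)

def S_LQ : Prop :=
  ∀ (p : ℕ → unitInterval) (ε γ CD : ℝ) (J : ℕ), St p ε γ CD J →
    ∀ M0 : ℝ, (∀ x, |rho p 1 x| ≤ M0) → ∀ b k : ℕ, (∀ z, |Qk p b k z| ≤ M0) ∧
      ∀ z z' : ℤ, |Qk p b k z - Qk p b k z'| ≤ M0 / √(ε * (2 * b * k) + 1) * |(z : ℝ) - z'|

def S_BD : Prop :=
  ∀ (p : ℕ → unitInterval) (ε γ CD : ℝ) (J : ℕ), St p ε γ CD J →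
    ∀ M0 : ℝ, (∀ x, |rho p 1 x| ≤ M0) →
    ∃ C : ℝ, 0 ≤ C ∧ ∀ x : ℕ, 1 ≤ x → ∀ y y' : ℕ, Win x y → Win x y' →
      ∀ k : ℕ, (k : ℝ) ≤ 4 * tt γ x ^ 2 → ∀ z,
      |Qk p y k z - Qk p y' k z| ≤ C * (1 / tt γ x ^ 15 + √|(y : ℝ) - y'| / √(x : ℝ))

def S_CHI : Prop :=
  ∀ (p : ℕ → unitInterval) (ε γ CD : ℝ) (J : ℕ), St p ε γ CD J →
    ∀ M0 : ℝ, (∀ x, |rho p 1 x| ≤ M0) →
    (∀ (b : ℕ) (z : ℤ), |chi p γ b z| ≤ M0 * (tt γ b ^ 2 + 1) ∧ |rh p γ b z| ≤ M0) ∧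
    ∃ C : ℝ, 0 ≤ C ∧ ∀ x : ℕ, 1 ≤ x → ∀ y : ℕ, Win x y → ∀ z,
      |chi p γ y z - chi p γ x z| ≤ C * (1 + uu x y) / tt γ x ∧
      |rh p γ y z - rh p γ x z| ≤
        C * (1 / tt γ x ^ 15 + tt γ x ^ 2 * |(y : ℝ) - x| / x + √|(y : ℝ) - x| / √(x : ℝ))

def S_LIP : Prop :=
  ∀ (p : ℕ → unitInterval) (ε γ CD : ℝ) (J : ℕ), St p ε γ CD J →
    ∀ M0 : ℝ, (∀ x, |rho p 1 x| ≤ M0) →
    ∃ C : ℝ, 0 ≤ C ∧ ∀ x : ℕ, 1 ≤ x →
      (∀ z z' : ℤ, |rh p γ x z - rh p γ x z'| ≤ C / (√(x : ℝ) * tt γ x) * |(z : ℝ) - z'|) ∧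
      (∀ z z' : ℤ, |(chi p γ x z - hh p z) - (chi p γ x z' - hh p z')| ≤
        C * tt γ x / √(x : ℝ) * |(z : ℝ) - z'|) ∧
      ∀ z : ℤ, Op (seg (cw p) 0 (2 * x)) (chi p γ x) z - chi p γ x z = - hh p z + rh p γ x z

def S_POI : Prop :=
  ∀ (p : ℕ → unitInterval) (ε γ CD : ℝ) (J : ℕ), St p ε γ CD J →
    ∀ M0 : ℝ, (∀ x, |rho p 1 x| ≤ M0) →
    ∃ C : ℝ, ∀ᶠ x : ℕ in atTop,
      |EU p x (fun y => chi p γ x y) - chi p γ x x + rho p 1 x - rb p γ x| ≤ C / tt γ x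

def S_BLK : Prop :=
  ∀ (p : ℕ → unitInterval) (ε γ CD : ℝ) (J : ℕ), St p ε γ CD J →
    ∀ M0 : ℝ, (∀ x, |rho p 1 x| ≤ M0) →
    ∃ C : ℝ, ∀ᶠ x : ℕ in atTop,
      |∑ i ∈ range ⌈√(x : ℝ) * tt γ x ^ 3⌉₊, (rb p γ (x + i) - rho p 1 (x + i))| ≤
        C * (⌈√(x : ℝ) * tt γ x ^ 3⌉₊ : ℝ) / tt γ x

def S_GB : Prop :=
  ∀ (γ : ℝ), 0 < γ → γ ≤ 1 / 64 → ∀ (φ : ℕ → ℝ) (A C : ℝ) (L : ℕ → ℕ), (∀ j, |φ j| ≤ A) →
    (∀ᶠ x : ℕ in atTop, 1 ≤ L x ∧ (L x : ℝ) ≤ x / tt γ x ∧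
      |∑ i ∈ range (L x), φ (x + i)| ≤ C * (L x : ℝ) / tt γ x) →
    ∃ C' : ℝ, ∀ m : ℕ, 1 ≤ m → |∑ j ∈ range m, φ j| ≤ C' * m / tt γ m

def S_LAM : Prop :=
  ∀ (p : ℕ → unitInterval) (ε γ CD : ℝ) (J : ℕ), St p ε γ CD J →
    ∀ M0 : ℝ, (∀ x, |rho p 1 x| ≤ M0) → ∀ s : ℝ, |s| ≤ 1 →
    ∃ C1 C2 : ℝ, (∀ j : ℕ, |lam p γ s j| ≤ C1 / ((j : ℝ) + 1)) ∧
      ∀ x : ℕ, 1 ≤ x → ∀ j, Win x j →
        |lam p γ s j - lam p γ s x| ≤ C2 * (1 + uu x j) / (x * tt γ x)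

def S_T0 : Prop :=
  ∀ (γ : ℝ), 0 < γ → γ ≤ 1 / 64 → ∀ (la : ℕ → ℝ) (C1 : ℝ), (∀ j : ℕ, |la j| ≤ C1 / ((j : ℝ) + 1)) →
    ∀ x : ℕ, 1 ≤ x → ∀ y : ℕ,
      |∑ j ∈ range y, la j - ∑ j ∈ range x, la j| ≤ 10 * C1 * uu x y / tt γ x ^ 16 ∧
      (x ≤ 2 * y → |∑ j ∈ range y, la j - ∑ j ∈ range x, la j| ≤ 2 * C1 * uu x y / √(x : ℝ))

def S_T1 : Prop :=
  ∀ (γ : ℝ), 0 < γ → γ ≤ 1 / 64 → ∀ (la : ℕ → ℝ) (C1 : ℝ), (∀ j : ℕ, |la j| ≤ C1 / ((j : ℝ) + 1)) →
    ∃ C : ℝ, 0 ≤ C ∧ ∀ᶠ x : ℕ in atTop,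
      (∀ y, |gl la y - gl la x| ≤ C * gl la x * Real.exp (uu x y / 16) / tt γ x ^ 16) ∧
      √(x : ℝ) * gl la x / 4 ≤ fl la x ∧
      √(x : ℝ) * gl la x / 4 ≤ fl la (x + ⌊√(x : ℝ)⌋₊) - fl la x

def S_T2 : Prop :=
  ∀ (γ : ℝ), 0 < γ → γ ≤ 1 / 64 → ∀ (la : ℕ → ℝ) (C1 C2 : ℝ),
    (∀ j : ℕ, |la j| ≤ C1 / ((j : ℝ) + 1)) →
    (∀ x : ℕ, 1 ≤ x → ∀ j, Win x j → |la j - la x| ≤ C2 * (1 + uu x j) / (x * tt γ x)) →
    ∃ C : ℝ, 0 ≤ C ∧ ∀ᶠ x : ℕ in atTop, ∀ y : ℕ,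
      |fl la y - fl la x - gl la x * (((y : ℝ) - x) - la x * ((y : ℝ) - x) ^ 2 / 2)| ≤
        C * gl la x * Real.exp (uu x y / 8) / tt γ x

def S_DRIFT : Prop :=
  ∀ (p : ℕ → unitInterval) (ε γ CD : ℝ) (J : ℕ), St p ε γ CD J →
    ∀ M0 : ℝ, (∀ x, |rho p 1 x| ≤ M0) → ∀ s : ℝ, |s| ≤ 1 → ∀ y0 : ℕ,
    ∃ C : ℝ, ∀ᶠ x : ℕ in atTop, Integrable (fun B => FF p γ s y0 (U x B)) (trials p) ∧
      |EU p x (FF p γ s y0) - FF p γ s y0 x - gl (lam p γ s) x * (s * sl γ x)| ≤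
        C * gl (lam p γ s) x / tt γ x

def S_LYA : Prop :=
  ∀ (p : ℕ → unitInterval) (ε γ CD : ℝ) (J : ℕ), St p ε γ CD J →
    ∀ M0 : ℝ, (∀ x, |rho p 1 x| ≤ M0) →
    (Summable (gl (lam p γ 1)) →
      ∃ (f : ℕ → ℝ≥0∞) (z0 : ℕ), 1 ≤ z0 ∧ (∀ z, z < z0 → 1 ≤ f z) ∧ Tendsto f atTop (𝓝 0) ∧
        ∀ z, z0 ≤ z → ∫⁻ B, f (U z B) ∂trials p ≤ f z) ∧
    (¬ Summable (gl (lam p γ (-1))) →
      ∃ (f : ℕ → ℝ≥0∞) (z0 : ℕ), (∀ z, f z < ⊤) ∧ Tendsto f atTop (𝓝 ⊤) ∧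
        ∀ z, z0 ≤ z → ∫⁻ B, f (U z B) ∂trials p ≤ f z)

def S_ABEL : Prop :=
  ∀ (γ : ℝ), 0 < γ → γ ≤ 1 / 64 → ∀ (a v : ℕ → ℝ) (C : ℝ),
    (∀ m : ℕ, 1 ≤ m → |∑ j ∈ range m, a j| ≤ C * m / tt γ m) →
    (∀ j : ℕ, |v j| ≤ C / ((j : ℝ) + 1)) → (∀ j : ℕ, |v (j + 1) - v j| ≤ C / ((j : ℝ) + 1) ^ 2) →
    ∃ C' : ℝ, ∀ n : ℕ, |∑ j ∈ range n, a j * v j| ≤ C'

def S_EXPO : Prop :=
  ∀ (p : ℕ → unitInterval) (ε γ CD : ℝ) (J : ℕ), St p ε γ CD J →
    ∀ M0 : ℝ, (∀ x, |rho p 1 x| ≤ M0) → ∀ s : ℝ, |s| ≤ 1 →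
    ∃ C : ℝ, ∀ n : ℕ,
      |∑ j ∈ range n, lam p γ s j - ∑ i ∈ range (2 * n), hr (cw p) i / Wn (cw p) (i + 1)| ≤ C

def S_SER : Prop :=
  ∀ (p : ℕ → unitInterval) (ε γ CD : ℝ) (J : ℕ), St p ε γ CD J →
    ∀ M0 : ℝ, (∀ x, |rho p 1 x| ≤ M0) → ∀ s : ℝ, |s| ≤ 1 →
    (Summable (gl (lam p γ s)) ↔ Summable (ex (cw p)))

def S_SET : Prop :=
  ∀ (p : ℕ → unitInterval) (ε0 β Θ : ℝ), UE p ε0 → β < 1 / 2 →
    (psum (cw p) =O[atTop] fun n : ℕ => (n : ℝ) ^ β) → (∀ x, |theta p 1 x| ≤ Θ) →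
    ∃ (ε γ CD M0 : ℝ) (J : ℕ), St p ε γ CD J ∧ ∀ x, |rho p 1 x| ≤ M0

end

section

open MeasureTheory ProbabilityTheory Filter Topology Finset
open scoped ENNReal
open Pool.Agent.P.MP_c7fa75_pr.T Pool.Agent.P.MP_c7fa75_pr.R2 Pool.Agent.P.MP_758450_pr.IT

namespace SMx

theorem stein (n : ℕ) (φ : ℤ → ℝ) (c : ℝ) (y : ℤ) :
    Op (List.replicate (n + 1) (1 / 2)) (fun z => ((z : ℝ) - c) * φ z) y =
      (y - c) * Op (List.replicate (n + 1) (1 / 2)) φ y + (n + 1) / 2 *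
        (Op (List.replicate n (1 / 2)) φ (y + 1) - Op (List.replicate n (1 / 2)) φ (y - 1)) := by
  induction n generalizing y with
  | zero =>
    simp only [List.replicate, Op, sp]
    push_cast
    ring
  | succ n ih =>
    rw [List.replicate_succ, Op_cons, sp, ih, ih]
    simp only [List.replicate_succ, Op_cons, sp, add_sub_cancel_right, sub_add_cancel]
    push_cast
    ring

theorem ins (n : ℕ) : Ins 0 (List.replicate n (1 / 2)) := fun q h => by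
  rw [List.eq_of_mem_replicate h]
  norm_num

theorem half (n : ℕ) {φ : ℤ → ℝ} {M : ℝ} (h : ∀ z, |φ z| ≤ M) (y : ℤ) :
    |Op (List.replicate n (1 / 2)) φ (y + 2) - Op (List.replicate n (1 / 2)) φ y| ≤
      2 * M / √(n + 1) := by
  have M0 : 0 ≤ M := (abs_nonneg _).trans (h 0)
  have a := Op_abs_le (ins (n + 1)) (φ := fun z => ((z : ℝ) - (y + 1 : ℤ)) * φ z)
    (ψ := fun z => M * |(z : ℝ) - (y + 1 : ℤ)|) (fun z => by
      rw [abs_mul, mul_comm]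
      exact mul_le_mul_of_nonneg_right (h z) (abs_nonneg _)) (y + 1)
  have b := Op_dist (ins (n + 1)) (y + 1)
  have d : dr (List.replicate (n + 1) (1 / 2)) = 0 := by simp [dr]
  rw [d, abs_zero, zero_add, List.length_replicate, Nat.cast_succ] at b
  rw [stein, sub_self, zero_mul, zero_add, Op_mul, add_assoc, one_add_one_eq_two,
    add_sub_cancel_right, abs_mul, abs_of_nonneg (by positivity)] at a
  have s0 : 0 < √((n : ℝ) + 1) := by positivity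
  have s1 : √((n : ℝ) + 1) * √((n : ℝ) + 1) = n + 1 := Real.mul_self_sqrt (by positivity)
  rw [le_div_iff₀ s0]
  refine le_of_mul_le_mul_right ?_ s0
  rw [mul_assoc, s1]
  nlinarith [mul_le_mul_of_nonneg_left b M0]

theorem num {ε r : ℝ} (h0 : 0 < ε) (h1 : ε ≤ 1 / 4) (hr : 1 ≤ r) :
    2 * ε / √(r + 1) + (1 - 2 * ε) / √r ≤ 1 / √(r + ε) := by
  have a0 : 0 < √r := by positivity
  have b0 : 0 < √(r + 1) := by positivity
  have c0 : 0 < √(r + ε) := by positivity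
  have a1 : √r ^ 2 = r := Real.sq_sqrt (by positivity)
  have b1 : √(r + 1) ^ 2 = r + 1 := Real.sq_sqrt (by positivity)
  have c1 : √(r + ε) ^ 2 = r + ε := Real.sq_sqrt (by positivity)
  have ac : √r ≤ √(r + ε) := Real.sqrt_le_sqrt (by linarith)
  have ab : √r ≤ √(r + 1) := Real.sqrt_le_sqrt (by linarith)
  generalize √r = a at *
  generalize √(r + 1) = b at *
  generalize √(r + ε) = c at *
  have e1 : 1 / a - 1 / c = ε / (a * (c * (a + c))) := by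
    field_simp
    nlinarith
  have e2 : 1 / a - 1 / b = 1 / (a * (b * (a + b))) := by
    field_simp
    nlinarith
  have e3 : ε / (a * (c * (a + c))) ≤ 2 * ε * (1 / (a * (b * (a + b)))) := by
    rw [mul_one_div, div_le_div_iff₀ (by positivity) (by positivity)]
    have : b * (a + b) ≤ 2 * (c * (a + c)) := by nlinarith
    nlinarith [mul_le_mul_of_nonneg_left this (mul_pos h0 a0).le]
  have e4 : 2 * ε / b + (1 - 2 * ε) / a = 1 / a - 2 * ε * (1 / a - 1 / b) := by ring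
  rw [e4, e2]
  linarith

end SMx

open SMx in
theorem p_SM :
    S_SM := by
  intro ε h0 h1 l hl φ M h y
  suffices k : ∀ n : ℕ, |Op (List.replicate n (1 / 2)) (Op l φ) (y + 2) -
      Op (List.replicate n (1 / 2)) (Op l φ) y| ≤ 2 * M / √(ε * l.length + 1 + n) by
    simpa [Op_nil] using k 0
  have M0 : 0 ≤ M := (abs_nonneg _).trans (h 0)
  induction l generalizing φ with
  | nil => exact fun n => by simpa [Op_nil, add_comm] using half n h y
  | cons q l ih =>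
    intro n
    have hq := hl q List.mem_cons_self
    have e0 : 0 < 1 - 2 * ε := by linarith
    set r := (q - ε) / (1 - 2 * ε) with hr
    have i : Ins 0 [r] := fun x e => by
      rw [List.mem_singleton.1 e]
      exact ⟨div_nonneg (by linarith [hq.1]) e0.le, by rw [sub_zero, div_le_one e0]; linarith [hq.2]⟩
    have e : Op (q :: l) φ =
        fun z => 2 * ε * sp (1 / 2) (Op l φ) z + (1 - 2 * ε) * Op l (sp r φ) z := by
      funext z
      rw [Op_sp, Op_cons, sp, sp, sp, hr]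
      field_simp
      ring
    have a := ih hl.tail φ h (n + 1)
    have b := ih hl.tail (sp r φ) (fun z => Op_abs i h z) n
    have c := mul_le_mul_of_nonneg_left (num h0 h1 (r := ε * l.length + 1 + n)
      (by have : 0 ≤ ε * l.length + n := by positivity
          linarith)) (mul_nonneg zero_le_two M0)
    rw [List.replicate_succ, Op_cons, ← Op_sp, Nat.cast_succ, ← add_assoc] at a
    rw [e, Op_add, Op_add, Op_mul, Op_mul, Op_mul, Op_mul, add_sub_add_comm, ← mul_sub, ← mul_sub,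
      List.length_cons, Nat.cast_succ,
      show ε * (l.length + 1) + 1 + n = ε * l.length + 1 + n + ε by ring]
    refine (abs_add_le _ _).trans ?_
    rw [abs_mul, abs_mul (1 - 2 * ε), abs_of_pos e0, abs_of_pos (by positivity : 0 < 2 * ε)]
    refine (add_le_add (mul_le_mul_of_nonneg_left a (by positivity))
      (mul_le_mul_of_nonneg_left b e0.le)).trans (le_of_eq_of_le (by ring) (c.trans_eq (by ring)))

end

section

open MeasureTheory ProbabilityTheory Filter Topology Finset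
open scoped ENNReal
open Pool.Agent.P.MP_c7fa75_pr.T Pool.Agent.P.MP_c7fa75_pr.R2 Pool.Agent.P.MP_758450_pr.IT

namespace SMJx

theorem D2_Op (l : List ℝ) (φ : ℤ → ℝ) : D2 (Op l φ) = Op l (D2 φ) := by
  funext y
  show Op l φ (y + 2) - Op l φ y = Op l (fun z => φ (z + 2) - φ z) y
  rw [Op_sub l (fun z => φ (z + 2)) φ, Op_shift]

theorem it_Op (j : ℕ) (l : List ℝ) (φ : ℤ → ℝ) : D2^[j] (Op l φ) = Op l (D2^[j] φ) := by
  induction j with
  | zero => rfl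
  | succ j ih => rw [Function.iterate_succ_apply', Function.iterate_succ_apply', ih, D2_Op]

end SMJx

theorem p_SMJ (hSM : S_SM) :
    S_SMJ := by
  intro ε h0 h4 j m
  induction j with
  | zero =>
    intro l hl _ φ M hφ y
    simpa using Op_abs (hl.zero h0.le) hφ y
  | succ j ih =>
    intro l hl hlen φ M hφ y
    have h1 : Ins ε (l.take m) := fun q hq => hl q (List.mem_of_mem_take hq)
    have h2 : Ins ε (l.drop m) := fun q hq => hl q (List.mem_of_mem_drop hq)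
    have hm : m ≤ l.length := le_trans (by nlinarith) hlen
    have h3 : j * m ≤ (l.drop m).length := by
      rw [List.length_drop]
      rw [add_mul, one_mul] at hlen
      omega
    have h5 := hSM ε h0 h4 _ h1 _ _ (ih _ h2 h3 φ M hφ) y
    rw [List.length_take, min_eq_left hm] at h5
    rw [← List.take_append_drop m l, Op_append, Function.iterate_succ_apply', SMJx.it_Op]
    exact h5.trans_eq (by ring)

end

section

open MeasureTheory ProbabilityTheory Filter Topology Finset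
open scoped ENNReal
open Pool.Agent.P.MP_c7fa75_pr.T Pool.Agent.P.MP_c7fa75_pr.R2 Pool.Agent.P.MP_758450_pr.IT

namespace MODx

theorem tel (φ : ℤ → ℝ) (m : ℝ) (y : ℤ) (n : ℕ) (h : ∀ z, y ≤ z → z < y + n → |D1 φ z| ≤ m) :
    |φ y - φ (y + n)| ≤ n * m := by
  induction n with
  | zero => simp
  | succ n ih =>
    have h1 := ih fun z a b => h z a (by push_cast; omega)
    have h2 := h (y + n) (by omega) (by push_cast; omega)
    rw [D1, abs_sub_comm] at h2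
    have h3 := abs_sub_le (φ y) (φ (y + n)) (φ (y + n + 1))
    push_cast
    rw [← add_assoc]
    linarith

noncomputable def Av (H : ℕ) (f : ℤ → ℝ) : ℤ → ℝ := fun y => (∑ i ∈ range H, f (y + i)) / H

noncomputable def R (H : ℕ) (f : ℤ → ℝ) : ℤ → ℝ := fun y => f y - Av H f y

variable {H : ℕ}

theorem av_le (hH : 1 ≤ H) {f : ℤ → ℝ} {y : ℤ} {m : ℝ} (h : ∀ i : ℕ, i < H → |f (y + i)| ≤ m) :
    |Av H f y| ≤ m := by
  have h0 : (0 : ℝ) < H := by exact_mod_cast hH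
  rw [Av, abs_div, abs_of_pos h0, div_le_iff₀ h0]
  refine (abs_sum_le_sum_abs _ _).trans ((sum_le_card_nsmul _ _ m fun i hi =>
    h i (mem_range.1 hi)).trans ?_)
  rw [card_range, nsmul_eq_mul, mul_comm]

theorem r_le (hH : 1 ≤ H) {f : ℤ → ℝ} {m : ℝ} (h : ∀ z, |D1 f z| ≤ m) (y : ℤ) :
    |R H f y| ≤ H * m := by
  have h0 : (H : ℝ) ≠ 0 := by exact_mod_cast (by omega : H ≠ 0)
  have e : R H f y = Av H (fun z => f y - f z) y := by
    simp only [R, Av, sum_sub_distrib, sum_const, card_range, nsmul_eq_mul]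
    field_simp
  rw [e]
  refine av_le hH fun i hi => (tel f m y i fun z _ _ => h z).trans ?_
  exact mul_le_mul_of_nonneg_right (by exact_mod_cast hi.le) ((abs_nonneg _).trans (h 0))

theorem comm : Function.Commute (R H) D1 := fun f => by
  funext y
  simp only [R, Av, D1, sum_sub_distrib, add_right_comm y _ (1 : ℤ)]
  ring

theorem it_le (hH : 1 ≤ H) (j : ℕ) {m : ℝ} : ∀ f : ℤ → ℝ, (∀ y, |(D1^[j] f) y| ≤ m) →
    ∀ y, |((R H)^[j] f) y| ≤ (H : ℝ) ^ j * m := by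
  induction j with
  | zero => intro f h; simpa using h
  | succ j ih =>
    intro f h y
    have h1 := ih (D1 f) h
    rw [comm.iterate_left j f] at h1
    rw [Function.iterate_succ_apply', pow_succ', mul_assoc]
    exact r_le hH h1 y

theorem loc_le (hH : 1 ≤ H) {f : ℤ → ℝ} {a c : ℤ} {m : ℝ} (h : ∀ y, a ≤ y → y ≤ c → |f y| ≤ m)
    (i : ℕ) : ∀ y, a ≤ y → y + i * H ≤ c → |((R H)^[i] f) y| ≤ 2 ^ i * m := by
  induction i with
  | zero => intro y a1 a2; simpa using h y a1 (by simpa using a2)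
  | succ i ih =>
    intro y a1 a2
    push_cast at a2
    rw [add_mul, one_mul] at a2
    have h1 := ih y a1 (by omega)
    have h2 := av_le hH (f := (R H)^[i] f) (y := y) fun k hk => ih (y + k) (by omega) (by omega)
    rw [Function.iterate_succ_apply', R, pow_succ]
    linarith [abs_sub (((R H)^[i] f) y) (Av H ((R H)^[i] f) y)]

theorem d_av (ψ : ℤ → ℝ) (y : ℤ) : Av H ψ (y + 1) - Av H ψ y = (ψ (y + H) - ψ y) / H := by
  have := sum_range_sub (fun i : ℕ => ψ (y + i)) H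
  simp only [Nat.cast_zero, add_zero] at this
  rw [Av, Av, ← sub_div, ← sum_sub_distrib, ← this]
  congr 1
  refine sum_congr rfl fun i _ => ?_
  push_cast
  rw [add_assoc, add_comm 1]

theorem k_le (hH : 1 ≤ H) {f : ℤ → ℝ} {a c : ℤ} {m : ℝ} (h : ∀ y, a ≤ y → y ≤ c → |f y| ≤ m)
    (y : ℤ) (a1 : a ≤ y) (i : ℕ) (a2 : y + i * H ≤ c) :
    |D1 (fun z => f z - ((R H)^[i] f) z) y| ≤ 2 ^ (i + 1) * m / H := by
  have h0 : (0 : ℝ) < H := by exact_mod_cast hH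
  induction i with
  | zero =>
    have := (abs_nonneg _).trans (h y a1 (by simpa using a2))
    simp only [D1, Function.iterate_zero, id, sub_self, abs_zero]
    positivity
  | succ i ih =>
    push_cast at a2
    rw [add_mul, one_mul] at a2
    have h1 := ih (by omega)
    have h2 := loc_le hH h i y a1 (by omega)
    have h3 := loc_le hH h i (y + H) (by omega) (by omega)
    have e : D1 (fun z => f z - ((R H)^[i + 1] f) z) y = D1 (fun z => f z - ((R H)^[i] f) z) y +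
        (((R H)^[i] f) (y + H) - ((R H)^[i] f) y) / H := by
      rw [← d_av, Function.iterate_succ_apply']
      simp only [D1, R]
      ring
    have h4 : |(((R H)^[i] f) (y + H) - ((R H)^[i] f) y) / H| ≤ 2 ^ (i + 1) * m / H := by
      rw [abs_div, abs_of_pos h0, pow_succ]
      refine div_le_div_of_nonneg_right ?_ h0.le
      linarith [abs_sub (((R H)^[i] f) (y + H)) (((R H)^[i] f) y)]
    rw [e, pow_succ _ (i + 1)]
    refine (abs_add_le _ _).trans ((add_le_add h1 h4).trans (le_of_eq ?_))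
    ring

end MODx

open MODx in
theorem p_MOD :
    S_MOD := by
  intro f H j a b Mj M0 hH h1 h2 y y' a1 a2 a3 a4
  wlog hy : y ≤ y' generalizing y y'
  · rw [abs_sub_comm, abs_sub_comm (y : ℝ)]
    exact this y' y a3 a4 a1 a2 (by omega)
  obtain ⟨n, rfl⟩ := Int.le.dest hy
  have h3 := tel (fun z => f z - ((R H)^[j] f) z) _ y n fun z b1 b2 =>
    k_le hH h2 z (by omega) j (by omega)
  have h4 := abs_le.1 (it_le hH j f h1 y)
  have h5 := abs_le.1 (it_le hH j f h1 (y + n))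
  have e : |(y : ℝ) - ((y + n : ℤ) : ℝ)| = n := by
    push_cast
    rw [sub_add_cancel_left, abs_neg, Nat.abs_cast]
  rw [e, abs_le]
  have h6 := abs_le.1 h3
  constructor <;> linarith [h4.1, h4.2, h5.1, h5.2, h6.1, h6.2]

end

section

open MeasureTheory ProbabilityTheory Filter Topology Finset
open scoped ENNReal
open Pool.Agent.P.MP_c7fa75_pr.T Pool.Agent.P.MP_c7fa75_pr.R2 Pool.Agent.P.MP_758450_pr.IT

namespace LQx

theorem lip {f : ℤ → ℝ} {L : ℝ} (h : ∀ z, |f (z + 1) - f z| ≤ L) (z z' : ℤ) :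
    |f z - f z'| ≤ L * |(z : ℝ) - z'| := by
  have k : ∀ (n : ℕ) (z : ℤ), |f (z + n) - f z| ≤ L * n := by
    intro n z
    induction n with
    | zero => simp
    | succ n ih =>
      have := h (z + n)
      push_cast
      rw [← add_assoc]
      have e := abs_sub_le (f (z + n + 1)) (f (z + n)) (f z)
      linarith
  have k2 : ∀ z z' : ℤ, z' ≤ z → |f z - f z'| ≤ L * |(z : ℝ) - z'| := by
    intro z z' hz
    obtain ⟨n, rfl⟩ := Int.le.dest hz
    have := k n z'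
    push_cast
    rwa [add_sub_cancel_left, Nat.abs_cast]
  rcases le_total z' z with e | e
  · exact k2 z z' e
  · rw [abs_sub_comm, abs_sub_comm (z : ℝ)]; exact k2 z' z e

end LQx

theorem p_LQ (hSM : S_SM) :
    S_LQ := by
  intro p ε γ CD J h M0 hM b k
  have hl : Ins ε (rep k (seg (cw p) 0 (2 * b))) := Ins_rep (Ins_seg h.ue.2 _ _) k
  refine ⟨fun z => Op_abs (hl.zero h.ue.1.le) (fun z => ?_) z, LQx.lip fun z => ?_⟩
  · have a := abs_le.1 (hM z.toNat)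
    have c := abs_le.1 (hM (z + 1).toNat)
    unfold hh
    exact abs_le.2 ⟨by linarith [a.1, c.1], by linarith [a.2, c.2]⟩
  · set l := rep k (seg (cw p) 0 (2 * b)) with hl'
    set r : ℤ → ℝ := fun z => rho p 1 z.toNat with hr
    have e : ∀ y, Qk p b k y = 1 / 2 * (Op l r y + Op l r (y + 1)) := fun y => by
      rw [← Op_shift l r 1 y, ← Op_add, ← Op_mul]
      show Op l (hh p) y = _
      congr 1
      funext z
      simp only [hh, hr]
      ring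
    have h1 := hSM ε h.ue.1 h.e4 l hl r M0 (fun z => hM _) z
    rw [hl', rep_length, seg_length, ← hl'] at h1
    rw [e, e, add_assoc z 1 1, show (1 : ℤ) + 1 = 2 by norm_num,
      show 1 / 2 * (Op l r (z + 1) + Op l r (z + 2)) - 1 / 2 * (Op l r z + Op l r (z + 1)) =
        1 / 2 * (Op l r (z + 2) - Op l r z) by ring, abs_mul, abs_of_pos (by norm_num)]
    push_cast at h1
    rw [show (k : ℝ) * (2 * b) = 2 * b * k by ring, mul_div_assoc] at h1
    linarith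

end

end Pool.Agent.P.MP_758450_pr.EX
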