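import Pool.Agent.P.MP_758450_pr.EXA

/-! Explicit test, part two: one step of the chain. -/

set_option autoImplicit false
set_option linter.unusedSectionVars false

namespace Pool.Agent.P.MP_758450_pr.EX

section

open MeasureTheory ProbabilityTheory Filter Topology Finset
open scoped ENNReal
open Pool.Agent.P.MP_c7fa75_pr.T Pool.Agent.P.MP_c7fa75_pr.R2 Pool.Agent.P.MP_758450_pr.IT

namespace EXPx

/-- The exponential supermartingale. -/
noncomputable def V (w : ℕ → ℝ) (a : ℝ) (m n : ℕ) : ℝ :=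
  Real.exp (a * mg w m n - a ^ 2 * ((m : ℝ) + n))

theorem exp_le {r : ℝ} (h : |r| ≤ 1) : Real.exp r ≤ 1 + r + r ^ 2 := by
  linarith [(abs_le.1 (Real.abs_exp_sub_one_sub_id_le h)).2]

theorem step {a q : ℝ} (ha : |a| ≤ 1 / 2) (h0 : 0 ≤ q) (h1 : q ≤ 1) :
    q * Real.exp (a * (2 - 2 * q)) + (1 - q) * Real.exp (a * (-2 * q)) ≤ Real.exp (a ^ 2) := by
  have b1 : |a * (2 - 2 * q)| ≤ 1 := by
    rw [abs_mul, abs_of_nonneg (by linarith : 0 ≤ 2 - 2 * q)]
    nlinarith [abs_nonneg a]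
  have b2 : |a * (-2 * q)| ≤ 1 := by
    rw [abs_mul, abs_of_nonpos (by linarith : -2 * q ≤ 0)]
    nlinarith [abs_nonneg a]
  have c1 := mul_le_mul_of_nonneg_left (exp_le b1) h0
  have c2 := mul_le_mul_of_nonneg_left (exp_le b2) (sub_nonneg.2 h1)
  have c3 := Real.add_one_le_exp (a ^ 2)
  nlinarith [sq_nonneg (a * (2 * q - 1))]

theorem ex_le (p : ℕ → unitInterval) {a : ℝ} (ha : |a| ≤ 1 / 2) (y n : ℕ) :
    Ex (cw p) y n (V (cw p) a) ≤ 1 := by
  refine (Ex_le (cw_mem p) y n fun m k _ => ?_).trans_eq (by simp [V, mg, psum])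
  have h := mul_le_mul_of_nonneg_left (step ha (cw_mem p (m + k)).1 (cw_mem p (m + k)).2)
    (Real.exp_pos (a * mg (cw p) m k - a ^ 2 * ((m : ℝ) + k) - a ^ 2)).le
  rw [← Real.exp_add, sub_add_cancel, mul_add, mul_left_comm, mul_left_comm _ (1 - _),
    ← Real.exp_add, ← Real.exp_add] at h
  refine le_trans (le_of_eq ?_) h
  rw [V, V, mg_right, mg_left]
  push_cast
  congr 3 <;> ring

theorem low {s u P D M N : ℝ} (hs : 1 ≤ s) (hu : 0 ≤ u) (hD : 1 ≤ D)
    (hP : P ^ 2 ≤ D ^ 2 * (4 * s ^ 2 + u * s)) (hM : u * s - |P| ≤ M) (hN : N ≤ 2 * s ^ 2 + u * s) :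
    u / 8 ≤ 1 / 2 + D + D ^ 2 / 2 + (1 / (2 * s) * M - (1 / (2 * s)) ^ 2 * N) := by
  have s0 : 0 < s := by linarith
  have h0 : u * s ≤ u * s ^ 2 := mul_le_mul_of_nonneg_left (by nlinarith) hu
  have h1 : |P| ≤ s * (2 * D + D ^ 2 + u / 4) := by
    refine abs_le_of_sq_le_sq ?_ (by positivity)
    have a1 : 0 ≤ s ^ 2 * (D * (D ^ 2 + u / 4)) := by positivity
    have a2 : 0 ≤ s ^ 2 * (D ^ 2 - u / 4) ^ 2 := by positivity
    have a3 := mul_le_mul_of_nonneg_left h0 (sq_nonneg D)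
    nlinarith
  have h2 : 1 / (2 * s) * (u * s - s * (2 * D + D ^ 2 + u / 4)) ≤ 1 / (2 * s) * M :=
    mul_le_mul_of_nonneg_left (by linarith) (by positivity)
  have h3 : (1 / (2 * s)) ^ 2 * N ≤ (1 / (2 * s)) ^ 2 * (2 * s ^ 2 + u * s ^ 2) :=
    mul_le_mul_of_nonneg_left (by linarith) (by positivity)
  have e2 : 1 / (2 * s) * (u * s - s * (2 * D + D ^ 2 + u / 4)) =
      u / 2 - (2 * D + D ^ 2 + u / 4) / 2 := by field_simp
  have e3 : (1 / (2 * s)) ^ 2 * (2 * s ^ 2 + u * s ^ 2) = 1 / 2 + u / 4 := by field_simp; ring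
  linarith

theorem pt {p : ℕ → unitInterval} {ε γ D : ℝ} {J : ℕ} (h : St p ε γ D J) {x : ℕ} (hx : 1 ≤ x)
    (y : ℕ) : Real.exp (uu x y / 8) ≤ Real.exp (1 / 2 + D + D ^ 2 / 2) *
      (V (cw p) (1 / (2 * √(x : ℝ))) y x + V (cw p) (-(1 / (2 * √(x : ℝ)))) y x) := by
  have s1 := one_le_sqrt' hx
  have s2 := sqrt_sq' x
  have u1 := uu_mul hx y
  have x1 : (1 : ℝ) ≤ x := by exact_mod_cast hx
  have hP : psum (cw p) (y + x) ^ 2 ≤ D ^ 2 * (4 * √(x : ℝ) ^ 2 + uu x y * √(x : ℝ)) := by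
    refine (h.hD x (y + x) hx).trans ((div_le_self (by positivity)
      (one_le_pow₀ (one_le_tt h.g0.le hx))).trans (mul_le_mul_of_nonneg_left ?_ (sq_nonneg D)))
    rw [s2, u1]
    push_cast
    linarith [le_abs_self ((y : ℝ) - x)]
  have hN : (y : ℝ) + x ≤ 2 * √(x : ℝ) ^ 2 + uu x y * √(x : ℝ) := by
    rw [s2, u1]
    linarith [le_abs_self ((y : ℝ) - x)]
  rw [mul_add, V, V, ← Real.exp_add, ← Real.exp_add]
  rcases le_total 0 ((y : ℝ) - x) with e | e
  · refine le_add_of_le_of_nonneg (Real.exp_le_exp.2 (low s1 (uu_nonneg x y) h.C1 hP ?_ hN))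
      (Real.exp_pos _).le
    rw [u1, abs_of_nonneg e, mg]
    linarith [le_abs_self (psum (cw p) (y + x))]
  · refine le_add_of_nonneg_of_le (Real.exp_pos _).le (Real.exp_le_exp.2 ?_)
    rw [neg_sq, neg_mul, ← mul_neg]
    refine low s1 (uu_nonneg x y) h.C1 hP ?_ hN
    rw [u1, abs_of_nonpos e, mg]
    linarith [neg_abs_le (psum (cw p) (y + x))]

end EXPx

open EXPx in
theorem p_EXP :
    S_EXP := by
  intro p ε γ D J h
  have e1 : 1 ≤ Real.exp (1 / 2 + D + D ^ 2 / 2) := Real.one_le_exp (by have := h.C1; positivity)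
  refine ⟨Real.exp (1 / 2 + D + D ^ 2 / 2) * 2, by linarith, fun x hx φ c hφ => ?_⟩
  have s1 := one_le_sqrt' hx
  have ha : |1 / (2 * √(x : ℝ))| ≤ 1 / 2 := by
    rw [abs_of_nonneg (by positivity)]
    exact one_div_le_one_div_of_le two_pos (by linarith)
  have k := fun a (ha : |a| ≤ 1 / 2) => (all_LIM p ε h.ue x hx).1 (V (cw p) a) 1
    (fun _ _ => (Real.exp_pos _).le) (ex_le p ha x)
  obtain ⟨i1, j1⟩ := k _ ha
  obtain ⟨i2, j2⟩ := k _ ((abs_neg _).trans_le ha)
  have c0 : 0 ≤ c := nonneg_of_mul_nonneg_left ((abs_nonneg _).trans (hφ 0)) (Real.exp_pos _)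
  have i3 := ((i1.add i2).const_mul (Real.exp (1 / 2 + D + D ^ 2 / 2))).const_mul c
  have hb := ae_of_all (trials p) fun B => ((Real.norm_eq_abs _).trans_le (hφ (U x B))).trans
    (mul_le_mul_of_nonneg_left (pt h hx (U x B)) c0)
  refine ⟨i3.mono' (LAWTx.aesm_U p x φ) hb, (norm_integral_le_of_norm_le i3 hb).trans ?_⟩
  rw [integral_const_mul, integral_const_mul, integral_add' i1 i2]
  exact mul_le_mul_of_nonneg_left (mul_le_mul_of_nonneg_left (by linarith) (by linarith)) c0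

end

section

open MeasureTheory ProbabilityTheory Filter Topology Finset
open scoped ENNReal
open Pool.Agent.P.MP_c7fa75_pr.T Pool.Agent.P.MP_c7fa75_pr.R2 Pool.Agent.P.MP_758450_pr.IT

namespace VARx

theorem zero {p : ℕ → unitInterval} {ε : ℝ} (h : UE p ε) {x : ℕ} (hx : 1 ≤ x) :
    ∫ B, (mg (cw p) (U x B) x ^ 2 - Wn (cw p) (U x B + x)) ∂trials p = 0 := by
  have h1 := (all_LIM p ε h x hx).2.2 (fun a b => mg (cw p) a b ^ 2 - Wn (cw p) (a + b)) 5
    fun a b => by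
      have a1 := CENx.abs_mg h a b
      have a2 := Wn_bd h (a + b)
      have a3 := CENx.le_sq a b
      have a4 : mg (cw p) a b ^ 2 ≤ (2 * ((a : ℝ) + b)) ^ 2 := sq_le_sq' (abs_le.1 a1).1 (abs_le.1 a1).2
      have a5 : 0 ≤ 2 * ε * ((a + b : ℕ) : ℝ) := by have := h.1; positivity
      push_cast at a2 a5
      rw [abs_le]
      constructor <;> nlinarith [sq_nonneg (mg (cw p) a b), a2.1, a2.2]
  have h2 : ∀ n, Ex (cw p) x n (fun a b => mg (cw p) a b ^ 2 - Wn (cw p) (a + b)) = 0 := fun n => by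
    rw [Ex_dyn (cw_mem p) x n fun a b _ _ => by
      rw [mg_right, mg_left, add_right_comm a 1 b, ← add_assoc, Wn_succ]; ring]
    simp [mg, psum, Wn_zero]
  simp only [h2] at h1
  exact (tendsto_nhds_unique tendsto_const_nhds h1).symm

theorem pt {p : ℕ → unitInterval} {ε γ CD : ℝ} {J : ℕ} (h : St p ε γ CD J) {x : ℕ} (hx : 1 ≤ x)
    (y : ℕ) : |((y : ℝ) - x) ^ 2 - Wn (cw p) (2 * x) - (mg (cw p) y x ^ 2 - Wn (cw p) (y + x))| ≤
      (1 + 5 * CD * (2 + 5 * CD)) * (x / tt γ x ^ 16) * (1 + uu x y) ^ 2 := by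
  have x0 : (1 : ℝ) ≤ x := by exact_mod_cast hx
  have t1 := one_le_tt h.g0.le hx
  have T1 : 1 ≤ tt γ x ^ 16 := one_le_pow₀ t1
  have T2 : tt γ x ^ 16 ≤ √(x : ℝ) := (pow_le_pow_right₀ t1 (by norm_num)).trans (tt_32 h.g1 hx)
  have c1 := h.C1
  have d1 := h.dabs hx (y + x)
  have w1 := Wn_abs h.ue (2 * x) (y + x)
  have u0 := uu_nonneg x y
  have u1 := uu_mul hx y
  have s1 := one_le_sqrt' hx
  have s2 := sqrt_sq' x
  rw [show ((y + x : ℕ) : ℝ) - (2 * x : ℕ) = y - x by push_cast; ring, ← u1] at w1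
  have r1 : (((y + x : ℕ) : ℝ) + 1) / x ≤ 3 + uu x y := by
    rw [div_le_iff₀ (by linarith)]
    have a1 := le_abs_self ((y : ℝ) - x)
    have a2 : uu x y * √(x : ℝ) ≤ uu x y * x := mul_le_mul_of_nonneg_left (by nlinarith) u0
    push_cast
    linarith
  rw [mg]
  generalize uu x y = u at *
  generalize tt γ x ^ 16 = T at *
  generalize psum (cw p) (y + x) = D at *
  generalize √(x : ℝ) = s at *
  have q0 : 0 ≤ s / T := by positivity
  have q1 : s / T ≤ s := div_le_self (by linarith) T1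
  have q2 : 1 ≤ s / T := (one_le_div (by linarith)).2 T2
  have d2 : |D| ≤ CD * (s / T) * (5 * (1 + u)) := by
    rw [mul_div_assoc] at d1
    exact d1.trans (mul_le_mul_of_nonneg_left (by linarith) (by positivity))
  have d3 : |D| ≤ CD * s * (5 * (1 + u)) := d2.trans (by gcongr)
  have d4 : |2 * ((y : ℝ) - x) - D| ≤ (2 + 5 * CD) * s * (1 + u) := by
    refine (abs_sub _ _).trans ?_
    rw [abs_mul, abs_two, ← u1]
    nlinarith
  have d5 := mul_le_mul d2 d4 (abs_nonneg _) (by positivity)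
  have d6 : u * s ≤ s * (s / T) * (1 + u) ^ 2 := by
    have : u ≤ s / T * (1 + u) ^ 2 := by nlinarith [mul_le_mul_of_nonneg_right q2 (sq_nonneg (1 + u))]
    nlinarith
  have e : ((y : ℝ) - x) ^ 2 - Wn (cw p) (2 * x) - (((y : ℝ) - x - D) ^ 2 - Wn (cw p) (y + x)) =
      D * (2 * ((y : ℝ) - x) - D) + (Wn (cw p) (y + x) - Wn (cw p) (2 * x)) := by ring
  have e2 : (x : ℝ) / T = s * (s / T) := by rw [← s2]; ring
  rw [e, e2]
  refine (abs_add_le _ _).trans ?_
  rw [abs_mul]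
  linarith

end VARx

theorem p_VAR (hEXP : S_EXP) :
    S_VAR := by
  intro p ε γ CD J h
  obtain ⟨C, -, hC⟩ := hEXP p ε γ CD J h
  obtain ⟨C2, c2, hC2⟩ := poly_exp 2
  refine ⟨(1 + 5 * CD * (2 + 5 * CD)) * C2 * C, fun x hx => ?_⟩
  have c1 := h.C1
  have t0 := tt_nonneg γ x
  have h1 : ∀ y, (1 + uu x y) ^ 2 ≤ C2 * Real.exp (uu x y / 8) := fun y =>
    (hC2 _ (uu_nonneg x y)).trans (mul_le_mul_of_nonneg_left
      (Real.exp_le_exp.2 (by linarith [uu_nonneg x y])) (by linarith))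
  have h2 := (hC x hx (fun y => ((y : ℝ) - x) ^ 2) (x * C2) fun y => by
    rw [abs_pow, ← uu_mul hx y, mul_pow, sqrt_sq', mul_comm, mul_assoc]
    refine mul_le_mul_of_nonneg_left (le_trans ?_ (h1 y)) (Nat.cast_nonneg x)
    nlinarith [uu_nonneg x y]).1
  obtain ⟨h3, h4⟩ := hC x hx (fun y => ((y : ℝ) - x) ^ 2 - Wn (cw p) (2 * x) -
    (mg (cw p) y x ^ 2 - Wn (cw p) (y + x)))
    ((1 + 5 * CD * (2 + 5 * CD)) * (x / tt γ x ^ 16) * C2) fun y => by
      rw [mul_assoc _ C2]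
      exact (VARx.pt h hx y).trans (mul_le_mul_of_nonneg_left (h1 y) (by positivity))
  have h5 := h2.sub (integrable_const (Wn (cw p) (2 * x)))
  have h6 := integral_sub h5 h3
  simp only [Pi.sub_apply, sub_sub_cancel, VARx.zero h.ue hx] at h6
  rw [integral_sub h2 (integrable_const _), integral_const, probReal_univ, one_smul] at h6
  unfold EU at h4 ⊢
  rw [sub_eq_zero.1 h6.symm]
  exact h4.trans_eq (by ring)

end

section

open MeasureTheory ProbabilityTheory Filter Topology Finset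
open scoped ENNReal
open Pool.Agent.P.MP_c7fa75_pr.T Pool.Agent.P.MP_c7fa75_pr.R2 Pool.Agent.P.MP_758450_pr.IT

namespace HHx

theorem stop (w : ℕ → ℝ) (k t : ℕ) {z : ℤ} (h : z ≤ t) : Hh w k t z = psum w t := by
  cases k with
  | zero => rfl
  | succ k => rw [Hh, if_pos h]

theorem run (w : ℕ → ℝ) (k t : ℕ) {z : ℤ} (h : (t : ℤ) < z) : Hh w (k + 1) t z =
    w t * Hh w k (t + 1) (z + 1) + (1 - w t) * Hh w k (t + 1) (z - 1) := by
  rw [Hh, if_neg h.not_ge]

theorem two (w : ℕ → ℝ) (k m t : ℕ) (z : ℤ) (h : (t : ℤ) + 2 * m ≤ z) :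
    Hh w (k + m) t z = Op (seg w t m) (Hh w k (t + m)) z := by
  induction m generalizing t z with
  | zero => rfl
  | succ m ih =>
    push_cast at h
    rw [← add_assoc, run w _ t (by omega), seg_succ, Op_cons, sp, ih _ _ (by push_cast; omega),
      ih _ _ (by push_cast; omega), add_right_comm t 1 m, add_assoc t m 1]

theorem three {p : ℕ → unitInterval} {ε α β : ℝ} (h : UE p ε) (hβ : 0 ≤ β)
    (hb : ∀ n : ℕ, |psum (cw p) n| ≤ α + β * n) (k t : ℕ) (z : ℤ) :
    |Hh (cw p) k t z| ≤ α + β * (t + max ((z : ℝ) - t) 0 / ε) := by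
  have e0 := h.1
  have b0 : ∀ (t : ℕ) (z : ℤ), |psum (cw p) t| ≤ α + β * (t + max ((z : ℝ) - t) 0 / ε) :=
    fun t z => (hb t).trans (add_le_add le_rfl (mul_le_mul_of_nonneg_left
      (le_add_of_nonneg_right (div_nonneg (le_max_right _ _) e0.le)) hβ))
  induction k generalizing t z with
  | zero => exact b0 t z
  | succ k ih =>
    rcases le_or_gt z t with a | a
    · rw [stop _ _ _ a]; exact b0 t z
    have a' : (t : ℝ) + 1 ≤ z := by exact_mod_cast a
    obtain ⟨w0, w1⟩ := h.2 t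
    have i1 := ih (t + 1) (z + 1)
    have i2 := ih (t + 1) (z - 1)
    push_cast at i1 i2
    rw [add_sub_add_right_eq_sub, max_eq_left (by linarith)] at i1
    have m2 : max ((z : ℝ) - 1 - (t + 1)) 0 / ε ≤ (z - t) / ε - 1 / ε := by
      rw [← sub_div]
      exact div_le_div_of_nonneg_right (max_le (by linarith) (by linarith)) e0.le
    have i3 := i2.trans (add_le_add le_rfl (mul_le_mul_of_nonneg_left (add_le_add le_rfl m2) hβ))
    have m3 : 1 ≤ (1 - cw p t) * (1 / ε) := by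
      rw [mul_one_div, le_div_iff₀ e0]; linarith
    rw [run _ _ _ a, max_eq_left (by linarith)]
    refine (abs_add_le _ _).trans ?_
    rw [abs_mul, abs_mul, abs_of_nonneg (a := cw p t) (by linarith),
      abs_of_nonneg (a := 1 - cw p t) (by linarith)]
    have j1 := mul_le_mul_of_nonneg_left i1 (show 0 ≤ cw p t by linarith)
    have j2 := mul_le_mul_of_nonneg_left i3 (show 0 ≤ 1 - cw p t by linarith)
    nlinarith [mul_le_mul_of_nonneg_left m3 hβ]

theorem ex_eq (p : ℕ → unitInterval) (x n : ℕ) :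
    Ex (cw p) x n (fun a b => psum (cw p) (a + b)) = Hh (cw p) n 0 (2 * (x : ℤ)) := by
  have h := Ex_dyn (cw_mem p) x n
    (V := fun a b => Hh (cw p) (n - (a + b)) (a + b) (2 * (x : ℤ) + a - b)) fun a b hb hn => by
      obtain ⟨k, hk⟩ : ∃ k, n - (a + b) = k + 1 := ⟨n - (a + b) - 1, by omega⟩
      rw [hk, run _ _ _ (by push_cast; omega), show n - (a + 1 + b) = k by omega,
        show n - (a + (b + 1)) = k by omega, add_right_comm a 1 b, ← add_assoc a b 1]
      push_cast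
      rw [show 2 * (x : ℤ) + (a + 1) - b = 2 * x + a - b + 1 by ring,
        show 2 * (x : ℤ) + a - (b + 1) = 2 * x + a - b - 1 by ring]
  refine (Ex_congr _ x n fun a b hr => ?_).trans (h.trans (by simp))
  obtain ⟨r1, r2, r3⟩ := hr
  rcases r1.eq_or_lt with e | e
  · exact (stop _ _ _ (by push_cast; omega)).symm
  · rw [r3 e, Nat.sub_self]; rfl

end HHx

theorem p_HH :
    S_HH := by
  refine ⟨fun p ε h x hx => ?_, HHx.two, fun p ε α β h hβ hb => HHx.three h hβ hb⟩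
  obtain ⟨K, -, hK⟩ := p_HOR p ε h
  refine ((all_LIM p ε h x hx).2.2 (fun a b => (a : ℝ) - 1 * b) 1 fun a b => ?_).congr fun n => ?_
  · have a0 : (0 : ℝ) ≤ a := Nat.cast_nonneg a
    have b0 : (0 : ℝ) ≤ b := Nat.cast_nonneg b
    exact abs_le.2 ⟨by linarith [CENx.le_sq a b], by linarith [CENx.le_sq a b]⟩
  · rw [← HHx.ex_eq, ← zero_add (Ex (cw p) x n fun a b => psum (cw p) (a + b)), ← (hK x n hx).1,
      ← Ex_add]
    exact Ex_congr _ x n fun a b _ => by rw [mg]; ring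

end

section

open MeasureTheory ProbabilityTheory Filter Topology Finset
open scoped ENNReal
open Pool.Agent.P.MP_c7fa75_pr.T Pool.Agent.P.MP_c7fa75_pr.R2 Pool.Agent.P.MP_758450_pr.IT

namespace RMODx

theorem D12 (j : ℕ) (g : ℤ → ℝ) : D1^[j] (fun y => g (2 * y)) = fun y => (D2^[j] g) (2 * y) := by
  induction j generalizing g with
  | zero => rfl
  | succ j ih =>
    rw [Function.iterate_succ_apply, Function.iterate_succ_apply, ← ih]
    congr 1
    funext y
    simp only [D1, D2, mul_add, mul_one]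

/-- The bound of the cut-off function. -/
theorem phi_bd (hHH : S_HH) {p : ℕ → unitInterval} {ε γ CD : ℝ} {J : ℕ} (h : St p ε γ CD J)
    {x : ℕ} (hx : 1 ≤ x) (n : ℕ) (z : ℤ) :
    |Hh (cw p) n (x / 2) (min z (10 * x))| ≤ CD * √(x : ℝ) * (4 + 10 / ε) := by
  have x0 : (0 : ℝ) < x := by exact_mod_cast hx
  have x1 : (1 : ℝ) ≤ x := by exact_mod_cast hx
  have t1 := one_le_tt h.g0.le hx
  have c1 := h.C1
  have s1 := one_le_sqrt' hx
  have e0 := h.ue.1
  have hA : 0 < CD * √(x : ℝ) := by positivity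
  have k := hHH.2.2 p ε (3 * (CD * √(x : ℝ))) (CD * √(x : ℝ) / x) h.ue (by positivity) (fun n => by
    refine (h.dabs hx n).trans ?_
    have a : CD * √(x : ℝ) / tt γ x ^ 16 ≤ CD * √(x : ℝ) := div_le_self hA.le (one_le_pow₀ t1)
    have b : 2 + ((n : ℝ) + 1) / x ≤ 3 + n / x := by
      have : 1 / (x : ℝ) ≤ 1 := div_le_self zero_le_one x1
      rw [add_div]; linarith
    refine (mul_le_mul a b (by positivity) hA.le).trans_eq ?_
    field_simp) n (x / 2) (min z (10 * x))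
  refine k.trans ?_
  have m1 : ((x / 2 : ℕ) : ℝ) ≤ x := by exact_mod_cast Nat.div_le_self x 2
  have m2 : max (((min z (10 * x) : ℤ) : ℝ) - ((x / 2 : ℕ) : ℝ)) 0 ≤ 10 * x := by
    refine max_le ?_ (by positivity)
    have : ((min z (10 * x) : ℤ) : ℝ) ≤ 10 * x := by exact_mod_cast min_le_right z (10 * x)
    have : (0 : ℝ) ≤ ((x / 2 : ℕ) : ℝ) := Nat.cast_nonneg _
    linarith
  have m3 := add_le_add m1 (div_le_div_of_nonneg_right m2 e0.le)
  have m4 := mul_le_mul_of_nonneg_left m3 (show 0 ≤ CD * √(x : ℝ) / x by positivity)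
  have m5 : CD * √(x : ℝ) / x * (x + 10 * x / ε) = CD * √(x : ℝ) * (1 + 10 / ε) := by field_simp
  linarith

/-- The bound before the constants are simplified. -/
theorem raw (hSMJ : S_SMJ) (hMOD : S_MOD) (hHH : S_HH) {p : ℕ → unitInterval} {ε γ CD : ℝ} {J : ℕ}
    (h : St p ε γ CD J) {M0 : ℝ} (hM : ∀ x, |rho p 1 x| ≤ M0) {x : ℕ} (hx : 1 ≤ x) {H : ℕ}
    (H1 : 1 ≤ H) (hH : J * H ≤ x) {y y' : ℕ} (hy : Win x y) (hy' : Win x y') :
    |rho p 1 y - rho p 1 y'| ≤ 2 * (H : ℝ) ^ J * (CD * √(x : ℝ) * (4 + 10 / ε) *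
      (2 / √(ε * (x / 2 / J : ℕ) + 1)) ^ J) + 2 ^ (J + 1) * (M0 + 1) / H * |(y : ℝ) - y'| := by
  have hI : Ins ε (seg (cw p) 0 (x / 2)) := Ins_seg h.ue.2 0 _
  let φ : ℕ → ℤ → ℝ := fun n z => Hh (cw p) n (x / 2) (min z (10 * x))
  let f : ℕ → ℤ → ℝ := fun n y => Op (seg (cw p) 0 (x / 2)) (φ n) (2 * y)
  have lim : ∀ u : ℕ, x ≤ 2 * u → u ≤ 4 * x →
      Tendsto (fun n => f n u) atTop (𝓝 (rho p 1 u)) := fun u h1 h2 => by
    refine ((hHH.1 p ε h.ue u (by omega)).comp (tendsto_add_atTop_nat (x / 2))).congr fun n => ?_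
    change Hh (cw p) (n + x / 2) 0 (2 * (u : ℤ)) = _
    rw [hHH.2.1 _ _ _ _ _ (by push_cast; omega), zero_add]
    refine Op_congr_loc (hI.zero h.ue.1.le) fun z hz => ?_
    rw [seg_length, abs_le] at hz
    change _ = Hh (cw p) n (x / 2) (min z (10 * x))
    rw [min_eq_left (by push_cast at hz; omega)]
  have ev : ∀ᶠ n in atTop, ∀ u ∈ (range (4 * x + 1)).filter (fun u => x ≤ 2 * u),
      |f n u| ≤ M0 + 1 := (eventually_all_finset _).2 fun u hu => by
    rw [mem_filter, mem_range] at hu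
    exact ((lim u hu.2 (by omega)).abs.eventually
      (gt_mem_nhds (show |rho p 1 u| < M0 + 1 by linarith [hM u]))).mono fun n hn => hn.le
  refine le_of_tendsto ((lim y hy.1 (by have := hy.2; omega)).sub
    (lim y' hy'.1 (by have := hy'.2; omega))).abs (ev.mono fun n hn => ?_)
  have k := hMOD (f n) H J ((x + 1) / 2) (3 * x) _ (M0 + 1) H1 (fun u => by
      change |(D1^[J] fun y => Op (seg (cw p) 0 (x / 2)) (φ n) (2 * y)) u| ≤ _
      rw [D12]
      exact hSMJ ε h.ue.1 h.e4 J (x / 2 / J) _ hI (by rw [seg_length]; exact Nat.mul_div_le _ _)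
        (φ n) _ (phi_bd hHH h hx n) _)
    (fun u h1 h2 => by
      have hH' : (J : ℤ) * H ≤ x := by exact_mod_cast hH
      obtain ⟨v, rfl⟩ := Int.eq_ofNat_of_zero_le (show 0 ≤ u by omega)
      exact hn v (mem_filter.2 ⟨mem_range.2 (by omega), by omega⟩))
    y y' (by have := hy.1; omega) (by have := hy.2; omega) (by have := hy'.1; omega)
    (by have := hy'.2; omega)
  simpa only [Int.cast_natCast] using k

theorem step {ε : ℝ} (e0 : 0 < ε) (e4 : ε ≤ 1 / 4) {J x : ℕ} (J1 : 1 ≤ J) (hx : 1 ≤ x) :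
    2 / √(ε * (x / 2 / J : ℕ) + 1) ≤ 2 * √(2 * J / ε) / √(x : ℝ) := by
  have x0 : (0 : ℝ) < x := by exact_mod_cast hx
  have J0 : (0 : ℝ) < J := by exact_mod_cast J1
  have a : x ≤ 2 * (J * (x / 2 / J + 1)) := by
    have := Nat.lt_mul_div_succ (x / 2) (show 0 < J by omega)
    omega
  have a' : (x : ℝ) ≤ 2 * (J * (((x / 2 / J : ℕ) : ℝ) + 1)) := by exact_mod_cast a
  generalize x / 2 / J = m at a'
  have m0 : (0 : ℝ) ≤ m := Nat.cast_nonneg m
  rw [div_le_div_iff₀ (by positivity) (by positivity), mul_assoc, ← Real.sqrt_mul (by positivity)]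
  refine mul_le_mul_of_nonneg_left (Real.sqrt_le_sqrt (a'.trans ?_)) (by norm_num)
  rw [div_mul_eq_mul_div, le_div_iff₀ e0]
  nlinarith

end RMODx

theorem p_RMOD (hSMJ : S_SMJ) (hMOD : S_MOD) (hHH : S_HH) :
    S_RMOD := by
  intro p ε γ CD J h M0 hM
  have e0 := h.ue.1
  have c1 := h.C1
  have M1 : 0 ≤ M0 := (abs_nonneg _).trans (hM 0)
  set K : ℝ := 2 * √(2 * J / ε) with hK
  have K0 : 0 ≤ K := by positivity
  set A : ℝ := 2 * (CD * (4 + 10 / ε)) * K ^ J with hA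
  set B : ℝ := 2 ^ (J + 2) * (M0 + 1) with hB
  have A0 : 0 ≤ A := by positivity
  have B0 : 0 ≤ B := by positivity
  refine ⟨A + B, by positivity, (eventually_ge_atTop (J ^ 2 + 1)).mono fun x hxJ y y' hy hy' => ?_⟩
  have hx : 1 ≤ x := by omega
  have t1 := one_le_tt h.g0.le hx
  have s1 := one_le_sqrt' hx
  have t32 := tt_32 h.g1 hx
  have hJ := h.hJ x hx
  have s2 := sqrt_sq' x
  have Js : (J : ℝ) ≤ √(x : ℝ) := Real.le_sqrt_of_sq_le (by exact_mod_cast (by omega : J ^ 2 ≤ x))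
  have st := RMODx.step e0 h.e4 h.J1 hx
  rw [← hK] at st
  set t := tt γ x with ht
  set s := √(x : ℝ) with hs
  have t8 : 1 ≤ t ^ 8 := one_le_pow₀ t1
  have q1 : 1 ≤ s / t ^ 8 := by
    rw [le_div_iff₀ (by positivity), one_mul]
    exact (pow_le_pow_right₀ t1 (by norm_num)).trans t32
  have H1 : 1 ≤ ⌊s / t ^ 8⌋₊ := Nat.le_floor (by exact_mod_cast q1)
  have H2 : (⌊s / t ^ 8⌋₊ : ℝ) ≤ s / t ^ 8 := Nat.floor_le (by positivity)
  have H3 : s / t ^ 8 < (⌊s / t ^ 8⌋₊ : ℝ) + 1 := Nat.lt_floor_add_one _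
  generalize ⌊s / t ^ 8⌋₊ = H at H1 H2 H3
  have H1' : (1 : ℝ) ≤ H := by exact_mod_cast H1
  have hH : J * H ≤ x := by
    have : (J : ℝ) * H ≤ x := by
      rw [← s2, sq]
      exact mul_le_mul Js (H2.trans (div_le_self (by positivity) t8)) (by positivity) (by positivity)
    exact_mod_cast this
  refine (RMODx.raw hSMJ hMOD hHH h hM hx H1 hH hy hy').trans (add_le_add ?_ ?_)
  · rw [← hs]
    generalize hr : 2 / √(ε * (x / 2 / J : ℕ) + 1) = r at st
    have r0 : 0 ≤ r := by rw [← hr]; positivity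
    have a1 : (H : ℝ) * r ≤ K / t ^ 8 := by
      refine (mul_le_mul H2 st r0 (by positivity)).trans_eq ?_
      field_simp
    have a2 : ((H : ℝ) * r) ^ J ≤ (K / t ^ 8) ^ J := pow_le_pow_left₀ (by positivity) a1 J
    have a3 : s / (t ^ 8) ^ J ≤ 1 / t := by
      rw [div_le_div_iff₀ (by positivity) (by positivity), one_mul, ← pow_mul]
      refine (mul_le_mul_of_nonneg_right hJ (by positivity)).trans ?_
      rw [← pow_succ]
      exact pow_le_pow_right₀ t1 (by have := h.J1; omega)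
    calc 2 * (H : ℝ) ^ J * (CD * s * (4 + 10 / ε) * r ^ J)
        = 2 * (CD * (4 + 10 / ε)) * s * ((H : ℝ) * r) ^ J := by rw [mul_pow]; ring
      _ ≤ 2 * (CD * (4 + 10 / ε)) * s * (K / t ^ 8) ^ J :=
        mul_le_mul_of_nonneg_left a2 (by positivity)
      _ = A * (s / (t ^ 8) ^ J) := by rw [hA, div_pow]; ring
      _ ≤ A * (1 / t) := mul_le_mul_of_nonneg_left a3 A0
      _ ≤ (A + B) / t := by
        rw [mul_one_div]
        exact div_le_div_of_nonneg_right (by linarith) (by positivity)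
  · refine mul_le_mul_of_nonneg_right ?_ (abs_nonneg _)
    rw [div_lt_iff₀ (by positivity)] at H3
    rw [div_le_div_iff₀ (by positivity) (by positivity)]
    have a1 : s ≤ 2 * (t ^ 8 * H) := by nlinarith
    calc 2 ^ (J + 1) * (M0 + 1) * s ≤ 2 ^ (J + 1) * (M0 + 1) * (2 * (t ^ 8 * H)) :=
          mul_le_mul_of_nonneg_left a1 (by positivity)
      _ = B * (t ^ 8 * H) := by rw [hB]; ring
      _ ≤ (A + B) * (t ^ 8 * H) := mul_le_mul_of_nonneg_right (by linarith) (by positivity)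
      _ = _ := by ring

end

section

open MeasureTheory ProbabilityTheory Filter Topology Finset
open scoped ENNReal
open Pool.Agent.P.MP_c7fa75_pr.T Pool.Agent.P.MP_c7fa75_pr.R2 Pool.Agent.P.MP_758450_pr.IT

namespace SUMRx

theorem inc {f : ℕ → ℝ} {B : ℝ} {a b : ℕ} (h : ∀ i, i < a ∨ i < b → |f i| ≤ B) :
    |∑ i ∈ range a, f i - ∑ i ∈ range b, f i| ≤ B * |(a : ℝ) - b| := by
  wlog hab : b ≤ a generalizing a b
  · rw [abs_sub_comm, abs_sub_comm (a : ℝ)]
    exact this (fun i hi => h i hi.symm) (by omega)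
  rw [← sum_Ico_eq_sub _ hab, abs_of_nonneg (a := (a : ℝ) - b) (sub_nonneg.2 (Nat.cast_le.2 hab))]
  refine (abs_sum_le_sum_abs _ _).trans ((sum_le_card_nsmul _ _ B fun i hi =>
    h i (Or.inl (mem_Ico.1 hi).2)).trans_eq ?_)
  rw [Nat.card_Ico, nsmul_eq_mul, Nat.cast_sub hab, mul_comm]

theorem hr_abs (p : ℕ → unitInterval) (i : ℕ) : |hr (cw p) i| ≤ 2 * |psum (cw p) (i + 1)| := by
  have h := cw_mem p i
  rw [hr, abs_mul, abs_mul, abs_two, abs_of_nonneg (sub_nonneg.2 h.2)]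
  nlinarith [abs_nonneg (psum (cw p) (i + 1)), h.1]

theorem Hh_self (w : ℕ → ℝ) (k t : ℕ) : Hh w k t t = psum w t := by
  cases k with
  | zero => rfl
  | succ k => exact if_pos le_rfl

theorem dyn (p : ℕ → unitInterval) (m n : ℕ) :
    Ex (cw p) m n (fun a b => ∑ i ∈ range (a + b), hr (cw p) i +
      2 * (((m - b : ℕ) : ℝ) * psum (cw p) (a + b))) =
      2 * ∑ i ∈ range m, Hh (cw p) n 0 (2 * ((i + 1 : ℕ) : ℤ)) := by
  have h := Ex_dyn (cw_mem p) m n (V := fun a b => ∑ i ∈ range (a + b), hr (cw p) i +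
    2 * ∑ i ∈ range (m - b), Hh (cw p) (n - (a + b)) (a + b) ((a + b : ℕ) + 2 * ((i + 1 : ℕ) : ℤ)))
    fun a b hb hn => by
      obtain ⟨k, hk⟩ : ∃ k, n - (a + b) = k + 1 := ⟨n - (a + b) - 1, by omega⟩
      obtain ⟨l, hl⟩ : ∃ l, m - b = l + 1 := ⟨m - b - 1, by omega⟩
      rw [add_right_comm a 1 b, ← add_assoc a b 1, hk, show n - (a + b + 1) = k by omega,
        show m - (b + 1) = l by omega, hl]
      generalize a + b = t
      have e : ∀ i : ℕ, Hh (cw p) (k + 1) t (t + 2 * ((i + 1 : ℕ) : ℤ)) =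
          cw p t * Hh (cw p) k (t + 1) ((t + 1 : ℕ) + 2 * ((i + 1 : ℕ) : ℤ)) +
          (1 - cw p t) * Hh (cw p) k (t + 1) ((t + 1 : ℕ) + 2 * (i : ℤ)) := fun i => by
        rw [Hh, if_neg (by omega), show (t : ℤ) + 2 * ((i + 1 : ℕ) : ℤ) + 1 =
          (t + 1 : ℕ) + 2 * ((i + 1 : ℕ) : ℤ) by omega,
          show (t : ℤ) + 2 * ((i + 1 : ℕ) : ℤ) - 1 = (t + 1 : ℕ) + 2 * (i : ℤ) by omega]
      simp only [e]
      rw [sum_add_distrib, ← mul_sum, ← mul_sum,
        sum_range_succ' (fun i : ℕ => Hh (cw p) k (t + 1) ((t + 1 : ℕ) + 2 * (i : ℤ))),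
        Nat.cast_zero, mul_zero, add_zero, Hh_self, sum_range_succ (hr (cw p)), hr]
      ring
  simp only [add_zero, sum_range_zero, Nat.sub_zero, Nat.cast_zero, zero_add] at h
  rw [← h]
  refine Ex_congr _ _ _ fun a b hr => ?_
  by_cases hb : b < m
  · simp [hr.2.2 hb, Hh]
  · simp [show m - b = 0 by omega]

theorem lim {p : ℕ → unitInterval} {ε : ℝ} (hHH : S_HH) (h : UE p ε) {m : ℕ} (hm : 1 ≤ m) :
    EU p m (fun y => ∑ i ∈ range (y + m), hr (cw p) i) = 2 * ∑ i ∈ range m, rho p 1 (i + 1) := by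
  have h1 := (all_LIM p ε h m hm).2.2 (fun a b => ∑ i ∈ range (a + b), hr (cw p) i +
    2 * (((m - b : ℕ) : ℝ) * psum (cw p) (a + b))) (2 * m + 2) fun a b => by
      rw [← Nat.cast_add]
      generalize a + b = t
      have a1 := inc (f := hr (cw p)) (B := 2 * t) (a := t) (b := 0) fun i hi =>
        (hr_abs p i).trans (by
          have : ((i + 1 : ℕ) : ℝ) ≤ t := Nat.cast_le.2 (by omega)
          linarith [psum_abs p (i + 1)])
      rw [sum_range_zero, sub_zero, Nat.cast_zero, sub_zero, Nat.abs_cast] at a1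
      have a2 : ((m - b : ℕ) : ℝ) * |psum (cw p) t| ≤ m * (t : ℝ) ^ 2 :=
        mul_le_mul (Nat.cast_le.2 (by omega)) ((psum_abs p t).trans
          (by exact_mod_cast Nat.le_self_pow two_ne_zero t)) (abs_nonneg _) (Nat.cast_nonneg _)
      refine (abs_add_le _ _).trans ?_
      rw [abs_mul, abs_mul, abs_two, Nat.abs_cast]
      nlinarith
  simp only [dyn, Nat.sub_self, Nat.cast_zero, zero_mul, mul_zero, add_zero] at h1
  exact tendsto_nhds_unique h1 ((tendsto_finsetSum _ fun i _ =>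
    hHH.1 p ε h (i + 1) (by omega)).const_mul 2)

end SUMRx

theorem p_SUMR (hEXP : S_EXP) (hHH : S_HH) :
    S_SUMR := by
  intro p ε γ CD J h M0 hM
  obtain ⟨C, -, hC⟩ := hEXP p ε γ CD J h
  obtain ⟨K, K1, hK⟩ := poly_exp 2
  refine ⟨10 * CD * K * C + 4 * M0, fun m hm => ?_⟩
  have m0 : (0 : ℝ) < m := by exact_mod_cast hm
  have t1 := one_le_tt h.g0.le hm
  have s1 := one_le_sqrt' hm
  have s2 := sqrt_sq' m
  have c1 := h.C1
  have t2 : tt γ m ≤ m := ((le_self_pow₀ t1 (by norm_num)).trans (tt_32 h.g1 hm)).trans (by nlinarith)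
  obtain ⟨i1, i2⟩ := hC m hm (fun y => ∑ i ∈ range (y + m), hr (cw p) i -
    ∑ i ∈ range (2 * m), hr (cw p) i) (10 * CD * K * m / tt γ m) fun y => by
      have u0 := uu_nonneg m y
      have u1 := uu_mul hm y
      have a1 := SUMRx.inc (f := hr (cw p)) (B := 2 * (CD * √(m : ℝ) / tt γ m * (5 + uu m y)))
        (a := y + m) (b := 2 * m) fun i hi => (SUMRx.hr_abs p i).trans (by
          refine mul_le_mul_of_nonneg_left ((h.dabs hm (i + 1)).trans (mul_le_mul
            (div_le_div_of_nonneg_left (by positivity) (by positivity)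
              (le_self_pow₀ t1 (by norm_num))) ?_ (by positivity) (by positivity))) two_pos.le
          have b1 : ((i + 1 : ℕ) : ℝ) ≤ 2 * m + |(y : ℝ) - m| := by
            rcases hi with hi | hi
            · have : ((i + 1 : ℕ) : ℝ) ≤ y + m := by exact_mod_cast hi
              linarith [le_abs_self ((y : ℝ) - m)]
            · have : ((i + 1 : ℕ) : ℝ) ≤ 2 * m := by exact_mod_cast hi
              linarith [abs_nonneg ((y : ℝ) - m)]
          have b2 : uu m y * √(m : ℝ) ≤ uu m y * m := mul_le_mul_of_nonneg_left (by nlinarith) u0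
          have b3 : (((i + 1 : ℕ) : ℝ) + 1) / m ≤ 3 + uu m y := by
            rw [div_le_iff₀ m0]; nlinarith
          linarith)
      rw [show ((y + m : ℕ) : ℝ) - (2 * m : ℕ) = y - m by push_cast; ring, ← u1] at a1
      have a2 : Real.exp (uu m y / 32) ≤ Real.exp (uu m y / 8) := Real.exp_le_exp.2 (by linarith)
      have a3 : uu m y * (5 + uu m y) ≤ 5 * (K * Real.exp (uu m y / 8)) := by
        nlinarith [hK _ u0]
      calc _ ≤ _ := a1
        _ = 2 * CD * √(m : ℝ) ^ 2 / tt γ m * (uu m y * (5 + uu m y)) := by ring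
        _ ≤ 2 * CD * √(m : ℝ) ^ 2 / tt γ m * (5 * (K * Real.exp (uu m y / 8))) :=
          mul_le_mul_of_nonneg_left a3 (by positivity)
        _ = _ := by rw [s2]; ring
  have e1 := SUMRx.lim hHH h.ue hm
  have e2 := integral_add i1 (integrable_const (∑ i ∈ range (2 * m), hr (cw p) i))
  simp only [sub_add_cancel, integral_const, probReal_univ, one_smul] at e2
  have e3 := (sum_range_succ' (rho p 1) m).symm.trans (sum_range_succ (rho p 1) m)
  have e4 : M0 ≤ M0 * m / tt γ m := by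
    rw [le_div_iff₀ (by linarith)]
    exact mul_le_mul_of_nonneg_left t2 ((abs_nonneg _).trans (hM 0))
  have e5 : (10 * CD * K * C + 4 * M0) * m / tt γ m =
      10 * CD * K * m / tt γ m * C + 4 * (M0 * m / tt γ m) := by ring
  unfold EU at e1 i2
  have a := abs_le.1 (hM 0)
  have b := abs_le.1 (hM m)
  have c := abs_le.1 i2
  rw [e5, abs_le]
  constructor <;> linarith [a.1, a.2, b.1, b.2, c.1, c.2]

end

section

open MeasureTheory ProbabilityTheory Filter Topology Finset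
open scoped ENNReal
open Pool.Agent.P.MP_c7fa75_pr.T Pool.Agent.P.MP_c7fa75_pr.R2 Pool.Agent.P.MP_758450_pr.IT

namespace COUPx

theorem ins (p : ℕ → unitInterval) (a n : ℕ) : Ins 0 (seg (cw p) a n) :=
  Ins_seg (fun i => ⟨(cw_mem p i).1, (cw_mem p i).2.trans_eq (sub_zero 1).symm⟩) a n

theorem mart (p : ℕ → unitInterval) (x n : ℕ) (φ : ℤ → ℝ) :
    Ex (cw p) x n (fun a b => Op (seg (cw p) (a + b) (n - (a + b))) φ ((x : ℤ) + a - b)) =
      Op (seg (cw p) 0 n) φ x := by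
  rw [Ex_dyn (cw_mem p) x n fun a b _ hn => ?_]
  · simp
  · obtain ⟨k, rfl⟩ := Nat.exists_eq_add_of_lt hn
    rw [show a + b + k + 1 - (a + b) = k + 1 by omega, show a + 1 + b = a + b + 1 by omega,
      ← add_assoc a b 1, show a + b + k + 1 - (a + b + 1) = k by omega, seg_succ, Op_cons, sp]
    push_cast
    rw [show (x : ℤ) + (a + 1) - b = x + a - b + 1 by ring,
      show (x : ℤ) + a - (b + 1) = x + a - b - 1 by ring]

theorem dev (p : ℕ → unitInterval) {φ : ℤ → ℝ} {e L D S : ℝ} (hL : 0 ≤ L)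
    (hφ : ∀ z z' : ℤ, |φ z - φ z'| ≤ e + L * |(z : ℝ) - z'|) {a n : ℕ}
    (h1 : |psum (cw p) (a + n)| ≤ D) (h2 : |psum (cw p) a| ≤ D) (h0 : 0 ≤ S) (hS : (n : ℝ) ≤ S ^ 2)
    (y : ℤ) : |Op (seg (cw p) a n) φ y - φ y| ≤ e + L * (2 * D + S) := by
  refine (Op_dev (ins p a n) hL hφ y).trans (add_le_add le_rfl (mul_le_mul_of_nonneg_left ?_ hL))
  rw [dr_seg, seg_length]
  have := abs_sub (psum (cw p) (a + n)) (psum (cw p) a)
  have := Real.sqrt_le_iff.2 ⟨h0, hS⟩
  linarith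

end COUPx

open COUPx in
theorem p_COUP (hEXP : S_EXP) :
    S_COUP := by
  intro p ε γ CD J hS
  obtain ⟨C, C1, hC⟩ := hEXP p ε γ CD J hS
  obtain ⟨C2, C21, hC2⟩ := poly_exp 2
  have cd := hS.C1
  refine ⟨(12 * CD + 2) * (C2 * C + 1), by positivity, ?_⟩
  filter_upwards [eventually_ge_atTop 1, (tt_top hS.g0).eventually_ge_atTop 2] with x hx t2
  intro φ M e L he hL hM hφ
  have M0 : 0 ≤ M := (abs_nonneg _).trans (hM 0)
  have s1 := one_le_sqrt' hx
  have ss := sqrt_sq' x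
  have t32 := tt_32 hS.g1 hx
  have hd := hS.dabs hx
  have um := uu_mul hx
  have x1 : (1 : ℝ) ≤ x := by exact_mod_cast hx
  rw [mul_div_assoc]
  generalize tt γ x = t at *
  generalize √(x : ℝ) = s at *
  have t1 : 1 ≤ t := by linarith
  set σ := s / t ^ 15 with hσ
  have σ0 : 0 < σ := by positivity
  have k1 : s * t ^ 2 ≤ σ ^ 2 := by
    rw [hσ, div_pow, le_div_iff₀ (by positivity)]
    calc s * t ^ 2 * (t ^ 15) ^ 2 = s * t ^ 32 := by ring
      _ ≤ s * s := by gcongr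
      _ = _ := by ring
  have k2 : s ≤ s * t ^ 2 := le_mul_of_one_le_right (by linarith) (one_le_pow₀ t1)
  set R := ⌈s * t ^ 2⌉₊
  have R1 : s * t ^ 2 ≤ R := Nat.le_ceil _
  have R2 : (R : ℝ) ≤ 2 * (s * t ^ 2) := by
    have := Nat.ceil_lt_add_one (show 0 ≤ s * t ^ 2 by positivity)
    linarith
  have R3 : R ≤ x := by
    have a : t ^ 3 ≤ t ^ 32 := pow_le_pow_right₀ t1 (by norm_num)
    have b : 2 * t ^ 2 ≤ s := by nlinarith [sq_nonneg t]
    have : (R : ℝ) ≤ x := by nlinarith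
    exact_mod_cast this
  have hD : ∀ n ≤ 2 * x + R, |psum (cw p) n| ≤ 6 * CD * σ := fun n hn => by
    have a : (n : ℝ) ≤ 3 * x := by exact_mod_cast (by omega : n ≤ 3 * x)
    have b : ((n : ℝ) + 1) / x ≤ 4 := by rw [div_le_iff₀ (by linarith)]; linarith
    have c : s / t ^ 16 ≤ σ := by rw [hσ]; gcongr; norm_num
    refine (hd n).trans ?_
    calc CD * s / t ^ 16 * (2 + ((n : ℝ) + 1) / x) ≤ CD * s / t ^ 16 * 6 := by gcongr; linarith
      _ = 6 * CD * (s / t ^ 16) := by ring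
      _ ≤ _ := by gcongr
  set Q := e + L * σ + M / t ^ 4 with hQ
  have q1 : 0 ≤ L * σ := by positivity
  have q2 : 0 ≤ M / t ^ 4 := by positivity
  have Q0 : 0 ≤ Q := by positivity
  set V : ℕ → ℕ → ℝ := fun a b =>
    Op (seg (cw p) (a + b) (2 * x + R - (a + b))) φ ((x : ℤ) + a - b) with hV
  have e1 : |Ex (cw p) x (2 * x + R) V - Op (seg (cw p) 0 (2 * x)) φ x| ≤ (12 * CD + 2) * Q := by
    rw [hV, COUPx.mart, seg_add, Op_append, ← Op_sub, zero_add]
    refine (Op_abs (ins p _ _) (fun z => dev p hL hφ (hD _ le_rfl) (hD _ (by omega))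
      (S := 2 * σ) (by positivity) (by nlinarith) z) _).trans ?_
    nlinarith [mul_nonneg (show 0 ≤ 12 * CD + 1 by linarith) he,
      mul_nonneg (show 0 ≤ 12 * CD + 2 by linarith) q2]
  have e2 : ∀ e0 : ℕ → Bool, (∃ n, x ≤ Ll e0 n) →
      |φ (Uo e0 x) - V (Rr e0 (tau e0 x (2 * x + R))) (Ll e0 (tau e0 x (2 * x + R)))| ≤
        (12 * CD + 2) * Q * (1 + uu x (Uo e0 x)) ^ 2 := by
    intro e0 h0
    have u0 := uu_nonneg x (Uo e0 x)
    have u1 := um (Uo e0 x)
    have u2 : 1 + uu x (Uo e0 x) ≤ (1 + uu x (Uo e0 x)) ^ 2 := by nlinarith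
    have n1 := Rr_add_Ll e0 (tau e0 x (2 * x + R))
    have n2 := tau_le e0 x (2 * x + R)
    rcases tau_cases e0 x (2 * x + R) with h | h
    · rw [h, ← Uo_eq_of_tau h] at n1 ⊢
      generalize Uo e0 x = a at *
      have n3 : ((2 * x + R - (a + x) : ℕ) : ℝ) ≤ (2 * (1 + uu x a) * σ) ^ 2 := by
        rw [Nat.cast_sub (by omega)]
        push_cast
        have := neg_abs_le ((a : ℝ) - x)
        have := mul_le_mul_of_nonneg_left (k2.trans k1) u0
        nlinarith [mul_nonneg u0 (sq_nonneg σ), mul_nonneg (sq_nonneg (uu x a)) (sq_nonneg σ)]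
      have := dev p hL hφ (hD (a + x + (2 * x + R - (a + x))) (by omega)) (hD _ (by omega))
        (by positivity) n3 a
      rw [abs_sub_comm] at this
      simp only [hV, add_sub_cancel_left]
      refine this.trans (le_trans ?_ (mul_le_mul_of_nonneg_left u2 (by positivity)))
      have a1 : e ≤ (12 * CD + 2) * e * (1 + uu x a) := by
        nlinarith [mul_nonneg he u0, mul_nonneg (mul_nonneg he u0) (show 0 ≤ CD by linarith),
          mul_nonneg he (show 0 ≤ CD by linarith)]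
      have a2 : 0 ≤ (12 * CD + 2) * (M / t ^ 4) * (1 + uu x a) := by positivity
      have a3 : 0 ≤ CD * (L * σ) * uu x a := by positivity
      rw [hQ]
      nlinarith
    · have n4 := le_Uo h0 h.2
      rw [h.1] at n1
      have n5 : (x : ℝ) + R ≤ Uo e0 x := by exact_mod_cast (by omega : x + R ≤ Uo e0 x)
      have n6 : t ^ 2 ≤ uu x (Uo e0 x) := by
        refine le_of_mul_le_mul_right ?_ (show 0 < s by linarith)
        have := le_abs_self ((Uo e0 x : ℝ) - x)
        linarith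
      have n7 : t ^ 4 ≤ (1 + uu x (Uo e0 x)) ^ 2 := by
        rw [show t ^ 4 = (t ^ 2) ^ 2 by ring]
        gcongr
        linarith
      calc _ ≤ M + M := (abs_sub _ _).trans (add_le_add (hM _) (Op_abs (ins p _ _) hM _))
        _ = 2 * (M / t ^ 4) * t ^ 4 := by field_simp; ring
        _ ≤ _ := by gcongr <;> linarith
  have i1 := hC x hx (fun y => φ y) M fun y => (hM y).trans
    (le_mul_of_one_le_right M0 (Real.one_le_exp (by linarith [uu_nonneg x y])))
  have i2 := hC x hx (fun y => (1 + uu x y) ^ 2) C2 fun y => by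
    have := uu_nonneg x y
    rw [abs_of_nonneg (by positivity)]
    exact (hC2 _ this).trans (by gcongr; norm_num)
  have l1 := LIMx.tr p_LAWT p x fun y => φ y
  have l2 := LIMx.tr p_LAWT p x fun y => (1 + uu x y) ^ 2
  have e3 : |EU p x (fun y => φ y) - Ex (cw p) x (2 * x + R) V| ≤ (12 * CD + 2) * Q * (C2 * C) := by
    rw [EU, l1.2, Ex, ← integral_sub (l1.1.1 i1.1) (intg _ _ _ V)]
    rw [← Real.norm_eq_abs]
    refine (norm_integral_le_of_norm_le ((l2.1.1 i2.1).const_mul ((12 * CD + 2) * Q))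
      ((LIMx.inf hS.ue.1 hS.ue.2 x).mono fun u hu => ?_)).trans ?_
    · exact e2 _ hu
    rw [integral_const_mul, ← l2.2]
    exact mul_le_mul_of_nonneg_left ((le_abs_self _).trans i2.2) (by positivity)
  exact (abs_sub_le _ _ _).trans ((add_le_add e3 e1).trans_eq (by ring))

end

section

open MeasureTheory ProbabilityTheory Filter Topology Finset
open scoped ENNReal
open Pool.Agent.P.MP_c7fa75_pr.T Pool.Agent.P.MP_c7fa75_pr.R2 Pool.Agent.P.MP_758450_pr.IT

namespace SETx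

theorem st {p : ℕ → unitInterval} {ε0 β : ℝ} (hU : UE p ε0) (hβ : β < 1 / 2)
    (hO : psum (cw p) =O[atTop] fun n : ℕ => (n : ℝ) ^ β) :
    ∃ (ε γ CD : ℝ) (J : ℕ), St p ε γ CD J := by
  obtain ⟨C, C0, hC⟩ := Asymptotics.bound_of_isBigO_nat_atTop hO
  set γ : ℝ := min (1 / 64) ((1 / 2 - β) / 16) with hγ
  have g0 : 0 < γ := lt_min (by norm_num) (by linarith)
  have g1 : γ ≤ 1 / 64 := min_le_left _ _
  have g2 : γ ≤ (1 / 2 - β) / 16 := min_le_right _ _
  refine ⟨min ε0 (1 / 4), γ, C + 1, ⌈1 / (2 * γ)⌉₊, ⟨⟨lt_min hU.1 (by norm_num), fun i =>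
    ⟨(min_le_left _ _).trans (hU.2 i).1, by linarith [(hU.2 i).2, min_le_left ε0 (1 / 4)]⟩⟩,
    min_le_right _ _, g0, g1, Nat.ceil_pos.2 (by positivity), fun x hx => ?_, by linarith,
    fun x n hx => ?_⟩⟩
  · rw [tt_pow, Real.sqrt_eq_rpow]
    refine Real.rpow_le_rpow_of_exponent_le (by exact_mod_cast hx) ?_
    have := Nat.le_ceil (1 / (2 * γ))
    rw [div_le_iff₀ (by positivity)] at this
    linarith
  · have x1 : (1 : ℝ) ≤ x := by exact_mod_cast hx
    have t1 := one_le_tt g0.le hx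
    rcases Nat.eq_zero_or_pos n with rfl | hn
    · simp only [psum, range_zero, sum_empty]
      rw [zero_pow two_ne_zero]
      positivity
    have n1 : (1 : ℝ) ≤ n := by exact_mod_cast hn
    have h1 := hC (x := n) (Real.rpow_pos_of_pos (by linarith) β).ne'
    rw [Real.norm_eq_abs, Real.norm_eq_abs, abs_of_pos (Real.rpow_pos_of_pos (by linarith) β)] at h1
    have h2 : psum (cw p) n ^ 2 ≤ (C + 1) ^ 2 * ((n : ℝ) ^ β) ^ 2 := by
      rw [← mul_pow, ← sq_abs]
      refine pow_le_pow_left₀ (abs_nonneg _) (h1.trans ?_) 2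
      have := Real.rpow_pos_of_pos (show (0 : ℝ) < n by linarith) β
      nlinarith
    refine h2.trans ?_
    rw [mul_div_assoc]
    refine mul_le_mul_of_nonneg_left ?_ (by positivity)
    set z : ℝ := (x : ℝ) + n + 1 with hz
    have z1 : 1 ≤ z := by linarith
    have a1 : ((n : ℝ) ^ β) ^ 2 ≤ z ^ (1 - γ * 32) := by
      rw [← Real.rpow_mul_natCast (by linarith)]
      refine (Real.rpow_le_rpow_of_exponent_le n1 (show β * (2 : ℕ) ≤ 1 - γ * 32 by
        push_cast; linarith)).trans ?_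
      exact Real.rpow_le_rpow (by linarith) (by linarith) (by linarith)
    have a2 : tt γ x ^ 32 ≤ z ^ (γ * 32) := by
      rw [tt_pow]
      exact Real.rpow_le_rpow (by linarith) (by linarith) (by push_cast; linarith)
    rw [Real.rpow_sub (by linarith), Real.rpow_one] at a1
    exact a1.trans (div_le_div_of_nonneg_left (by linarith) (by positivity) a2)

end SETx

theorem p_SET (hEXP : S_EXP) :
    S_SET := by
  intro p ε0 β Θ hU hβ hO hΘ
  obtain ⟨ε, γ, CD, J, h⟩ := SETx.st hU hβ hO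
  obtain ⟨C, C1, hC⟩ := hEXP p ε γ CD J h
  obtain ⟨K, K1, hK⟩ := poly_exp 2
  obtain ⟨A, B, -, -, hM⟩ := Freex.mo all_LIM (p_CEN p_HOR all_LIM) h.ue
  have θ0 : 0 ≤ Θ := (abs_nonneg _).trans (hΘ 0)
  refine ⟨ε, γ, CD, max |rho p 1 0| (Θ * (K * C) / 2), J, h, fun x => ?_⟩
  rcases Nat.eq_zero_or_pos x with rfl | hx
  · exact le_max_left _ _
  refine le_trans ?_ (le_max_right _ _)
  have x0 : (0 : ℝ) < x := by exact_mod_cast hx
  have n1 := (hM x hx).2.1
  have v0 : 0 < nu p 1 x := by linarith [h.ue.1]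
  have h1 := (hC x hx (fun y => ((y : ℝ) - x) ^ 2) (K * x) fun y => by
    have u0 := uu_nonneg x y
    have a := hK _ u0
    have b : Real.exp (uu x y / 32) ≤ Real.exp (uu x y / 8) := Real.exp_le_exp.2 (by linarith)
    rw [abs_of_nonneg (sq_nonneg _), ← sq_abs, ← uu_mul hx, mul_pow, sqrt_sq', mul_right_comm]
    refine mul_le_mul_of_nonneg_right ?_ x0.le
    nlinarith).2
  have h2 : nu p 1 x ≤ K * C := by
    rw [nu, div_le_iff₀ x0]
    simp only [one_mul]
    exact (le_abs_self _).trans (h1.trans_eq (by ring))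
  have h3 : rho p 1 x = theta p 1 x * nu p 1 x / 2 := by rw [theta]; field_simp
  rw [h3, abs_div, abs_mul, abs_of_pos v0, abs_two]
  have := hΘ x
  gcongr

end

end Pool.Agent.P.MP_758450_pr.EX
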