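import Pool.Agent.P.MP_758450_pr.EXA

/-! Explicit test, part three: the corrector. -/

set_option autoImplicit false
set_option linter.unusedSectionVars false

namespace Pool.Agent.P.MP_758450_pr.EX

section

open MeasureTheory ProbabilityTheory Filter Topology Finset
open scoped ENNReal
open Pool.Agent.P.MP_c7fa75_pr.T Pool.Agent.P.MP_c7fa75_pr.R2 Pool.Agent.P.MP_758450_pr.IT

namespace BDx

theorem alg {M e s r t c d : ℝ} (hM : 0 ≤ M) (he : 0 < e) (hs : 1 ≤ s) (hr : 1 ≤ r) (ht : 1 ≤ t)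
    (hc : 1 ≤ c) (hd : 0 ≤ d) (hrt : r ≤ 2 * t) :
    M / (e * s * r) * (r ^ 2 * (18 * (c * s / t ^ 16)) + r * (2 * d)) ≤
      M / e * (36 * c) * (1 / t ^ 15 + d / s) := by
  have e1 : M / (e * s * r) * (r ^ 2 * (18 * (c * s / t ^ 16)) + r * (2 * d)) =
      M / e * (18 * c * (r / t ^ 16) + 2 * (d / s)) := by field_simp
  have e2 : r / t ^ 16 ≤ 2 * (1 / t ^ 15) := by
    rw [div_le_iff₀ (by positivity)]
    refine hrt.trans_eq ?_
    field_simp
  have e3 : 0 ≤ d / s := by positivity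
  rw [e1, mul_assoc (M / e)]
  refine mul_le_mul_of_nonneg_left ?_ (by positivity)
  nlinarith [mul_le_mul_of_nonneg_left e2 (show 0 ≤ 18 * c by positivity),
    mul_nonneg (show 0 ≤ 36 * c - 2 by linarith) e3]

theorem ps {p : ℕ → unitInterval} {ε γ CD : ℝ} {J : ℕ} (h : St p ε γ CD J) {x : ℕ}
    (hx : 1 ≤ x) {n : ℕ} (hn : n ≤ 6 * x) :
    |psum (cw p) n| ≤ 9 * (CD * √(x : ℝ) / tt γ x ^ 16) := by
  have x1 : (1 : ℝ) ≤ x := by exact_mod_cast hx
  have t1 := one_le_tt h.g0.le hx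
  have c1 := h.C1
  have n1 : (n : ℝ) ≤ 6 * x := by exact_mod_cast hn
  have a : ((n : ℝ) + 1) / x ≤ 7 := by rw [div_le_iff₀ (by linarith)]; linarith
  refine (h.dabs hx n).trans ?_
  rw [mul_comm 9]
  exact mul_le_mul_of_nonneg_left (by linarith) (by positivity)

end BDx

theorem p_BD (hLQ : S_LQ) :
    S_BD := by
  intro p ε γ CD J h M0 hM
  have M1 : 0 ≤ M0 := (abs_nonneg _).trans (hM 0)
  have e0 : 0 < √ε := Real.sqrt_pos.2 h.ue.1
  have c1 := h.C1
  refine ⟨M0 / √ε * (36 * CD), by positivity, fun x hx => ?_⟩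
  have t1 := one_le_tt h.g0.le hx
  have s1 := one_le_sqrt' hx
  have key : ∀ y d : ℕ, Win x y → Win x (y + d) → ∀ k : ℕ, (k : ℝ) ≤ 4 * tt γ x ^ 2 → ∀ z,
      |Qk p (y + d) k z - Qk p y k z| ≤
        M0 / √ε * (36 * CD) * (1 / tt γ x ^ 15 + √(d : ℝ) / √(x : ℝ)) := by
    intro y d hy hy' k hk z
    rcases Nat.eq_zero_or_pos k with rfl | k0
    · rw [Qk_zero, Qk_zero, sub_self, abs_zero]; positivity
    have r1 := one_le_sqrt' k0
    have e1 : Qk p (y + d) k = Op (rep k (seg (cw p) (2 * y) (2 * d))) (Qk p y k) := by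
      rw [Qk, Qk, mul_add, seg_add, Op_rep_append, Op_comm, zero_add]
    have hI : Ins 0 (rep k (seg (cw p) (2 * y) (2 * d))) :=
      (Ins_rep (Ins_seg h.ue.2 _ _) k).zero h.ue.1.le
    have hL : M0 / √(ε * (2 * y * k) + 1) ≤ M0 / (√ε * √(x : ℝ) * √(k : ℝ)) := by
      refine div_le_div_of_nonneg_left M1 (by positivity) ?_
      rw [← Real.sqrt_mul h.ue.1.le, ← Real.sqrt_mul (mul_nonneg h.ue.1.le (Nat.cast_nonneg x))]
      refine Real.sqrt_le_sqrt ?_
      have a : (x : ℝ) ≤ 2 * y := by exact_mod_cast hy.1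
      have b := mul_le_mul_of_nonneg_right a (Nat.cast_nonneg (α := ℝ) k)
      nlinarith [mul_le_mul_of_nonneg_left b h.ue.1.le]
    have h1 := Op_dev hI (φ := Qk p y k) (e := 0) (L := M0 / (√ε * √(x : ℝ) * √(k : ℝ)))
      (by positivity) (fun z z' => by
        rw [zero_add]
        exact ((hLQ p ε γ CD J h M0 hM y k).2 z z').trans
          (mul_le_mul_of_nonneg_right hL (abs_nonneg _))) z
    rw [e1]
    refine h1.trans ?_
    rw [zero_add]
    have h2 : |dr (rep k (seg (cw p) (2 * y) (2 * d)))| ≤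
        √(k : ℝ) ^ 2 * (18 * (CD * √(x : ℝ) / tt γ x ^ 16)) := by
      rw [dr_rep, dr_seg, abs_mul, sqrt_sq', abs_of_nonneg (Nat.cast_nonneg k)]
      refine mul_le_mul_of_nonneg_left ((abs_sub _ _).trans ?_) (Nat.cast_nonneg k)
      have a := BDx.ps h hx (n := 2 * y + 2 * d) (by have := hy'.2; omega)
      have b := BDx.ps h hx (n := 2 * y) (by have := hy.2; omega)
      linarith
    have h3 : √((rep k (seg (cw p) (2 * y) (2 * d))).length : ℝ) ≤ √(k : ℝ) * (2 * √(d : ℝ)) := by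
      rw [rep_length, seg_length, Nat.cast_mul, Real.sqrt_mul (Nat.cast_nonneg k)]
      refine mul_le_mul_of_nonneg_left (Real.sqrt_le_iff.2 ⟨by positivity, ?_⟩) (by positivity)
      rw [mul_pow, sqrt_sq']
      push_cast
      linarith [Nat.cast_nonneg (α := ℝ) d]
    have h4 : √(k : ℝ) ≤ 2 * tt γ x := Real.sqrt_le_iff.2 ⟨by positivity, by linarith⟩
    exact (mul_le_mul_of_nonneg_left (add_le_add h2 h3) (by positivity)).trans
      (BDx.alg M1 e0 s1 r1 t1 c1 (Real.sqrt_nonneg _) h4)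
  intro y y' hy hy' k hk z
  rcases le_total y y' with e | e
  · obtain ⟨d, rfl⟩ := Nat.exists_eq_add_of_le e
    rw [abs_sub_comm, show |(y : ℝ) - (y + d : ℕ)| = d by push_cast; simp]
    exact key y d hy hy' k hk z
  · obtain ⟨d, rfl⟩ := Nat.exists_eq_add_of_le e
    rw [show |((y' + d : ℕ) : ℝ) - y'| = d by push_cast; simp]
    exact key y' d hy' hy k hk z

end

section

open MeasureTheory ProbabilityTheory Filter Topology Finset
open scoped ENNReal
open Pool.Agent.P.MP_c7fa75_pr.T Pool.Agent.P.MP_c7fa75_pr.R2 Pool.Agent.P.MP_758450_pr.IT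

namespace CHIx

theorem ck0 (N : ℝ) (k : ℕ) : 0 ≤ ck N k := le_max_left _ _

theorem ck1 {N : ℝ} (hN : 0 ≤ N) (k : ℕ) : ck N k ≤ 1 :=
  max_le zero_le_one (sub_le_self _ (by positivity))

theorem anti {N : ℝ} (hN : 0 ≤ N) (k : ℕ) : 0 ≤ ck N k - ck N (k + 1) :=
  sub_nonneg.2 (max_le_max le_rfl (sub_le_sub_left
    (div_le_div_of_nonneg_right (by push_cast; linarith) hN) _))

theorem zero {N : ℝ} (hN : 0 < N) {k : ℕ} (hk : ⌈N⌉₊ ≤ k) : ck N k = 0 :=
  max_eq_left (sub_nonpos.2 ((one_le_div hN).2 (Nat.ceil_le.1 hk)))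

theorem wsum {N : ℝ} (hN : 0 ≤ N) (K : ℕ) : ∑ k ∈ range K, (ck N k - ck N (k + 1)) ≤ 1 := by
  rw [sum_range_sub']
  linarith [ck1 hN 0, ck0 N K]

theorem ext1 {N : ℝ} (hN : 0 < N) {K : ℕ} (hK : ⌈N⌉₊ ≤ K) (Q : ℕ → ℝ) :
    ∑ k ∈ range ⌈N⌉₊, ck N k * Q k = ∑ k ∈ range K, ck N k * Q k :=
  sum_subset (range_subset_range.2 hK) fun k _ h => by
    rw [zero hN (not_lt.1 fun h' => h (mem_range.2 h')), zero_mul]

theorem ext2 {N : ℝ} (hN : 0 < N) {K : ℕ} (hK : ⌈N⌉₊ ≤ K) (Q : ℕ → ℝ) :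
    ∑ k ∈ range ⌈N⌉₊, (ck N k - ck N (k + 1)) * Q k =
      ∑ k ∈ range K, (ck N k - ck N (k + 1)) * Q k :=
  sum_subset (range_subset_range.2 hK) fun k _ h => by
    have h1 : ⌈N⌉₊ ≤ k := not_lt.1 fun h' => h (mem_range.2 h')
    rw [zero hN h1, zero hN (h1.trans k.le_succ), sub_self, zero_mul]

theorem dif {N N' : ℝ} (hN : 0 < N) (h1 : N / 2 ≤ N') {k : ℕ} (hk : (k : ℝ) ≤ 4 * N) :
    |ck N' k - ck N k| ≤ 8 * |N' - N| / N := by
  have n0 : 0 < N' := by linarith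
  unfold ck
  rw [max_comm 0, max_comm 0]
  refine (abs_max_sub_max_le_abs _ _ _).trans ?_
  rw [show 1 - (k : ℝ) / N' - (1 - k / N) = k * (N' - N) / (N * N') by field_simp; ring, abs_div,
    abs_mul, Nat.abs_cast, abs_of_pos (mul_pos hN n0)]
  calc _ ≤ 4 * N * |N' - N| / (N * (N / 2)) := by gcongr
    _ = _ := by field_simp; ring

theorem split {K : ℕ} {c c' Q Q' : ℕ → ℝ} {M d e S : ℝ} (h1 : ∀ k, k < K → |c' k - c k| ≤ d)
    (h2 : ∀ k, |Q' k| ≤ M) (h3 : ∀ k, k < K → |Q' k - Q k| ≤ e) (h4 : ∀ k, 0 ≤ c k)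
    (h5 : ∑ k ∈ range K, c k ≤ S) (he : 0 ≤ e) :
    |∑ k ∈ range K, c' k * Q' k - ∑ k ∈ range K, c k * Q k| ≤ K * (d * M) + S * e := by
  rw [← sum_sub_distrib]
  refine (abs_sum_le_sum_abs _ _).trans ((sum_le_sum (g := fun k => d * M + c k * e)
    fun k hk => ?_).trans ?_)
  · have hk' := mem_range.1 hk
    rw [show c' k * Q' k - c k * Q k = (c' k - c k) * Q' k + c k * (Q' k - Q k) by ring]
    refine (abs_add_le _ _).trans (add_le_add ?_ ?_)
    · rw [abs_mul]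
      exact mul_le_mul (h1 k hk') (h2 k) (abs_nonneg _) ((abs_nonneg _).trans (h1 k hk'))
    · rw [abs_mul, abs_of_nonneg (h4 k)]
      exact mul_le_mul_of_nonneg_left (h3 k hk') (h4 k)
  · rw [sum_add_distrib, sum_const, card_range, nsmul_eq_mul, ← sum_mul]
    exact add_le_add le_rfl (mul_le_mul_of_nonneg_right h5 he)

theorem bd {K : ℕ} {c Q : ℕ → ℝ} {M : ℝ} (h2 : ∀ k, |Q k| ≤ M) (h4 : ∀ k, 0 ≤ c k) :
    |∑ k ∈ range K, c k * Q k| ≤ M * ∑ k ∈ range K, c k := by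
  rw [mul_sum]
  refine (abs_sum_le_sum_abs _ _).trans (sum_le_sum fun k _ => ?_)
  rw [abs_mul, abs_of_nonneg (h4 k), mul_comm]
  exact mul_le_mul_of_nonneg_right (h2 k) (h4 k)

theorem csum {N : ℝ} (hN : 0 ≤ N) (K : ℕ) : ∑ k ∈ range K, ck N k ≤ K := by
  simpa using sum_le_card_nsmul (range K) (ck N) 1 fun k _ => ck1 hN k

end CHIx

open CHIx in
theorem p_CHI (hLQ : S_LQ) (hBD : S_BD) :
    S_CHI := by
  intro p ε γ CD J h M0 hM
  have hQ := fun b k z => (hLQ p ε γ CD J h M0 hM b k).1 z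
  have m0 : 0 ≤ M0 := (abs_nonneg _).trans (hM 0)
  have g0 := h.g0
  refine ⟨fun b z => ?_, ?_⟩
  · have n0 : 0 ≤ tt γ b ^ 2 := sq_nonneg _
    exact ⟨(bd (fun k => hQ b k z) (ck0 _)).trans (mul_le_mul_of_nonneg_left
        ((csum n0 _).trans (Nat.ceil_lt_add_one n0).le) m0),
      (bd (fun k => hQ b (k + 1) z) (anti n0)).trans (mul_le_of_le_one_right m0 (wsum n0 _))⟩
  obtain ⟨C, C0, hC⟩ := hBD p ε γ CD J h M0 hM
  refine ⟨64 * M0 + 8 * C, by positivity, fun x hx y hw z => ?_⟩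
  have x1 : (1 : ℝ) ≤ x := by exact_mod_cast hx
  have s1 := one_le_sqrt' hx
  have s2 := sqrt_sq' x
  have t1 := one_le_tt g0.le hx
  have t32 := tt_32 h.g1 hx
  have u0 := uu_nonneg x y
  have us := uu_mul hx y
  have hwx : Win x x := ⟨by omega, by omega⟩
  have hd := tt_sub (a := γ * (2 : ℕ)) (by positivity) (by push_cast; linarith [h.g1]) hx y
  rw [← tt_pow, ← tt_pow] at hd
  have hmono : x ≤ y → tt γ x ^ 2 ≤ tt γ y ^ 2 := fun e =>
    pow_le_pow_left₀ (by linarith) (tt_mono g0.le e) 2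
  set N := tt γ x ^ 2 with hN
  set N' := tt γ y ^ 2 with hN'
  have N1 : 1 ≤ N := one_le_pow₀ t1
  have w1 : (x : ℝ) ≤ 2 * y := by exact_mod_cast hw.1
  have w2 : (y : ℝ) ≤ 3 * x := by exact_mod_cast hw.2
  have hlo : N / 2 ≤ N' := by
    rcases le_total x y with e | e
    · linarith [hmono e]
    · have e' : (y : ℝ) ≤ x := by exact_mod_cast e
      have a : N * |(y : ℝ) - x| / x ≤ N / 2 := by
        rw [abs_of_nonpos (by linarith), div_le_iff₀ (by linarith)]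
        nlinarith
      linarith [(abs_le.1 hd).1]
  have hhi : N' ≤ 3 * N := by
    have a : N * |(y : ℝ) - x| / x ≤ 2 * N := by
      have b : |(y : ℝ) - x| ≤ 2 * x := abs_le.2 ⟨by linarith, by linarith⟩
      rw [div_le_iff₀ (by linarith)]
      nlinarith
    linarith [(abs_le.1 hd).2]
  set K := ⌈3 * N⌉₊ with hK
  have K4 : (K : ℝ) ≤ 4 * N := by
    linarith [Nat.ceil_lt_add_one (show 0 ≤ 3 * N by linarith)]
  have k1 : ⌈N⌉₊ ≤ K := Nat.ceil_le_ceil (by linarith)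
  have k2 : ⌈N'⌉₊ ≤ K := Nat.ceil_le_ceil hhi
  have hk : ∀ k, k ≤ K → (k : ℝ) ≤ 4 * N := fun k e => le_trans (by exact_mod_cast e) K4
  set e : ℝ := C * (1 / tt γ x ^ 15 + √|(y : ℝ) - x| / √(x : ℝ)) with he
  have e0 : 0 ≤ e := by positivity
  set r : ℝ := N * |(y : ℝ) - x| / x with hr
  have r0 : 0 ≤ r := by positivity
  have hKd : ∀ c : ℝ, 0 ≤ c → (K : ℝ) * (c * |N' - N| / N * M0) ≤ 4 * c * M0 * r := fun c c0 =>
    calc (K : ℝ) * (c * |N' - N| / N * M0) ≤ 4 * N * (c * r / N * M0) := by gcongr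
      _ = _ := by field_simp
  constructor
  · unfold chi
    rw [ext1 (by linarith) k1, ext1 (by linarith) k2]
    refine (split (fun k hk' => dif (by linarith) hlo (hk k hk'.le)) (fun k => hQ y k z)
      (fun k hk' => hC x hx y x hw hwx k (hk k hk'.le) z) (ck0 N)
      ((csum (by linarith) K).trans K4) e0).trans ?_
    have t16 : tt γ x ^ 16 ≤ √√(x : ℝ) := Real.le_sqrt_of_sq_le (by rw [← pow_mul]; exact t32)
    have t3 : tt γ x ^ 3 ≤ tt γ x ^ 16 := pow_le_pow_right₀ t1 (by norm_num)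
    have q2 : √√(x : ℝ) ^ 2 = √(x : ℝ) := Real.sq_sqrt (by linarith)
    have q1 : 1 ≤ √√(x : ℝ) := Real.one_le_sqrt.2 s1
    have a1 : r ≤ (1 + uu x y) / tt γ x := by
      rw [hr, ← us, div_le_div_iff₀ (by linarith) (by linarith), hN]
      have b : tt γ x ^ 3 ≤ √(x : ℝ) := by nlinarith
      calc tt γ x ^ 2 * (uu x y * √(x : ℝ)) * tt γ x = uu x y * (tt γ x ^ 3 * √(x : ℝ)) := by ring
        _ ≤ (1 + uu x y) * (√(x : ℝ) * √(x : ℝ)) := by gcongr; linarith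
        _ = _ := by rw [← sq, s2]
    have a2 : N * (1 / tt γ x ^ 15) ≤ 1 / tt γ x := by
      rw [hN, mul_one_div, div_le_div_iff₀ (by positivity) (by linarith), one_mul, ← pow_succ]
      exact pow_le_pow_right₀ t1 (by norm_num)
    have a3 : N * (√|(y : ℝ) - x| / √(x : ℝ)) ≤ (uu x y + 1 / 4) / tt γ x := by
      have b : √(uu x y) ≤ uu x y + 1 / 4 := by
        nlinarith [Real.sq_sqrt u0, sq_nonneg (√(uu x y) - 1 / 2)]
      rw [← us, Real.sqrt_mul u0, ← mul_div_assoc, div_le_div_iff₀ (by linarith) (by linarith), hN]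
      calc tt γ x ^ 2 * (√(uu x y) * √√(x : ℝ)) * tt γ x
          = √(uu x y) * (tt γ x ^ 3 * √√(x : ℝ)) := by ring
        _ ≤ (uu x y + 1 / 4) * (√√(x : ℝ) * √√(x : ℝ)) := by gcongr; linarith
        _ = _ := by rw [← sq, q2]
    have a4 := hKd 8 (by norm_num)
    have a5 : (uu x y + 1 / 4) / tt γ x ≤ (1 + uu x y) / tt γ x :=
      div_le_div_of_nonneg_right (by linarith) (by linarith)
    have a6 : 1 / tt γ x ≤ (1 + uu x y) / tt γ x :=
      div_le_div_of_nonneg_right (by linarith) (by linarith)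
    have a7 : 4 * N * e ≤ 4 * C * (2 * ((1 + uu x y) / tt γ x)) := by
      rw [he, show 4 * N * (C * (1 / tt γ x ^ 15 + √|(y : ℝ) - x| / √(x : ℝ))) =
        4 * C * (N * (1 / tt γ x ^ 15) + N * (√|(y : ℝ) - x| / √(x : ℝ))) by ring]
      exact mul_le_mul_of_nonneg_left (by linarith) (by positivity)
    have a8 := mul_le_mul_of_nonneg_left a1 m0
    have a9 := mul_nonneg m0 r0
    rw [mul_div_assoc (64 * M0 + 8 * C)]
    linarith
  · unfold rh
    rw [ext2 (by linarith) k1, ext2 (by linarith) k2]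
    refine (split (d := 16 * |N' - N| / N) (fun k hk' => ?_) (fun k => hQ y (k + 1) z)
      (fun k hk' => hC x hx y x hw hwx (k + 1) (hk _ hk') z) (anti (by linarith))
      (wsum (by linarith) K) e0).trans ?_
    · have a := dif (by linarith) hlo (hk k hk'.le)
      have b := dif (by linarith) hlo (hk (k + 1) hk')
      rw [show ck N' k - ck N' (k + 1) - (ck N k - ck N (k + 1)) =
        (ck N' k - ck N k) - (ck N' (k + 1) - ck N (k + 1)) by ring]
      exact (abs_sub _ _).trans ((add_le_add a b).trans_eq (by ring))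
    · have a4 := hKd 16 (by norm_num)
      have b1 : 0 ≤ 1 / tt γ x ^ 15 := by positivity
      have b2 : 0 ≤ √|(y : ℝ) - x| / √(x : ℝ) := by positivity
      have b3 := mul_nonneg m0 b1
      have b4 := mul_nonneg m0 b2
      have b5 := mul_nonneg C0 r0
      have b6 := mul_nonneg C0 b1
      have b7 := mul_nonneg C0 b2
      linarith

end

section

open MeasureTheory ProbabilityTheory Filter Topology Finset
open scoped ENNReal
open Pool.Agent.P.MP_c7fa75_pr.T Pool.Agent.P.MP_c7fa75_pr.R2 Pool.Agent.P.MP_758450_pr.IT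

namespace LIPx

theorem sum_inv_sqrt (K : ℕ) : ∑ k ∈ range K, 1 / √((k : ℝ) + 1) ≤ 2 * √(K : ℝ) := by
  induction K with
  | zero => simp
  | succ K ih =>
    rw [sum_range_succ]
    push_cast
    have h1 : 0 < √((K : ℝ) + 1) := Real.sqrt_pos.2 (by positivity)
    have h2 := Real.sq_sqrt (show (0 : ℝ) ≤ (K : ℝ) + 1 by positivity)
    have h3 := Real.sq_sqrt (Nat.cast_nonneg (α := ℝ) K)
    have h4 : 1 / √((K : ℝ) + 1) ≤ 2 * √((K : ℝ) + 1) - 2 * √(K : ℝ) := by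
      rw [div_le_iff₀ h1]
      nlinarith [sq_nonneg (√((K : ℝ) + 1) - √(K : ℝ))]
    linarith

theorem sumlip (K : ℕ) (a : ℕ → ℝ) (Q : ℕ → ℤ → ℝ) (A L T : ℝ) (hA : ∀ k, |a k| ≤ A)
    (hL : 0 ≤ L) (hT : 2 * √(K : ℝ) ≤ T)
    (hQ : ∀ (k : ℕ) (z z' : ℤ), |Q k z - Q k z'| ≤ L * (1 / √((k : ℝ) + 1)) * |(z : ℝ) - z'|)
    (z z' : ℤ) :
    |∑ k ∈ range K, a k * Q k z - ∑ k ∈ range K, a k * Q k z'| ≤ A * L * T * |(z : ℝ) - z'| := by
  have A0 : 0 ≤ A := (abs_nonneg _).trans (hA 0)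
  rw [← sum_sub_distrib]
  refine (abs_sum_le_sum_abs _ _).trans ?_
  calc ∑ k ∈ range K, |a k * Q k z - a k * Q k z'|
      ≤ ∑ k ∈ range K, A * L * |(z : ℝ) - z'| * (1 / √((k : ℝ) + 1)) := by
        refine sum_le_sum fun k _ => ?_
        rw [← mul_sub, abs_mul]
        exact (mul_le_mul (hA k) (hQ k z z') (abs_nonneg _) A0).trans_eq (by ring)
    _ = A * L * |(z : ℝ) - z'| * ∑ k ∈ range K, 1 / √((k : ℝ) + 1) := by rw [mul_sum]
    _ ≤ A * L * |(z : ℝ) - z'| * T :=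
        mul_le_mul_of_nonneg_left ((sum_inv_sqrt K).trans hT) (by positivity)
    _ = _ := by ring

theorem ck_abs {N : ℝ} (hN : 0 < N) (k : ℕ) : |ck N k| ≤ 1 := by
  have : 0 ≤ (k : ℝ) / N := by positivity
  rw [ck, abs_of_nonneg (le_max_left _ _)]
  exact max_le zero_le_one (by linarith)

theorem ck_sub {N : ℝ} (hN : 0 < N) (k : ℕ) : |ck N k - ck N (k + 1)| ≤ 1 / N := by
  rw [ck, ck, max_comm, max_comm 0]
  refine (abs_max_sub_max_le_abs _ _ _).trans_eq ?_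
  rw [show 1 - (k : ℝ) / N - (1 - ((k + 1 : ℕ) : ℝ) / N) = 1 / N by push_cast; ring,
    abs_of_pos (by positivity)]

theorem ck_zero (N : ℝ) : ck N 0 = 1 := by simp [ck]

theorem ck_ceil {N : ℝ} (hN : 0 < N) : ck N ⌈N⌉₊ = 0 := by
  rw [ck]
  refine max_eq_left ?_
  have := (one_le_div hN).2 (Nat.le_ceil N)
  linarith

end LIPx

theorem p_LIP (hLQ : S_LQ) :
    S_LIP := by
  intro p ε γ CD J h M0 hM
  have M0' : 0 ≤ M0 := (abs_nonneg _).trans (hM 0)
  have ε0 : 0 < ε := h.ue.1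
  have se : 0 < √ε := Real.sqrt_pos.2 ε0
  refine ⟨3 * M0 / √ε, by positivity, fun x hx => ?_⟩
  have t1 := one_le_tt h.g0.le hx
  have s1 := one_le_sqrt' hx
  set t := tt γ x with ht
  have N1 : 1 ≤ t ^ 2 := one_le_pow₀ t1
  have N0 : 0 < t ^ 2 := by linarith
  have hK : ∀ K : ℕ, K ≤ ⌈t ^ 2⌉₊ → 2 * √(K : ℝ) ≤ 3 * t := fun K hK => by
    have a : (K : ℝ) ≤ ⌈t ^ 2⌉₊ := by exact_mod_cast hK
    have b := (Nat.ceil_lt_add_one N0.le).le
    have c : √(K : ℝ) ≤ 3 / 2 * t := Real.sqrt_le_iff.2 ⟨by positivity, by nlinarith⟩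
    linarith
  have hQ : ∀ (k : ℕ) (z z' : ℤ), |Qk p x (k + 1) z - Qk p x (k + 1) z'| ≤
      M0 / (√ε * √(x : ℝ)) * (1 / √((k : ℝ) + 1)) * |(z : ℝ) - z'| := fun k z z' => by
    refine ((hLQ p ε γ CD J h M0 hM x (k + 1)).2 z z').trans
      (mul_le_mul_of_nonneg_right ?_ (abs_nonneg _))
    have k0 : 0 < √((k : ℝ) + 1) := Real.sqrt_pos.2 (by positivity)
    rw [mul_one_div, div_div]
    refine div_le_div_of_nonneg_left M0' (by positivity) ?_
    rw [← Real.sqrt_mul ε0.le, ← Real.sqrt_mul (by positivity)]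
    refine Real.sqrt_le_sqrt ?_
    have : 0 ≤ ε * x * ((k : ℝ) + 1) := by positivity
    push_cast
    nlinarith
  obtain ⟨K, hKe⟩ : ∃ K, ⌈t ^ 2⌉₊ = K + 1 :=
    Nat.exists_eq_succ_of_ne_zero (Nat.ceil_pos.2 N0).ne'
  have hchi : ∀ z, chi p γ x z = ∑ k ∈ range K, ck (t ^ 2) (k + 1) * Qk p x (k + 1) z + hh p z := by
    intro z
    rw [chi, ← ht, hKe, sum_range_succ', LIPx.ck_zero, one_mul, Qk_zero]
  refine ⟨fun z z' => ?_, fun z z' => ?_, fun z => ?_⟩
  · refine (LIPx.sumlip _ (fun k => ck (t ^ 2) k - ck (t ^ 2) (k + 1)) (fun k => Qk p x (k + 1))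
      _ _ _ (LIPx.ck_sub N0) (by positivity) (hK _ le_rfl) hQ z z').trans_eq ?_
    congr 1
    field_simp
  · rw [hchi, hchi, add_sub_cancel_right, add_sub_cancel_right]
    refine (LIPx.sumlip K (fun k => ck (t ^ 2) (k + 1)) (fun k => Qk p x (k + 1))
      _ _ _ (fun k => LIPx.ck_abs N0 (k + 1)) (by positivity) (hK _ (by omega)) hQ z z').trans_eq ?_
    congr 1
    field_simp
  · have e1 : Op (seg (cw p) 0 (2 * x)) (chi p γ x) z =
        ∑ k ∈ range ⌈t ^ 2⌉₊, ck (t ^ 2) k * Qk p x (k + 1) z := by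
      refine (Op_sum _ _ (fun k z => ck (t ^ 2) k * Qk p x k z) z).trans ?_
      exact sum_congr rfl fun k _ => by rw [Op_mul, Qk_succ]
    have e2 : ck (t ^ 2) (K + 1) = 0 := hKe ▸ LIPx.ck_ceil N0
    rw [e1, hchi, rh, ← ht]
    simp only [sub_mul, sum_sub_distrib]
    rw [hKe, sum_range_succ (fun k => ck (t ^ 2) (k + 1) * Qk p x (k + 1) z), e2]
    ring

end

section

open MeasureTheory ProbabilityTheory Filter Topology Finset
open scoped ENNReal
open Pool.Agent.P.MP_c7fa75_pr.T Pool.Agent.P.MP_c7fa75_pr.R2 Pool.Agent.P.MP_758450_pr.IT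

namespace POIx

/-- The clamp to the window. -/
def cl (x : ℕ) (z : ℤ) : ℤ := max (((x : ℤ) + 1) / 2) (min z (2 * x))

theorem cl_win {x : ℕ} (hx : 1 ≤ x) (z : ℤ) :
    Win x (cl x z).toNat ∧ Win x (cl x z + 1).toNat ∧ 0 ≤ cl x z := by
  unfold Win cl
  omega

theorem cl_lip (x : ℕ) (z z' : ℤ) : |((cl x z : ℤ) : ℝ) - (cl x z' : ℤ)| ≤ |(z : ℝ) - z'| := by
  have : |cl x z - cl x z'| ≤ |z - z'| := by
    unfold cl
    rcases abs_cases (z - z') with h | h <;> rw [h.1, abs_le] <;> constructor <;> omega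
  exact_mod_cast this

theorem cl_far {x : ℕ} (z : ℤ) (h : cl x z ≠ z) : (x : ℝ) ^ 2 ≤ 4 * ((z : ℝ) - x) ^ 2 := by
  have : (x : ℤ) ≤ 2 * (z - x) ∨ (x : ℤ) ≤ 2 * (x - z) := by
    unfold cl at h
    omega
  have x0 : (0 : ℝ) ≤ x := Nat.cast_nonneg x
  rcases this with h | h
  · have h' : (x : ℝ) ≤ 2 * ((z : ℝ) - x) := by exact_mod_cast h
    nlinarith
  · have h' : (x : ℝ) ≤ 2 * ((x : ℝ) - z) := by exact_mod_cast h
    nlinarith

theorem hh_abs {p : ℕ → unitInterval} {M0 : ℝ} (h : ∀ x, |rho p 1 x| ≤ M0) (z : ℤ) :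
    |hh p z| ≤ M0 := by
  have a := abs_le.1 (h z.toNat)
  have b := abs_le.1 (h (z + 1).toNat)
  unfold hh
  exact abs_le.2 ⟨by linarith [a.1, b.1], by linarith [a.2, b.2]⟩

theorem toNat_cast {z : ℤ} (h : 0 ≤ z) : ((z.toNat : ℕ) : ℝ) = (z : ℝ) := by
  rw [← Int.cast_natCast, Int.toNat_of_nonneg h]

theorem div_le_t {A t d : ℝ} (hA : 0 ≤ A) (ht : 1 ≤ t) (hd : t ≤ d) : A / d ≤ A / t :=
  div_le_div_of_nonneg_left hA (by linarith) hd

end POIx

open POIx

theorem p_POI (hEXP : S_EXP) (hRMOD : S_RMOD) (hCOUP : S_COUP) (hCHI : S_CHI) (hLIP : S_LIP) :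
    S_POI := by
  intro p ε γ CD J hS M0 hM
  obtain ⟨CE, hCE, hE⟩ := hEXP p ε γ CD J hS
  obtain ⟨C1, hC1, hR⟩ := hRMOD p ε γ CD J hS M0 hM
  obtain ⟨C2, hC2, hC⟩ := hCOUP p ε γ CD J hS
  obtain ⟨hchi, -⟩ := hCHI p ε γ CD J hS M0 hM
  obtain ⟨C3, hC3, hL⟩ := hLIP p ε γ CD J hS M0 hM
  obtain ⟨Cp, hCp, hp⟩ := poly_exp 2
  have M00 : 0 ≤ M0 := (abs_nonneg _).trans (hM 0)
  refine ⟨C2 * (C1 + (C1 + C3) + 4 * M0) + 8 * M0 * Cp * CE + 8 * M0 * (4 * CD ^ 2 + 2) + C1, ?_⟩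
  filter_upwards [hR, hC, eventually_ge_atTop 1] with x hR hC hx
  obtain ⟨-, hL2, hL3⟩ := hL x hx
  have t1 := one_le_tt hS.g0.le hx
  have s1 := one_le_sqrt' hx
  have ts := tt_32 hS.g1 hx
  have sx := sqrt_sq' x
  have hu := uu_mul hx
  have hD := hS.hD x (2 * x) hx
  have x1 : (1 : ℝ) ≤ x := by exact_mod_cast hx
  set t := tt γ x with ht
  set s := √(x : ℝ) with hs
  have t0 : 0 < t := by linarith
  have s0 : 0 < s := by linarith
  have tp : ∀ k l : ℕ, k ≤ l → t ^ k ≤ t ^ l := fun k l h => pow_le_pow_right₀ t1 h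
  have tp1 : ∀ k : ℕ, 1 ≤ k → t ≤ t ^ k := fun k h => (pow_one t).ge.trans (tp 1 k h)
  have tx : t ≤ x := by nlinarith [tp1 32 (by norm_num)]
  let g : ℤ → ℝ := fun z => hh p (cl x z)
  let φ : ℤ → ℝ := fun z => g z + (chi p γ x z - hh p z)
  let δ : ℤ → ℝ := fun z => hh p z - g z
  have hg : ∀ z z' : ℤ, |g z - g z'| ≤ C1 / t + C1 * t ^ 8 / s * |(z : ℝ) - z'| := by
    intro z z'
    obtain ⟨a1, a2, a3⟩ := cl_win hx z
    obtain ⟨b1, b2, b3⟩ := cl_win hx z'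
    have e1 := hR _ _ a1 b1
    have e2 := hR _ _ a2 b2
    rw [toNat_cast a3, toNat_cast b3] at e1
    rw [toNat_cast (by omega), toNat_cast (by omega), Int.cast_add, Int.cast_add,
      add_sub_add_right_eq_sub] at e2
    have e3 := mul_le_mul_of_nonneg_left (cl_lip x z z')
      (show 0 ≤ C1 * t ^ 8 / s by positivity)
    have e1 := abs_le.1 e1
    have e2 := abs_le.1 e2
    simp only [g, hh]
    exact abs_le.2 ⟨by linarith [e1.1, e2.1], by linarith [e1.2, e2.2]⟩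
  have hφM : ∀ z, |φ z| ≤ 4 * M0 * t ^ 2 := by
    intro z
    have a := abs_le.1 (hh_abs hM (cl x z))
    have b := abs_le.1 (hh_abs hM z)
    have c := abs_le.1 (hchi x z).1
    have d := mul_le_mul_of_nonneg_left (one_le_pow₀ t1 : 1 ≤ t ^ 2) M00
    rw [← ht] at c
    simp only [φ, g]
    exact abs_le.2 ⟨by linarith [a.1, b.2, c.1], by linarith [a.2, b.1, c.2]⟩
  have hφL : ∀ z z' : ℤ, |φ z - φ z'| ≤
      C1 / t + (C1 * t ^ 8 / s + C3 * t / s) * |(z : ℝ) - z'| := by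
    intro z z'
    have a := abs_le.1 (hg z z')
    have b := abs_le.1 (hL2 z z')
    simp only [φ]
    exact abs_le.2 ⟨by linarith [a.1, b.1], by linarith [a.2, b.2]⟩
  have hδ : ∀ z : ℤ, |δ z| ≤ 8 * M0 / (x : ℝ) ^ 2 * ((z : ℝ) - x) ^ 2 := by
    intro z
    by_cases h : cl x z = z
    · simp only [δ, g, h, sub_self, abs_zero]
      positivity
    · have a := abs_le.1 (hh_abs hM (cl x z))
      have b := abs_le.1 (hh_abs hM z)
      have c : 2 * M0 ≤ 8 * M0 / (x : ℝ) ^ 2 * ((z : ℝ) - x) ^ 2 := by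
        rw [div_mul_eq_mul_div, le_div_iff₀ (by positivity)]
        nlinarith [mul_le_mul_of_nonneg_left (cl_far z h) M00]
      simp only [δ, g]
      exact abs_le.2 ⟨by linarith [a.2, b.1], by linarith [a.1, b.2]⟩
  have h1 := hC φ _ _ _ (by positivity) (by positivity) hφM hφL
  have h1' : C1 / t + (C1 * t ^ 8 / s + C3 * t / s) * s / t ^ 15 + 4 * M0 * t ^ 2 / t ^ 4 ≤
      (C1 + (C1 + C3) + 4 * M0) / t := by
    have e1 : (C1 * t ^ 8 / s + C3 * t / s) * s / t ^ 15 = C1 / t ^ 7 + C3 / t ^ 14 := by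
      field_simp
    have e2 : 4 * M0 * t ^ 2 / t ^ 4 = 4 * M0 / t ^ 2 := by field_simp
    rw [e1, e2, add_div, add_div, add_div]
    linarith [div_le_t hC1 t1 (tp1 7 (by norm_num)), div_le_t hC3 t1 (tp1 14 (by norm_num)),
      div_le_t (show 0 ≤ 4 * M0 by positivity) t1 (tp1 2 (by norm_num))]
  have h1 := h1.trans (mul_le_mul_of_nonneg_left h1' hC2)
  have iφ := (hE x hx (fun y => φ y) (4 * M0 * t ^ 2) fun y => (hφM y).trans
    (le_mul_of_one_le_right (by positivity)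
      (Real.one_le_exp (by linarith [uu_nonneg x y])))).1
  obtain ⟨iδ, h2⟩ := hE x hx (fun y => δ y) (8 * M0 * Cp / x) fun y => by
    refine (hδ y).trans ?_
    have u0 := uu_nonneg x y
    have e1 : (((y : ℤ) : ℝ) - x) ^ 2 = uu x y ^ 2 * x := by
      rw [Int.cast_natCast, ← sq_abs, ← hu, mul_pow, sx]
    have e2 : uu x y ^ 2 ≤ Cp * Real.exp (uu x y / 8) :=
      ((pow_le_pow_left₀ u0 (by linarith) 2).trans (hp _ u0)).trans
        (mul_le_mul_of_nonneg_left (Real.exp_le_exp.2 (by linarith)) (by linarith))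
    rw [e1]
    calc 8 * M0 / (x : ℝ) ^ 2 * (uu x y ^ 2 * x) = 8 * M0 / x * uu x y ^ 2 := by field_simp
      _ ≤ 8 * M0 / x * (Cp * Real.exp (uu x y / 8)) :=
        mul_le_mul_of_nonneg_left e2 (by positivity)
      _ = _ := by ring
  have h2' : 8 * M0 * Cp / x * CE ≤ 8 * M0 * Cp * CE / t := by
    rw [div_mul_eq_mul_div]
    exact div_le_t (by positivity) t1 tx
  have hI : Ins 0 (seg (cw p) 0 (2 * x)) :=
    Ins_seg (fun i => ⟨(cw_mem p i).1, by linarith [(cw_mem p i).2]⟩) _ _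
  have h3 := Op_abs_le hI hδ x
  rw [Op_mul] at h3
  have h4 := Op_sq hI (x : ℝ) x
  rw [Int.cast_natCast, sub_self, zero_add, dr_seg, seg_length, zero_add,
    show psum (cw p) 0 = 0 from by simp [psum], sub_zero] at h4
  have h5 : psum (cw p) (2 * x) ^ 2 ≤ 4 * CD ^ 2 * x := by
    refine hD.trans ((div_le_self (by positivity) (one_le_pow₀ t1)).trans ?_)
    push_cast
    nlinarith [sq_nonneg CD]
  have h3' : |Op (seg (cw p) 0 (2 * x)) δ x| ≤ 8 * M0 * (4 * CD ^ 2 + 2) / t := by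
    refine (h3.trans (mul_le_mul_of_nonneg_left (h4.trans (add_le_add h5 le_rfl))
      (by positivity))).trans (le_trans (le_of_eq ?_) (div_le_t (by positivity) t1 tx))
    push_cast
    field_simp
  have h6 : |rho p 1 x - hh p x| ≤ C1 / t := by
    have a := hR x (x + 1) ⟨by omega, by omega⟩ ⟨by omega, by omega⟩
    have e1 : |(x : ℝ) - ((x + 1 : ℕ) : ℝ)| = 1 := by push_cast; simp
    have e2 : C1 * t ^ 8 / s ≤ C1 / t := by
      rw [div_le_div_iff₀ s0 t0, mul_assoc, ← pow_succ]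
      exact mul_le_mul_of_nonneg_left ((tp 9 32 (by norm_num)).trans ts) hC1
    rw [e1, mul_one] at a
    have a := abs_le.1 a
    have e3 : hh p x = (rho p 1 x + rho p 1 (x + 1)) / 2 := rfl
    rw [e3]
    exact abs_le.2 ⟨by linarith [a.1], by linarith [a.2]⟩
  have e1 : chi p γ x = fun z => φ z + δ z := funext fun z => by simp only [φ, δ]; ring
  have e2 : EU p x (fun y => chi p γ x y) = EU p x (fun y => φ y) + EU p x (fun y => δ y) := by
    rw [e1]
    exact integral_add iφ iδ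
  have e3 : Op (seg (cw p) 0 (2 * x)) (chi p γ x) x =
      Op (seg (cw p) 0 (2 * x)) φ x + Op (seg (cw p) 0 (2 * x)) δ x := by
    rw [e1]
    exact Op_add _ _ _ _
  have e4 := hL3 x
  have h1 := abs_le.1 h1
  have h2 := abs_le.1 (h2.trans h2')
  have h3 := abs_le.1 h3'
  have h6 := abs_le.1 h6
  rw [e2, rb, add_div, add_div, add_div, mul_div_assoc C2]
  exact abs_le.2 ⟨by linarith [h1.1, h2.1, h3.2, h6.1], by linarith [h1.2, h2.2, h3.1, h6.2]⟩

end

section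

open MeasureTheory ProbabilityTheory Filter Topology Finset
open scoped ENNReal
open Pool.Agent.P.MP_c7fa75_pr.T Pool.Agent.P.MP_c7fa75_pr.R2 Pool.Agent.P.MP_758450_pr.IT

namespace BLKx

theorem lip_nat {G : ℤ → ℝ} {c : ℝ} (h : ∀ z, |G (z + 1) - G z| ≤ c) (z : ℤ) (d : ℕ) :
    |G (z + d) - G z| ≤ c * d := by
  induction d with
  | zero => simp
  | succ d ih =>
    have a := h (z + d)
    have b := abs_sub_le (G (z + d + 1)) (G (z + d)) (G z)
    push_cast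
    rw [← add_assoc]
    linarith

theorem lip {G : ℤ → ℝ} {c : ℝ} (h : ∀ z, |G (z + 1) - G z| ≤ c) (z z' : ℤ) :
    |G z - G z'| ≤ 0 + c * |(z : ℝ) - z'| := by
  have k : ∀ z z' : ℤ, z' ≤ z → |G z - G z'| ≤ 0 + c * |(z : ℝ) - z'| := fun z z' hz => by
    obtain ⟨d, rfl⟩ := Int.le.dest hz
    have := lip_nat h z' d
    push_cast
    rw [add_sub_cancel_left, Nat.abs_cast, zero_add]
    exact this
  rcases le_total z' z with e | e
  · exact k z z' e
  · rw [abs_sub_comm, abs_sub_comm (z : ℝ)]; exact k z' z e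

theorem hh_abs {p : ℕ → unitInterval} {M0 : ℝ} (h : ∀ x, |rho p 1 x| ≤ M0) (z : ℤ) :
    |hh p z| ≤ M0 := by
  have a := abs_le.1 (h z.toNat)
  have b := abs_le.1 (h (z + 1).toNat)
  unfold hh
  exact abs_le.2 ⟨by linarith [a.1, b.1], by linarith [a.2, b.2]⟩

theorem hh_nat (p : ℕ → unitInterval) (n : ℕ) :
    hh p (n : ℤ) = (rho p 1 n + rho p 1 (n + 1)) / 2 := by
  unfold hh
  rw [Int.toNat_natCast, ← Nat.cast_succ, Int.toNat_natCast]

theorem tele (f : ℤ → ℝ) (z : ℤ) (L : ℕ) :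
    ∑ i ∈ range L, f (z + 1 + i) - ∑ i ∈ range L, f (z + i) = f (z + L) - f z := by
  induction L with
  | zero => simp
  | succ L ih =>
    rw [sum_range_succ, sum_range_succ]
    push_cast
    rw [add_right_comm z 1 L, ← add_assoc]
    linarith

theorem tele2 (p : ℕ → unitInterval) (x L : ℕ) :
    ∑ i ∈ range L, hh p ((x : ℤ) + i) - ∑ i ∈ range L, rho p 1 (x + i) =
      (rho p 1 (x + L) - rho p 1 x) / 2 := by
  induction L with
  | zero => simp
  | succ L ih =>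
    rw [sum_range_succ, sum_range_succ, ← Nat.cast_add, hh_nat, ← add_assoc]
    linarith

theorem ck_anti {N : ℝ} (hN : 0 < N) (k : ℕ) : 0 ≤ ck N k - ck N (k + 1) := by
  rw [sub_nonneg]
  refine max_le_max le_rfl (sub_le_sub_left ?_ _)
  exact div_le_div_of_nonneg_right (by push_cast; linarith) hN.le

theorem ck_sum {N : ℝ} (hN : 0 < N) : ∑ k ∈ range ⌈N⌉₊, (ck N k - ck N (k + 1)) = 1 := by
  rw [sum_range_sub']
  have a : ck N 0 = 1 := by simp [ck]
  have b : ck N ⌈N⌉₊ = 0 := max_eq_left (by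
    rw [sub_nonpos, le_div_iff₀ hN, one_mul]; exact Nat.le_ceil N)
  rw [a, b, sub_zero]

theorem avg {n : ℕ} {w a : ℕ → ℝ} {g K : ℝ} (h0 : ∀ k, 0 ≤ w k) (h1 : ∑ k ∈ range n, w k = 1)
    (h : ∀ k < n, |a k - g| ≤ K) : |∑ k ∈ range n, w k * a k - g| ≤ K := by
  have e : ∑ k ∈ range n, w k * a k - g = ∑ k ∈ range n, w k * (a k - g) := by
    simp only [mul_sub, sum_sub_distrib, ← sum_mul, h1, one_mul]
  rw [e]
  refine (abs_sum_le_sum_abs _ _).trans ?_
  have : ∑ k ∈ range n, |w k * (a k - g)| ≤ ∑ k ∈ range n, w k * K := sum_le_sum fun k hk => by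
    rw [abs_mul, abs_of_nonneg (h0 k)]
    exact mul_le_mul_of_nonneg_left (h k (mem_range.1 hk)) (h0 k)
  rwa [← sum_mul, h1, one_mul] at this

theorem pw {t s : ℝ} (t1 : 1 ≤ t) (h : t ^ 32 ≤ s) {k : ℕ} (hk : k ≤ 32) : t ^ k ≤ s :=
  (pow_le_pow_right₀ t1 hk).trans h

theorem ar1 {t s i : ℝ} (t1 : 1 ≤ t) (h : t ^ 32 ≤ s) (i1 : i ≤ 2 * (s * t ^ 3)) :
    1 / t ^ 15 + t ^ 2 * i / s ^ 2 + √i / s ≤ 5 / t := by
  have s1 : 1 ≤ s := by simpa using pw t1 h (Nat.zero_le 32)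
  have t0 : 0 < t := by linarith
  have s0 : 0 < s := by linarith
  have a : 1 / t ^ 15 ≤ 1 / t :=
    one_div_le_one_div_of_le t0 (by simpa using pow_le_pow_right₀ t1 (show 1 ≤ 15 by norm_num))
  have b : t ^ 2 * i / s ^ 2 ≤ 2 / t := by
    rw [div_le_div_iff₀ (by positivity) t0]
    have h6 := pw t1 h (show 6 ≤ 32 by norm_num)
    calc t ^ 2 * i * t = t ^ 3 * i := by ring
      _ ≤ t ^ 3 * (2 * (s * t ^ 3)) := by gcongr
      _ = 2 * s * t ^ 6 := by ring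
      _ ≤ 2 * s * s := by gcongr
      _ = 2 * s ^ 2 := by ring
  have c : √i / s ≤ 2 / t := by
    rw [div_le_iff₀ s0]
    refine Real.sqrt_le_iff.2 ⟨by positivity, i1.trans ?_⟩
    have h5 := pw t1 h (show 5 ≤ 32 by norm_num)
    rw [show (2 / t * s) ^ 2 = 4 * s * s / t ^ 2 by field_simp; norm_num, le_div_iff₀ (by positivity)]
    calc 2 * (s * t ^ 3) * t ^ 2 = 2 * s * t ^ 5 := by ring
      _ ≤ 2 * s * s := by gcongr
      _ ≤ 4 * s * s := by gcongr; norm_num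
  have : 5 / t = 1 / t + 2 / t + 2 / t := by ring
  linarith

theorem dev {p : ℕ → unitInterval} {ε γ CD : ℝ} {J : ℕ} (h : St p ε γ CD J) {x : ℕ} (hx : 1 ≤ x)
    {k : ℕ} (hk : (k : ℝ) ≤ 2 * tt γ x ^ 2) :
    |dr (rep k (seg (cw p) 0 (2 * x)))| + √((rep k (seg (cw p) 0 (2 * x))).length : ℝ) ≤
      (10 * CD + 2) * (√(x : ℝ) * tt γ x) := by
  have t1 := one_le_tt h.g0.le hx
  have s1 := one_le_sqrt' hx
  have c1 := h.C1
  have x0 : (0 : ℝ) < x := by exact_mod_cast hx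
  have x1 : (1 : ℝ) ≤ x := by exact_mod_cast hx
  have d := h.dabs hx (2 * x)
  have e := sqrt_sq' x
  rw [dr_rep, dr_seg, rep_length, seg_length, zero_add, show psum (cw p) 0 = 0 from rfl, sub_zero,
    abs_mul, Nat.abs_cast]
  have a : 2 + (((2 * x : ℕ) : ℝ) + 1) / x ≤ 5 := by
    have : (((2 * x : ℕ) : ℝ) + 1) / x ≤ 3 := by
      rw [div_le_iff₀ x0]; push_cast; linarith
    linarith
  have b : √((k * (2 * x) : ℕ) : ℝ) ≤ 2 * (√(x : ℝ) * tt γ x) := by
    refine Real.sqrt_le_iff.2 ⟨by positivity, ?_⟩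
    push_cast
    rw [mul_pow, mul_pow, e]
    nlinarith
  generalize tt γ x = t at *
  generalize √(x : ℝ) = s at *
  have c : (k : ℝ) * |psum (cw p) (2 * x)| ≤ 10 * CD * (s * t) := by
    calc (k : ℝ) * |psum (cw p) (2 * x)| ≤ 2 * t ^ 2 * (CD * s / t ^ 16 * 5) := by
          refine mul_le_mul hk (d.trans ?_) (abs_nonneg _) (by positivity)
          gcongr
      _ = 10 * CD * (s * (1 / t ^ 14)) := by field_simp; norm_num
      _ ≤ 10 * CD * (s * t) := by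
          gcongr
          exact (div_le_one_of_le₀ (one_le_pow₀ t1) (by positivity)).trans t1
  linarith

end BLKx

open BLKx in
theorem p_BLK (hCHI : S_CHI) :
    S_BLK := by
  intro p ε γ CD J h M0 hM
  obtain ⟨-, C, C0, hC⟩ := hCHI p ε γ CD J h M0 hM
  have M00 : 0 ≤ M0 := (abs_nonneg _).trans (hM 0)
  have c1 := h.C1
  refine ⟨5 * C + 2 * M0 * (10 * CD + 2) + M0, (eventually_ge_atTop 1).mono fun x hx => ?_⟩
  have t1 := one_le_tt h.g0.le hx
  have s1 := one_le_sqrt' hx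
  have h32 := tt_32 h.g1 hx
  have e := sqrt_sq' x
  set L := ⌈√(x : ℝ) * tt γ x ^ 3⌉₊ with hL
  have t3 : 1 ≤ tt γ x ^ 3 := one_le_pow₀ t1
  have st : 1 ≤ √(x : ℝ) * tt γ x ^ 3 := one_le_mul_of_one_le_of_one_le s1 t3
  have L1 : √(x : ℝ) * tt γ x ^ 3 ≤ L := Nat.le_ceil _
  have L2 : (L : ℝ) ≤ 2 * (√(x : ℝ) * tt γ x ^ 3) := by
    have := (Nat.ceil_lt_add_one (show 0 ≤ √(x : ℝ) * tt γ x ^ 3 by positivity)).le
    linarith
  have L3 : L ≤ 2 * x := by
    have := pw t1 h32 (show 3 ≤ 32 by norm_num)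
    have : (L : ℝ) ≤ 2 * x := by nlinarith
    exact_mod_cast this
  have t0 : 0 < tt γ x := by linarith
  have A : |∑ i ∈ range L, (rb p γ (x + i) - rh p γ x ((x : ℤ) + i))| ≤ 5 * C * L / tt γ x := by
    refine (abs_sum_le_sum_abs _ _).trans ?_
    refine (sum_le_card_nsmul _ _ (C * (5 / tt γ x)) fun i hi => ?_).trans_eq ?_
    · have hi := mem_range.1 hi
      have := (hC x hx (x + i) ⟨by omega, by omega⟩ ((x + i : ℕ) : ℤ)).2
      rw [Nat.cast_add x i (R := ℝ), add_sub_cancel_left, Nat.abs_cast] at this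
      rw [← Nat.cast_add]
      refine this.trans (mul_le_mul_of_nonneg_left ?_ C0)
      have hi' : (i : ℝ) ≤ L := by exact_mod_cast hi.le
      have := ar1 t1 h32 (hi'.trans L2)
      rwa [e] at this
    · rw [card_range, nsmul_eq_mul]; ring
  have hG : ∀ z : ℤ, |∑ i ∈ range L, hh p (z + 1 + i) - ∑ i ∈ range L, hh p (z + i)| ≤ 2 * M0 :=
    fun z => by
      rw [tele]
      have := abs_sub (hh p (z + L)) (hh p z)
      linarith [hh_abs hM (z + L), hh_abs hM z]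
  have ins : Ins 0 (seg (cw p) 0 (2 * x)) := (Ins_seg h.ue.2 _ _).zero h.ue.1.le
  have N0 : 0 < tt γ x ^ 2 := by positivity
  have B : |∑ i ∈ range L, rh p γ x ((x : ℤ) + i) - ∑ i ∈ range L, hh p ((x : ℤ) + i)| ≤
      2 * M0 * (10 * CD + 2) * L / tt γ x := by
    unfold rh
    rw [sum_comm]
    simp only [← mul_sum]
    refine avg (ck_anti N0) (ck_sum N0) fun k hk => ?_
    have k1 : ((k + 1 : ℕ) : ℝ) ≤ 2 * tt γ x ^ 2 := by
      have a := Nat.lt_ceil.1 hk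
      have b : 1 ≤ tt γ x ^ 2 := one_le_pow₀ t1
      push_cast; linarith
    have d := Op_dev (Ins_rep ins (k + 1)) (φ := fun z => ∑ i ∈ range L, hh p (z + i))
      (by positivity) (lip hG) x
    rw [Op_sum] at d
    simp only [Op_shift] at d
    refine d.trans ?_
    rw [zero_add, mul_div_assoc, mul_assoc (2 * M0)]
    refine mul_le_mul_of_nonneg_left ((dev h hx k1).trans ?_) (by positivity)
    refine mul_le_mul_of_nonneg_left ?_ (by positivity)
    rw [le_div_iff₀ t0]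
    refine le_trans ?_ L1
    rw [mul_assoc, ← sq]
    exact mul_le_mul_of_nonneg_left (pow_le_pow_right₀ t1 (by norm_num)) (by positivity)
  have D : |∑ i ∈ range L, hh p ((x : ℤ) + i) - ∑ i ∈ range L, rho p 1 (x + i)| ≤
      M0 * L / tt γ x := by
    rw [tele2]
    have a := abs_le.1 (hM (x + L))
    have b := abs_le.1 (hM x)
    have c : M0 ≤ M0 * L / tt γ x := by
      rw [mul_div_assoc]
      refine le_mul_of_one_le_right M00 ((one_le_div t0).2 (le_trans ?_ L1))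
      have : tt γ x ≤ tt γ x ^ 3 := by simpa using pow_le_pow_right₀ t1 (show 1 ≤ 3 by norm_num)
      nlinarith
    exact abs_le.2 ⟨by linarith [a.1, b.2], by linarith [a.2, b.1]⟩
  rw [sum_sub_distrib] at A ⊢
  rw [add_mul, add_mul, add_div, add_div]
  rw [abs_le] at A B D ⊢
  constructor <;> linarith [A.1, A.2, B.1, B.2, D.1, D.2]

end

section

open MeasureTheory ProbabilityTheory Filter Topology Finset
open scoped ENNReal
open Pool.Agent.P.MP_c7fa75_pr.T Pool.Agent.P.MP_c7fa75_pr.R2 Pool.Agent.P.MP_758450_pr.IT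

namespace LAMx

theorem quot {a a' W W' L α β M : ℝ} (hL : 0 < L) (h1 : L ≤ W) (h2 : L ≤ W') (ha : |a - a'| ≤ α)
    (hM : |a'| ≤ M) (hW : |W - W'| ≤ β) : |2 * a / W - 2 * a' / W'| ≤ 2 * α / L + 2 * M * β / L ^ 2 := by
  have w1 := hL.trans_le h1
  have w2 := hL.trans_le h2
  have a0 := (abs_nonneg _).trans ha
  have m0 := (abs_nonneg _).trans hM
  have b0 := (abs_nonneg _).trans hW
  rw [show 2 * a / W - 2 * a' / W' = 2 * (a - a') / W - 2 * a' * (W - W') / (W * W') by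
    field_simp; ring]
  refine (abs_sub _ _).trans (add_le_add ?_ ?_)
  · rw [abs_div, abs_mul, abs_two, abs_of_pos w1]
    gcongr
  · rw [abs_div, abs_mul, abs_mul, abs_two, abs_of_pos (mul_pos w1 w2), sq]
    gcongr

theorem sl_eq (γ : ℝ) (j : ℕ) : sl γ j = 1 / tt (γ / 2) j := by
  rw [sl, tt, tt, Real.sqrt_eq_rpow, ← Real.rpow_mul (Nat.cast_nonneg j), mul_one_div]

theorem sl_abs {γ : ℝ} (h : 0 < γ) (j : ℕ) : |sl γ j| ≤ 1 := by
  rw [sl_eq, abs_of_nonneg (div_nonneg one_pos.le (tt_nonneg _ _))]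
  rcases j.eq_zero_or_pos with rfl | hj
  · simp [tt, Real.zero_rpow (half_pos h).ne']
  · exact div_le_one_of_le₀ (one_le_tt (half_pos h).le hj) (tt_nonneg _ _)

theorem sl_sub {γ : ℝ} (h : 0 < γ) (h' : γ ≤ 1 / 64) {x j : ℕ} (hx : 1 ≤ x) (hj : 1 ≤ j) :
    |sl γ j - sl γ x| ≤ |(j : ℝ) - x| / x := by
  have a1 := one_le_tt (half_pos h).le hj
  have b1 := one_le_tt (half_pos h).le hx
  have e := tt_sub (half_pos h).le (by linarith) hx j
  rw [sl_eq, sl_eq, one_div, one_div, inv_sub_inv (by linarith) (by linarith), abs_div,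
    abs_sub_comm, abs_of_pos (by positivity : 0 < tt (γ / 2) j * tt (γ / 2) x),
    div_le_iff₀ (by positivity)]
  refine e.trans ?_
  rw [mul_div_assoc, mul_comm]
  exact mul_le_mul_of_nonneg_left (le_mul_of_one_le_left (by linarith) a1) (by positivity)

end LAMx

open LAMx in
theorem p_LAM (hCHI : S_CHI) (hLIP : S_LIP) :
    S_LAM := by
  intro p ε γ CD J h M0 hM s hs
  obtain ⟨h1, C, C0, h2⟩ := hCHI p ε γ CD J h M0 hM
  obtain ⟨C', C0', h3⟩ := hLIP p ε γ CD J h M0 hM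
  have e0 := h.ue.1
  have m0 := (abs_nonneg _).trans (hM 0)
  have hs' : ∀ {z c : ℝ}, |z| ≤ c → |s * z| ≤ c := fun hz => by
    rw [abs_mul]
    exact (mul_le_of_le_one_left (abs_nonneg _) hs).trans hz
  have hA : ∀ j, |rb p γ j - s * sl γ j| ≤ M0 + 1 := fun j =>
    (abs_sub _ _).trans (add_le_add (h1 j j).2 (hs' (sl_abs h.g0 j)))
  have hW : ∀ j : ℕ, 4 * ε * j ≤ Wn (cw p) (2 * j) := fun j => by
    have := (Wn_bd h.ue (2 * j)).1
    push_cast at this
    linarith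
  refine ⟨2 * (M0 + 1) / (4 * ε), (2 * C + C' + 1) / ε + (M0 + 1) / ε ^ 2, fun j => ?_,
    fun x hx j hj => ?_⟩
  · have a : 4 * ε * ((j : ℝ) + 1) ≤ Wn (cw p) (2 * j) + 1 := by linarith [hW j, h.e4]
    have b : 0 < 4 * ε * ((j : ℝ) + 1) := by positivity
    rw [lam, abs_div, abs_mul, abs_two, abs_of_pos (b.trans_le a), div_div]
    gcongr
    exact hA j
  have j1 : 1 ≤ j := by have := hj.1; omega
  have xj : (x : ℝ) ≤ 2 * j := by exact_mod_cast hj.1
  have t1 := one_le_tt h.g0.le hx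
  have t3 : tt γ x ^ 3 ≤ √(x : ℝ) := (pow_le_pow_right₀ t1 (by norm_num)).trans (tt_32 h.g1 hx)
  have u0 := uu_nonneg x j
  have d := uu_mul hx j
  have r2 := sqrt_sq' x
  have a1 := (h2 x hx j hj j).2
  have a2 := (h3 x hx).1 j x
  have a3 := hs' (sl_sub h.g0 h.g1 hx j1)
  have a4 := Wn_abs h.ue (2 * x) (2 * j)
  have a5 := hW x
  have a6 := hW j
  push_cast at a2 a4
  rw [← mul_sub, abs_mul, abs_two] at a4
  rw [← d] at a1 a2 a3 a4
  unfold lam rb
  unfold rb at hA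
  generalize uu x j = u at *
  generalize tt γ x = t at *
  generalize √(x : ℝ) = r at *
  generalize (x : ℝ) = X at *
  subst r2
  have t0 : 0 < t := by linarith
  have t2 : t ^ 2 ≤ r := (pow_le_pow_right₀ t1 (by norm_num)).trans t3
  have tr : t ≤ r := (le_self_pow₀ t1 (by norm_num)).trans t3
  have r0 : 0 < r := by linarith
  have b1 : 1 / t ^ 15 ≤ 1 / t := one_div_le_one_div_of_le t0 (le_self_pow₀ t1 (by norm_num))
  have b2 : t ^ 2 * (u * r) / r ^ 2 ≤ u / t := by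
    rw [div_le_div_iff₀ (by positivity) t0]
    nlinarith [mul_le_mul_of_nonneg_left t3 (mul_nonneg u0 r0.le)]
  have b3 : √(u * r) / r ≤ (1 + u) / t := by
    rw [div_le_iff₀ r0]
    refine Real.sqrt_le_iff.2 ⟨by positivity, ?_⟩
    rw [mul_pow, div_pow, div_mul_eq_mul_div, le_div_iff₀ (by positivity)]
    nlinarith [mul_le_mul_of_nonneg_left t2 (mul_nonneg u0 r0.le), sq_nonneg (u * r),
      mul_nonneg u0 (sq_nonneg r)]
  have b4 : u * r / r ^ 2 ≤ u / t := by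
    rw [sq, mul_div_mul_right _ _ r0.ne']
    gcongr
  have b5 : C' / (r * t) * (u * r) = C' * (u / t) := by field_simp
  have b6 : u / t ≤ (1 + u) / t := by gcongr; linarith
  have b7 : 1 / t + u / t = (1 + u) / t := by ring
  have c1 : |rh p γ j j - s * sl γ j - (rh p γ x x - s * sl γ x)| ≤
      (2 * C + C' + 1) * ((1 + u) / t) := by
    rw [show rh p γ j j - s * sl γ j - (rh p γ x x - s * sl γ x) = (rh p γ j j - rh p γ x j) +
      (rh p γ x j - rh p γ x x) - s * (sl γ j - sl γ x) by ring]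
    refine (abs_sub _ _).trans ((add_le_add (abs_add_le _ _) le_rfl).trans ?_)
    have := mul_le_mul_of_nonneg_left (show 1 / t ^ 15 + t ^ 2 * (u * r) / r ^ 2 + √(u * r) / r ≤
      2 * ((1 + u) / t) by linarith) C0
    have := mul_le_mul_of_nonneg_left b6 C0'
    linarith
  have c2 := mul_le_mul_of_nonneg_left xj e0.le
  have c3 : 0 < ε * r ^ 2 := by positivity
  refine (quot (L := 2 * (ε * r ^ 2)) (β := 2 * (u * r)) (by positivity) (by linarith) (by linarith)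
    c1 (hA x) (by rwa [add_sub_add_right_eq_sub])).trans ?_
  rw [add_mul ((2 * C + C' + 1) / ε), add_div (_ * (1 + u))]
  refine add_le_add (le_of_eq (by field_simp)) ?_
  rw [show 2 * (M0 + 1) * (2 * (u * r)) / (2 * (ε * r ^ 2)) ^ 2 =
    (M0 + 1) / ε ^ 2 * u / (r ^ 2 * r) by field_simp]
  gcongr
  linarith

end

end Pool.Agent.P.MP_758450_pr.EX
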