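import Pool.Agent.P.MP_758450_pr.EXA

/-! Explicit test, part four: the scale function and the series. -/

set_option autoImplicit false
set_option linter.unusedSectionVars false

namespace Pool.Agent.P.MP_758450_pr.EX

section

open MeasureTheory ProbabilityTheory Filter Topology Finset
open scoped ENNReal
open Pool.Agent.P.MP_c7fa75_pr.T Pool.Agent.P.MP_c7fa75_pr.R2 Pool.Agent.P.MP_758450_pr.IT

namespace T0x

theorem sub_le (la : ℕ → ℝ) {m n : ℕ} (h : m ≤ n) :
    |∑ j ∈ range n, la j - ∑ j ∈ range m, la j| ≤ ∑ j ∈ Ico m n, |la j| := by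
  rw [← sum_Ico_eq_sub _ h]
  exact abs_sum_le_sum_abs _ _

theorem harm (x : ℕ) (hx : 1 ≤ x) : ∑ j ∈ range x, 1 / ((j : ℝ) + 1) ≤ 5 * √√(x : ℝ) := by
  have x1 : (1 : ℝ) ≤ x := by exact_mod_cast hx
  have h1 : ∑ j ∈ range x, 1 / ((j : ℝ) + 1) = (harmonic x : ℝ) := by
    simp [harmonic]
  have h2 := harmonic_le_one_add_log x
  have s1 : 1 ≤ √(x : ℝ) := Real.one_le_sqrt.2 x1
  have s2 : 1 ≤ √√(x : ℝ) := Real.one_le_sqrt.2 s1
  have h3 : Real.log x = 4 * Real.log √√(x : ℝ) := by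
    rw [Real.log_sqrt (by linarith), Real.log_sqrt (by linarith)]; ring
  have h4 := Real.log_le_sub_one_of_pos (show 0 < √√(x : ℝ) by linarith)
  rw [h1]
  linarith

end T0x

theorem p_T0 :
    S_T0 := by
  intro γ g0 g1 la C1 hla x hx y
  have c0 : 0 ≤ C1 := by simpa using (abs_nonneg _).trans (hla 0)
  have x1 : (1 : ℝ) ≤ x := by exact_mod_cast hx
  have s1 := one_le_sqrt' hx
  have s2 := sqrt_sq' x
  have t1 := one_le_tt g0.le hx
  have t32 := tt_32 g1 hx
  have u0 := uu_nonneg x y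
  have us := uu_mul hx y
  have t16 : tt γ x ^ 16 ≤ √√(x : ℝ) := Real.le_sqrt_of_sq_le (by rw [← pow_mul]; exact t32)
  have q2 : √√(x : ℝ) ^ 2 = √(x : ℝ) := Real.sq_sqrt (by linarith)
  have q1 : 1 ≤ √√(x : ℝ) := Real.one_le_sqrt.2 s1
  have p0 : 0 < tt γ x ^ 16 := by positivity
  have key : x ≤ 2 * y →
      |∑ j ∈ range y, la j - ∑ j ∈ range x, la j| ≤ 2 * C1 * uu x y / √(x : ℝ) := by
    intro hxy
    have k : ∀ m n : ℕ, m ≤ n → x ≤ 2 * m →
        |∑ j ∈ range n, la j - ∑ j ∈ range m, la j| ≤ 2 * C1 / x * ((n : ℝ) - m) := by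
      intro m n hmn hm
      refine (T0x.sub_le la hmn).trans ((sum_le_card_nsmul _ _ (2 * C1 / x) fun j hj => ?_).trans ?_)
      · refine (hla j).trans ?_
        have : (x : ℝ) ≤ 2 * j := by exact_mod_cast hm.trans (by have := (mem_Ico.1 hj).1; omega)
        rw [div_le_div_iff₀ (by positivity) (by positivity)]
        nlinarith
      · rw [Nat.card_Ico, nsmul_eq_mul, Nat.cast_sub hmn, mul_comm]
    have e : 2 * C1 * uu x y / √(x : ℝ) = 2 * C1 / x * |(y : ℝ) - x| := by
      rw [← us]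
      generalize √(x : ℝ) = s at s1 s2 ⊢
      rw [← s2]
      field_simp
    rw [e]
    rcases le_total x y with h | h
    · exact (k x y h (by omega)).trans (mul_le_mul_of_nonneg_left (le_abs_self _) (by positivity))
    · rw [abs_sub_comm, abs_sub_comm (y : ℝ)]
      exact (k y x h hxy).trans (mul_le_mul_of_nonneg_left (le_abs_self _) (by positivity))
  refine ⟨?_, key⟩
  by_cases hxy : x ≤ 2 * y
  · refine (key hxy).trans ?_
    have : 0 ≤ C1 * uu x y := by positivity
    rw [div_le_div_iff₀ (by positivity) p0]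
    have a : tt γ x ^ 16 ≤ √(x : ℝ) := by nlinarith
    nlinarith
  · have hyx : y ≤ x := by omega
    have y2 : 2 * (y : ℝ) ≤ x := by exact_mod_cast (not_le.1 hxy).le
    have hu : √(x : ℝ) ≤ 2 * uu x y := by
      have a : (x : ℝ) / 2 ≤ |(y : ℝ) - x| := by
        rw [abs_sub_comm]; exact le_trans (by linarith) (le_abs_self _)
      rw [← us] at a
      nlinarith
    rw [abs_sub_comm]
    refine (T0x.sub_le la hyx).trans ((sum_le_sum_of_subset_of_nonneg
      (t := range x) (fun j hj => mem_range.2 (mem_Ico.1 hj).2) fun _ _ _ => abs_nonneg _).trans ?_)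
    refine (sum_le_sum (g := fun j : ℕ => C1 * (1 / ((j : ℝ) + 1))) fun j _ =>
      (hla j).trans_eq (by ring)).trans ?_
    rw [← mul_sum, le_div_iff₀ p0]
    have a := T0x.harm x hx
    have b : C1 * (∑ j ∈ range x, 1 / ((j : ℝ) + 1)) * tt γ x ^ 16 ≤
        C1 * (5 * √√(x : ℝ)) * √√(x : ℝ) := by gcongr
    nlinarith

end

section

open MeasureTheory ProbabilityTheory Filter Topology Finset
open scoped ENNReal
open Pool.Agent.P.MP_c7fa75_pr.T Pool.Agent.P.MP_c7fa75_pr.R2 Pool.Agent.P.MP_758450_pr.IT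

namespace T1x

theorem exp_sub (r : ℝ) : |Real.exp (-r) - 1| ≤ |r| * Real.exp |r| := by
  have h1 := Real.add_one_le_exp (-r)
  have h2 := Real.add_one_le_exp r
  have h3 : 1 ≤ Real.exp |r| := Real.one_le_exp (abs_nonneg r)
  have h4 : Real.exp (-r) * Real.exp r = 1 := by rw [← Real.exp_add]; simp
  have h5 := Real.exp_pos (-r)
  rcases le_total 0 r with h | h
  · have : Real.exp (-r) ≤ 1 := Real.exp_le_one_iff.2 (by linarith)
    rw [abs_of_nonneg h] at h3
    rw [abs_of_nonpos (by linarith), abs_of_nonneg h]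
    nlinarith
  · have : 1 ≤ Real.exp (-r) := Real.one_le_exp (by linarith)
    rw [abs_of_nonneg (by linarith), abs_of_nonpos h]
    nlinarith

end T1x

theorem p_T1 (hT0 : S_T0) :
    S_T1 := by
  intro γ g0 g1 la C1 hla
  have c0 : 0 ≤ C1 := by simpa using (abs_nonneg _).trans (hla 0)
  obtain ⟨K, K1, hK⟩ := poly_exp 1
  refine ⟨10 * C1 * K, by positivity, ?_⟩
  filter_upwards [eventually_ge_atTop 1, (tt_top g0).eventually_ge_atTop (320 * C1)] with x hx ht
  have t1 := one_le_tt g0.le hx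
  have s1 := one_le_sqrt' hx
  have t16 : 320 * C1 ≤ tt γ x ^ 16 := ht.trans (le_self_pow₀ t1 (by norm_num))
  have tp : 0 < tt γ x ^ 16 := by positivity
  have gp : 0 < gl la x := Real.exp_pos _
  have e : ∀ y, gl la y = gl la x * Real.exp (-(∑ j ∈ range y, la j - ∑ j ∈ range x, la j)) := by
    intro y
    rw [gl, gl, ← Real.exp_add]; congr 1; ring
  have b : ∀ y, |∑ j ∈ range y, la j - ∑ j ∈ range x, la j| ≤ uu x y / 32 := fun y => by
    refine (hT0 γ g0 g1 la C1 hla x hx y).1.trans ?_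
    rw [div_le_iff₀ tp]
    nlinarith [uu_nonneg x y]
  have low : ∀ n : ℕ, |(n : ℝ) - x| ≤ √(x : ℝ) → gl la x / 2 ≤ gl la n := by
    intro n hn
    have u1 : uu x n ≤ 1 := by rw [uu, div_le_one (by linarith)]; exact hn
    have h1 := (abs_le.1 (b n)).2
    have h2 := Real.add_one_le_exp (-(∑ j ∈ range n, la j - ∑ j ∈ range x, la j))
    rw [e n]
    nlinarith
  set F := ⌊√(x : ℝ)⌋₊ with hF
  have F1 : (F : ℝ) ≤ √(x : ℝ) := Nat.floor_le (by linarith)
  have F2 : √(x : ℝ) / 2 ≤ F := by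
    have a1 := Nat.lt_floor_add_one √(x : ℝ)
    have a2 : (1 : ℝ) ≤ F := by exact_mod_cast (Nat.one_le_floor_iff _).2 s1
    linarith
  have F3 : F ≤ x := by
    have : √(x : ℝ) ≤ x := by nlinarith [sqrt_sq' x]
    exact_mod_cast F1.trans this
  have fin : √(x : ℝ) * gl la x / 4 ≤ F * (gl la x / 2) := by nlinarith
  refine ⟨fun y => ?_, fin.trans ?_, fin.trans ?_⟩
  · have h1 := T1x.exp_sub (∑ j ∈ range y, la j - ∑ j ∈ range x, la j)
    have h2 := (hT0 γ g0 g1 la C1 hla x hx y).1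
    have h3 := hK _ (uu_nonneg x y)
    have u0 := uu_nonneg x y
    rw [e y, ← mul_sub_one, abs_mul, abs_of_pos gp]
    have h4 : |Real.exp (-(∑ j ∈ range y, la j - ∑ j ∈ range x, la j)) - 1| ≤
        10 * C1 * (K * Real.exp (uu x y / 32)) / tt γ x ^ 16 * Real.exp (uu x y / 32) := by
      refine h1.trans (mul_le_mul (h2.trans ?_) (Real.exp_le_exp.2 (b y)) (Real.exp_pos _).le
        (by positivity))
      gcongr
      linarith
    refine (mul_le_mul_of_nonneg_left h4 gp.le).trans_eq ?_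
    rw [show uu x y / 16 = uu x y / 32 + uu x y / 32 by ring, Real.exp_add]
    ring
  · have h1 : fl la x = fl la (x - F) + ∑ i ∈ range F, gl la (x - F + i) := by
      rw [fl, fl, ← sum_range_add, Nat.sub_add_cancel F3]
    have h2 : 0 ≤ fl la (x - F) := sum_nonneg fun i _ => (Real.exp_pos _).le
    have h3 := card_nsmul_le_sum (range F) (fun i => gl la (x - F + i)) (gl la x / 2)
      fun i hi => low _ (by
        have : (i : ℝ) ≤ F := by exact_mod_cast (mem_range.1 hi).le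
        have i0 : (0 : ℝ) ≤ i := Nat.cast_nonneg i
        push_cast [Nat.cast_sub F3]
        rw [abs_le]; constructor <;> linarith)
    rw [card_range, nsmul_eq_mul] at h3
    linarith
  · have h1 : fl la (x + F) = fl la x + ∑ i ∈ range F, gl la (x + i) := by
      rw [fl, fl, ← sum_range_add]
    have h3 := card_nsmul_le_sum (range F) (fun i => gl la (x + i)) (gl la x / 2)
      fun i hi => low _ (by
        have : (i : ℝ) ≤ F := by exact_mod_cast (mem_range.1 hi).le
        have i0 : (0 : ℝ) ≤ i := Nat.cast_nonneg i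
        push_cast
        rw [abs_le]; constructor <;> linarith)
    rw [card_range, nsmul_eq_mul] at h3
    linarith

end

section

open MeasureTheory ProbabilityTheory Filter Topology Finset
open scoped ENNReal
open Pool.Agent.P.MP_c7fa75_pr.T Pool.Agent.P.MP_c7fa75_pr.R2 Pool.Agent.P.MP_758450_pr.IT

namespace T2x

theorem e1 (a : ℝ) : |Real.exp a - 1| ≤ |a| * Real.exp |a| := by
  have h1 := Real.add_one_le_exp a
  have h2 := Real.add_one_le_exp (-a)
  have h3 : Real.exp a * Real.exp (-a) = 1 := by rw [← Real.exp_add]; simp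
  have h4 := Real.exp_pos a
  rcases le_total 0 a with h | h
  · rw [abs_of_nonneg h, abs_of_nonneg (by linarith)]
    nlinarith
  · have h5 : Real.exp a ≤ 1 := Real.exp_le_one_iff.2 h
    rw [abs_of_nonpos h, abs_of_nonpos (by linarith)]
    nlinarith

theorem e2 (a : ℝ) : |Real.exp a - 1 - a| ≤ a ^ 2 * Real.exp |a| := by
  have h1 := Real.add_one_le_exp a
  have h2 := Real.add_one_le_exp (-a)
  have h3 : Real.exp a * Real.exp (-a) = 1 := by rw [← Real.exp_add]; simp
  have h4 := Real.exp_pos a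
  have h5 : Real.exp a - 1 - a ≤ a * (Real.exp a - 1) := by nlinarith
  have h6 : a * (Real.exp a - 1) ≤ |a| * |Real.exp a - 1| := by
    rw [← abs_mul]; exact le_abs_self _
  have h7 := mul_le_mul_of_nonneg_left (e1 a) (abs_nonneg a)
  rw [abs_of_nonneg (by linarith), ← sq_abs]
  nlinarith

theorem up (F : ℕ → ℝ) (x y : ℕ) (B : ℝ) (hxy : x ≤ y)
    (h : ∀ n, x ≤ n → n < y → |F (n + 1) - F n| ≤ B) : |F y - F x| ≤ ((y : ℝ) - x) * B := by
  induction y, hxy using Nat.le_induction with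
  | base => simp
  | succ y hy ih =>
    have a := ih fun n h1 h2 => h n h1 (by omega)
    have b := h y hy (by omega)
    have c := abs_sub_le (F (y + 1)) (F y) (F x)
    push_cast
    linarith

theorem btw (F : ℕ → ℝ) (x y : ℕ) (B : ℝ)
    (h : ∀ n, (x ≤ n ∧ n ≤ y) ∨ (y ≤ n ∧ n ≤ x) → |F (n + 1) - F n| ≤ B) :
    |F y - F x| ≤ |(y : ℝ) - x| * B := by
  rcases le_total x y with e | e
  · rw [abs_of_nonneg (a := (y : ℝ) - x) (sub_nonneg.2 (by exact_mod_cast e))]
    exact up F x y B e fun n h1 h2 => h n (Or.inl ⟨h1, h2.le⟩)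
  · rw [abs_sub_comm, abs_sub_comm (y : ℝ),
      abs_of_nonneg (a := (x : ℝ) - y) (sub_nonneg.2 (by exact_mod_cast e))]
    exact up F y x B e fun n h1 h2 => h n (Or.inr ⟨h1, h2.le⟩)

theorem uu_btw {x y n : ℕ} (h : (x ≤ n ∧ n ≤ y) ∨ (y ≤ n ∧ n ≤ x)) : uu x n ≤ uu x y := by
  refine div_le_div_of_nonneg_right ?_ (Real.sqrt_nonneg _)
  rcases h with ⟨a, b⟩ | ⟨a, b⟩
  · have a' : (x : ℝ) ≤ n := by exact_mod_cast a
    have b' : (n : ℝ) ≤ y := by exact_mod_cast b
    rw [abs_of_nonneg (by linarith), abs_of_nonneg (by linarith)]; linarith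
  · have a' : (y : ℝ) ≤ n := by exact_mod_cast a
    have b' : (n : ℝ) ≤ x := by exact_mod_cast b
    rw [abs_of_nonpos (by linarith), abs_of_nonpos (by linarith)]; linarith

theorem lax {la : ℕ → ℝ} {C1 : ℝ} (h1 : ∀ j : ℕ, |la j| ≤ C1 / ((j : ℝ) + 1)) {x : ℕ}
    (hx : 1 ≤ x) (n : ℕ) : |la x * ((n : ℝ) - x)| ≤ C1 * uu x n / √(x : ℝ) := by
  have c1 : 0 ≤ C1 := by simpa using (abs_nonneg _).trans (h1 0)
  have s1 := one_le_sqrt' hx
  have s2 := sqrt_sq' x
  have v0 := uu_nonneg x n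
  have a : |la x| ≤ C1 / √(x : ℝ) ^ 2 :=
    (h1 x).trans (div_le_div_of_nonneg_left c1 (by positivity) (by linarith))
  rw [abs_mul, ← uu_mul hx]
  refine (mul_le_mul_of_nonneg_right a (by positivity)).trans_eq ?_
  field_simp

theorem del (hT0 : S_T0) {γ : ℝ} (g0 : 0 < γ) (g1 : γ ≤ 1 / 64) {la : ℕ → ℝ} {C1 C2 : ℝ}
    (h1 : ∀ j : ℕ, |la j| ≤ C1 / ((j : ℝ) + 1)) (c2 : 0 ≤ C2) {x : ℕ} (hx : 1 ≤ x)
    (h2 : ∀ j, Win x j → |la j - la x| ≤ C2 * (1 + uu x j) / (x * tt γ x))
    (ht : 320 * C1 ≤ tt γ x) (n : ℕ) :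
    |Real.exp (-(∑ j ∈ range n, la j - ∑ j ∈ range x, la j)) - 1 + la x * ((n : ℝ) - x)| ≤
      (4 * C1 ^ 2 + C2 + 44 * C1) * ((1 + uu x n) ^ 3 * Real.exp (uu x n / 32)) /
        (√(x : ℝ) * tt γ x) := by
  have c1 : 0 ≤ C1 := by simpa using (abs_nonneg _).trans (h1 0)
  have s1 := one_le_sqrt' hx
  have s2 := sqrt_sq' x
  have v0 := uu_nonneg x n
  have vs := uu_mul hx n
  have t1 := one_le_tt g0.le hx
  have ts : tt γ x ≤ √(x : ℝ) := (le_self_pow₀ t1 (by norm_num)).trans (tt_32 g1 hx)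
  have t16 : tt γ x ≤ tt γ x ^ 16 := le_self_pow₀ t1 (by norm_num)
  obtain ⟨a1, a2⟩ := hT0 γ g0 g1 la C1 h1 x hx n
  have a3 := lax h1 hx n
  have a4 : Win x n → |(∑ j ∈ range n, la j - ∑ j ∈ range x, la j) - la x * ((n : ℝ) - x)| ≤
      |(n : ℝ) - x| * (C2 * (1 + uu x n) / (x * tt γ x)) := fun hw => by
    have := btw (fun m => ∑ j ∈ range m, la j - la x * m) x n
      (C2 * (1 + uu x n) / (x * tt γ x)) fun m hm => by
        have w : Win x m := by unfold Win at hw ⊢; omega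
        have e : ∑ j ∈ range (m + 1), la j - la x * ((m + 1 : ℕ) : ℝ) -
            (∑ j ∈ range m, la j - la x * m) = la m - la x := by
          rw [sum_range_succ]; push_cast; ring
        rw [e]
        refine (h2 m w).trans ?_
        have := uu_btw hm
        gcongr
    refine le_of_eq_of_le (congrArg _ ?_) this
    ring
  have a5 : ¬ Win x n → √(x : ℝ) ≤ 2 * uu x n := fun hw => by
    have : (x : ℝ) ≤ 2 * |(n : ℝ) - x| := by
      unfold Win at hw
      rcases (by omega : 2 * n ≤ x ∨ 3 * x ≤ n) with h | h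
      · have h' : 2 * (n : ℝ) ≤ x := by exact_mod_cast h
        have := neg_abs_le ((n : ℝ) - x)
        linarith
      · have h' : 3 * (x : ℝ) ≤ n := by exact_mod_cast h
        have := le_abs_self ((n : ℝ) - x)
        have : (0 : ℝ) ≤ x := Nat.cast_nonneg x
        linarith
    refine le_of_mul_le_mul_right (a := √(x : ℝ)) ?_ (by linarith)
    nlinarith
  have hw' : Win x n → x ≤ 2 * n := fun h => h.1
  rw [← vs] at a4
  have hP : Win x n ∨ ¬ Win x n := em _
  generalize Win x n = W at *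
  generalize ∑ j ∈ range n, la j - ∑ j ∈ range x, la j = r at *
  generalize la x * ((n : ℝ) - x) = m at *
  generalize uu x n = v at *
  generalize tt γ x = t at *
  generalize √(x : ℝ) = s at *
  have r1 : |r| ≤ 10 * C1 * v :=
    a1.trans (div_le_self (by positivity) (t1.trans t16))
  have r2 : |r| ≤ v / 32 := by
    refine a1.trans ?_
    rw [div_le_div_iff₀ (by positivity) (by norm_num)]
    nlinarith
  have E1 : Real.exp |-r| ≤ Real.exp (v / 32) := by rw [abs_neg]; exact Real.exp_le_exp.2 r2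
  have E0 : 1 ≤ Real.exp (v / 32) := Real.one_le_exp (by positivity)
  have b1 := e1 (-r)
  have b2 := e2 (-r)
  have p2 : v ^ 2 ≤ (1 + v) ^ 3 := by nlinarith [pow_nonneg v0 3]
  have p3 : v ^ 3 ≤ (1 + v) ^ 3 := by gcongr; linarith
  have p4 : v * (1 + v) ≤ (1 + v) ^ 3 := by nlinarith [pow_nonneg v0 3]
  generalize Real.exp (v / 32) = E at *
  have st : 0 < s * t := by positivity
  rw [le_div_iff₀ st]
  have PE : 0 ≤ (1 + v) ^ 3 * E := by positivity
  rcases hP with hw | hw
  · have q1 : r ^ 2 * (s * t) ≤ 4 * C1 ^ 2 * v ^ 2 := by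
      have := a2 (hw' hw)
      rw [le_div_iff₀ (by positivity)] at this
      have k : (|r| * s) ^ 2 ≤ (2 * C1 * v) ^ 2 := by gcongr
      rw [mul_pow, sq_abs] at k
      have k2 : r ^ 2 * (s * t) ≤ r ^ 2 * s ^ 2 := by rw [sq s]; gcongr
      linarith
    have q2 : |r - m| * (s * t) ≤ C2 * (v * (1 + v)) := by
      refine (mul_le_mul_of_nonneg_right (a4 hw) st.le).trans_eq ?_
      rw [← s2]; field_simp
    have q3 : |Real.exp (-r) - 1 + m| ≤ r ^ 2 * E + |r - m| := by
      have := abs_sub (Real.exp (-r) - 1 - -r) (r - m)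
      rw [show Real.exp (-r) - 1 - -r - (r - m) = Real.exp (-r) - 1 + m by ring] at this
      have k : (-r) ^ 2 * Real.exp |-r| ≤ r ^ 2 * E := by rw [neg_sq]; gcongr
      linarith
    have q4 : r ^ 2 * (s * t) * E ≤ 4 * C1 ^ 2 * (1 + v) ^ 3 * E :=
      mul_le_mul_of_nonneg_right (q1.trans (mul_le_mul_of_nonneg_left p2 (by positivity)))
        (by linarith)
    have q5 : C2 * (v * (1 + v)) ≤ C2 * ((1 + v) ^ 3 * E) :=
      mul_le_mul_of_nonneg_left (p4.trans (le_mul_of_one_le_right (by positivity) E0)) c2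
    have q6 := mul_le_mul_of_nonneg_right q3 st.le
    have q7 := mul_nonneg c1 PE
    nlinarith
  · have q1 : |m| ≤ C1 * v * E :=
      (a3.trans (div_le_self (by positivity) s1)).trans (le_mul_of_one_le_right (by positivity) E0)
    have q2 : |Real.exp (-r) - 1| ≤ 10 * C1 * v * E := by
      refine b1.trans ?_
      rw [abs_neg r] at E1 ⊢
      gcongr
    have q3 : |Real.exp (-r) - 1 + m| ≤ 11 * C1 * v * E := by
      have := abs_add_le (Real.exp (-r) - 1) m
      linarith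
    have q4 : s * t ≤ 4 * v ^ 2 := by have := a5 hw; nlinarith
    have q5 : |Real.exp (-r) - 1 + m| * (s * t) ≤ 11 * C1 * v * E * (4 * v ^ 2) := by gcongr
    have q6 : C1 * (v ^ 3 * E) ≤ C1 * ((1 + v) ^ 3 * E) := by gcongr
    have q7 := mul_nonneg c2 PE
    have q8 := mul_nonneg (sq_nonneg C1) PE
    nlinarith

end T2x

open T2x in
theorem p_T2 (hT0 : S_T0) :
    S_T2 := by
  intro γ g0 g1 la C1 C2 h1 h2
  have c1 : 0 ≤ C1 := by simpa using (abs_nonneg _).trans (h1 0)
  have c2 : 0 ≤ C2 := by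
    have := (abs_nonneg _).trans (h2 1 le_rfl 1 ⟨by norm_num, by norm_num⟩)
    simpa [uu, tt] using this
  obtain ⟨Cp, hp1, hp⟩ := poly_exp 4
  refine ⟨(4 * C1 ^ 2 + C2 + 44 * C1 + C1) * Cp, by positivity, ?_⟩
  filter_upwards [eventually_ge_atTop 1, (tt_top g0).eventually_ge_atTop (320 * C1)] with x hx ht y
  set K := 4 * C1 ^ 2 + C2 + 44 * C1 with hK
  have K0 : 0 ≤ K := by positivity
  have s1 := one_le_sqrt' hx
  have u0 := uu_nonneg x y
  have us := uu_mul hx y
  have t1 := one_le_tt g0.le hx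
  have ts : tt γ x ≤ √(x : ℝ) := (le_self_pow₀ t1 (by norm_num)).trans (tt_32 g1 hx)
  have G0 : 0 < gl la x := Real.exp_pos _
  have a := btw (fun n => fl la n - gl la x *
      (((n : ℝ) - x) - la x * (((n : ℝ) - x) * ((n : ℝ) - x - 1)) / 2)) x y
    (gl la x * (K * ((1 + uu x y) ^ 3 * Real.exp (uu x y / 32)) / (√(x : ℝ) * tt γ x)))
    fun n hn => by
      have d := del hT0 g0 g1 h1 c2 hx (h2 x hx) ht n
      have e : gl la n = gl la x *
          Real.exp (-(∑ j ∈ range n, la j - ∑ j ∈ range x, la j)) := by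
        rw [gl, gl, ← Real.exp_add]; congr 1; ring
      have e' : fl la (n + 1) - gl la x * ((((n + 1 : ℕ) : ℝ) - x) - la x *
          ((((n + 1 : ℕ) : ℝ) - x) * (((n + 1 : ℕ) : ℝ) - x - 1)) / 2) - (fl la n - gl la x *
          (((n : ℝ) - x) - la x * (((n : ℝ) - x) * ((n : ℝ) - x - 1)) / 2)) = gl la x *
          (Real.exp (-(∑ j ∈ range n, la j - ∑ j ∈ range x, la j)) - 1 +
            la x * ((n : ℝ) - x)) := by
        rw [fl, fl, sum_range_succ, e]; push_cast; ring
      rw [e', abs_mul, abs_of_pos G0]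
      refine mul_le_mul_of_nonneg_left (d.trans ?_) G0.le
      have := uu_btw hn
      have := uu_nonneg x n
      gcongr
  have b := lax h1 hx y
  have e : fl la y - fl la x - gl la x * (((y : ℝ) - x) - la x * ((y : ℝ) - x) ^ 2 / 2) =
      (fl la y - gl la x * (((y : ℝ) - x) - la x * (((y : ℝ) - x) * ((y : ℝ) - x - 1)) / 2) -
      (fl la x - gl la x * (((x : ℝ) - x) - la x * (((x : ℝ) - x) * ((x : ℝ) - x - 1)) / 2))) +
      gl la x * (la x * ((y : ℝ) - x)) / 2 := by ring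
  rw [e]
  refine (abs_add_le _ _).trans ?_
  rw [← us] at a
  rw [abs_div, abs_mul (gl la x), abs_of_pos G0, abs_two]
  have hu := hp _ u0
  generalize la x * ((y : ℝ) - x) = m at *
  generalize gl la x = G at *
  generalize uu x y = u at *
  generalize tt γ x = t at *
  generalize √(x : ℝ) = s at *
  have E0 : 1 ≤ Real.exp (u / 32) := Real.one_le_exp (by positivity)
  have E8 : Real.exp (u / 32) * Real.exp (u / 32) ≤ Real.exp (u / 8) := by
    rw [← Real.exp_add]; exact Real.exp_le_exp.2 (by linarith)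
  generalize Real.exp (u / 8) = E' at *
  generalize Real.exp (u / 32) = E at *
  have f1 : u * (1 + u) ^ 3 * E ≤ Cp * E' := by
    calc u * (1 + u) ^ 3 * E ≤ (1 + u) * (1 + u) ^ 3 * E := by gcongr; linarith
      _ = (1 + u) ^ 4 * E := by ring
      _ ≤ Cp * E * E := by gcongr
      _ = Cp * (E * E) := by ring
      _ ≤ Cp * E' := by gcongr
  have f2 : u ≤ Cp * E' := by
    refine le_trans ?_ f1
    rw [mul_assoc]
    exact le_mul_of_one_le_right u0
      (one_le_mul_of_one_le_of_one_le (one_le_pow₀ (by linarith)) E0)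
  have f3 : u * s * (G * (K * ((1 + u) ^ 3 * E) / (s * t))) ≤ K * G * (Cp * E') / t := by
    calc _ = K * G * (u * (1 + u) ^ 3 * E) / t := by field_simp
      _ ≤ _ := by gcongr
  have f4 : G * |m| / 2 ≤ C1 * G * (Cp * E') / t := by
    have k : |m| ≤ C1 * (Cp * E') / t := by
      refine b.trans ?_
      have : 0 ≤ Cp * E' := u0.trans f2
      gcongr
    calc G * |m| / 2 ≤ G * |m| := half_le_self (by positivity)
      _ ≤ G * (C1 * (Cp * E') / t) := by gcongr
      _ = _ := by ring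
  refine (add_le_add (a.trans f3) f4).trans_eq ?_
  ring

end

section

open MeasureTheory ProbabilityTheory Filter Topology Finset
open scoped ENNReal
open Pool.Agent.P.MP_c7fa75_pr.T Pool.Agent.P.MP_c7fa75_pr.R2 Pool.Agent.P.MP_758450_pr.IT

namespace GBx

theorem step {γ : ℝ} (h0 : 0 < γ) (h1 : γ ≤ 1 / 64) {x : ℕ} (hx : 1 ≤ x) (L : ℕ) :
    x / tt γ x + L * x / (2 * x + L) / tt γ x ≤ ((x + L : ℕ) : ℝ) / tt γ (x + L) := by
  have x0 : (0 : ℝ) < x := by exact_mod_cast hx
  have L0 : (0 : ℝ) ≤ L := Nat.cast_nonneg L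
  have t0 : 0 < tt γ x := one_pos.trans_le (one_le_tt h0.le hx)
  have t1 : 0 < tt γ (x + L) := one_pos.trans_le (one_le_tt h0.le (by omega))
  have q0 : 0 ≤ (L : ℝ) / x := by positivity
  have h2 : tt γ (x + L) ≤ tt γ x * (1 + 1 / 2 * (L / x)) := by
    have e : ((x + L : ℕ) : ℝ) = x * (1 + L / x) := by push_cast; field_simp
    rw [tt, e, Real.mul_rpow x0.le (by positivity)]
    refine mul_le_mul_of_nonneg_left ((rpow_one_add_le_one_add_mul_self (by linarith) h0.le
      (by linarith)).trans ?_) t0.le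
    nlinarith
  refine le_trans (le_of_eq ?_) (div_le_div_of_nonneg_left (by positivity) t1 h2)
  push_cast
  field_simp
  ring

theorem mono {γ : ℝ} (h0 : 0 < γ) (h1 : γ ≤ 1 / 64) {x m : ℕ} (hx : 1 ≤ x) (h : x ≤ m) :
    x / tt γ x ≤ m / tt γ m := by
  obtain ⟨L, rfl⟩ := Nat.exists_eq_add_of_le h
  have := tt_nonneg γ x
  exact le_trans (le_add_of_nonneg_right (by positivity)) (step h0 h1 hx L)

theorem triv {φ : ℕ → ℝ} {A : ℝ} (h : ∀ j, |φ j| ≤ A) (s : Finset ℕ) :
    |∑ j ∈ s, φ j| ≤ s.card * A :=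
  (abs_sum_le_sum_abs _ _).trans
    ((sum_le_card_nsmul s _ A fun j _ => h j).trans (nsmul_eq_mul _ _).le)

end GBx

theorem p_GB :
    S_GB := by
  intro γ h0 h1 φ A C L hA hL
  obtain ⟨x0, hx0⟩ := eventually_atTop.1 (hL.and (eventually_ge_atTop 1))
  have A0 : 0 ≤ A := (abs_nonneg _).trans (hA 0)
  have C0 := abs_nonneg C
  have key : ∀ m d x : ℕ, x0 ≤ x → x + d = m →
      |∑ j ∈ Ico x m, φ j| ≤ 3 * |C| * (m / tt γ m - x / tt γ x) + A * (m / tt γ m) := by
    intro m d
    induction d using Nat.strong_induction_on with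
    | _ d ih =>
      intro x hx e
      obtain ⟨⟨l1, l2, l3⟩, x1⟩ := hx0 x hx
      have t1 := one_le_tt h0.le x1
      have x0' : (0 : ℝ) < x := by exact_mod_cast x1
      have hm := GBx.mono h0 h1 x1 (show x ≤ m by omega)
      rcases lt_or_ge d (L x) with h | h
      · have h2 := GBx.triv hA (Ico x m)
        have h3 : ((Ico x m).card : ℝ) ≤ L x := by
          rw [Nat.card_Ico]; exact_mod_cast (by omega : m - x ≤ L x)
        nlinarith [mul_nonneg C0 (sub_nonneg.2 hm), mul_le_mul_of_nonneg_right (h3.trans (l2.trans hm)) A0]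
      · have h2 := ih (d - L x) (by omega) (x + L x) (by omega) (by omega)
        have h3 := GBx.step h0 h1 x1 (L x)
        have h4 : (L x : ℝ) ≤ x := l2.trans (div_le_self x0'.le t1)
        have L0 : (0 : ℝ) ≤ L x := Nat.cast_nonneg _
        have h5 : (L x : ℝ) / tt γ x ≤ 3 * (L x * x / (2 * x + L x) / tt γ x) := by
          rw [← mul_div_assoc]
          refine div_le_div_of_nonneg_right ?_ (by linarith)
          rw [← mul_div_assoc, le_div_iff₀ (by positivity)]
          nlinarith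
        have h6 : C * (L x : ℝ) / tt γ x ≤ |C| * (L x / tt γ x) := by
          rw [mul_div_assoc]
          exact mul_le_mul_of_nonneg_right (le_abs_self C) (by positivity)
        rw [← sum_Ico_consecutive φ (show x ≤ x + L x by omega) (show x + L x ≤ m by omega),
          sum_Ico_eq_sum_range, Nat.add_sub_cancel_left]
        refine (abs_add_le _ _).trans ?_
        nlinarith [mul_le_mul_of_nonneg_left h5 C0, mul_le_mul_of_nonneg_left h3 C0]
  refine ⟨x0 * A + 3 * |C| + A, fun m hm => ?_⟩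
  have d1 : 1 ≤ m / tt γ m := by simpa [tt] using GBx.mono h0 h1 le_rfl hm
  have a1 : x0 * A ≤ x0 * A * (m / tt γ m) := le_mul_of_one_le_right (by positivity) d1
  rw [mul_div_assoc]
  rcases le_total x0 m with h | h
  · have h2 := key m (m - x0) x0 le_rfl (by omega)
    have h3 := GBx.triv hA (range x0)
    have h4 : 0 ≤ x0 / tt γ x0 := div_nonneg (by positivity) (tt_nonneg _ _)
    rw [← sum_range_add_sum_Ico φ h]
    rw [card_range] at h3
    refine (abs_add_le _ _).trans ?_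
    nlinarith [mul_nonneg C0 h4]
  · have h3 := GBx.triv hA (range m)
    have h4 : (m : ℝ) ≤ x0 := by exact_mod_cast h
    rw [card_range] at h3
    nlinarith [mul_le_mul_of_nonneg_right h4 A0, mul_nonneg C0 (zero_le_one.trans d1),
      mul_nonneg A0 (zero_le_one.trans d1)]

end

section

open MeasureTheory ProbabilityTheory Filter Topology Finset
open scoped ENNReal
open Pool.Agent.P.MP_c7fa75_pr.T Pool.Agent.P.MP_c7fa75_pr.R2 Pool.Agent.P.MP_758450_pr.IT

theorem p_ABEL :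
    S_ABEL := by
  intro γ h0 _ a v C hA hv hd
  have C0 : 0 ≤ C := by simpa using (abs_nonneg _).trans (hv 0)
  have id : ∀ n, ∑ j ∈ range n, a j * v j = (∑ j ∈ range n, a j) * v n -
      ∑ j ∈ range n, (∑ i ∈ range (j + 1), a i) * (v (j + 1) - v j) := fun n => by
    induction n with
    | zero => simp
    | succ n ih => rw [sum_range_succ, ih, sum_range_succ _ n, sum_range_succ _ n,
        sum_range_succ a n]; ring
  have hs : Summable fun j : ℕ => C ^ 2 * (((j + 1 : ℕ) : ℝ) ^ (γ + 1))⁻¹ :=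
    ((summable_nat_add_iff 1).2 (Real.summable_nat_rpow_inv.2 (by linarith))).mul_left _
  refine ⟨C ^ 2 + ∑' j : ℕ, C ^ 2 * (((j + 1 : ℕ) : ℝ) ^ (γ + 1))⁻¹, fun n => ?_⟩
  rw [id]
  refine (abs_sub _ _).trans (add_le_add ?_ ((abs_sum_le_sum_abs _ _).trans
    ((sum_le_sum fun j _ => ?_).trans (hs.sum_le_tsum _ fun j _ => by positivity))))
  · rcases n.eq_zero_or_pos with rfl | hn
    · simpa using sq_nonneg C
    have n1 : (1 : ℝ) ≤ n := by exact_mod_cast hn
    have t1 : 1 ≤ tt γ n := Real.one_le_rpow n1 h0.le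
    have b1 : |∑ j ∈ range n, a j| ≤ C * n := (hA n hn).trans (div_le_self (by positivity) t1)
    rw [abs_mul]
    refine (mul_le_mul b1 (hv n) (abs_nonneg _) (by positivity)).trans ?_
    rw [← mul_div_assoc, div_le_iff₀ (by positivity)]
    nlinarith [sq_nonneg C]
  · have t0 : 0 < tt γ (j + 1) := Real.rpow_pos_of_pos (by positivity) _
    rw [abs_mul]
    refine (mul_le_mul (hA _ (by omega)) (hd j) (abs_nonneg _) (by positivity)).trans_eq ?_
    rw [Real.rpow_add_one (by positivity)]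
    change _ = C ^ 2 * (tt γ (j + 1) * _)⁻¹
    push_cast
    field_simp

end

section

open MeasureTheory ProbabilityTheory Filter Topology Finset
open scoped ENNReal
open Pool.Agent.P.MP_c7fa75_pr.T Pool.Agent.P.MP_c7fa75_pr.R2 Pool.Agent.P.MP_758450_pr.IT

namespace EXPOx

theorem two (f : ℕ → ℝ) (m : ℕ) :
    ∑ i ∈ range (2 * m), f i = ∑ j ∈ range m, (f (2 * j) + f (2 * j + 1)) := by
  induction m with
  | zero => simp
  | succ m ih => rw [mul_add, mul_one, sum_range_succ, sum_range_succ, sum_range_succ, ih, add_assoc]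

theorem frac {h a b c B : ℝ} (hc : 0 < c) (ha : c ≤ a) (hb : c ≤ b) (hab : |b - a| ≤ 1)
    (hh : |h| ≤ B) : |h * (1 / a - 1 / b)| ≤ B / c ^ 2 := by
  have a0 : 0 < a := by linarith
  have b0 : 0 < b := by linarith
  have B0 := (abs_nonneg _).trans hh
  rw [show 1 / a - 1 / b = (b - a) / (a * b) by field_simp, abs_mul, abs_div,
    abs_of_pos (mul_pos a0 b0), ← mul_div_assoc, sq]
  exact div_le_div₀ B0 ((mul_le_mul hh hab (abs_nonneg _) B0).trans_eq (mul_one _)) (by positivity)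
    (mul_le_mul ha hb hc.le a0.le)

theorem sm (a : ℝ) (ha : 0 < a) : Summable fun j : ℕ => 1 / (((j : ℝ) + 1) * (j : ℝ) ^ a) := by
  refine Summable.of_nonneg_of_le (fun j => by positivity) (fun j => ?_)
    (Real.summable_one_div_nat_rpow.2 (show 1 < 1 + a by linarith))
  rcases Nat.eq_zero_or_pos j with rfl | hj
  · simp [Real.zero_rpow ha.ne', Real.zero_rpow (show 1 + a ≠ 0 by linarith)]
  · have j0 : (0 : ℝ) < j := by exact_mod_cast hj
    rw [Real.rpow_add j0, Real.rpow_one]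
    have := Real.rpow_pos_of_pos j0 a
    gcongr
    linarith

theorem sm2 : Summable fun j : ℕ => √((j : ℝ) + 1) / ((j : ℝ) + 1) ^ 2 := by
  have h := (summable_nat_add_iff 1).2
    (Real.summable_one_div_nat_rpow.2 (show (1 : ℝ) < 3 / 2 by norm_num))
  refine h.congr fun j => ?_
  have j0 : (0 : ℝ) < (j : ℝ) + 1 := by positivity
  push_cast
  rw [Real.sqrt_eq_rpow, div_eq_div_iff (by positivity) (by positivity), one_mul,
    ← Real.rpow_add j0, ← Real.rpow_natCast]
  norm_num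

end EXPOx

open EXPOx in
theorem p_EXPO (hSUMR : S_SUMR) (hCHI : S_CHI) (hBLK : S_BLK) (hGB : S_GB) (hABEL : S_ABEL) :
    S_EXPO := by
  intro p ε γ CD J h M0 hM s hs
  have e0 := h.ue.1
  have e4 := h.e4
  have g0 := h.g0
  have c1 := h.C1
  obtain ⟨CS, hS⟩ := hSUMR p ε γ CD J h M0 hM
  obtain ⟨CB, hB⟩ := hBLK p ε γ CD J h M0 hM
  obtain ⟨CG, hG⟩ := hGB γ g0 h.g1 (fun j => rb p γ j - rho p 1 j) (M0 + M0) CB
    (fun x => ⌈√(x : ℝ) * tt γ x ^ 3⌉₊)
    (fun j => (abs_sub _ _).trans (add_le_add ((hCHI p ε γ CD J h M0 hM).1 j j).2 (hM j))) (by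
      filter_upwards [hB, eventually_ge_atTop 1, (tt_top g0).eventually_ge_atTop 2] with x a hx t2
      have s1 := one_le_sqrt' hx
      have t32 := tt_32 h.g1 hx
      have b1 : 1 ≤ √(x : ℝ) * tt γ x ^ 3 :=
        one_le_mul_of_one_le_of_one_le s1 (one_le_pow₀ (by linarith))
      refine ⟨Nat.ceil_pos.2 (by linarith), ?_, a⟩
      have b2 := (Nat.ceil_lt_add_one (show 0 ≤ √(x : ℝ) * tt γ x ^ 3 by linarith)).le
      have b3 : tt γ x ^ 5 ≤ tt γ x ^ 32 := pow_le_pow_right₀ (by linarith) (by norm_num)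
      have b4 : 2 * tt γ x ^ 4 ≤ √(x : ℝ) := by
        have : 0 ≤ tt γ x ^ 4 := by positivity
        nlinarith
      rw [le_div_iff₀ (by linarith)]
      calc _ ≤ (2 * (√(x : ℝ) * tt γ x ^ 3)) * tt γ x := by gcongr; linarith
        _ = √(x : ℝ) * (2 * tt γ x ^ 4) := by ring
        _ ≤ √(x : ℝ) * √(x : ℝ) := by gcongr
        _ = x := by rw [← sq, sqrt_sq'])
  set w := cw p with hw
  have hW : ∀ j : ℕ, 2 * ε * ((j : ℝ) + 1) ≤ Wn w (2 * j) + 1 ∧
      2 * ε * ((j : ℝ) + 1) ≤ Wn w (2 * j + 1) ∧ 2 * ε * ((j : ℝ) + 1) ≤ Wn w (2 * j + 1 + 1) ∧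
      |Wn w (2 * j + 1) - (Wn w (2 * j) + 1)| ≤ 1 ∧
      |Wn w (2 * j + 1 + 1) - (Wn w (2 * j) + 1)| ≤ 1 ∧
      |Wn w (2 * (j + 1)) - Wn w (2 * j)| ≤ 2 := fun j => by
    have a := (Wn_bd h.ue (2 * j)).1
    have b := Wn_le h.ue (Nat.le_succ (2 * j))
    have c := Wn_le h.ue (show 2 * j ≤ 2 * j + 1 + 1 by omega)
    have d : 0 ≤ ε * j := by positivity
    push_cast at a b c
    rw [show 2 * (j + 1) = 2 * j + 1 + 1 by ring]
    refine ⟨by nlinarith, by nlinarith [b.1], by nlinarith [c.1], ?_, ?_, ?_⟩ <;>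
      exact abs_le.2 ⟨by nlinarith [b.1, c.1], by nlinarith [b.2, c.2]⟩
  set v : ℕ → ℝ := fun j => 1 / (Wn w (2 * j) + 1) with hv
  set a : ℕ → ℝ := fun j => 2 * rb p γ j - (hr w (2 * j) + hr w (2 * j + 1)) with ha
  have hv1 : ∀ j : ℕ, |v j| ≤ 1 / (2 * ε) / ((j : ℝ) + 1) := fun j => by
    have b := (hW j).1
    have c : 0 < 2 * ε * ((j : ℝ) + 1) := by positivity
    rw [hv, abs_of_pos (one_div_pos.2 (by linarith)), div_div]
    exact one_div_le_one_div_of_le c b
  set K : ℝ := 2 * |CG| + |CS| + 1 / (2 * ε) + 2 / (2 * ε) ^ 2 with hK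
  have k1 : 0 ≤ 1 / (2 * ε) := by positivity
  have k2 : 0 ≤ 2 / (2 * ε) ^ 2 := by positivity
  obtain ⟨CA, hA⟩ := hABEL γ g0 h.g1 a v K (fun m hm => by
      have t1 := one_le_tt g0.le hm
      have e : ∑ j ∈ range m, a j = 2 * ∑ j ∈ range m, (rb p γ j - rho p 1 j) +
          (2 * ∑ j ∈ range m, rho p 1 j - ∑ i ∈ range (2 * m), hr w i) := by
        simp only [ha, two, sum_sub_distrib, ← mul_sum]
        ring
      rw [e]
      refine (abs_add_le _ _).trans ?_
      rw [abs_mul, abs_two]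
      have b1 := hG m hm
      have b2 := hS m hm
      have q : 0 ≤ (m : ℝ) / tt γ m := by positivity
      rw [mul_div_assoc] at b1 b2 ⊢
      nlinarith [le_abs_self CG, le_abs_self CS])
    (fun j => (hv1 j).trans (div_le_div_of_nonneg_right
      (by linarith [abs_nonneg CG, abs_nonneg CS]) (by positivity)))
    (fun j => by
      have c : 0 < 2 * ε * ((j : ℝ) + 1) := by positivity
      have b1 := (hW j).1
      have b2 := (hW (j + 1)).1
      have b3 := (hW j).2.2.2.2.2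
      push_cast at b2
      have b4 : 2 * ε * ((j : ℝ) + 1) ≤ Wn w (2 * (j + 1)) + 1 := by nlinarith
      have e : v (j + 1) - v j = (Wn w (2 * j) - Wn w (2 * (j + 1))) /
          ((Wn w (2 * (j + 1)) + 1) * (Wn w (2 * j) + 1)) := by
        have : Wn w (2 * (j + 1)) + 1 ≠ 0 := by linarith
        have : Wn w (2 * j) + 1 ≠ 0 := by linarith
        simp only [hv]
        field_simp
        ring
      rw [e, abs_div, abs_sub_comm, abs_of_pos (mul_pos (c.trans_le b4) (c.trans_le b1))]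
      calc _ ≤ 2 / ((2 * ε * ((j : ℝ) + 1)) * (2 * ε * ((j : ℝ) + 1))) :=
            div_le_div₀ zero_le_two b3 (mul_pos c c) (mul_le_mul b4 b1 c.le (c.le.trans b4))
        _ = 2 / (2 * ε) ^ 2 / ((j : ℝ) + 1) ^ 2 := by field_simp
        _ ≤ _ := div_le_div_of_nonneg_right
          (by linarith [abs_nonneg CG, abs_nonneg CS]) (by positivity))
  have hh : ∀ i j : ℕ, i ≤ 2 * j + 1 → |hr w i| ≤ 4 * CD * √((j : ℝ) + 1) := fun i j hi => by
    have b := h.hD 1 (i + 1) le_rfl
    have c := cw_mem p i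
    have i1 : (i : ℝ) ≤ 2 * j + 1 := by exact_mod_cast hi
    have j0 : (0 : ℝ) ≤ j := Nat.cast_nonneg j
    simp only [tt, Nat.cast_one, Real.one_rpow, one_pow, div_one] at b
    push_cast at b
    have d : |psum w (i + 1)| ≤ 2 * CD * √((j : ℝ) + 1) := by
      refine abs_le.2 (abs_le_of_sq_le_sq' (b.trans ?_) (by positivity))
      rw [mul_pow, mul_pow, Real.sq_sqrt (by positivity)]
      nlinarith [sq_nonneg CD]
    rw [hr, abs_mul, abs_mul, abs_two, abs_of_nonneg (show 0 ≤ 1 - w i by linarith [c.2])]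
    nlinarith [abs_nonneg (psum w (i + 1)), c.1]
  set g : ℕ → ℝ := fun j => 8 * CD / (2 * ε) ^ 2 * (√((j : ℝ) + 1) / ((j : ℝ) + 1) ^ 2) +
    1 / ε * (1 / (((j : ℝ) + 1) * (j : ℝ) ^ (γ / 2))) with hg
  have hgs : Summable g := (sm2.mul_left _).add ((sm (γ / 2) (by positivity)).mul_left _)
  set r : ℕ → ℝ := fun j => hr w (2 * j) * (v j - 1 / Wn w (2 * j + 1)) +
    hr w (2 * j + 1) * (v j - 1 / Wn w (2 * j + 1 + 1)) - 2 * (s * sl γ j) * v j with hr'
  have hrg : ∀ j, |r j| ≤ g j := fun j => by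
    have c : 0 < 2 * ε * ((j : ℝ) + 1) := by positivity
    obtain ⟨b1, b2, b3, b4, b5, -⟩ := hW j
    have d1 := frac c b1 b2 b4 (hh (2 * j) j (by omega))
    have d2 := frac c b1 b3 b5 (hh (2 * j + 1) j le_rfl)
    have d3 : |2 * (s * sl γ j) * v j| ≤ 1 / ε * (1 / (((j : ℝ) + 1) * (j : ℝ) ^ (γ / 2))) := by
      have q : sl γ j = 1 / (j : ℝ) ^ (γ / 2) := by
        rw [sl, tt, Real.sqrt_eq_rpow, ← Real.rpow_mul (Nat.cast_nonneg j)]
        congr 2
        ring
      have q0 : 0 ≤ 1 / (j : ℝ) ^ (γ / 2) := by positivity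
      rw [abs_mul, abs_mul, abs_mul, abs_two, q, abs_of_nonneg q0]
      calc _ ≤ 2 * (1 * (1 / (j : ℝ) ^ (γ / 2))) * (1 / (2 * ε) / ((j : ℝ) + 1)) := by
            gcongr
            exact hv1 j
        _ = _ := by rw [← one_div_mul_one_div]; field_simp
    refine (abs_sub _ _).trans ((add_le_add ((abs_add_le _ _).trans (add_le_add d1 d2)) d3).trans_eq ?_)
    simp only [hg]
    field_simp
    ring
  refine ⟨CA + ∑' j, g j, fun n => ?_⟩
  have e : ∑ j ∈ range n, lam p γ s j - ∑ i ∈ range (2 * n), hr w i / Wn w (i + 1) =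
      ∑ j ∈ range n, a j * v j + ∑ j ∈ range n, r j := by
    rw [two, ← sum_sub_distrib, ← sum_add_distrib]
    refine sum_congr rfl fun j _ => ?_
    simp only [lam, ha, hv, hr', ← hw]
    ring
  rw [e]
  refine (abs_add_le _ _).trans (add_le_add (hA n) ((abs_sum_le_sum_abs _ _).trans ?_))
  exact (sum_le_sum fun j _ => hrg j).trans
    (hgs.sum_le_tsum _ fun j _ => (abs_nonneg _).trans (hrg j))

end

section

open MeasureTheory ProbabilityTheory Filter Topology Finset
open scoped ENNReal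
open Pool.Agent.P.MP_c7fa75_pr.T Pool.Agent.P.MP_c7fa75_pr.R2 Pool.Agent.P.MP_758450_pr.IT

namespace SERx

theorem term {p : ℕ → unitInterval} {ε : ℝ} (h : UE p ε) (i : ℕ) :
    |hr (cw p) i / Wn (cw p) (i + 1)| ≤ 1 / ε := by
  have e0 := h.1
  have a := (Wn_bd h (i + 1)).1
  have b := psum_abs p (i + 1)
  have c := cw_mem p i
  push_cast at a b
  have w0 : 0 < Wn (cw p) (i + 1) := lt_of_lt_of_le (by positivity) a
  have d : |hr (cw p) i| ≤ 2 * ((i : ℝ) + 1) := by
    rw [hr, abs_mul, abs_mul, abs_of_pos (show (0 : ℝ) < 2 by norm_num),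
      abs_of_nonneg (show 0 ≤ 1 - cw p i by linarith [c.2])]
    nlinarith [abs_nonneg (psum (cw p) (i + 1)), c.1]
  rw [abs_div, abs_of_pos w0, div_le_div_iff₀ w0 e0]
  nlinarith

theorem cmp {a b c : ℝ} (h : |a - b| ≤ c) : Real.exp (-a) ≤ Real.exp c * Real.exp (-b) := by
  rw [← Real.exp_add]
  exact Real.exp_le_exp.2 (by linarith [(abs_le.1 h).1])

end SERx

theorem p_SER (hEXPO : S_EXPO) :
    S_SER := by
  intro p ε γ CD J h M0 hM s hs
  obtain ⟨C, hC⟩ := hEXPO p ε γ CD J h M0 hM s hs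
  constructor
  · intro hg
    have h1 : Summable fun n => ex (cw p) (2 * n) :=
      Summable.of_nonneg_of_le (fun _ => (Real.exp_pos _).le)
        (fun n => SERx.cmp (by rw [abs_sub_comm]; exact hC n)) (hg.mul_left (Real.exp C))
    have h2 : Summable fun n => ex (cw p) (2 * n + 1) :=
      Summable.of_nonneg_of_le (fun _ => (Real.exp_pos _).le)
        (fun n => SERx.cmp (by
          rw [sum_range_succ, add_sub_cancel_left]; exact SERx.term h.ue _))
        (h1.mul_left (Real.exp (1 / ε)))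
    exact h1.even_add_odd h2
  · intro he
    have h1 : Summable fun n => ex (cw p) (2 * n) :=
      he.comp_injective (mul_right_injective₀ two_ne_zero)
    exact Summable.of_nonneg_of_le (fun _ => (Real.exp_pos _).le)
      (fun n => SERx.cmp (hC n)) (h1.mul_left (Real.exp C))

end

section

open MeasureTheory ProbabilityTheory Filter Topology Finset
open scoped ENNReal
open Pool.Agent.P.MP_c7fa75_pr.T Pool.Agent.P.MP_c7fa75_pr.R2 Pool.Agent.P.MP_758450_pr.IT

namespace DRIFTx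

theorem tsq {γ : ℝ} (g0 : 0 < γ) (g1 : γ ≤ 1 / 64) {x : ℕ} (hx : 1 ≤ x) (y : ℕ) :
    tt γ y ^ 2 + 1 ≤ 2 * tt γ x ^ 2 * (1 + uu x y) := by
  have x0 : (0 : ℝ) < x := by exact_mod_cast hx
  have h := tt_sub (a := γ * (2 : ℕ)) (by positivity) (by push_cast; linarith) hx y
  rw [← tt_pow, ← tt_pow] at h
  have t1 : 1 ≤ tt γ x ^ 2 := one_le_pow₀ (one_le_tt g0.le hx)
  have s1 := one_le_sqrt' hx
  have u0 := uu_nonneg x y
  have h2 : |(y : ℝ) - x| / x ≤ uu x y := by
    rw [div_le_iff₀ x0, ← uu_mul hx]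
    refine mul_le_mul_of_nonneg_left ?_ u0
    nlinarith [sqrt_sq' x]
  rw [mul_div_assoc] at h
  have h3 := mul_le_mul_of_nonneg_left h2 (show 0 ≤ tt γ x ^ 2 by linarith)
  have h4 := (abs_le.1 h).2
  nlinarith

theorem out {x y : ℕ} (hx : 1 ≤ x) (h : ¬ Win x y) : (x : ℝ) ≤ 4 * uu x y ^ 2 := by
  have x0 : (0 : ℝ) < x := by exact_mod_cast hx
  have a : (x : ℝ) / 2 ≤ |(y : ℝ) - x| := by
    by_cases h1 : x ≤ 2 * y
    · have h2 : 3 * x < y := not_le.1 fun h2 => h ⟨h1, h2⟩
      have h3 : 3 * (x : ℝ) < y := by exact_mod_cast h2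
      exact le_trans (by linarith) (le_abs_self _)
    · have h3 : 2 * (y : ℝ) < x := by exact_mod_cast not_le.1 h1
      rw [abs_sub_comm]
      exact le_trans (by linarith) (le_abs_self _)
  rw [← uu_mul hx] at a
  have b := pow_le_pow_left₀ (by positivity) a 2
  rw [mul_pow, sqrt_sq'] at b
  refine le_of_mul_le_mul_right ?_ x0
  nlinarith

theorem e32 {u : ℝ} (hu : 0 ≤ u) : Real.exp (u / 32) ≤ Real.exp (u / 8) :=
  Real.exp_le_exp.2 (by linarith)

theorem ratio {A B V W δ c : ℝ} (hA : |A| ≤ B) (hc : 0 < c) (hW : c ≤ W + 1) (hV : |V - W| ≤ δ) :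
    |2 * A / (W + 1) * V / 2 - A| ≤ B * ((δ + 1) / c) := by
  have w0 : 0 < W + 1 := by linarith
  have e : 2 * A / (W + 1) * V / 2 - A = A * ((V - W - 1) / (W + 1)) := by field_simp; ring
  rw [e, abs_mul, abs_div, abs_of_pos w0]
  have a : |V - W - 1| ≤ δ + 1 := by
    have := abs_le.1 hV
    exact abs_le.2 ⟨by linarith [this.1], by linarith [this.2, abs_nonneg (V - W)]⟩
  have b0 := (abs_nonneg _).trans hA
  have a0 := (abs_nonneg _).trans a
  gcongr

end DRIFTx

open DRIFTx in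
theorem p_DRIFT (hEXP : S_EXP) (hVAR : S_VAR) (hCHI : S_CHI) (hPOI : S_POI) (hLAM : S_LAM) (hT1 : S_T1) (hT2 : S_T2) :
    S_DRIFT := by
  intro p ε γ CD J h M0 hM s hs y0
  have g0 := h.g0
  have g1 := h.g1
  have e0 := h.ue.1
  have m0 : 0 ≤ M0 := (abs_nonneg _).trans (hM 0)
  obtain ⟨CE, CE1, hE⟩ := hEXP p ε γ CD J h
  obtain ⟨CV, hV⟩ := hVAR p ε γ CD J h
  obtain ⟨hc1, CC, CC0, hc2⟩ := hCHI p ε γ CD J h M0 hM
  obtain ⟨CP, hP⟩ := hPOI p ε γ CD J h M0 hM
  obtain ⟨C1, C2, hl1, hl2⟩ := hLAM p ε γ CD J h M0 hM s hs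
  set la := lam p γ s with hla
  obtain ⟨CA, CA0, hA⟩ := hT1 γ g0 g1 la C1 hl1
  obtain ⟨CB, CB0, hB⟩ := hT2 γ g0 g1 la C1 C2 hl1 hl2
  obtain ⟨K, K1, hK⟩ := poly_exp 3
  set KE : ℝ := CB + CA * (2 * M0) * K + (CC + 16 * M0) * K with hKE
  refine ⟨KE * CE + CP + (M0 + 1) * ((|CV| + 1) / (4 * ε)), ?_⟩
  filter_upwards [hP, hA, hB, eventually_ge_atTop 1, eventually_ge_atTop (2 * y0)]
    with x hP hA hB hx hxy
  have x1 : (1 : ℝ) ≤ x := by exact_mod_cast hx
  have s1 := one_le_sqrt' hx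
  have s2 := sqrt_sq' x
  have t1 := one_le_tt g0.le hx
  have t32 := tt_32 g1 hx
  have G0 : 0 < gl la x := Real.exp_pos _
  have hcx : cht p γ y0 x = chi p γ x x := if_neg (by omega)
  have pk : ∀ (y k : ℕ), k ≤ 3 → (1 + uu x y) ^ k ≤ K * Real.exp (uu x y / 32) := fun y k hk =>
    (pow_le_pow_right₀ (by linarith [uu_nonneg x y]) hk).trans (hK _ (uu_nonneg x y))
  have hcht : ∀ y, |cht p γ y0 y| ≤ 2 * M0 * tt γ x ^ 2 * (1 + uu x y) := fun y => by
    have a := mul_le_mul_of_nonneg_left (tsq g0 g1 hx y) m0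
    have u0 := uu_nonneg x y
    unfold cht
    split_ifs
    · rw [abs_zero]; positivity
    · exact (hc1 y y).1.trans (a.trans_eq (by ring))
  set main : ℕ → ℝ := fun y => ((y : ℝ) - x) - la x / 2 * ((y : ℝ) - x) ^ 2 +
    chi p γ x y - chi p γ x x with hmain
  set err : ℕ → ℝ := fun y => FF p γ s y0 y - FF p γ s y0 x - gl la x * main y with herr
  have hpt : ∀ y, |err y| ≤ KE * gl la x / tt γ x * Real.exp (uu x y / 8) := fun y => by
    have u0 := uu_nonneg x y
    have E8 := e32 u0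
    have E0 := Real.exp_pos (uu x y / 8)
    have b1 := hB y
    have b2 : |(gl la y - gl la x) * cht p γ y0 y| ≤
        CA * (2 * M0) * K * gl la x * Real.exp (uu x y / 8) / tt γ x := by
      have c1 := pk y 1 (by norm_num)
      rw [pow_one] at c1
      have c2 : Real.exp (uu x y / 16) * Real.exp (uu x y / 32) ≤ Real.exp (uu x y / 8) := by
        rw [← Real.exp_add]; exact Real.exp_le_exp.2 (by linarith)
      have c3 : tt γ x ^ 2 / tt γ x ^ 16 ≤ 1 / tt γ x := by
        rw [div_le_div_iff₀ (by positivity) (by positivity), one_mul, ← pow_succ]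
        exact pow_le_pow_right₀ t1 (by norm_num)
      rw [abs_mul]
      calc _ ≤ (CA * gl la x * Real.exp (uu x y / 16) / tt γ x ^ 16) *
            (2 * M0 * tt γ x ^ 2 * (K * Real.exp (uu x y / 32))) :=
          mul_le_mul (hA.1 y) ((hcht y).trans (by gcongr)) (abs_nonneg _) (by positivity)
        _ = CA * (2 * M0) * K * gl la x * (Real.exp (uu x y / 16) * Real.exp (uu x y / 32)) *
            (tt γ x ^ 2 / tt γ x ^ 16) := by ring
        _ ≤ CA * (2 * M0) * K * gl la x * Real.exp (uu x y / 8) * (1 / tt γ x) := by gcongr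
        _ = _ := by ring
    have b3 : |cht p γ y0 y - chi p γ x y| ≤ (CC + 16 * M0) * (1 + uu x y) ^ 3 / tt γ x := by
      have c0 : 1 + uu x y ≤ (1 + uu x y) ^ 3 := le_self_pow₀ (by linarith) (by norm_num)
      by_cases hw : Win x y
      · have : cht p γ y0 y = chi p γ y y := if_neg (by have := hw.1; omega)
        rw [this]
        refine (hc2 x hx y hw y).1.trans ?_
        gcongr
        linarith
      · have c1 := out hx hw
        have c2 : tt γ x ^ 3 ≤ x := by
          have : tt γ x ^ 3 ≤ tt γ x ^ 32 := pow_le_pow_right₀ t1 (by norm_num)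
          nlinarith
        have c3 := (hc1 x y).1
        have c4 : 1 ≤ tt γ x ^ 2 := one_le_pow₀ t1
        have c5 : |cht p γ y0 y - chi p γ x y| ≤ 4 * M0 * tt γ x ^ 2 * (1 + uu x y) := by
          have := abs_sub (cht p γ y0 y) (chi p γ x y)
          have d1 := hcht y
          have d2 : M0 * (tt γ x ^ 2 + 1) ≤ 2 * M0 * tt γ x ^ 2 * (1 + uu x y) := by
            have : 0 ≤ M0 * tt γ x ^ 2 * uu x y := by positivity
            nlinarith
          linarith
        refine c5.trans ?_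
        rw [le_div_iff₀ (by linarith)]
        have c6 : tt γ x ^ 3 ≤ 4 * (1 + uu x y) ^ 2 := by nlinarith
        calc 4 * M0 * tt γ x ^ 2 * (1 + uu x y) * tt γ x
            = 4 * M0 * (1 + uu x y) * tt γ x ^ 3 := by ring
          _ ≤ 4 * M0 * (1 + uu x y) * (4 * (1 + uu x y) ^ 2) := by gcongr
          _ = (0 + 16 * M0) * (1 + uu x y) ^ 3 := by ring
          _ ≤ _ := by gcongr
    have b4 : |gl la x * (cht p γ y0 y - chi p γ x y)| ≤
        (CC + 16 * M0) * K * gl la x * Real.exp (uu x y / 8) / tt γ x := by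
      rw [abs_mul, abs_of_pos G0]
      have c1 := (pk y 3 le_rfl).trans (mul_le_mul_of_nonneg_left E8 (by linarith))
      calc _ ≤ gl la x * ((CC + 16 * M0) * (K * Real.exp (uu x y / 8)) / tt γ x) :=
          mul_le_mul_of_nonneg_left (b3.trans (by gcongr)) G0.le
        _ = _ := by ring
    have e : err y = (fl la y - fl la x - gl la x * (((y : ℝ) - x) - la x * ((y : ℝ) - x) ^ 2 / 2)) +
        (gl la y - gl la x) * cht p γ y0 y + gl la x * (cht p γ y0 y - chi p γ x y) := by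
      simp only [herr, hmain, FF, hcx, ← hla]
      ring
    rw [e]
    refine (abs_add_three _ _ _).trans ((add_le_add (add_le_add b1 b2) b4).trans_eq ?_)
    rw [hKE]
    ring
  obtain ⟨i0, j0⟩ := hE x hx err _ hpt
  have i1 := (hE x hx (fun y => (y : ℝ) - x) (√(x : ℝ) * K) fun y => by
    have c1 := (pk y 1 (by norm_num)).trans
      (mul_le_mul_of_nonneg_left (e32 (uu_nonneg x y)) (by linarith))
    rw [pow_one] at c1
    rw [← uu_mul hx, mul_comm, mul_assoc]
    exact mul_le_mul_of_nonneg_left (by linarith) (by linarith)).1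
  have i2 := (hE x hx (fun y => ((y : ℝ) - x) ^ 2) (x * K) fun y => by
    have u0 := uu_nonneg x y
    have c1 := (pk y 2 (by norm_num)).trans
      (mul_le_mul_of_nonneg_left (e32 (uu_nonneg x y)) (by linarith))
    rw [abs_of_nonneg (sq_nonneg _), ← sq_abs, ← uu_mul hx, mul_pow, s2, mul_comm, mul_assoc]
    exact mul_le_mul_of_nonneg_left (by nlinarith) (by linarith)).1
  have i3 := (hE x hx (fun y => chi p γ x y) (M0 * (tt γ x ^ 2 + 1)) fun y =>
    (hc1 x y).1.trans (le_mul_of_one_le_right (by positivity)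
      (Real.one_le_exp (by linarith [uu_nonneg x y])))).1
  have i4 : Integrable (fun B => main (U x B)) (trials p) :=
    ((i1.sub (i2.const_mul _)).add i3).sub (integrable_const _)
  have e1 : ∀ y, FF p γ s y0 y = err y + (FF p γ s y0 x + gl la x * main y) := fun y => by
    simp only [herr]; ring
  have i5 : Integrable (fun B => FF p γ s y0 x + gl la x * main (U x B)) (trials p) :=
    (integrable_const _).add (i4.const_mul _)
  refine ⟨by simp only [e1 (U x _)]; exact i0.add i5, ?_⟩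
  have e2 : EU p x main = rho p 1 x - la x / 2 * EU p x (fun y => ((y : ℝ) - x) ^ 2) +
      EU p x (fun y => chi p γ x y) - chi p γ x x := by
    have k1 : Integrable (fun B => ((U x B : ℝ) - x) - la x / 2 * ((U x B : ℝ) - x) ^ 2)
        (trials p) := i1.sub (i2.const_mul _)
    have k2 : Integrable (fun B => ((U x B : ℝ) - x) - la x / 2 * ((U x B : ℝ) - x) ^ 2 +
        chi p γ x (U x B)) (trials p) := k1.add i3
    simp only [EU, hmain]
    rw [integral_sub k2 (integrable_const _), integral_add k1 i3,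
      integral_sub i1 (i2.const_mul _), integral_const_mul]
    simp [rho]
  have e3 : EU p x (FF p γ s y0) = EU p x err + (FF p γ s y0 x + gl la x * EU p x main) := by
    simp only [EU, e1 (U x _)]
    rw [integral_add i0 i5, integral_add (integrable_const _) (i4.const_mul _), integral_const_mul]
    simp
  have sl1 : |s * sl γ x| ≤ 1 := by
    have a : 1 ≤ √(tt γ x) := Real.one_le_sqrt.2 t1
    have b : sl γ x ≤ 1 := (div_le_one (by linarith)).2 a
    have c : 0 ≤ sl γ x := by unfold sl; positivity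
    rw [abs_mul, abs_of_nonneg c]
    exact mul_le_one₀ hs c b
  have hAA : |rb p γ x - s * sl γ x| ≤ M0 + 1 :=
    (abs_sub _ _).trans (add_le_add (hc1 x x).2 sl1)
  have hW : 4 * ε * x ≤ Wn (cw p) (2 * x) + 1 := by
    have := (Wn_bd h.ue (2 * x)).1
    push_cast at this
    linarith
  have hr1 := ratio hAA (by positivity) hW (hV x hx)
  have hr2 : (CV * x / tt γ x ^ 16 + 1) / (4 * ε * x) ≤ (|CV| + 1) / (4 * ε) / tt γ x := by
    have a : CV * x / tt γ x ^ 16 ≤ |CV| * x / tt γ x :=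
      div_le_div₀ (by positivity) (mul_le_mul_of_nonneg_right (le_abs_self _) (by linarith))
        (by linarith) (le_self_pow₀ t1 (by norm_num))
    have b : 1 ≤ x / tt γ x := by
      rw [le_div_iff₀ (by linarith), one_mul]
      have : tt γ x ≤ tt γ x ^ 32 := le_self_pow₀ t1 (by norm_num)
      nlinarith
    calc _ ≤ (|CV| * x / tt γ x + x / tt γ x) / (4 * ε * x) := by gcongr
      _ = _ := by field_simp
  have hr3 := hr1.trans (mul_le_mul_of_nonneg_left hr2 (by linarith))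
  have e4 : EU p x (FF p γ s y0) - FF p γ s y0 x - gl la x * (s * sl γ x) = EU p x err +
      gl la x * ((EU p x (fun y => chi p γ x y) - chi p γ x x + rho p 1 x - rb p γ x) -
        (2 * (rb p γ x - s * sl γ x) / (Wn (cw p) (2 * x) + 1) *
          EU p x (fun y => ((y : ℝ) - x) ^ 2) / 2 - (rb p γ x - s * sl γ x))) := by
    rw [e3, e2]
    simp only [hla, lam]
    ring
  rw [e4]
  refine (abs_add_le _ _).trans ?_
  rw [abs_mul, abs_of_pos G0]
  refine (add_le_add j0 (mul_le_mul_of_nonneg_left ((abs_sub _ _).trans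
    (add_le_add hP hr3)) G0.le)).trans_eq ?_
  ring

end

section

open MeasureTheory ProbabilityTheory Filter Topology Finset
open scoped ENNReal
open Pool.Agent.P.MP_c7fa75_pr.T Pool.Agent.P.MP_c7fa75_pr.R2 Pool.Agent.P.MP_758450_pr.IT

namespace LYAx

theorem gl_pos' (la : ℕ → ℝ) (n : ℕ) : 0 < gl la n := Real.exp_pos _

theorem fl_mono' (la : ℕ → ℝ) {m n : ℕ} (h : m ≤ n) : fl la m ≤ fl la n :=
  sum_le_sum_of_subset_of_nonneg (range_mono h) fun i _ _ => (gl_pos' la i).le

theorem fl_nonneg' (la : ℕ → ℝ) (n : ℕ) : 0 ≤ fl la n :=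
  sum_nonneg fun i _ => (gl_pos' la i).le

theorem small (hCHI : S_CHI) (hLAM : S_LAM) (hT1 : S_T1) {p : ℕ → unitInterval} {ε γ CD : ℝ}
    {J : ℕ} (h : St p ε γ CD J) {M0 : ℝ} (hM : ∀ x, |rho p 1 x| ≤ M0) {s : ℝ} (hs : |s| ≤ 1) :
    ∃ y0 : ℕ, ∀ y, |gl (lam p γ s) y * cht p γ y0 y| ≤ fl (lam p γ s) y / 2 ∧
      ∃ y', |gl (lam p γ s) y * cht p γ y0 y| ≤ (fl (lam p γ s) y' - fl (lam p γ s) y) / 2 := by
  obtain ⟨C1, C3, hC1, -⟩ := hLAM p ε γ CD J h M0 hM s hs
  obtain ⟨C2, -, hev⟩ := hT1 γ h.g0 h.g1 (lam p γ s) C1 hC1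
  have hchi := (hCHI p ε γ CD J h M0 hM).1
  have M0n : 0 ≤ M0 := (abs_nonneg _).trans (hM 0)
  have h2 : ∀ᶠ y : ℕ in atTop, |chi p γ y y| ≤ √(y : ℝ) / 8 := by
    filter_upwards [(tt_top h.g0).eventually_ge_atTop (16 * M0), eventually_ge_atTop 1] with
      y ht hy
    have t1 := one_le_tt h.g0.le hy
    have a := tt_32 h.g1 hy
    have b := (hchi y y).1
    have c : tt γ y ^ 3 ≤ tt γ y ^ 32 := pow_le_pow_right₀ t1 (by norm_num)
    have d : 1 ≤ tt γ y ^ 2 := one_le_pow₀ t1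
    have e : 16 * M0 * tt γ y ^ 2 ≤ tt γ y * tt γ y ^ 2 :=
      mul_le_mul_of_nonneg_right ht (by positivity)
    have e2 : M0 * 1 ≤ M0 * tt γ y ^ 2 := mul_le_mul_of_nonneg_left d M0n
    nlinarith
  obtain ⟨y0, hy0⟩ := eventually_atTop.1 (hev.and h2)
  refine ⟨y0, fun y => ?_⟩
  by_cases hy : y < y0
  · have : cht p γ y0 y = 0 := if_pos hy
    rw [this, mul_zero, abs_zero]
    exact ⟨by linarith [fl_nonneg' (lam p γ s) y], y, by simp⟩
  · have e : cht p γ y0 y = chi p γ y y := if_neg hy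
    obtain ⟨⟨-, a, b⟩, c⟩ := hy0 y (not_lt.1 hy)
    have g0 := gl_pos' (lam p γ s) y
    have k : |gl (lam p γ s) y * cht p γ y0 y| ≤ √(y : ℝ) * gl (lam p γ s) y / 4 / 2 := by
      rw [e, abs_mul, abs_of_pos g0]
      have := mul_le_mul_of_nonneg_left c g0.le
      linarith
    exact ⟨by linarith, y + ⌊√(y : ℝ)⌋₊, by linarith⟩

theorem drift (hDRIFT : S_DRIFT) {p : ℕ → unitInterval} {ε γ CD : ℝ}
    {J : ℕ} (h : St p ε γ CD J) {M0 : ℝ} (hM : ∀ x, |rho p 1 x| ≤ M0) {s : ℝ} (hs : |s| ≤ 1)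
    (y0 : ℕ) : ∃ z0 : ℕ, 1 ≤ z0 ∧ ∀ z, z0 ≤ z →
      Integrable (fun B => FF p γ s y0 (U z B)) (trials p) ∧
      |EU p z (FF p γ s y0) - FF p γ s y0 z - gl (lam p γ s) z * (s * sl γ z)| ≤
        gl (lam p γ s) z * sl γ z := by
  obtain ⟨C, hC⟩ := hDRIFT p ε γ CD J h M0 hM s hs y0
  have h2 : ∀ᶠ z : ℕ in atTop, C ≤ √(tt γ z) :=
    (Real.tendsto_sqrt_atTop.comp (tt_top h.g0)).eventually_ge_atTop C
  obtain ⟨z0, hz0⟩ := eventually_atTop.1 (hC.and h2)
  refine ⟨max z0 1, le_max_right _ _, fun z hz => ?_⟩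
  obtain ⟨⟨a, b⟩, c⟩ := hz0 z ((le_max_left _ _).trans hz)
  refine ⟨a, b.trans ?_⟩
  have t1 := one_le_tt h.g0.le ((le_max_right _ _).trans hz)
  have g0 := gl_pos' (lam p γ s) z
  have r0 : 0 < √(tt γ z) := Real.sqrt_pos.2 (by linarith)
  have r1 : √(tt γ z) * √(tt γ z) = tt γ z := Real.mul_self_sqrt (by linarith)
  rw [div_le_iff₀ (by linarith), sl]
  have e : gl (lam p γ s) z * (1 / √(tt γ z)) * tt γ z = √(tt γ z) * gl (lam p γ s) z := by
    generalize √(tt γ z) = r at r0 r1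
    rw [← r1]
    field_simp
  rw [e]
  exact mul_le_mul_of_nonneg_right c g0.le

end LYAx

open LYAx in
theorem p_LYA (hCHI : S_CHI) (hLAM : S_LAM) (hT1 : S_T1) (hDRIFT : S_DRIFT) :
    S_LYA := by
  intro p ε γ CD J h M0 hM
  constructor
  · intro hsum
    have hs : |(1 : ℝ)| ≤ 1 := by simp
    obtain ⟨y0, hy0⟩ := small hCHI hLAM hT1 h hM hs
    obtain ⟨z0, hz1, hz0⟩ := drift hDRIFT h hM hs y0
    set la := lam p γ 1 with hla
    set S : ℝ := ∑' i, gl la i with hS
    have hle : ∀ y, fl la y ≤ S := fun y => hsum.sum_le_tsum _ fun i _ => (gl_pos' la i).le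
    have hlt : ∀ y, 0 < S - fl la y := fun y => by
      have a := hle (y + 1)
      have b : fl la (y + 1) = fl la y + gl la y := sum_range_succ _ _
      linarith [gl_pos' la y]
    have hG : ∀ y, (S - fl la y) / 2 ≤ S - FF p γ 1 y0 y ∧
        S - FF p γ 1 y0 y ≤ 3 / 2 * (S - fl la y) := fun y => by
      obtain ⟨-, y', hy'⟩ := hy0 y
      have a := abs_le.1 hy'
      have b := hle y'
      have e : FF p γ 1 y0 y = fl la y + gl la y * cht p γ y0 y := rfl
      constructor <;> linarith [a.1, a.2]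
    have hG0 : ∀ y, 0 ≤ S - FF p γ 1 y0 y := fun y => by linarith [(hG y).1, hlt y]
    have c0 : 0 < (S - fl la z0) / 2 := by linarith [hlt z0]
    refine ⟨fun x => ENNReal.ofReal ((S - FF p γ 1 y0 x) / ((S - fl la z0) / 2)), z0, hz1,
      fun z hzz => ?_, ?_, fun z hzz => ?_⟩
    · rw [ENNReal.one_le_ofReal, one_le_div c0]
      linarith [fl_mono' la hzz.le, (hG z).1]
    · have h0 : Tendsto (fun x => 3 / 2 * (S - fl la x)) atTop (𝓝 (3 / 2 * (S - S))) :=
        (tendsto_const_nhds.sub hsum.hasSum.tendsto_sum_nat).const_mul _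
      rw [sub_self, mul_zero] at h0
      have h1 : Tendsto (fun x => S - FF p γ 1 y0 x) atTop (𝓝 0) :=
        squeeze_zero hG0 (fun y => (hG y).2) h0
      have h2 := h1.div_const ((S - fl la z0) / 2)
      rw [zero_div] at h2
      simpa using ENNReal.tendsto_ofReal h2
    · obtain ⟨hi, hd⟩ := hz0 z hzz
      have hd2 : FF p γ 1 y0 z ≤ ∫ B, FF p γ 1 y0 (U z B) ∂trials p := by
        have a := (abs_le.1 hd).1
        rw [one_mul] at a
        have e : EU p z (FF p γ 1 y0) = ∫ B, FF p γ 1 y0 (U z B) ∂trials p := rfl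
        linarith
      have hi2 : Integrable (fun B => (S - FF p γ 1 y0 (U z B)) / ((S - fl la z0) / 2))
          (trials p) := ((integrable_const S).sub hi).div_const _
      rw [← ofReal_integral_eq_lintegral_ofReal hi2
        (ae_of_all _ fun e => div_nonneg (hG0 _) c0.le)]
      refine ENNReal.ofReal_le_ofReal ?_
      rw [integral_div, integral_sub (integrable_const S) hi]
      refine div_le_div_of_nonneg_right ?_ c0.le
      simp only [integral_const, probReal_univ, smul_eq_mul, one_mul]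
      linarith
  · intro hsum
    have hs : |(-1 : ℝ)| ≤ 1 := by simp
    obtain ⟨y0, hy0⟩ := small hCHI hLAM hT1 h hM hs
    obtain ⟨z0, -, hz0⟩ := drift hDRIFT h hM hs y0
    set la := lam p γ (-1) with hla
    have hF : ∀ y, fl la y / 2 ≤ FF p γ (-1) y0 y := fun y => by
      have a := (abs_le.1 (hy0 y).1).1
      have e : FF p γ (-1) y0 y = fl la y + gl la y * cht p γ y0 y := rfl
      linarith
    have hF0 : ∀ y, 0 ≤ FF p γ (-1) y0 y := fun y => by linarith [hF y, fl_nonneg' la y]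
    have ht : Tendsto (fl la) atTop atTop :=
      (not_summable_iff_tendsto_nat_atTop_of_nonneg fun i => (gl_pos' la i).le).1 hsum
    refine ⟨fun x => ENNReal.ofReal (FF p γ (-1) y0 x), z0, fun z => ENNReal.ofReal_lt_top,
      ENNReal.tendsto_ofReal_atTop.comp
        (tendsto_atTop_mono hF (ht.atTop_div_const (by norm_num))), fun z hzz => ?_⟩
    obtain ⟨hi, hd⟩ := hz0 z hzz
    rw [← ofReal_integral_eq_lintegral_ofReal hi (ae_of_all _ fun e => hF0 _)]
    refine ENNReal.ofReal_le_ofReal ?_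
    have a := (abs_le.1 hd).2
    have e : EU p z (FF p γ (-1) y0) = ∫ B, FF p γ (-1) y0 (U z B) ∂trials p := rfl
    linarith

end

end Pool.Agent.P.MP_758450_pr.EX
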