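import Pool.Agent.P.MP_758450_pr.EXB
import Pool.Agent.P.MP_758450_pr.EXC
import Pool.Agent.P.MP_758450_pr.EXD

/-! Explicit test: from the Lyapunov functions to the walk. -/

set_option autoImplicit false

namespace Pool.Agent.P.MP_758450_pr.EX

open MeasureTheory ProbabilityTheory Filter Topology Finset
open scoped ENNReal Classical
open Pool.Agent.P.MP_c7fa75_pr.T Pool.Agent.P.MP_c7fa75_pr.R2 Pool.Agent.P.MP_758450_pr.IT

theorem top_a {p : ℕ → unitInterval} {ε : ℝ} (hU : UE p ε) {Ω : Type} [MeasurableSpace Ω]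
    (P : Measure Ω) [IsProbabilityMeasure P] {X : ℕ → Ω → ℤ} (hX : IsERW p P X)
    (h : ∃ (f : ℕ → ℝ≥0∞) (z0 : ℕ), 1 ≤ z0 ∧ (∀ z, z < z0 → 1 ≤ f z) ∧ Tendsto f atTop (𝓝 0) ∧
      ∀ z, z0 ≤ z → ∫⁻ B, f (U z B) ∂trials p ≤ f z) :
    ∀ᵐ ω ∂P, Tendsto (fun n => X n ω) atTop atTop := by
  obtain ⟨R, hEnv, hRX⟩ := p_RUN p Ω P X hX
  set P0 : Measure (ℕ → ℝ) := Measure.dirac (cw p) with hP0
  obtain ⟨f, z0, hz0, hf1, hf0, hfs⟩ := h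
  have hbar := p_BAR P0 f z0 hz0 hf1 hf0 (fun z hz => by
    have := hfs z hz
    rw [← (p_LAWT.1 p).2] at this
    simpa only [p_LAWT.2] using this) (Topx.pos hU) (Topx.inf hU false)
  have hF := got_FLD Ω P 1 R P0 (Topx.in01 p) hEnv
    (fun a => Bar a ∧ ∀ x m, ∃ i, m ≤ i ∧ a x i = true) (hbar.and (ae_fld P0 (Topx.inf hU true)))
  filter_upwards [hF, hRX] with ω hω hx
  obtain ⟨a, ⟨hb, hinf⟩, hfol⟩ := hω
  exact (p_DIR a _ (R.nn ω) hfol hb hinf).congr hx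

theorem top_b {p : ℕ → unitInterval} {ε : ℝ} (hU : UE p ε) {Ω : Type} [MeasurableSpace Ω]
    (P : Measure Ω) [IsProbabilityMeasure P] {X : ℕ → Ω → ℤ} (hX : IsERW p P X)
    (h : ∃ (f : ℕ → ℝ≥0∞) (z0 : ℕ), (∀ z, f z < ⊤) ∧ Tendsto f atTop (𝓝 ⊤) ∧
      ∀ z, z0 ≤ z → ∫⁻ B, f (U z B) ∂trials p ≤ f z) :
    P {ω | Tendsto (fun n => X n ω) atTop atTop} = 0 := by
  obtain ⟨R, hEnv, hRX⟩ := p_RUN p Ω P X hX
  set P0 : Measure (ℕ → ℝ) := Measure.dirac (cw p) with hP0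
  obtain ⟨f, z0, hf, hft, hfs⟩ := h
  have hN := got_FLD Ω P 1 R P0 (Topx.in01 p) hEnv (fun a => ¬ Surv a 1)
    (Topx.kill hU f z0 hf hft hfs)
  have h3 : ∀ᵐ ω ∂P, ¬ Tendsto (fun n => X n ω) atTop atTop := by
    filter_upwards [hN, hRX] with ω hω hx hT
    have hT' : Tendsto (R.X 0 ω) atTop atTop := hT.congr fun n => (hx n).symm
    have hG : Good (fun i => R.X i ω) 1 := by
      intro i hi
      obtain rfl : i = 0 := by omega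
      exact tendsto_atTop_mono (fun m => le_abs_self _) hT'
    obtain ⟨a, ha, hF⟩ := hω
    refine ha ⟨fun x => off (fun i => R.X i ω) 1 (x : ℤ), fun x => ?_⟩
    have h := got_NET a (fun i => R.X i ω) 1 1 (R.nn ω) hF le_rfl hG x
    rw [Finset.filter_true_of_mem (fun i hi => by
      obtain rfl : i = 0 := by simpa using hi
      exact hT'), Finset.card_range] at h
    have e : ((x + 1 : ℕ) : ℤ) = (x : ℤ) + 1 := by push_cast; rfl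
    simp only [e]
    rw [h]
  rw [ae_iff] at h3
  simpa only [not_not] using h3

theorem ex_eq (p : ℕ → unitInterval) :
    (fun m : ℕ => Real.exp (-∑ n ∈ Finset.range m,
      (∑ i ∈ Finset.range (n + 1), (2 * (p i : ℝ) - 1)) * (1 - (p n : ℝ)) /
        (2 * ∑ i ∈ Finset.range (n + 1), (p i : ℝ) * (1 - (p i : ℝ))))) = ex (cw p) := by
  funext m
  unfold ex
  congr 2
  refine sum_congr rfl fun n _ => ?_
  simp only [hr, Wn, psum, cw]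
  rw [← mul_sum, show (4 : ℝ) = 2 * 2 by norm_num, mul_assoc (2 : ℝ) 2,
    mul_div_mul_left _ _ (two_ne_zero' ℝ)]

theorem a_SMJ : S_SMJ := p_SMJ p_SM
theorem a_LQ : S_LQ := p_LQ p_SM
theorem a_RMOD : S_RMOD := p_RMOD a_SMJ p_MOD p_HH
theorem a_CHI : S_CHI := p_CHI a_LQ (p_BD a_LQ)
theorem a_LIP : S_LIP := p_LIP a_LQ
theorem a_LAM : S_LAM := p_LAM a_CHI a_LIP
theorem a_POI : S_POI := p_POI p_EXP a_RMOD (p_COUP p_EXP) a_CHI a_LIP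
theorem a_DRIFT : S_DRIFT :=
  p_DRIFT p_EXP (p_VAR p_EXP) a_CHI a_POI a_LAM (p_T1 p_T0) (p_T2 p_T0)
theorem a_LYA : S_LYA := p_LYA a_CHI a_LAM (p_T1 p_T0) a_DRIFT
theorem a_SER : S_SER := p_SER (p_EXPO (p_SUMR p_EXP p_HH) a_CHI (p_BLK a_CHI) p_GB p_ABEL)

theorem final_test :
  ∀ (p : ℕ → unitInterval), (∃ ε : ℝ, 0 < ε ∧ ∀ i, ε ≤ (p i : ℝ) ∧ (p i : ℝ) ≤ 1 - ε) →
    (∃ β : ℝ, β < 1 / 2 ∧ Asymptotics.IsBigO atTop
      (fun n : ℕ => ∑ i ∈ Finset.range n, (2 * (p i : ℝ) - 1)) (fun n : ℕ => (n : ℝ) ^ β)) →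
    (∃ Θ : ℝ, ∀ x, |theta p 1 x| ≤ Θ) →
    ∀ (Ω : Type) [MeasurableSpace Ω] (P : Measure Ω), IsProbabilityMeasure P →
    ∀ X : ℕ → Ω → ℤ, IsERW p P X →
      (Summable (fun m : ℕ => Real.exp (-∑ n ∈ Finset.range m,
          (∑ i ∈ Finset.range (n + 1), (2 * (p i : ℝ) - 1)) * (1 - (p n : ℝ)) /
            (2 * ∑ i ∈ Finset.range (n + 1), (p i : ℝ) * (1 - (p i : ℝ))))) →
        ∀ᵐ ω ∂P, Tendsto (fun n => X n ω) atTop atTop) ∧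
      (¬ Summable (fun m : ℕ => Real.exp (-∑ n ∈ Finset.range m,
          (∑ i ∈ Finset.range (n + 1), (2 * (p i : ℝ) - 1)) * (1 - (p n : ℝ)) /
            (2 * ∑ i ∈ Finset.range (n + 1), (p i : ℝ) * (1 - (p i : ℝ))))) →
        P {ω | Tendsto (fun n => X n ω) atTop atTop} = 0) := by
  rintro p ⟨ε0, hε, hp⟩ ⟨β, hβ, hO⟩ ⟨Θ, hΘ⟩ Ω _ P hP X hX
  obtain ⟨ε, γ, CD, M0, J, h, hM⟩ := p_SET p_EXP p ε0 β Θ ⟨hε, hp⟩ hβ hO hΘ
  rw [ex_eq]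
  have hL := a_LYA p ε γ CD J h M0 hM
  exact ⟨fun hs => top_a h.ue P hX (hL.1 ((a_SER p ε γ CD J h M0 hM 1 (by simp)).2 hs)),
    fun hs => top_b h.ue P hX (hL.2 fun hg => hs ((a_SER p ε γ CD J h M0 hM (-1) (by simp)).1 hg))⟩

end Pool.Agent.P.MP_758450_pr.EX
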