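import Mathlib
import Pool.Agent.P.MP_758450_pr.Defs

set_option autoImplicit false

open MeasureTheory ProbabilityTheory Filter Topology Finset

namespace Pool.Agent.P.MP_758450_pr

/-- visits to `y` before time `n` -/
def vis (γ : ℕ → ℤ) (n : ℕ) (y : ℤ) : ℕ := ((range n).filter fun k => γ k = y).card

def Dep (n : ℕ) (G : (ℕ → ℤ) → ℝ) : Prop := ∀ γ γ' : ℕ → ℤ, (∀ k ≤ n, γ k = γ' k) → G γ = G γ'

def NN (γ : ℕ → ℤ) : Prop := γ 0 = 0 ∧ ∀ n, γ (n + 1) = γ n + 1 ∨ γ (n + 1) = γ n - 1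

theorem vis_congr {γ γ' : ℕ → ℤ} {n : ℕ} (h : ∀ k < n, γ k = γ' k) (y : ℤ) :
    vis γ n y = vis γ' n y := by
  unfold vis
  congr 1
  exact filter_congr fun k hk => by rw [h k (mem_range.1 hk)]

theorem vis_zero (γ : ℕ → ℤ) (y : ℤ) : vis γ 0 y = 0 := by simp [vis]

theorem vis_succ (γ : ℕ → ℤ) (n : ℕ) (y : ℤ) :
    vis γ (n + 1) y = if γ n = y then vis γ n y + 1 else vis γ n y := by
  unfold vis
  rw [range_add_one, filter_insert]
  split_ifs
  · rw [card_insert_of_notMem (by simp)]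
  · rfl

theorem vis_mono (γ : ℕ → ℤ) (y : ℤ) : Monotone fun n => vis γ n y :=
  monotone_nat_of_le_succ fun n => by rw [vis_succ]; split_ifs <;> omega

theorem NN.abs_le {γ : ℕ → ℤ} (h : NN γ) (n : ℕ) : |γ n| ≤ n := by
  induction n with
  | zero => simp [h.1]
  | succ n ih =>
    rw [_root_.abs_le] at ih ⊢
    rcases h.2 n with h | h <;> rw [h] <;> push_cast <;> constructor <;> omega

/-- sums along the path, sorted by site -/
theorem sum_sites (γ : ℕ → ℤ) (u : ℤ → ℕ → ℝ) (Y : Finset ℤ) (n : ℕ)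
    (hY : ∀ i < n, γ i ∉ Y → ∀ l, u (γ i) l = 0) : ∑ i ∈ range n, u (γ i) (vis γ i (γ i)) =
      ∑ y ∈ Y, ∑ l ∈ range (vis γ n y), u y l := by
  induction n with
  | zero => simp [vis_zero]
  | succ n ih =>
    rw [sum_range_succ, ih fun i hi => hY i (by omega)]
    by_cases hn : γ n ∈ Y
    · rw [← add_sum_erase _ _ hn, ← add_sum_erase _ _ hn]
      have : ∑ y ∈ Y.erase (γ n), ∑ l ∈ range (vis γ (n + 1) y), u y l =
          ∑ y ∈ Y.erase (γ n), ∑ l ∈ range (vis γ n y), u y l := by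
        refine sum_congr rfl fun y hy => ?_
        rw [vis_succ, if_neg (ne_of_mem_erase hy).symm]
      rw [this, vis_succ, if_pos rfl, sum_range_succ]
      ring
    · rw [hY n (by omega) hn, add_zero]
      refine sum_congr rfl fun y hy => ?_
      rw [vis_succ, if_neg]
      rintro rfl
      exact hn hy

def extend (n : ℕ) (r : Fin (n + 1) → ℤ) : ℕ → ℤ := fun k => if h : k < n + 1 then r ⟨k, h⟩ else 0

theorem Dep.factor {n : ℕ} {G : (ℕ → ℤ) → ℝ} (hG : Dep n G) (γ : ℕ → ℤ) :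
    G γ = G (extend n fun k => γ k) :=
  hG _ _ fun k hk => by simp [extend, Nat.lt_succ_of_le hk]

section

variable {p : ℕ → unitInterval} {Ω : Type} [MeasurableSpace Ω] {P : Measure Ω}
  [IsProbabilityMeasure P] {X : ℕ → Ω → ℤ}

omit [IsProbabilityMeasure P] in
theorem IsERW.ae_NN (h : IsERW p P X) : ∀ᵐ ω ∂P, NN fun n => X n ω := by
  filter_upwards [h.start, ae_all_iff.2 h.step] with ω h1 h2 using ⟨h1, h2⟩

omit [MeasurableSpace Ω] in
theorem Dep.meas_comap {n : ℕ} {G : (ℕ → ℤ) → ℝ} (hG : Dep n G) (X : ℕ → Ω → ℤ) :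
    Measurable[MeasurableSpace.comap (fun ω (k : Fin (n + 1)) => X k ω) inferInstance]
      (fun ω => G fun k => X k ω) := by
  have h1 : (fun ω => G fun k => X k ω) =
      (fun r => G (extend n r)) ∘ (fun ω (k : Fin (n + 1)) => X k ω) :=
    funext fun ω => hG.factor _
  rw [h1]
  exact Measurable.comp Measurable.of_discrete (Measurable.of_comap_le le_rfl)

omit [IsProbabilityMeasure P] in
theorem IsERW.comap_le (h : IsERW p P X) (n : ℕ) :
    MeasurableSpace.comap (fun ω (k : Fin (n + 1)) => X k ω) inferInstance ≤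
      (inferInstance : MeasurableSpace Ω) :=
  (measurable_pi_lambda _ fun k : Fin (n + 1) => h.meas k).comap_le

omit [IsProbabilityMeasure P] in
theorem IsERW.meas_dep (h : IsERW p P X) {n : ℕ} {G : (ℕ → ℤ) → ℝ} (hG : Dep n G) :
    Measurable (fun ω => G fun k => X k ω) :=
  (hG.meas_comap X).mono (h.comap_le n) le_rfl

theorem IsERW.integrable (h : IsERW p P X) {n : ℕ} {G : (ℕ → ℤ) → ℝ} (hG : Dep n G) :
    Integrable (fun ω => G fun k => X k ω) P := by
  set T : Finset (Fin (n + 1) → ℤ) := Fintype.piFinset fun _ => Finset.Icc (-(n : ℤ)) n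
  refine Integrable.of_bound (h.meas_dep hG).aestronglyMeasurable
    (∑ r ∈ T, |G (extend n r)|) ?_
  filter_upwards [h.ae_NN] with ω hω
  rw [hG.factor, Real.norm_eq_abs]
  refine single_le_sum (f := fun r => |G (extend n r)|) (fun _ _ => abs_nonneg _) ?_
  simp only [T, Fintype.mem_piFinset, Finset.mem_Icc]
  intro k
  have h1 := abs_le.1 (hω.abs_le k)
  have h2 := k.2
  constructor <;> omega

theorem dep_p (p : ℕ → unitInterval) (n : ℕ) : Dep n fun γ => (p (vis γ n (γ n)) : ℝ) := by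
  intro γ γ' h
  simp only
  rw [vis_congr (fun k hk => h k hk.le), h n le_rfl]

theorem Dep.mul {n : ℕ} {A B : (ℕ → ℤ) → ℝ} (hA : Dep n A) (hB : Dep n B) :
    Dep n fun γ => A γ * B γ := fun γ γ' h => by simp only [hA γ γ' h, hB γ γ' h]

theorem Dep.sub {n : ℕ} {A B : (ℕ → ℤ) → ℝ} (hA : Dep n A) (hB : Dep n B) :
    Dep n fun γ => A γ - B γ := fun γ γ' h => by simp only [hA γ γ' h, hB γ γ' h]

theorem Dep.succ {n : ℕ} {A : (ℕ → ℤ) → ℝ} (hA : Dep n A) : Dep (n + 1) A :=
  fun γ γ' h => hA γ γ' fun k hk => h k (by omega)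

theorem dep_right (n : ℕ) : Dep (n + 1) fun γ => if γ (n + 1) = γ n + 1 then (1 : ℝ) else 0 :=
  fun γ γ' h => by simp only [h n (by omega), h (n + 1) le_rfl]

theorem IsERW.integral_right (h : IsERW p P X) {n : ℕ} {G : (ℕ → ℤ) → ℝ} (hG : Dep n G) :
    ∫ ω, (G fun k => X k ω) * (if X (n + 1) ω = X n ω + 1 then (1 : ℝ) else 0) ∂P =
      ∫ ω, (G fun k => X k ω) * (p (vis (fun k => X k ω) n (X n ω)) : ℝ) ∂P := by
  set f : Ω → ℝ := fun ω => G fun k => X k ω
  set g : Ω → ℝ := Set.indicator {ω | X (n + 1) ω = X n ω + 1} fun _ => (1 : ℝ) with hg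
  have hg' : g = fun ω => if X (n + 1) ω = X n ω + 1 then (1 : ℝ) else 0 := by
    funext ω; simp [hg, Set.indicator_apply]
  have hgi : Integrable g P := by rw [hg']; exact h.integrable (dep_right n)
  have hfg : Integrable (f * g) P := by
    rw [hg']; exact h.integrable (hG.succ.mul (dep_right n))
  have h1 := condExp_mul_of_stronglyMeasurable_left (hG.meas_comap X).stronglyMeasurable hfg hgi
  have h2 : ∫ ω, (f * g) ω ∂P = ∫ ω, (f * condExp (MeasurableSpace.comap
      (fun ω (k : Fin (n + 1)) => X k ω) inferInstance) P g) ω ∂P := by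
    rw [← integral_congr_ae h1, integral_condExp (h.comap_le n)]
  rw [hg'] at h2
  refine h2.trans (integral_congr_ae ?_)
  filter_upwards [h.cond n] with ω hω
  rw [← hg', Pi.mul_apply, hω]
  rfl

theorem IsERW.integral_step (h : IsERW p P X) {n : ℕ} {A B : (ℕ → ℤ) → ℝ} (hA : Dep n A)
    (hB : Dep n B) :
    ∫ ω, (if X (n + 1) ω = X n ω + 1 then A fun k => X k ω else B fun k => X k ω) ∂P =
      ∫ ω, ((p (vis (fun k => X k ω) n (X n ω)) : ℝ) * (A fun k => X k ω) +
        (1 - (p (vis (fun k => X k ω) n (X n ω)) : ℝ)) * (B fun k => X k ω)) ∂P := by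
  have h1 := h.integral_right (hA.sub hB)
  have h2 : ∀ ω, (if X (n + 1) ω = X n ω + 1 then A fun k => X k ω else B fun k => X k ω) =
      ((A fun k => X k ω) - (B fun k => X k ω)) *
        (if X (n + 1) ω = X n ω + 1 then (1 : ℝ) else 0) + (B fun k => X k ω) := by
    intro ω; split_ifs <;> ring
  have h3 : ∀ ω, ((p (vis (fun k => X k ω) n (X n ω)) : ℝ) * (A fun k => X k ω) +
        (1 - (p (vis (fun k => X k ω) n (X n ω)) : ℝ)) * (B fun k => X k ω)) =
      ((A fun k => X k ω) - (B fun k => X k ω)) * (p (vis (fun k => X k ω) n (X n ω)) : ℝ) +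
        (B fun k => X k ω) := by
    intro ω; ring
  simp only [h2, h3]
  rw [integral_add (h.integrable ((hA.sub hB).succ.mul (dep_right n))) (h.integrable hB),
    integral_add (h.integrable ((hA.sub hB).mul (dep_p p n))) (h.integrable hB), h1]

/-- multiplicative functional -/
noncomputable def ex (u : ℤ → ℕ → ℝ) (n : ℕ) (γ : ℕ → ℤ) : ℝ :=
  Real.exp (∑ i ∈ range n, u (γ i) (vis γ i (γ i)))

theorem ex_congr (u : ℤ → ℕ → ℝ) {n : ℕ} {γ γ' : ℕ → ℤ} (h : ∀ k < n, γ k = γ' k) :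
    ex u n γ = ex u n γ' := by
  unfold ex
  congr 1
  refine sum_congr rfl fun i hi => ?_
  have hi' := mem_range.1 hi
  rw [h i hi', vis_congr (fun k hk => h k (by omega))]

theorem ex_succ (u : ℤ → ℕ → ℝ) (n : ℕ) (γ : ℕ → ℤ) :
    ex u (n + 1) γ = ex u n γ * Real.exp (u (γ n) (vis γ n (γ n))) := by
  rw [ex, sum_range_succ, Real.exp_add, ex]

theorem ex_pos (u : ℤ → ℕ → ℝ) (n : ℕ) (γ : ℕ → ℤ) : 0 < ex u n γ := Real.exp_pos _

theorem IsERW.ville (h : IsERW p P X) (G : ℤ → ℝ) (u : ℤ → ℕ → ℝ) (hG : ∀ y, 0 ≤ G y)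
    (hu : ∀ y l, ((p l : ℝ) * G (y + 1) + (1 - (p l : ℝ)) * G (y - 1)) * Real.exp (u y l) ≤ G y)
    (c : ℝ) (hc : 0 < c) :
    P {ω | ∃ n, c ≤ G (X n ω) * ex u n fun k => X k ω} ≤ ENNReal.ofReal (G 0 / c) := by
  classical
  set Hit : ℕ → (ℕ → ℤ) → Prop := fun n γ => ∃ k ≤ n, c ≤ G (γ k) * ex u k γ with hHit
  have hHc : ∀ n γ γ', (∀ k ≤ n, γ k = γ' k) → (Hit n γ ↔ Hit n γ') := by
    intro n γ γ' hh
    refine exists_congr fun k => and_congr_right fun hk => ?_
    rw [hh k hk, ex_congr u (fun j hj => hh j (by omega))]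
  set Ψ : ℕ → (ℕ → ℤ) → ℝ := fun n γ => if Hit n γ then c else G (γ n) * ex u n γ with hΨ
  have hΨd : ∀ n, Dep n (Ψ n) := by
    intro n γ γ' hh
    simp only [hΨ, hHc n γ γ' hh, hh n le_rfl, ex_congr u (fun j hj => hh j hj.le)]
  have hstep : ∀ n, ∫ ω, Ψ (n + 1) (fun k => X k ω) ∂P ≤ ∫ ω, Ψ n (fun k => X k ω) ∂P := by
    intro n
    set A : (ℕ → ℤ) → ℝ := fun γ => if Hit n γ then c else G (γ n + 1) * ex u (n + 1) γ with hA
    set B : (ℕ → ℤ) → ℝ := fun γ => if Hit n γ then c else G (γ n - 1) * ex u (n + 1) γ with hB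
    have hAd : Dep n A := by
      intro γ γ' hh
      simp only [hA, hHc n γ γ' hh, hh n le_rfl,
        ex_congr u (n := n + 1) (fun j hj => hh j (by omega))]
    have hBd : Dep n B := by
      intro γ γ' hh
      simp only [hB, hHc n γ γ' hh, hh n le_rfl,
        ex_congr u (n := n + 1) (fun j hj => hh j (by omega))]
    have hAB : Dep (n + 1) fun γ => if γ (n + 1) = γ n + 1 then A γ else B γ := by
      intro γ γ' hh
      simp only [hh n (by omega), hh (n + 1) le_rfl, hAd.succ γ γ' hh, hBd.succ γ γ' hh]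
    have hC : Dep n fun γ => (p (vis γ n (γ n)) : ℝ) * A γ + (1 - (p (vis γ n (γ n)) : ℝ)) * B γ := by
      intro γ γ' hh
      have := dep_p p n γ γ' hh
      simp only at this
      simp only [this, hAd γ γ' hh, hBd γ γ' hh]
    refine le_trans (integral_mono_ae (h.integrable (hΨd (n + 1))) (h.integrable hAB) ?_) ?_
    · filter_upwards [h.ae_NN] with ω hω
      set γ : ℕ → ℤ := fun k => X k ω
      change Ψ (n + 1) γ ≤ if γ (n + 1) = γ n + 1 then A γ else B γ
      by_cases h1 : Hit n γ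
      · have h2 : Hit (n + 1) γ := by
          obtain ⟨k, hk, hk'⟩ := h1
          exact ⟨k, by omega, hk'⟩
        simp only [hΨ, hA, hB, if_pos h1, if_pos h2, ite_self, le_refl]
      · have h3 : (if γ (n + 1) = γ n + 1 then A γ else B γ) =
            G (γ (n + 1)) * ex u (n + 1) γ := by
          simp only [hA, hB, if_neg h1]
          rcases hω.2 n with h4 | h4
          · rw [if_pos h4, h4]
          · rw [if_neg (by omega), h4]
        rw [h3]
        simp only [hΨ]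
        split_ifs with h2
        · obtain ⟨k, hk, hk'⟩ := h2
          rcases Nat.lt_or_eq_of_le hk with h5 | h5
          · exact absurd ⟨k, by omega, hk'⟩ h1
          · rw [← h5]; exact hk'
        · exact le_rfl
    · rw [h.integral_step hAd hBd]
      refine integral_mono (h.integrable hC) (h.integrable (hΨd n)) fun ω => ?_
      set γ : ℕ → ℤ := fun k => X k ω
      change (p (vis γ n (γ n)) : ℝ) * A γ + (1 - (p (vis γ n (γ n)) : ℝ)) * B γ ≤ Ψ n γ
      simp only [hΨ, hA, hB]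
      split_ifs with h1
      · exact le_of_eq (by ring)
      · rw [ex_succ]
        have := mul_le_mul_of_nonneg_right (hu (γ n) (vis γ n (γ n))) (ex_pos u n γ).le
        linarith
  have hzero : ∫ ω, Ψ 0 (fun k => X k ω) ∂P ≤ G 0 := by
    have : ∫ ω, Ψ 0 (fun k => X k ω) ∂P ≤ ∫ _ω, G 0 ∂P := by
      refine integral_mono_ae (h.integrable (hΨd 0)) (integrable_const _) ?_
      filter_upwards [h.start] with ω hω
      simp only [hΨ, hHit]
      split_ifs with h1
      · obtain ⟨k, hk, hk'⟩ := h1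
        obtain rfl : k = 0 := by omega
        simpa [ex, hω] using hk'
      · simp [ex, hω]
    simpa using this
  have hn : ∀ n, ∫ ω, Ψ n (fun k => X k ω) ∂P ≤ G 0 := by
    intro n
    induction n with
    | zero => exact hzero
    | succ n ih => exact (hstep n).trans ih
  have hP : ∀ n, P {ω | Hit n fun k => X k ω} ≤ ENNReal.ofReal (G 0 / c) := by
    intro n
    have h1 := mul_meas_ge_le_integral_of_nonneg (μ := P)
      (f := fun ω => Ψ n (fun k => X k ω)) (ae_of_all _ fun ω => by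
        simp only [hΨ, Pi.zero_apply]
        split_ifs
        · exact hc.le
        · exact mul_nonneg (hG _) (ex_pos _ _ _).le) (h.integrable (hΨd n)) c
    have h2 : P.real {ω | Hit n fun k => X k ω} ≤ P.real {ω | c ≤ Ψ n (fun k => X k ω)} := by
      refine measureReal_mono fun ω hω => ?_
      simp only [hΨ, Set.mem_ofPred_eq] at hω ⊢
      rw [if_pos hω]
    rw [← ofReal_measureReal]
    refine ENNReal.ofReal_le_ofReal ?_
    rw [le_div_iff₀ hc]
    nlinarith [hn n]
  have hU : {ω | ∃ n, c ≤ G (X n ω) * ex u n fun k => X k ω} =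
      ⋃ n, {ω | Hit n fun k => X k ω} := by
    ext ω
    simp only [hHit, Set.mem_ofPred_eq, Set.mem_iUnion]
    exact ⟨fun ⟨n, hn⟩ => ⟨n, n, le_rfl, hn⟩, fun ⟨_, k, _, hk⟩ => ⟨k, hk⟩⟩
  rw [hU, Monotone.measure_iUnion]
  · exact iSup_le hP
  · intro a b hab ω ⟨k, hk, hk'⟩
    exact ⟨k, hk.trans hab, hk'⟩

theorem IsERW.ae_bdd (h : IsERW p P X) (G : ℤ → ℝ) (u : ℤ → ℕ → ℝ) (hG : ∀ y, 0 ≤ G y)
    (hu : ∀ y l, ((p l : ℝ) * G (y + 1) + (1 - (p l : ℝ)) * G (y - 1)) * Real.exp (u y l) ≤ G y) :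
    ∀ᵐ ω ∂P, ∃ c : ℝ, ∀ n, G (X n ω) * ex u n (fun k => X k ω) < c := by
  rw [ae_iff]
  refine le_antisymm ?_ zero_le
  have h1 : Tendsto (fun N : ℕ => ENNReal.ofReal (G 0 / ((N : ℝ) + 1))) atTop (𝓝 0) := by
    rw [← ENNReal.ofReal_zero]
    refine ENNReal.tendsto_ofReal ?_
    exact Tendsto.div_atTop tendsto_const_nhds
      (tendsto_atTop_add_const_right _ _ tendsto_natCast_atTop_atTop)
  refine ge_of_tendsto' h1 fun N => le_trans (measure_mono fun ω hω => ?_)
    (h.ville G u hG hu ((N : ℝ) + 1) (by positivity))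
  simp only [not_exists, not_forall, not_lt, Set.mem_ofPred_eq] at hω ⊢
  exact hω _

end

end Pool.Agent.P.MP_758450_pr
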