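import Mathlib
import Pool.Agent.P.MP_758450_pr.Super
import Pool.Agent.P.MP_758450_pr.Coins

set_option autoImplicit false

open MeasureTheory ProbabilityTheory Filter Topology Finset

namespace Pool.Agent.P.MP_758450_pr

/-- position and local times; at time `n` with local time `l` the coin `(n, l)` is used -/
def mst (c : ℕ × ℕ → Bool) : ℕ → ℤ × (ℤ → ℕ)
  | 0 => (0, fun _ => 0)
  | n + 1 =>
    (if c (n, (mst c n).2 (mst c n).1) = true then (mst c n).1 + 1 else (mst c n).1 - 1,
     fun x => if (mst c n).1 = x then (mst c n).2 x + 1 else (mst c n).2 x)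

def mX (n : ℕ) (c : ℕ × ℕ → Bool) : ℤ := (mst c n).1

theorem mst_vis (c : ℕ × ℕ → Bool) (n : ℕ) (x : ℤ) :
    (mst c n).2 x = vis (fun k => mX k c) n x := by
  induction n with
  | zero => rw [vis_zero]; rfl
  | succ n ih => rw [vis_succ, ← ih]; rfl

theorem vis_le (γ : ℕ → ℤ) (n : ℕ) (x : ℤ) : vis γ n x ≤ n :=
  (card_filter_le _ _).trans (by simp)

theorem mX_succ (c : ℕ × ℕ → Bool) (n : ℕ) : mX (n + 1) c =
    if c (n, vis (fun k => mX k c) n (mX n c)) = true then mX n c + 1 else mX n c - 1 := by
  rw [← mst_vis]; rfl

theorem dep_mX (n : ℕ) : ∀ k ≤ n, DepOn (range n ×ˢ range n) (mX k) := by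
  intro k hk c c' h
  induction k using Nat.strong_induction_on with
  | _ k ih =>
    cases k with
    | zero => rfl
    | succ k =>
      have h1 : ∀ j ≤ k, mX j c = mX j c' := fun j hj => ih j (by omega) (by omega)
      rw [mX_succ, mX_succ, h1 k le_rfl,
        vis_congr (γ := fun k => mX k c) (γ' := fun k => mX k c') (fun j hj => h1 j hj.le), h]
      have := vis_le (fun k => mX k c') k (mX k c')
      simp only [mem_product, mem_range]
      omega

theorem exists_ERW (p : ℕ → unitInterval) :
    IsERW p (coinLaw fun a : ℕ × ℕ => p a.2) mX := by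
  have hmeas : ∀ n, Measurable (mX n) := fun n => (dep_mX n n le_rfl).measurable
  refine ⟨hmeas, ae_of_all _ fun _ => rfl, fun n => ae_of_all _ fun c => ?_, fun n => ?_⟩
  · rw [mX_succ]; split_ifs <;> simp
  · have hm : MeasurableSpace.comap (fun c (k : Fin (n + 1)) => mX k c) inferInstance ≤
        (inferInstance : MeasurableSpace (ℕ × ℕ → Bool)) :=
      (measurable_pi_lambda _ fun k : Fin (n + 1) => hmeas k).comap_le
    set V : (ℕ × ℕ → Bool) → ℕ := fun c => vis (fun k => mX k c) n (mX n c) with hV
    have hVd : DepOn (range n ×ˢ range n) V := fun c c' h => by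
      simp only [hV]
      rw [dep_mX n n le_rfl c c' h, vis_congr (γ := fun k => mX k c) (γ' := fun k => mX k c')
        (fun j hj => dep_mX n j hj.le c c' h)]
    have hind : Set.indicator {c | mX (n + 1) c = mX n c + 1} (fun _ => (1 : ℝ)) =
        fun c => ∑ l ∈ range (n + 1), (if V c = l then (1 : ℝ) else 0) *
          (if c (n, l) = true then 1 else 0) := by
      funext c
      rw [sum_eq_single (V c) (fun l _ hl => by rw [if_neg (Ne.symm hl), zero_mul])
        (fun h => absurd (mem_range.2 (Nat.lt_succ_of_le (vis_le _ _ _))) h), if_pos rfl, one_mul]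
      have h0 := mX_succ c n
      by_cases h : c (n, V c) = true
      · rw [if_pos h] at h0
        rw [if_pos h, Set.indicator_of_mem (by exact h0)]
      · rw [if_neg h] at h0
        rw [if_neg h, Set.indicator_of_notMem (by simp only [Set.mem_ofPred_eq]; omega)]
    have hp : (fun c => (p (V c) : ℝ)) =
        fun c => ∑ l ∈ range (n + 1), (if V c = l then (1 : ℝ) else 0) * (p l : ℝ) := by
      funext c
      rw [sum_eq_single (V c) (fun l _ hl => by rw [if_neg (Ne.symm hl), zero_mul])
        (fun h => absurd (mem_range.2 (Nat.lt_succ_of_le (vis_le _ _ _))) h), if_pos rfl, one_mul]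
    have hI : ∀ (l : ℕ) (G : (ℕ × ℕ → Bool) → ℝ), DepOn (range n ×ˢ range n) G →
        Integrable (fun c => G c * (if c (n, l) = true then (1 : ℝ) else 0))
          (coinLaw fun a : ℕ × ℕ => p a.2) := by
      intro l G hG
      refine DepOn.integrable (T := insert (n, l) (range n ×ˢ range n)) (fun c c' h => ?_) _
      simp only [h (n, l) (mem_insert_self _ _), hG c c' fun i hi => h i (mem_insert_of_mem hi)]
    have hVl : ∀ l, DepOn (range n ×ˢ range n) fun c => if V c = l then (1 : ℝ) else 0 :=
      fun l c c' h => by simp only [hVd c c' h]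
    have hpi : Integrable (fun c => (p (V c) : ℝ)) (coinLaw fun a : ℕ × ℕ => p a.2) :=
      DepOn.integrable (T := range n ×ˢ range n) (fun c c' h => by simp only [hVd c c' h]) _
    symm
    refine ae_eq_condExp_of_forall_setIntegral_eq hm ?_ (fun s _ _ => hpi.integrableOn)
      (fun s hs _ => ?_) ((dep_p p n).meas_comap mX).stronglyMeasurable.aestronglyMeasurable
    · rw [hind]
      exact integrable_finsetSum _ fun l _ => hI l _ (hVl l)
    · classical
      change ∫ c in s, (p (V c) : ℝ) ∂_ = _
      rw [hind, hp, integral_finsetSum _ fun l _ => (hI l _ (hVl l)).integrableOn,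
        integral_finsetSum _ fun l _ => (((hVl l).integrable _).mul_const _).integrableOn]
      refine sum_congr rfl fun l _ => ?_
      rw [← integral_indicator (hm s hs), ← integral_indicator (hm s hs)]
      obtain ⟨t, -, rfl⟩ := hs
      have hG : DepOn (range n ×ˢ range n) fun c =>
          (if (fun k : Fin (n + 1) => mX k c) ∈ t then (1 : ℝ) else 0) *
            (if V c = l then (1 : ℝ) else 0) := by
        intro c c' h
        have : (fun k : Fin (n + 1) => mX k c) = fun k : Fin (n + 1) => mX k c' :=
          funext fun k => dep_mX n k (by omega) c c' h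
        simp only [this, hVd c c' h]
      have := hG.integral_mul (fun a : ℕ × ℕ => p a.2) (c := (n, l)) (by simp)
        (fun b => if b = true then (1 : ℝ) else 0)
      simp only [if_true, Bool.false_eq_true, if_false, mul_one, mul_zero, add_zero] at this
      rw [← integral_mul_const] at this
      refine Eq.trans (integral_congr_ae (ae_of_all _ fun c => ?_))
        (this.symm.trans (integral_congr_ae (ae_of_all _ fun c => ?_)))
      all_goals
        simp only [Set.indicator_apply, Set.mem_preimage]
        split_ifs <;> simp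

end Pool.Agent.P.MP_758450_pr
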