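import Pool.Agent.P.MP_758450_pr.Defs
import Pool.Agent.P.MP_c7fa75_pr.R2.All

/-! Integral test, part one: moments of one step of the chain. -/

set_option autoImplicit false

namespace Pool.Agent.P.MP_758450_pr.IT

open MeasureTheory ProbabilityTheory Filter Topology Finset
open scoped ENNReal Classical
open Pool.Agent.P.MP_c7fa75_pr.T Pool.Agent.P.MP_c7fa75_pr.R2

/-- The cookies as real numbers. -/
def cw (p : ℕ → unitInterval) : ℕ → ℝ := fun i => (p i : ℝ)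

/-- Uniform ellipticity. -/
def UE (p : ℕ → unitInterval) (ε : ℝ) : Prop := 0 < ε ∧ ∀ i, ε ≤ cw p i ∧ cw p i ≤ 1 - ε

/-- A site to the left of the origin that the walk cannot cross. -/
def Bar (a : ℤ → ℕ → Bool) : Prop :=
  ∃ (m : ℕ) (n : ℕ → ℕ), Ll (a (-(m : ℤ))) (n 0) = 0 ∧
    ∀ x : ℕ, Ll (a ((x : ℤ) - m + 1)) (n (x + 1)) + 1 ≤ Rr (a ((x : ℤ) - m)) (n x)

def S_LAWT : Prop :=
  (∀ p : ℕ → unitInterval, (lamU ℕ).map (arr (cw p)) = trials p ∧
    Qa (Measure.dirac (cw p)) = trials p) ∧ ∀ (x : ℕ) (B : ℕ → Bool), U x B = Uo B x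

def S_HOR : Prop :=
  ∀ (p : ℕ → unitInterval) (ε : ℝ), UE p ε → ∃ K : ℝ, 0 ≤ K ∧ ∀ y n : ℕ, 1 ≤ y →
    Ex (cw p) y n (mg (cw p)) = 0 ∧
    2 * ε * Ex (cw p) y n (fun a b => (a : ℝ) + b) ≤ Ex (cw p) y n (fun a b => mg (cw p) a b ^ 2) ∧
    Ex (cw p) y n (fun a b => mg (cw p) a b ^ 4) ≤ K * (y : ℝ) ^ 2

def S_LIM : Prop :=
  ∀ (p : ℕ → unitInterval) (ε : ℝ), UE p ε → ∀ y : ℕ, 1 ≤ y →
    (∀ (V : ℕ → ℕ → ℝ) (c : ℝ), (∀ a b, 0 ≤ V a b) → (∀ n, Ex (cw p) y n V ≤ c) →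
      Integrable (fun B => V (U y B) y) (trials p) ∧ ∫ B, V (U y B) y ∂trials p ≤ c) ∧
    Integrable (fun B => (U y B : ℝ) ^ 4) (trials p) ∧
    ∀ (V : ℕ → ℕ → ℝ) (c : ℝ), (∀ a b, |V a b| ≤ c * ((a : ℝ) + b) ^ 2) →
      Tendsto (fun n => Ex (cw p) y n V) atTop (𝓝 (∫ B, V (U y B) y ∂trials p))

def S_CEN : Prop :=
  ∀ (p : ℕ → unitInterval) (ε : ℝ), UE p ε → ∃ K : ℝ, 0 ≤ K ∧ ∀ y : ℕ, 1 ≤ y →
    (∃ c : ℝ, ∫ B, ((U y B : ℝ) - c) ^ 4 ∂trials p ≤ K * (y : ℝ) ^ 2) ∧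
    ε / 2 * y ≤ ∫ B, ((U y B : ℝ) - y) ^ 2 ∂trials p

def S_BAR : Prop :=
  ∀ (P0 : Measure (ℕ → ℝ)) [IsProbabilityMeasure P0] (f : ℕ → ℝ≥0∞) (z0 : ℕ), 1 ≤ z0 →
    (∀ z, z < z0 → 1 ≤ f z) → Tendsto f atTop (𝓝 0) →
    (∀ z, z0 ≤ z → ∫⁻ e, f (Uo e z) ∂Qa P0 ≤ f z) →
    (∀ z, 0 < Qa P0 {e | ∀ i, i < z → e i = true}) →
    (∀ᵐ e ∂Qa P0, ∀ m, ∃ i, m ≤ i ∧ e i = false) → ∀ᵐ a ∂Fld P0, Bar a

def S_DIR : Prop :=
  ∀ (a : ℤ → ℕ → Bool) (q : ℕ → ℕ → ℤ), NN q → Follows a q 1 → Bar a →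
    (∀ x m, ∃ i, m ≤ i ∧ a x i = true) → Tendsto (q 0) atTop atTop

def S_RUN : Prop :=
  ∀ (p : ℕ → unitInterval) (Ω : Type) [MeasurableSpace Ω] (P : Measure Ω) [IsProbabilityMeasure P]
    (X : ℕ → Ω → ℤ), IsERW p P X → ∃ R : Run P 1, Env P R.W (Measure.dirac (cw p)) ∧
      ∀ᵐ ω ∂P, ∀ n, R.X 0 ω n = X n ω

namespace LAWTx

theorem one (q : unitInterval) :
    (volume : Measure unitInterval).map (arr1 (q : ℝ)) = bernoulliMeasure true false q := by
  have hm : Measurable (arr1 (q : ℝ)) := meas_arr1 measurable_const measurable_id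
  have : IsProbabilityMeasure ((volume : Measure unitInterval).map (arr1 (q : ℝ))) :=
    Measure.isProbabilityMeasure_map hm.aemeasurable
  refine Measure.ext_of_measureReal_singleton fun b => ?_
  rw [map_measureReal_apply hm (measurableSet_singleton b)]
  have h := CYLx.one q.2 b
  cases b
  · rw [bernoulliMeasure_real_apply_of_notMem_of_mem q (measurableSet_singleton _) (by simp) rfl]
    exact h
  · rw [bernoulliMeasure_real_apply_of_mem_of_notMem q (measurableSet_singleton _) rfl (by simp)]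
    exact h

theorem law (p : ℕ → unitInterval) : (lamU ℕ).map (arr (cw p)) = trials p := by
  have h := Measure.infinitePi_map_pi (fun _ : ℕ => (volume : Measure unitInterval))
    (f := fun i => arr1 (p i : ℝ)) (fun i => meas_arr1 measurable_const measurable_id)
  simp only [one] at h
  exact h

theorem U_eq (x : ℕ) (B : ℕ → Bool) : U x B = Uo B x := by
  have e : U x B = Set.ncard {i : ℕ | B i = true ∧ Ll B i < x} := rfl
  rw [e, Uo]
  split_ifs with h
  · rw [Rr, ← Set.ncard_coe_finset]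
    congr 1
    ext i
    simp only [Set.mem_setOf_eq, coe_filter, mem_range, Nat.lt_find_iff, not_le]
    exact ⟨fun hi => ⟨fun m hm => (Ll_mono B hm).trans_lt hi.2, hi.1⟩,
      fun hi => ⟨hi.2, hi.1 i le_rfl⟩⟩
  · push Not at h
    refine Set.Infinite.ncard fun hf => ?_
    have h1 : ∀ n, Rr B n ≤ hf.toFinset.card := fun n =>
      card_le_card fun i hi => by
        rw [Set.Finite.mem_toFinset]
        exact ⟨(mem_filter.1 hi).2, h i⟩
    have h2 := Rr_add_Ll B (hf.toFinset.card + x)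
    have h3 := h1 (hf.toFinset.card + x)
    have h4 := h (hf.toFinset.card + x)
    omega

/-- The number of successes before the `x`-th failure is measurable. -/
theorem meas_U (x : ℕ) : Measurable (U x) := by
  have : U x = fun B => Uo B x := funext (U_eq x)
  rw [this]
  exact meas_Uo x

/-- Every function of that number is measurable. -/
theorem aesm_U (p : ℕ → unitInterval) (x : ℕ) (g : ℕ → ℝ) :
    AEStronglyMeasurable (fun B => g (U x B)) (trials p) :=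
  ((Measurable.of_discrete (f := g)).comp (meas_U x)).aestronglyMeasurable

instance (p : ℕ → unitInterval) : IsProbabilityMeasure (trials p) := by
  unfold trials; infer_instance

end LAWTx

theorem p_LAWT :
    S_LAWT := by
  refine ⟨fun p => ⟨LAWTx.law p, ?_⟩, LAWTx.U_eq⟩
  rw [Qa, Measure.dirac_prod, Measure.map_map meas_arr2 measurable_prodMk_left]
  exact LAWTx.law p

namespace Varx

theorem lim {κ : ℕ → ℝ} (h : Summable (fun n => |κ (n + 1) - κ n|)) :
    ∃ L, Tendsto κ atTop (𝓝 L) :=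
  cauchySeq_tendsto_of_complete (cauchySeq_of_summable_dist
    (h.congr fun n => by rw [Real.dist_eq, abs_sub_comm]))

theorem sub_le (κ : ℕ → ℝ) {m n : ℕ} (h : m ≤ n) :
    |κ n - κ m| ≤ ∑ i ∈ Ico m n, |κ (i + 1) - κ i| := by
  rw [← sum_Ico_sub κ h]
  exact abs_sum_le_sum_abs _ _

theorem win_le (κ : ℕ → ℝ) {z n : ℕ} (h1 : z / 2 ≤ n) (h2 : n ≤ 4 * z) :
    |κ n - κ z| ≤ win (fun i => |κ (i + 1) - κ i|) z := by
  have hz : z / 2 ≤ z := Nat.div_le_self _ _
  rcases le_total z n with h | h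
  · exact (sub_le κ h).trans (sum_le_sum_of_subset_of_nonneg
      (Ico_subset_Ico hz h2) fun _ _ _ => abs_nonneg _)
  · rw [abs_sub_comm]
    exact (sub_le κ h).trans (sum_le_sum_of_subset_of_nonneg
      (Ico_subset_Ico h1 (by omega)) fun _ _ _ => abs_nonneg _)

end Varx

namespace HORx

theorem psum_le (w : ℕ → ℝ) (ε : ℝ) (h : ∀ i, w i ≤ 1 - ε) (n : ℕ) :
    psum w n ≤ (1 - 2 * ε) * n := by
  induction n with
  | zero => simp [psum]
  | succ n ih => rw [psum_succ]; push_cast; linarith [h n]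

end HORx

theorem p_HOR :
    S_HOR := by
  intro p ε hU
  obtain ⟨he, hU⟩ := hU
  refine ⟨64 * (2 + 1 / ε) / ε ^ 2 + 24 / ε, by positivity, fun y n hy => ?_⟩
  generalize cw p = w at hU ⊢
  have hw : ∀ i, w i ∈ Set.Icc (0 : ℝ) 1 := fun i => ⟨by linarith [hU i], by linarith [hU i]⟩
  have he2 : ε ≤ 1 / 2 := by linarith [hU 0]
  have hy' : (1 : ℝ) ≤ y := by exact_mod_cast hy
  have h1 : Ex w y n (mg w) = 0 := by
    have a := Ex_le hw y n (V := mg w) (fun a b _ => by rw [mg_right, mg_left]; apply le_of_eq; ring)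
    have b := Ex_le hw y n (V := fun a b => - mg w a b)
      (fun a b _ => by rw [mg_right, mg_left]; apply le_of_eq; ring)
    rw [Ex_neg] at b
    rw [MOMx.mg00] at a b
    linarith
  have h2 : Ex w y n (fun a b => mg w a b ^ 2) ≤ Ex w y n (fun a b => (a : ℝ) + b) := by
    have a := Ex_le hw y n (V := fun a b => mg w a b ^ 2 - ((a : ℝ) + b)) (fun a b _ => by
      rw [mg_right, mg_left]
      push_cast
      nlinarith [sq_nonneg (2 * w (a + b) - 1)])
    rw [Ex_sub, MOMx.mg00] at a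
    simp only [Nat.cast_zero] at a
    linarith
  have key : ∀ a b, Reach y n a b → ε * ((a : ℝ) + b) ≤ y + mg w a b / 2 := by
    intro a b hr
    have e1 : (b : ℝ) ≤ y := by exact_mod_cast hr.1
    have e2 := HORx.psum_le w ε (fun i => (hU i).2) (a + b)
    push_cast at e2
    unfold mg
    linarith
  have h3 : ε * Ex w y n (fun a b => (a : ℝ) + b) ≤ y := by
    have a := Ex_mono w y n (V := fun a b => ε * ((a : ℝ) + b))
      (V' := fun a b => (y : ℝ) + 1 / 2 * mg w a b) (fun a b hr => by linarith [key a b hr])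
    rw [Ex_mul, Ex_add w y n (fun _ _ => (y : ℝ)), Ex_const, Ex_mul, h1] at a
    linarith
  have h4 : ε ^ 2 * Ex w y n (fun a b => ((a : ℝ) + b) ^ 2) ≤
      2 * (y : ℝ) ^ 2 + 1 / 2 * Ex w y n (fun a b => mg w a b ^ 2) := by
    have a := Ex_mono w y n (V := fun a b => ε ^ 2 * ((a : ℝ) + b) ^ 2)
      (V' := fun a b => 2 * (y : ℝ) ^ 2 + 1 / 2 * mg w a b ^ 2) (fun a b hr => by
        have e1 := key a b hr
        have e2 : 0 ≤ ε * ((a : ℝ) + b) := by positivity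
        have e3 : (ε * ((a : ℝ) + b)) ^ 2 ≤ (y + mg w a b / 2) ^ 2 := by gcongr
        nlinarith [sq_nonneg (y - mg w a b / 2)])
    rw [Ex_mul, Ex_add w y n (fun _ _ => 2 * (y : ℝ) ^ 2), Ex_const, Ex_mul] at a
    exact a
  refine ⟨h1, ?_, ?_⟩
  · have a := Ex_le hw y n
      (V := fun a b => 2 * ε * ((a : ℝ) + b) - mg w a b ^ 2)
      (fun a b _ => by
        rw [mg_right, mg_left]
        push_cast
        have e1 := hU (a + b)
        have e2 : 0 ≤ (w (a + b) - ε) * (1 - ε - w (a + b)) :=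
          mul_nonneg (by linarith [e1.1]) (by linarith [e1.2])
        have e3 : 0 ≤ ε * (1 / 2 - ε) := mul_nonneg he.le (by linarith)
        nlinarith)
    rw [Ex_sub, Ex_mul, MOMx.mg00] at a
    simp only [Nat.cast_zero] at a
    linarith
  · have a := Ex_le hw y n
      (V := fun a b => mg w a b ^ 4 - 8 * ((a : ℝ) + b) * mg w a b ^ 2 - 12 * ((a : ℝ) + b))
      (fun a b _ => by
        rw [mg_right, mg_left]
        have := MOMx.four (mg w a b) (w (a + b)) ((a : ℝ) + b) (hw _).1 (hw _).2 (by positivity)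
        push_cast
        rw [show (a : ℝ) + 1 + b = a + b + 1 by ring, ← add_assoc (a : ℝ) b 1]
        exact this)
    rw [MOMx.mg00] at a
    have b := Ex_mono w y n (V := fun a b => mg w a b ^ 4)
      (V' := fun a b => 2 * (mg w a b ^ 4 - 8 * ((a : ℝ) + b) * mg w a b ^ 2 - 12 * ((a : ℝ) + b)) +
        (64 * ((a : ℝ) + b) ^ 2 + 24 * ((a : ℝ) + b)))
      (fun a b _ => by nlinarith [sq_nonneg (mg w a b ^ 2 - 8 * ((a : ℝ) + b))])
    rw [Ex_add, Ex_add, Ex_mul, Ex_mul, Ex_mul] at b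
    simp only [Nat.cast_zero] at a
    generalize Ex w y n (fun a b => ((a : ℝ) + b) ^ 2) = T2 at *
    generalize Ex w y n (fun a b => (a : ℝ) + b) = T1 at *
    generalize Ex w y n (fun a b => mg w a b ^ 2) = M2 at *
    have c1 : T1 ≤ 1 / ε * (y : ℝ) ^ 2 := by
      rw [one_div_mul_eq_div, le_div_iff₀ he]; nlinarith
    have c0 : 0 ≤ 1 / ε * (y : ℝ) ^ 2 := by positivity
    have c2 : T2 ≤ (2 + 1 / ε) / ε ^ 2 * (y : ℝ) ^ 2 := by
      rw [div_mul_eq_mul_div, le_div_iff₀ (by positivity)]; nlinarith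
    have c3 : (64 * (2 + 1 / ε) / ε ^ 2 + 24 / ε) * (y : ℝ) ^ 2 =
        64 * ((2 + 1 / ε) / ε ^ 2 * (y : ℝ) ^ 2) + 24 * (1 / ε * (y : ℝ) ^ 2) := by ring
    rw [c3]
    linarith

namespace LIMx

theorem tr (hLAWT : S_LAWT) (p : ℕ → unitInterval) (y : ℕ) (g : ℕ → ℝ) :
    (Integrable (fun B => g (U y B)) (trials p) ↔
      Integrable (fun u => g (Uo (arr (cw p) u) y)) (lamU ℕ)) ∧
    ∫ B, g (U y B) ∂trials p = ∫ u, g (Uo (arr (cw p) u) y) ∂lamU ℕ := by
  have hm : Measurable (fun B => g (Uo B y)) := (Measurable.of_discrete (f := g)).comp (meas_Uo y)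
  simp only [hLAWT.2]
  rw [← (hLAWT.1 p).1]
  exact ⟨integrable_map_measure hm.aestronglyMeasurable (meas_arr _).aemeasurable,
    integral_map (meas_arr _).aemeasurable hm.aestronglyMeasurable⟩

theorem sum_ge {w : ℕ → ℝ} {ε : ℝ} (h : ∀ i, ε ≤ w i ∧ w i ≤ 1 - ε) (n : ℕ) :
    (n : ℝ) * ε ≤ ∑ i ∈ range n, pr (w i) false := by
  have := card_nsmul_le_sum (range n) (fun i => pr (w i) false) ε fun i _ => by
    rw [pr_false]; linarith [(h i).2]
  rwa [card_range, nsmul_eq_mul] at this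

theorem inf {w : ℕ → ℝ} {ε : ℝ} (h0 : 0 < ε) (h : ∀ i, ε ≤ w i ∧ w i ≤ 1 - ε) (y : ℕ) :
    ∀ᵐ u ∂lamU ℕ, ∃ n, y ≤ Ll (arr w u) n := by
  have := p_INF p_CYL w (fun i => ⟨by linarith [(h i).1], by linarith [(h i).2]⟩) false
    (tendsto_atTop_mono (sum_ge h) (tendsto_natCast_atTop_atTop.atTop_mul_const h0))
  filter_upwards [this] with u hu using exists_Ll_ge hu y

theorem ev {e : ℕ → Bool} {y : ℕ} (h : ∃ n, y ≤ Ll e n) (V : ℕ → ℕ → ℝ) :
    ∀ᶠ N in atTop, V (Uo e y) y = V (Rr e (tau e y N)) (Ll e (tau e y N)) := by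
  obtain ⟨n, hn⟩ := h
  filter_upwards [eventually_ge_atTop n] with N hN
  have h1 : Ll e (tau e y N) = y := (tau_cases e y N).resolve_right fun h' => by
    have := Ll_mono e hN
    omega
  rw [h1, Uo_eq_of_tau h1]

theorem fatou {w : ℕ → ℝ} {y : ℕ} (h : ∀ᵐ u ∂lamU ℕ, ∃ n, y ≤ Ll (arr w u) n)
    (V : ℕ → ℕ → ℝ) (c : ℝ) (h0 : ∀ a b, 0 ≤ V a b) (hc : ∀ n, Ex w y n V ≤ c) :
    Integrable (fun u => V (Uo (arr w u) y) y) (lamU ℕ) ∧
      ∫ u, V (Uo (arr w u) y) y ∂lamU ℕ ≤ c := by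
  have hm : AEStronglyMeasurable (fun u => V (Uo (arr w u) y) y) (lamU ℕ) :=
    (((Measurable.of_discrete (f := fun a => V a y)).comp (meas_Uo y)).comp
      (meas_arr w)).aestronglyMeasurable
  have hc0 : 0 ≤ c := (h0 0 0).trans ((Ex_zero w y V).symm.le.trans (hc 0))
  have key : ∫⁻ u, ENNReal.ofReal (V (Uo (arr w u) y) y) ∂lamU ℕ ≤ ENNReal.ofReal c := by
    have hpt : ∀ᵐ u ∂lamU ℕ, ENNReal.ofReal (V (Uo (arr w u) y) y) ≤
        liminf (fun N => ENNReal.ofReal (V (Rr (arr w u) (tau (arr w u) y N))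
          (Ll (arr w u) (tau (arr w u) y N)))) atTop := by
      filter_upwards [h] with u hu
      refine le_liminf_of_le (by isBoundedDefault) ?_
      filter_upwards [ev hu V] with N hN
      rw [hN]
    refine (lintegral_mono_ae hpt).trans ((lintegral_liminf_le fun N =>
      ((meas_state y N V).comp (meas_arr w)).ennreal_ofReal).trans ?_)
    refine liminf_le_of_frequently_le (Eventually.frequently (Eventually.of_forall fun N => ?_))
    refine (ofReal_integral_eq_lintegral_ofReal (intg w y N V)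
      (ae_of_all _ fun u => h0 _ _)).symm.le.trans ?_
    exact ENNReal.ofReal_le_ofReal (hc N)
  have hi : Integrable (fun u => V (Uo (arr w u) y) y) (lamU ℕ) :=
    ⟨hm, (hasFiniteIntegral_iff_ofReal (ae_of_all _ fun u => h0 _ _)).2
      (key.trans_lt ENNReal.ofReal_lt_top)⟩
  refine ⟨hi, ?_⟩
  rwa [← ofReal_integral_eq_lintegral_ofReal hi (ae_of_all _ fun u => h0 _ _),
    ENNReal.ofReal_le_ofReal_iff hc0] at key

theorem quart {w : ℕ → ℝ} {ε : ℝ} (h0 : 0 < ε) (h : ∀ i, ε ≤ w i ∧ w i ≤ 1 - ε) {y a b : ℕ}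
    (hb : b ≤ y) : (a : ℝ) ^ 4 ≤ 8 * (y : ℝ) ^ 4 / ε ^ 4 + 1 / ε ^ 4 * mg w a b ^ 4 := by
  have h1 := sum_ge h (a + b)
  rw [sum_pr_false] at h1
  have hb' : (b : ℝ) ≤ y := by exact_mod_cast hb
  have hb0 : (0 : ℝ) ≤ b := Nat.cast_nonneg b
  have h2 : ε * a ≤ y + mg w a b / 2 := by
    unfold mg
    push_cast at h1
    nlinarith
  have h3 : (ε * a) ^ 4 ≤ (y + mg w a b / 2) ^ 4 := pow_le_pow_left₀ (by positivity) h2 4
  generalize mg w a b = m at h3 ⊢
  have h4 : ((y : ℝ) + m / 2) ^ 2 ≤ 2 * (y : ℝ) ^ 2 + m ^ 2 / 2 := by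
    nlinarith [sq_nonneg ((y : ℝ) - m / 2)]
  have h5 : ((y : ℝ) + m / 2) ^ 4 ≤ 8 * (y : ℝ) ^ 4 + m ^ 4 := by
    have := pow_le_pow_left₀ (sq_nonneg _) h4 2
    nlinarith [sq_nonneg (2 * (y : ℝ) ^ 2 - m ^ 2 / 2), sq_nonneg (m ^ 2)]
  rw [one_div, ← div_eq_inv_mul, ← add_div, le_div_iff₀ (by positivity)]
  calc (a : ℝ) ^ 4 * ε ^ 4 = (ε * a) ^ 4 := by ring
    _ ≤ _ := h3.trans h5

end LIMx

theorem p_LIM (hLAWT : S_LAWT) (hHOR : S_HOR) :
    S_LIM := by
  intro p ε hε y hy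
  have hinf := LIMx.inf hε.1 hε.2 y
  obtain ⟨K, -, hK⟩ := hHOR p ε hε
  have h4 : Integrable (fun u => (Uo (arr (cw p) u) y : ℝ) ^ 4) (lamU ℕ) := by
    refine (LIMx.fatou hinf (fun a _ => (a : ℝ) ^ 4)
      (8 * (y : ℝ) ^ 4 / ε ^ 4 + 1 / ε ^ 4 * (K * (y : ℝ) ^ 2)) (fun _ _ => by positivity)
      fun n => ?_).1
    refine (Ex_mono (cw p) y n fun a b hr => LIMx.quart hε.1 hε.2 hr.1).trans ?_
    rw [Ex_add, Ex_const, Ex_mul]
    have := hε.1
    exact add_le_add le_rfl (mul_le_mul_of_nonneg_left (hK y n hy).2.2 (by positivity))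
  refine ⟨fun V c h0 hc => ?_, (LIMx.tr hLAWT p y fun a => (a : ℝ) ^ 4).1.2 h4, fun V c hV => ?_⟩
  · obtain ⟨e1, e2⟩ := LIMx.tr hLAWT p y fun a => V a y
    rw [e1, e2]
    exact LIMx.fatou hinf V c h0 hc
  · rw [(LIMx.tr hLAWT p y fun a => V a y).2]
    have hc : 0 ≤ c := by simpa using (abs_nonneg _).trans (hV 1 0)
    refine tendsto_integral_of_dominated_convergence
      (fun u => c * (2 * (1 + (Uo (arr (cw p) u) y : ℝ) ^ 4) + 2 * (y : ℝ) ^ 2))
      (fun n => (intg (cw p) y n V).aestronglyMeasurable)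
      (((((integrable_const _).add h4).const_mul 2).add (integrable_const _)).const_mul c)
      (fun n => ?_) ?_
    · filter_upwards [hinf] with u hu
      generalize arr (cw p) u = e at hu ⊢
      refine (hV _ _).trans (mul_le_mul_of_nonneg_left ?_ hc)
      have h1 : Rr e (tau e y n) ≤ Uo e y := by
        rcases tau_cases e y n with h | h
        · exact (Uo_eq_of_tau h).ge
        · rw [h.1]; exact le_Uo hu h.2
      have h2 : (Rr e (tau e y n) : ℝ) + Ll e (tau e y n) ≤ Uo e y + y := by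
        exact_mod_cast add_le_add h1 (reach_tau e y n).1
      refine (pow_le_pow_left₀ (by positivity) h2 2).trans ?_
      nlinarith [sq_nonneg ((Uo e y : ℝ) - y), sq_nonneg ((Uo e y : ℝ) ^ 2 - 1),
        sq_nonneg ((Uo e y : ℝ) ^ 2)]
    · filter_upwards [hinf] with u hu
      exact tendsto_const_nhds.congr' (LIMx.ev hu V)

namespace CENx

open Pool.Agent.P.MP_c7fa75_pr

/-- The expected number of failures. -/
noncomputable def mm (w : ℕ → ℝ) (n : ℕ) : ℝ := (n - psum w n) / 2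

theorem mm_zero (w : ℕ → ℝ) : mm w 0 = 0 := by simp [mm, psum]

theorem mm_succ (w : ℕ → ℝ) (n : ℕ) : mm w (n + 1) = mm w n + (1 - w n) := by
  rw [mm, mm, psum_succ]; push_cast; ring

theorem mg_eq (w : ℕ → ℝ) (a b : ℕ) : mg w a b = 2 * (mm w (a + b) - b) := by
  rw [mg, mm]; push_cast; ring

variable {p : ℕ → unitInterval} {ε : ℝ}

theorem mm_le (h : UE p ε) {n n' : ℕ} (hn : n ≤ n') :
    ε * ((n' : ℝ) - n) ≤ mm (cw p) n' - mm (cw p) n ∧ mm (cw p) n' - mm (cw p) n ≤ (n' : ℝ) - n := by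
  induction n', hn using Nat.le_induction with
  | base => simp
  | succ k _ ih =>
    rw [mm_succ]
    push_cast
    obtain ⟨h1, h2⟩ := h.2 k
    exact ⟨by linarith [ih.1], by linarith [ih.2, h.1]⟩

theorem mm_abs (h : UE p ε) (n n' : ℕ) : ε * |(n : ℝ) - n'| ≤ |mm (cw p) n - mm (cw p) n'| ∧
    |mm (cw p) n - mm (cw p) n'| ≤ |(n : ℝ) - n'| := by
  wlog hn : n' ≤ n generalizing n n'
  · rw [abs_sub_comm, abs_sub_comm (mm _ n)]
    exact this n' n (le_of_not_ge hn)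
  have h0 : (0 : ℝ) ≤ (n : ℝ) - n' := sub_nonneg.2 (Nat.cast_le.2 hn)
  obtain ⟨h1, h2⟩ := mm_le h hn
  rw [abs_of_nonneg h0, abs_of_nonneg ((mul_nonneg h.1.le h0).trans h1)]
  exact ⟨h1, h2⟩

theorem abs_mg (h : UE p ε) (a b : ℕ) : |mg (cw p) a b| ≤ 2 * ((a : ℝ) + b) := by
  obtain ⟨h1, h2⟩ := mm_le h (Nat.zero_le (a + b))
  rw [mm_zero] at h1 h2
  push_cast at h1 h2
  have ha : (0 : ℝ) ≤ a := Nat.cast_nonneg a
  have hb : (0 : ℝ) ≤ b := Nat.cast_nonneg b
  have h3 : 0 ≤ ε * ((a : ℝ) + b - 0) := mul_nonneg h.1.le (by linarith)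
  rw [mg_eq, abs_le]
  constructor <;> linarith

theorem le_sq (a b : ℕ) : (a : ℝ) + b ≤ ((a : ℝ) + b) ^ 2 := by
  exact_mod_cast Nat.le_self_pow two_ne_zero (a + b)

theorem center (h : UE p ε) {y : ℕ} (hy : 1 ≤ y) : ∃ n : ℕ, |mm (cw p) n - y| ≤ 1 := by
  have hex : ∃ n, (y : ℝ) ≤ mm (cw p) n := by
    refine ⟨⌈y / ε⌉₊, ?_⟩
    have h1 := (mm_le h (Nat.zero_le ⌈y / ε⌉₊)).1
    have h2 := (div_le_iff₀ h.1).1 (Nat.le_ceil (y / ε))
    rw [mm_zero] at h1
    push_cast at h1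
    linarith
  have h1 := Nat.find_spec hex
  have hy' : (1 : ℝ) ≤ y := by exact_mod_cast hy
  rcases e : Nat.find hex with _ | k
  · rw [e, mm_zero] at h1; linarith
  · have h2 := not_le.1 (Nat.find_min hex (show k < Nat.find hex by omega))
    have h3 := (mm_le h (Nat.le_succ k)).2
    rw [e] at h1
    push_cast at h3
    exact ⟨k + 1, abs_le.2 ⟨by linarith, by linarith⟩⟩

theorem intq {y : ℕ} (h : Integrable (fun B => (U y B : ℝ) ^ 4) (trials p)) (g : ℕ → ℝ) {c : ℝ}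
    (hc : 0 ≤ c) (hg : ∀ a, |g a| ≤ c * ((a : ℝ) + y) ^ 2) :
    Integrable (fun B => g (U y B)) (trials p) := by
  refine Integrable.mono' (((h.const_mul 2).add (integrable_const (2 * (y : ℝ) ^ 2))).const_mul c)
    (LAWTx.aesm_U p y g) (ae_of_all _ fun B => (hg _).trans (mul_le_mul_of_nonneg_left ?_ hc))
  have h1 : (U y B : ℝ) ^ 2 ≤ (U y B : ℝ) ^ 4 := by
    exact_mod_cast (Nat.le_self_pow two_ne_zero _).trans_eq (pow_mul (U y B) 2 2).symm
  simp only [Pi.add_apply]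
  nlinarith [sq_nonneg ((U y B : ℝ) - y)]

theorem four {t g : ℝ} (hε : 0 < ε) (h : ε * |t| ≤ |g| / 2 + 1) :
    t ^ 4 ≤ (g ^ 4 / 2 + 8) / ε ^ 4 := by
  rw [le_div_iff₀ (pow_pos hε 4)]
  have h1 := pow_le_pow_left₀ (mul_nonneg hε.le (abs_nonneg t)) h 4
  rw [mul_pow, Even.pow_abs (by decide)] at h1
  have h2 := add_pow_le (a := |g| / 2) (b := 1) (by positivity) zero_le_one 4
  rw [div_pow, Even.pow_abs (by decide)] at h2
  norm_num at h2
  linarith

end CENx

open CENx in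
theorem p_CEN (hHOR : S_HOR) (hLIM : S_LIM) :
    S_CEN := by
  intro p ε h
  obtain ⟨K, hK, hH⟩ := hHOR p ε h
  have hε := h.1
  refine ⟨(K / 2 + 8) / ε ^ 4, by positivity, fun y hy => ?_⟩
  obtain ⟨L1, L2, L3⟩ := hLIM p ε h y hy
  have hy' : (1 : ℝ) ≤ y := by exact_mod_cast hy
  constructor
  · obtain ⟨n, hn⟩ := center h hy
    obtain ⟨i1, i2⟩ := L1 (fun a b => mg (cw p) a b ^ 4) _ (fun a b => by positivity)
      fun n => (hH y n hy).2.2
    refine ⟨(n : ℝ) - y, (integral_mono_of_nonneg (ae_of_all _ fun B => by positivity)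
      (((i1.div_const 2).add (integrable_const 8)).div_const (ε ^ 4))
      (ae_of_all _ fun B => four hε ?_)).trans ?_⟩
    · have h1 := (mm_abs h (U y B + y) n).1
      have h2 := abs_sub_le (mm (cw p) (U y B + y)) y (mm (cw p) n)
      rw [abs_sub_comm (y : ℝ)] at h2
      rw [mg_eq, abs_mul, abs_two, show (U y B : ℝ) - (n - y) = ((U y B + y : ℕ) : ℝ) - n by
        push_cast; ring]
      linarith
    · simp only [Pi.add_apply]
      rw [integral_div, integral_add (i1.div_const 2) (integrable_const 8), integral_div,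
        div_mul_eq_mul_div]
      refine div_le_div_of_nonneg_right ?_ (by positivity)
      simp only [integral_const, probReal_univ, smul_eq_mul, one_mul]
      nlinarith
  · have b1 : ∀ a b, |mg (cw p) a b| ≤ 2 * ((a : ℝ) + b) ^ 2 := fun a b => by
      linarith [abs_mg h a b, le_sq a b]
    have b2 : ∀ a b, |mg (cw p) a b ^ 2| ≤ 4 * ((a : ℝ) + b) ^ 2 := fun a b => by
      rw [abs_pow]
      nlinarith [pow_le_pow_left₀ (abs_nonneg _) (abs_mg h a b) 2]
    have b3 : ∀ a b : ℕ, |(a : ℝ) + b| ≤ 1 * ((a : ℝ) + b) ^ 2 := fun a b => by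
      rw [abs_of_nonneg (by positivity), one_mul]; exact le_sq a b
    have e1 : ∫ B, mg (cw p) (U y B) y ∂trials p = 0 := by
      have := L3 _ _ b1
      simp only [fun n => (hH y n hy).1] at this
      exact tendsto_nhds_unique this tendsto_const_nhds
    have e2 := le_of_tendsto_of_tendsto' ((L3 _ _ b3).const_mul (2 * ε)) (L3 _ _ b2)
      fun n => (hH y n hy).2.1
    have i1 := intq L2 (fun a => mg (cw p) a y) zero_le_two fun a => b1 a y
    have i2 := intq L2 (fun a => mg (cw p) a y ^ 2) zero_le_four fun a => b2 a y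
    have i3 := intq L2 (fun a => (a : ℝ) + y) zero_le_one fun a => b3 a y
    have i4 := intq L2 (fun a => ((a : ℝ) - y) ^ 2) zero_le_one fun a => by
      rw [abs_of_nonneg (sq_nonneg _)]
      nlinarith [mul_nonneg (Nat.cast_nonneg (α := ℝ) a) (Nat.cast_nonneg (α := ℝ) y)]
    have e3 : (y : ℝ) ≤ ∫ B, ((U y B : ℝ) + y) ∂trials p := by
      have := integral_mono (integrable_const (y : ℝ)) i3 fun B =>
        le_add_of_nonneg_left (Nat.cast_nonneg (U y B))
      simpa using this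
    have e4 := integral_mono ((i2.div_const 4).sub (i1.const_mul (mm (cw p) (y + y) - y))) i4
      fun B => by
        have h1 := (mm_abs h (U y B + y) (y + y)).2
        rw [← sq_le_sq] at h1
        push_cast at h1
        simp only [Pi.sub_apply, mg_eq]
        nlinarith [sq_nonneg (mm (cw p) (y + y) - y)]
    simp only [Pi.sub_apply] at e4
    rw [integral_sub (i2.div_const 4) (i1.const_mul _), integral_div, integral_const_mul, e1] at e4
    nlinarith [mul_le_mul_of_nonneg_left e3 hε.le]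

end Pool.Agent.P.MP_758450_pr.IT
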