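import Pool.Agent.P.MP_758450_pr.ITA

/-! Integral test, part two: the drift of the scale function. -/

set_option autoImplicit false

namespace Pool.Agent.P.MP_758450_pr.IT

open MeasureTheory ProbabilityTheory Filter Topology Finset
open scoped ENNReal Classical
open Pool.Agent.P.MP_c7fa75_pr.T Pool.Agent.P.MP_c7fa75_pr.R2

namespace DLOx

theorem ff_le {κ : ℕ → ℝ} (hκ : ∀ n, 0 ≤ κ n) (x : ℕ) : |ff κ x| ≤ x := by
  rw [abs_of_nonneg (show 0 ≤ ff κ x from sum_nonneg fun _ _ => (Real.exp_pos _).le)]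
  refine (sum_le_card_nsmul _ _ 1 fun i _ => Real.exp_le_one_iff.2 ?_).trans (by simp)
  exact neg_nonpos.2 (sum_nonneg fun n _ => div_nonneg (hκ _) (by positivity))

end DLOx


namespace NUx

theorem pow4_add (a b : ℝ) : (a + b) ^ 4 ≤ 8 * a ^ 4 + 8 * b ^ 4 := by
  have h1 : (a + b) ^ 2 ≤ 2 * a ^ 2 + 2 * b ^ 2 := by nlinarith [sq_nonneg (a - b)]
  have h2 : ((a + b) ^ 2) ^ 2 ≤ (2 * a ^ 2 + 2 * b ^ 2) ^ 2 :=
    pow_le_pow_left₀ (sq_nonneg _) h1 2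
  nlinarith [sq_nonneg (a ^ 2 - b ^ 2)]

section

variable {Ω : Type} [MeasurableSpace Ω] {μ : Measure Ω} [IsProbabilityMeasure μ] {X : Ω → ℝ}

theorem int4 (hm : AEStronglyMeasurable X μ) (h4 : Integrable (fun ω => X ω ^ 4) μ) (d : ℝ) :
    Integrable (fun ω => (X ω - d) ^ 4) μ := by
  refine Integrable.mono' ((h4.const_mul 8).add (integrable_const (8 * (-d) ^ 4)))
    ((hm.sub aestronglyMeasurable_const).pow 4) (Eventually.of_forall fun ω => ?_)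
  rw [Real.norm_eq_abs, abs_of_nonneg (by positivity)]
  exact pow4_add (X ω) (-d)

theorem int2 (hm : AEStronglyMeasurable X μ) (h4 : Integrable (fun ω => X ω ^ 4) μ) (d : ℝ) :
    Integrable (fun ω => (X ω - d) ^ 2) μ := by
  refine Integrable.mono' ((int4 hm h4 d).add (integrable_const (1 : ℝ)))
    ((hm.sub aestronglyMeasurable_const).pow 2) (Eventually.of_forall fun ω => ?_)
  rw [Real.norm_eq_abs, abs_of_nonneg (by positivity)]
  show (X ω - d) ^ 2 ≤ (X ω - d) ^ 4 + 1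
  nlinarith [sq_nonneg ((X ω - d) ^ 2 - 1), sq_nonneg (X ω - d)]

theorem int1 (hm : AEStronglyMeasurable X μ) (h4 : Integrable (fun ω => X ω ^ 4) μ) :
    Integrable X μ := by
  refine Integrable.mono' ((int2 hm h4 0).add (integrable_const (1 : ℝ))) hm
    (Eventually.of_forall fun ω => ?_)
  rw [Real.norm_eq_abs]
  show |X ω| ≤ (X ω - 0) ^ 2 + 1
  rw [sub_zero, ← sq_abs]
  nlinarith [sq_nonneg (|X ω| - 1), abs_nonneg (X ω)]

theorem sq_eq (hm : AEStronglyMeasurable X μ) (h4 : Integrable (fun ω => X ω ^ 4) μ) (d : ℝ) :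
    ∫ ω, (X ω - d) ^ 2 ∂μ = ∫ ω, (X ω - 0) ^ 2 ∂μ - 2 * d * ∫ ω, X ω ∂μ + d ^ 2 := by
  have e : (fun ω => (X ω - d) ^ 2) = fun ω => ((X ω - 0) ^ 2 - 2 * d * X ω) + d ^ 2 := by
    funext ω; ring
  have i1 : Integrable (fun ω => 2 * d * X ω) μ := (int1 hm h4).const_mul _
  have i2 : Integrable (fun ω => (X ω - 0) ^ 2 - 2 * d * X ω) μ := (int2 hm h4 0).sub i1
  rw [e, integral_add i2 (integrable_const _), integral_sub (int2 hm h4 0) i1, integral_const_mul]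
  simp

theorem core (hm : AEStronglyMeasurable X μ) (h4 : Integrable (fun ω => X ω ^ 4) μ)
    {x c K : ℝ} (hx : 0 < x) (hK : 0 ≤ K) (hc : ∫ ω, (X ω - c) ^ 4 ∂μ ≤ K * x ^ 2) :
    ∫ ω, (X ω - x) ^ 2 ∂μ ≤ (1 + K) / 2 * x + (∫ ω, X ω ∂μ - x) ^ 2 ∧
      ∫ ω, (X ω - x) ^ 4 ∂μ ≤
        (8 * K + 64 * ((1 + K) / 2) ^ 2) * x ^ 2 + 64 * (∫ ω, X ω ∂μ - x) ^ 4 := by
  set m := ∫ ω, X ω ∂μ with hm0
  have ha : ∫ ω, (X ω - c) ^ 2 ∂μ ≤ (1 + K) / 2 * x := by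
    have i1 : Integrable (fun ω => 1 / (2 * x) * (X ω - c) ^ 4) μ := (int4 hm h4 c).const_mul _
    have h1 : ∫ ω, (X ω - c) ^ 2 ∂μ ≤ ∫ ω, (1 / (2 * x) * (X ω - c) ^ 4 + x / 2) ∂μ := by
      refine integral_mono (int2 hm h4 c) (i1.add (integrable_const _)) fun ω => ?_
      show (X ω - c) ^ 2 ≤ 1 / (2 * x) * (X ω - c) ^ 4 + x / 2
      have : 1 / (2 * x) * (X ω - c) ^ 4 + x / 2 - (X ω - c) ^ 2 =
          ((X ω - c) ^ 2 - x) ^ 2 / (2 * x) := by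
        field_simp
        ring
      have h0 : 0 ≤ ((X ω - c) ^ 2 - x) ^ 2 / (2 * x) := by positivity
      linarith
    rw [integral_add i1 (integrable_const _), integral_const_mul] at h1
    simp only [integral_const, probReal_univ, one_smul] at h1
    have h2 : 1 / (2 * x) * ∫ ω, (X ω - c) ^ 4 ∂μ ≤ 1 / (2 * x) * (K * x ^ 2) :=
      mul_le_mul_of_nonneg_left hc (by positivity)
    have h3 : 1 / (2 * x) * (K * x ^ 2) = K / 2 * x := by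
      field_simp
    linarith
  have e1 := sq_eq hm h4 c
  have e2 := sq_eq hm h4 x
  have e3 := sq_eq hm h4 m
  rw [← hm0] at e1 e2 e3
  have h0 : 0 ≤ ∫ ω, (X ω - m) ^ 2 ∂μ := integral_nonneg fun ω => sq_nonneg _
  have hb : (m - c) ^ 2 ≤ (1 + K) / 2 * x := by nlinarith
  refine ⟨by nlinarith [sq_nonneg (m - c)], ?_⟩
  have i1 : Integrable (fun ω => 8 * (X ω - c) ^ 4) μ := (int4 hm h4 c).const_mul _
  have h1 : ∫ ω, (X ω - x) ^ 4 ∂μ ≤ ∫ ω, (8 * (X ω - c) ^ 4 + 8 * (c - x) ^ 4) ∂μ := by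
    refine integral_mono (int4 hm h4 x) (i1.add (integrable_const _)) fun ω => ?_
    have := pow4_add (X ω - c) (c - x)
    rw [sub_add_sub_cancel] at this
    exact this
  rw [integral_add i1 (integrable_const _), integral_const_mul] at h1
  simp only [integral_const, probReal_univ, one_smul] at h1
  have h2 := pow4_add (c - m) (m - x)
  rw [sub_add_sub_cancel] at h2
  have h3 : ((m - c) ^ 2) ^ 2 ≤ ((1 + K) / 2 * x) ^ 2 := pow_le_pow_left₀ (sq_nonneg _) hb 2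
  have h5 : (c - m) ^ 4 = ((m - c) ^ 2) ^ 2 := by ring
  have h6 : ((1 + K) / 2 * x) ^ 2 = ((1 + K) / 2) ^ 2 * x ^ 2 := by ring
  nlinarith

end

end NUx


namespace Corex

variable {Ω : Type} [MeasurableSpace Ω] {μ : Measure Ω} [IsProbabilityMeasure μ]

theorem aesm {Y : Ω → ℕ} (hY : Measurable Y) (g : ℕ → ℝ) :
    AEStronglyMeasurable (fun ω => g (Y ω)) μ :=
  ((Measurable.of_discrete (f := g)).comp hY).aestronglyMeasurable

theorem int_ff {Y : Ω → ℕ} (hY : Measurable Y) (h4 : Integrable (fun ω => (Y ω : ℝ) ^ 4) μ)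
    {κ : ℕ → ℝ} (hκ : ∀ n, 0 ≤ κ n) : Integrable (fun ω => ff κ (Y ω)) μ :=
  (NUx.int1 (aesm hY fun n => (n : ℝ)) h4).mono' (aesm hY (ff κ))
    (ae_of_all _ fun ω => DLOx.ff_le hκ (Y ω))

theorem int_Phi {Y : Ω → ℕ} (hY : Measurable Y) (h4 : Integrable (fun ω => (Y ω : ℝ) ^ 4) μ)
    (σ κb C z t : ℝ) : Integrable (fun ω => Phi σ κb C z t ((Y ω : ℝ) - z)) μ ∧
    ∫ ω, Phi σ κb C z t ((Y ω : ℝ) - z) ∂μ = ∫ ω, ((Y ω : ℝ) - z) ∂μ +
      (σ * 6 / (z * t) - κb / (2 * z)) * ∫ ω, ((Y ω : ℝ) - z) ^ 2 ∂μ +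
      σ * C * t / z ^ 3 * ∫ ω, ((Y ω : ℝ) - z) ^ 4 ∂μ + σ / t := by
  have hm : AEStronglyMeasurable (fun ω => (Y ω : ℝ)) μ := aesm hY fun n => (n : ℝ)
  have i1 : Integrable (fun ω => (Y ω : ℝ) - z) μ := (NUx.int1 hm h4).sub (integrable_const _)
  have i2 := (NUx.int2 hm h4 z).const_mul (σ * 6 / (z * t) - κb / (2 * z))
  have i4 := (NUx.int4 hm h4 z).const_mul (σ * C * t / z ^ 3)
  have iA : Integrable (fun ω => (Y ω : ℝ) - z +
      (σ * 6 / (z * t) - κb / (2 * z)) * ((Y ω : ℝ) - z) ^ 2) μ := i1.add i2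
  have iB : Integrable (fun ω => (Y ω : ℝ) - z +
      (σ * 6 / (z * t) - κb / (2 * z)) * ((Y ω : ℝ) - z) ^ 2 +
      σ * C * t / z ^ 3 * ((Y ω : ℝ) - z) ^ 4) μ := iA.add i4
  have e : (fun ω => Phi σ κb C z t ((Y ω : ℝ) - z)) = fun ω => (Y ω : ℝ) - z +
      (σ * 6 / (z * t) - κb / (2 * z)) * ((Y ω : ℝ) - z) ^ 2 +
      σ * C * t / z ^ 3 * ((Y ω : ℝ) - z) ^ 4 + σ / t := by
    funext ω; rw [Phi]; ring
  rw [e]
  refine ⟨iB.add (integrable_const _), ?_⟩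
  rw [integral_add iB (integrable_const _), integral_add iA i4, integral_add i1 i2,
    integral_const_mul, integral_const_mul]
  simp

theorem lo {Y : Ω → ℕ} (hY : Measurable Y) (h4 : Integrable (fun ω => (Y ω : ℝ) ^ 4) μ)
    {z : ℕ} {t κb C0 m v K : ℝ} {κ : ℕ → ℝ} (t1 : 1 ≤ t) (t2 : t ^ 2 = z) (hκ : ∀ n, 0 ≤ κ n)
    (k0 : 0 ≤ κb) (k2 : κb ≤ 2) (hC0 : 0 ≤ C0)
    (hw : ∀ n, 3 * z ≤ 4 * n → 4 * n ≤ 5 * z → κ n ≤ κb) (hf : ff κ z ≤ C0 * z * t * gg κ z)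
    (m1 : m ≤ ∫ ω, ((Y ω : ℝ) - z) ∂μ) (m2 : ∫ ω, ((Y ω : ℝ) - z) ^ 2 ∂μ ≤ z * v)
    (m4 : ∫ ω, ((Y ω : ℝ) - z) ^ 4 ∂μ ≤ K * (z : ℝ) ^ 2)
    (h : κb * v / 2 + (6 * v + 1 + (256 * C0 + 64) * K) / t ≤ m) :
    ff κ z ≤ ∫ ω, ff κ (Y ω) ∂μ := by
  have i0 := int_ff hY h4 hκ
  obtain ⟨iP, eP⟩ := int_Phi hY h4 (-1) κb (256 * C0 + 64) z t
  have hI := integral_mono (iP.const_mul (gg κ z)) (i0.sub (integrable_const (ff κ z))) fun ω =>
    p_PLO κ κb C0 t z (Y ω) k0 k2 hC0 t1 t2.le hw hf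
  simp only [Pi.sub_apply] at hI
  rw [integral_const_mul, integral_sub i0 (integrable_const _), eP] at hI
  simp only [integral_const, probReal_univ, smul_eq_mul, one_mul] at hI
  refine sub_nonneg.1 ((mul_nonneg (gg_pos κ z).le ?_).trans hI)
  have t0 : 0 < t := by linarith
  rw [← t2] at m2 m4 ⊢
  have a1 := mul_le_mul_of_nonneg_left m4
    (show 0 ≤ (256 * C0 + 64) * t / (t ^ 2) ^ 3 by positivity)
  have a2 := mul_le_mul_of_nonneg_left m2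
    (show 0 ≤ 6 / (t ^ 2 * t) + κb / (2 * t ^ 2) by positivity)
  have e1 : (256 * C0 + 64) * t / (t ^ 2) ^ 3 * (K * (t ^ 2) ^ 2) = (256 * C0 + 64) * K / t := by
    field_simp
  have e2 : (6 / (t ^ 2 * t) + κb / (2 * t ^ 2)) * (t ^ 2 * v) = 6 * v / t + κb * v / 2 := by
    field_simp
  have e3 : (6 * v + 1 + (256 * C0 + 64) * K) / t =
      6 * v / t + 1 / t + (256 * C0 + 64) * K / t := by ring
  rw [← t2] at m1
  have e4 : (-1 * 6 / (t ^ 2 * t) - κb / (2 * t ^ 2)) = -(6 / (t ^ 2 * t) + κb / (2 * t ^ 2)) := by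
    ring
  have e5 : -1 * (256 * C0 + 64) * t / (t ^ 2) ^ 3 = -((256 * C0 + 64) * t / (t ^ 2) ^ 3) := by ring
  have e6 : -1 / t = -(1 / t) := by ring
  rw [e4, e5, e6]
  linarith

theorem up {Y : Ω → ℕ} (hY : Measurable Y) (h4 : Integrable (fun ω => (Y ω : ℝ) ^ 4) μ)
    {z : ℕ} {t κb m u v K : ℝ} {κ : ℕ → ℝ} (t1 : 1 ≤ t) (t2 : t ^ 2 = z) (hκ : ∀ n, 0 ≤ κ n)
    (k0 : 0 ≤ κb) (k2 : κb ≤ 2) (hw : ∀ n, 3 * z ≤ 4 * n → 4 * n ≤ 5 * z → κb ≤ κ n)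
    (m1 : ∫ ω, ((Y ω : ℝ) - z) ∂μ ≤ m) (m2 : ∫ ω, ((Y ω : ℝ) - z) ^ 2 ∂μ ≤ z * v)
    (m3 : z * u ≤ ∫ ω, ((Y ω : ℝ) - z) ^ 2 ∂μ)
    (m4 : ∫ ω, ((Y ω : ℝ) - z) ^ 4 ∂μ ≤ K * (z : ℝ) ^ 2)
    (h : m + (6 * v + 1 + 64 * K) / t ≤ κb * u / 2) :
    ∫ ω, ff κ (Y ω) ∂μ ≤ ff κ z := by
  have i0 := int_ff hY h4 hκ
  obtain ⟨iP, eP⟩ := int_Phi hY h4 1 κb 64 z t
  have hI := integral_mono (i0.sub (integrable_const (ff κ z))) (iP.const_mul (gg κ z)) fun ω =>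
    (p_PUP κ κb t z (Y ω) hκ k0 k2 t1 t2.le hw).1
  simp only [Pi.sub_apply] at hI
  rw [integral_const_mul, integral_sub i0 (integrable_const _), eP] at hI
  simp only [integral_const, probReal_univ, smul_eq_mul, one_mul] at hI
  refine sub_nonpos.1 (hI.trans (mul_nonpos_of_nonneg_of_nonpos (gg_pos κ z).le ?_))
  have t0 : 0 < t := by linarith
  rw [← t2] at m1 m2 m3 m4 ⊢
  have a1 := mul_le_mul_of_nonneg_left m4 (show 0 ≤ 64 * t / (t ^ 2) ^ 3 by positivity)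
  have a2 := mul_le_mul_of_nonneg_left m2 (show 0 ≤ 6 / (t ^ 2 * t) by positivity)
  have a3 := mul_le_mul_of_nonneg_left m3 (show 0 ≤ κb / (2 * t ^ 2) by positivity)
  have e1 : 64 * t / (t ^ 2) ^ 3 * (K * (t ^ 2) ^ 2) = 64 * K / t := by field_simp
  have e2 : 6 / (t ^ 2 * t) * (t ^ 2 * v) = 6 * v / t := by field_simp
  have e3 : κb / (2 * t ^ 2) * (t ^ 2 * u) = κb * u / 2 := by field_simp
  have e4 : (6 * v + 1 + 64 * K) / t = 6 * v / t + 1 / t + 64 * K / t := by ring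
  rw [sub_mul]
  linarith

theorem shift {X : Ω → ℝ} (hm : AEStronglyMeasurable X μ) (h4 : Integrable (fun ω => X ω ^ 4) μ)
    {x c K : ℝ} (hx : 0 < x) (hK : 0 ≤ K) (hc : ∫ ω, (X ω - c) ^ 4 ∂μ ≤ K * x ^ 2) (d : ℝ) :
    ∫ ω, (X ω - d) ^ 2 ∂μ ≤ (1 + K) / 2 * x + (∫ ω, X ω ∂μ - d) ^ 2 ∧
      ∫ ω, (X ω - d) ^ 4 ∂μ ≤
        (8 * K + 64 * ((1 + K) / 2) ^ 2) * x ^ 2 + 64 * (∫ ω, X ω ∂μ - d) ^ 4 := by
  have h := NUx.core (X := fun ω => X ω - (d - x)) (c := c - (d - x))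
    (hm.sub aestronglyMeasurable_const) (NUx.int4 hm h4 _) hx hK (by
      simpa only [sub_sub_sub_cancel_right] using hc)
  rw [integral_sub (NUx.int1 hm h4) (integrable_const _)] at h
  simp only [integral_const, probReal_univ, smul_eq_mul, one_mul, sub_sub, sub_add_cancel] at h
  exact h

end Corex

/-- Moment bounds around an arbitrary centre. -/
def Mo (p : ℕ → unitInterval) (ε A B : ℝ) : Prop :=
  ∀ x : ℕ, 1 ≤ x → Integrable (fun e => (U x e : ℝ) ^ 4) (trials p) ∧ ε / 2 ≤ nu p 1 x ∧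
    ∀ d : ℝ, ∫ e, ((U x e : ℝ) - d) ^ 2 ∂trials p ≤ A * x + (rho p 1 x + x - d) ^ 2 ∧
      ∫ e, ((U x e : ℝ) - d) ^ 4 ∂trials p ≤ B * (x : ℝ) ^ 2 + 64 * (rho p 1 x + x - d) ^ 4

namespace Freex

theorem mean {p : ℕ → unitInterval} {x : ℕ}
    (h4 : Integrable (fun e => (U x e : ℝ) ^ 4) (trials p)) (d : ℝ) :
    ∫ e, ((U x e : ℝ) - d) ∂trials p = rho p 1 x + x - d := by
  have hi := NUx.int1 (LAWTx.aesm_U p x fun n => (n : ℝ)) h4
  rw [rho]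
  simp only [one_mul]
  rw [integral_sub hi (integrable_const _), integral_sub hi (integrable_const _)]
  simp

theorem mo (hLIM : S_LIM) (hCEN : S_CEN) {p : ℕ → unitInterval} {ε : ℝ} (h : UE p ε) :
    ∃ A B : ℝ, 0 ≤ A ∧ 0 ≤ B ∧ Mo p ε A B := by
  obtain ⟨K, hK, hC⟩ := hCEN p ε h
  refine ⟨(1 + K) / 2, 8 * K + 64 * ((1 + K) / 2) ^ 2, by positivity, by positivity,
    fun x hx => ?_⟩
  have hx0 : (0 : ℝ) < x := by exact_mod_cast hx
  have h4 := (hLIM p ε h x hx).2.1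
  obtain ⟨⟨c, hc⟩, hlow⟩ := hC x hx
  refine ⟨h4, ?_, fun d => ?_⟩
  · rw [nu, le_div_iff₀ hx0]
    simpa only [one_mul] using hlow
  · have h1 := Corex.shift (LAWTx.aesm_U p x fun n => (n : ℝ)) h4 hx0 hK hc d
    have h2 := mean h4 0
    simp only [sub_zero] at h2
    rw [h2] at h1
    exact h1

theorem root {z : ℕ} {D : ℝ} (h1 : 1 ≤ z) (hz : ⌈D ^ 2⌉₊ ≤ z) :
    1 ≤ (z : ℝ) ^ (1 / 2 : ℝ) ∧ ((z : ℝ) ^ (1 / 2 : ℝ)) ^ 2 = z ∧ D ≤ (z : ℝ) ^ (1 / 2 : ℝ) := by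
  have z1 : (1 : ℝ) ≤ z := by exact_mod_cast h1
  have t2 : ((z : ℝ) ^ (1 / 2 : ℝ)) ^ 2 = z := by
    rw [← Real.sqrt_eq_rpow, Real.sq_sqrt (by linarith)]
  have t1 : 1 ≤ (z : ℝ) ^ (1 / 2 : ℝ) := Real.one_le_rpow z1 (by norm_num)
  refine ⟨t1, t2, (abs_le_of_sq_le_sq' ?_ (by linarith)).2⟩
  rw [t2]
  exact Nat.ceil_le.1 hz

theorem basic {p : ℕ → unitInterval} {ε A B R : ℝ} (hε : 0 < ε) (hM : Mo p ε A B) {z : ℕ}
    (h1 : 1 ≤ z) (hr : |rho p 1 z| ≤ R) :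
    rho p 1 z = theta p 1 z * nu p 1 z / 2 ∧
    ∫ e, ((U z e : ℝ) - z) ^ 2 ∂trials p = z * nu p 1 z ∧ nu p 1 z ≤ A + R ^ 2 ∧
    ∫ e, ((U z e : ℝ) - z) ^ 4 ∂trials p ≤ (B + 64 * R ^ 4) * (z : ℝ) ^ 2 := by
  obtain ⟨h4, n1, hd⟩ := hM z h1
  have z1 : (1 : ℝ) ≤ z := by exact_mod_cast h1
  have v0 : 0 < nu p 1 z := by linarith
  have e2 : ∫ e, ((U z e : ℝ) - z) ^ 2 ∂trials p = z * nu p 1 z := by
    rw [nu]; simp only [one_mul]; field_simp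
  obtain ⟨d2, d4⟩ := hd z
  rw [add_sub_cancel_right] at d2 d4
  have r2 : rho p 1 z ^ 2 ≤ R ^ 2 := by
    rw [← sq_abs]; exact pow_le_pow_left₀ (abs_nonneg _) hr 2
  have r4 : rho p 1 z ^ 4 ≤ R ^ 4 := by
    rw [← Even.pow_abs (by decide)]; exact pow_le_pow_left₀ (abs_nonneg _) hr 4
  refine ⟨by rw [theta]; field_simp, e2, ?_, ?_⟩
  · refine le_of_mul_le_mul_left ?_ (show (0 : ℝ) < z by linarith)
    have := le_mul_of_one_le_left (sq_nonneg R) z1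
    linarith
  · have := le_mul_of_one_le_right (show 0 ≤ R ^ 4 by positivity) (one_le_pow₀ (n := 2) z1)
    linarith

theorem gap {ε D ν g t : ℝ} (hε : 0 < ε) (hD : 0 ≤ D) (ht : 1 ≤ t) (h1 : ε / 2 ≤ ν)
    (h : 4 * D / ε / t ≤ g) : D / t ≤ g * ν / 2 := by
  have h0 : 0 ≤ 4 * D / ε / t := by positivity
  have b1 : 4 * D / ε / t * (ε / 2) ≤ g * ν := mul_le_mul h h1 (by positivity) (h0.trans h)
  have b2 : 4 * D / ε / t * (ε / 2) = 2 * (D / t) := by field_simp; ring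
  linarith

theorem dlo {p : ℕ → unitInterval} {ε A B C0 : ℝ} (hε : 0 < ε) (hA : 0 ≤ A) (hB : 0 ≤ B)
    (hC0 : 0 ≤ C0) (hM : Mo p ε A B) :
    ∃ (C : ℝ) (x0 : ℕ), 0 ≤ C ∧ ∀ (z : ℕ) (κb : ℝ) (κ : ℕ → ℝ), x0 ≤ z → 1 ≤ z → (∀ n, 0 ≤ κ n) →
    0 ≤ κb → κb ≤ 2 → (∀ n, 3 * z ≤ 4 * n → 4 * n ≤ 5 * z → κ n ≤ κb) →
    ff κ z ≤ C0 * z * (z : ℝ) ^ (1 / 2 : ℝ) * gg κ z →
    κb ≤ theta p 1 z - C / (z : ℝ) ^ (1 / 2 : ℝ) →
    Integrable (fun e => ff κ (U z e)) (trials p) ∧ ff κ z ≤ ∫ e, ff κ (U z e) ∂trials p := by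
  obtain ⟨K, hK⟩ : ∃ K, K = B + 64 * (A + 3) ^ 4 := ⟨_, rfl⟩
  have K0 : 0 ≤ K := by rw [hK]; positivity
  have K1 : 0 ≤ (256 * C0 + 64) * K := by positivity
  obtain ⟨D, hD⟩ : ∃ D, D = 6 * (A + (A + 3) ^ 2) + 1 + (256 * C0 + 64) * K := ⟨_, rfl⟩
  have D0 : 0 ≤ D := by rw [hD]; positivity
  refine ⟨4 * D / ε, ⌈D ^ 2⌉₊, by positivity, fun z κb κ hz h1 hκ k0 k2 hw hf hθ => ?_⟩
  obtain ⟨t1, t2, tD⟩ := root h1 hz
  generalize (z : ℝ) ^ (1 / 2 : ℝ) = t at hf hθ t1 t2 tD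
  obtain ⟨h4, n1, hd⟩ := hM z h1
  have i0 := Corex.int_ff (LAWTx.meas_U z) h4 hκ
  have t0 : 0 < t := by linarith
  refine ⟨i0, ?_⟩
  have hg := gap (g := theta p 1 z - κb) hε D0 t1 n1 (by linarith)
  by_cases hr : rho p 1 z ≤ A + 3
  · have r0 : 0 ≤ rho p 1 z := by
      have e := (basic hε hM h1 le_rfl).1
      have : 0 ≤ D / t := by positivity
      have : 0 ≤ κb * nu p 1 z := mul_nonneg k0 (by linarith)
      linarith
    obtain ⟨b1, b2, b3, b4⟩ := basic hε hM h1 (R := A + 3) (by rwa [abs_of_nonneg r0])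
    refine Corex.lo (LAWTx.meas_U z) h4 t1 t2 hκ k0 k2 hC0 hw hf (m := rho p 1 z) (K := K)
      (by rw [mean h4]; linarith) b2.le (by rwa [hK]) ?_
    have : (6 * nu p 1 z + 1 + (256 * C0 + 64) * K) / t ≤ D / t :=
      div_le_div_of_nonneg_right (by linarith) t0.le
    linarith
  · push Not at hr
    obtain ⟨d, d1, d2⟩ : ∃ d : ℕ, (d : ℝ) ≤ rho p 1 z - (A + 2) ∧ rho p 1 z - (A + 2) < d + 1 :=
      ⟨_, Nat.floor_le (by linarith), Nat.lt_floor_add_one _⟩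
    have hY : Measurable fun e => U z e - d := (LAWTx.meas_U z).sub_const d
    have hm := LAWTx.aesm_U p z fun n => (n : ℝ)
    have hYm : AEStronglyMeasurable (fun e => ((U z e - d : ℕ) : ℝ)) (trials p) :=
      Corex.aesm hY fun n => (n : ℝ)
    have hY4 : Integrable (fun e => ((U z e - d : ℕ) : ℝ) ^ 4) (trials p) :=
      h4.mono' (hYm.pow 4) (ae_of_all _ fun e => by
        rw [Real.norm_eq_abs, abs_of_nonneg (by positivity)]
        exact pow_le_pow_left₀ (by positivity) (by exact_mod_cast Nat.sub_le _ _) 4)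
    have pt : ∀ n : ℕ, (n : ℝ) - (d + z) ≤ ((n - d : ℕ) : ℝ) - z ∧
        |((n - d : ℕ) : ℝ) - z| ≤ |(n : ℝ) - (d + z)| := by
      intro n
      rcases le_total d n with h | h
      · rw [Nat.cast_sub h, sub_sub]; exact ⟨le_rfl, le_rfl⟩
      · have h' : (n : ℝ) ≤ d := by exact_mod_cast h
        have z0 : (0 : ℝ) ≤ z := by positivity
        rw [Nat.sub_eq_zero_of_le h, Nat.cast_zero, abs_of_nonpos (by linarith),
          abs_of_nonpos (by linarith)]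
        constructor <;> linarith
    obtain ⟨e2, e4⟩ := hd (d + z)
    have s0 : rho p 1 z + z - (d + z) = rho p 1 z - d := by ring
    rw [s0] at e2 e4
    have r2 : (rho p 1 z - d) ^ 2 ≤ (A + 3) ^ 2 := pow_le_pow_left₀ (by linarith) (by linarith) 2
    have r4 : (rho p 1 z - d) ^ 4 ≤ (A + 3) ^ 4 := pow_le_pow_left₀ (by linarith) (by linarith) 4
    have z1 : (1 : ℝ) ≤ z := by exact_mod_cast h1
    have zD : (A + 3) ^ 2 ≤ z := by nlinarith [sq_nonneg (A + 3)]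
    refine (Corex.lo hY hY4 t1 t2 hκ k0 k2 hC0 hw hf (m := A + 2) (v := A + 1) (K := K)
      ?_ ?_ ?_ ?_).trans (integral_mono (Corex.int_ff hY hY4 hκ) i0 fun e =>
        ff_mono κ (Nat.sub_le _ _))
    · refine le_trans ?_ (integral_mono ((NUx.int1 hm h4).sub (integrable_const ((d : ℝ) + z)))
        ((NUx.int1 hYm hY4).sub (integrable_const _)) fun e => (pt (U z e)).1)
      simp only [Pi.sub_apply]
      rw [mean h4]
      linarith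
    · refine (integral_mono (NUx.int2 hYm hY4 _) (NUx.int2 hm h4 (d + z)) fun e =>
        sq_le_sq.2 (pt (U z e)).2).trans ?_
      linarith
    · refine (integral_mono (NUx.int4 hYm hY4 _) (NUx.int4 hm h4 (d + z)) fun e => ?_).trans ?_
      · show _ ^ 4 ≤ _ ^ 4
        rw [← Even.pow_abs (by decide), ← Even.pow_abs (by decide) (_ - (_ + _))]
        exact pow_le_pow_left₀ (abs_nonneg _) (pt (U z e)).2 4
      · have := le_mul_of_one_le_right (show 0 ≤ (A + 3) ^ 4 by positivity)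
          (one_le_pow₀ (n := 2) z1)
        rw [hK]
        linarith
    · have a1 : (6 * (A + 1) + 1 + (256 * C0 + 64) * K) / t ≤ 1 := by
        rw [div_le_one t0]
        nlinarith
      nlinarith

theorem dup {p : ℕ → unitInterval} {ε A B : ℝ} (hε : 0 < ε) (hA : 0 ≤ A) (hB : 0 ≤ B)
    (hM : Mo p ε A B) (hμ : ∀ᶠ x : ℕ in atTop, rho p 1 x ≤ x / 2) :
    ∃ (C : ℝ) (x0 : ℕ), 0 ≤ C ∧ ∀ (z : ℕ) (κb : ℝ) (κ : ℕ → ℝ), x0 ≤ z → 1 ≤ z → (∀ n, 0 ≤ κ n) →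
    0 ≤ κb → κb ≤ 2 → (∀ n, 3 * z ≤ 4 * n → 4 * n ≤ 5 * z → κb ≤ κ n) →
    theta p 1 z + C / (z : ℝ) ^ (1 / 2 : ℝ) ≤ κb →
    Integrable (fun e => ff κ (U z e)) (trials p) ∧ ∫ e, ff κ (U z e) ∂trials p ≤ ff κ z := by
  obtain ⟨x1, hx1⟩ := eventually_atTop.1 hμ
  obtain ⟨K, hK⟩ : ∃ K, K = B + 64 * (2 * A + 2) ^ 4 := ⟨_, rfl⟩
  have K0 : 0 ≤ K := by rw [hK]; positivity
  obtain ⟨D, hD⟩ : ∃ D, D = 6 * (A + (2 * A + 2) ^ 2) + 1 + 64 * K := ⟨_, rfl⟩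
  have D0 : 0 ≤ D := by rw [hD]; positivity
  refine ⟨4 * D / ε, max x1 ⌈D ^ 2⌉₊, by positivity, fun z κb κ hz h1 hκ k0 k2 hw hθ => ?_⟩
  obtain ⟨t1, t2, tD⟩ := root h1 ((le_max_right _ _).trans hz)
  generalize (z : ℝ) ^ (1 / 2 : ℝ) = t at hθ t1 t2 tD
  obtain ⟨h4, n1, hd⟩ := hM z h1
  have i0 := Corex.int_ff (LAWTx.meas_U z) h4 hκ
  have t0 : 0 < t := by linarith
  have z1 : (1 : ℝ) ≤ z := by exact_mod_cast h1
  refine ⟨i0, ?_⟩
  have hg := gap (g := κb - theta p 1 z) hε D0 t1 n1 (by linarith)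
  by_cases hr : -1 ≤ rho p 1 z
  · have r0 : rho p 1 z ≤ 2 * A := by
      obtain ⟨e1, e2, -, -⟩ := basic hε hM h1 le_rfl
      have e3 := (hd z).1
      rw [add_sub_cancel_right, e2] at e3
      have a0 : 0 ≤ D / t := by positivity
      have a1 : κb * nu p 1 z ≤ 2 * nu p 1 z := mul_le_mul_of_nonneg_right k2 (by linarith)
      have a2 : rho p 1 z ≤ nu p 1 z := by linarith
      have a3 := hx1 z ((le_max_left _ _).trans hz)
      by_contra hc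
      push Not at hc
      have a4 : rho p 1 z * rho p 1 z ≤ rho p 1 z * (z / 2) :=
        mul_le_mul_of_nonneg_left a3 (by linarith)
      have a5 : z * rho p 1 z ≤ z * nu p 1 z := mul_le_mul_of_nonneg_left a2 (by linarith)
      have a6 : z * (2 * A) < z * rho p 1 z := mul_lt_mul_of_pos_left hc (by linarith)
      nlinarith
    obtain ⟨b1, b2, b3, b4⟩ := basic hε hM h1 (R := 2 * A + 2) (abs_le.2 ⟨by linarith, by linarith⟩)
    refine Corex.up (LAWTx.meas_U z) h4 t1 t2 hκ k0 k2 hw (m := rho p 1 z) (K := K)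
      (by rw [mean h4]; linarith) b2.le b2.ge (by rwa [hK]) ?_
    have : (6 * nu p 1 z + 1 + 64 * K) / t ≤ D / t :=
      div_le_div_of_nonneg_right (by linarith) t0.le
    linarith
  · push Not at hr
    obtain ⟨d, d1, d2⟩ : ∃ d : ℕ, (d : ℝ) ≤ -rho p 1 z - 1 ∧ -rho p 1 z - 1 < d + 1 :=
      ⟨_, Nat.floor_le (by linarith), Nat.lt_floor_add_one _⟩
    have hY : Measurable fun e => U z e + d := (LAWTx.meas_U z).add_const d
    have hm := LAWTx.aesm_U p z fun n => (n : ℝ)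
    have hY4 : Integrable (fun e => ((U z e + d : ℕ) : ℝ) ^ 4) (trials p) := by
      simpa only [Nat.cast_add, sub_neg_eq_add] using NUx.int4 hm h4 (-d)
    have pt : ∀ n : ℕ, ((n + d : ℕ) : ℝ) - z = (n : ℝ) - (z - d) := fun n => by push_cast; ring
    obtain ⟨e2, e4⟩ := hd (z - d)
    have s0 : rho p 1 z + z - (z - d) = rho p 1 z + d := by ring
    rw [s0] at e2 e4
    have ra : |rho p 1 z + d| ≤ 2 * A + 2 := abs_le.2 ⟨by linarith, by linarith⟩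
    have r2 : (rho p 1 z + d) ^ 2 ≤ (2 * A + 2) ^ 2 := by
      rw [← sq_abs]; exact pow_le_pow_left₀ (abs_nonneg _) ra 2
    have r4 : (rho p 1 z + d) ^ 4 ≤ (2 * A + 2) ^ 4 := by
      rw [← Even.pow_abs (by decide)]; exact pow_le_pow_left₀ (abs_nonneg _) ra 4
    refine (integral_mono i0 (Corex.int_ff hY hY4 hκ) fun e =>
      ff_mono κ (Nat.le_add_right _ _)).trans (Corex.up hY hY4 t1 t2 hκ k0 k2 hw (m := -1) (u := 0)
        (v := A + (2 * A + 2) ^ 2) (K := K) ?_ ?_ ?_ ?_ ?_)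
    · simp only [pt]
      rw [mean h4]
      linarith
    · simp only [pt]
      have := le_mul_of_one_le_left (sq_nonneg (2 * A + 2)) z1
      linarith
    · rw [mul_zero]
      exact integral_nonneg fun _ => sq_nonneg _
    · simp only [pt]
      have := le_mul_of_one_le_right (show 0 ≤ (2 * A + 2) ^ 4 by positivity)
        (one_le_pow₀ (n := 2) z1)
      rw [hK]
      linarith
    · have : D / t ≤ 1 := (div_le_one t0).2 tD
      rw [← hD]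
      linarith

end Freex

end Pool.Agent.P.MP_758450_pr.IT
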