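import Pool.Agent.P.MP_758450_pr.ITB

/-! Integral test, part three: from the chain to the walk. -/

set_option autoImplicit false

namespace Pool.Agent.P.MP_758450_pr.IT

open MeasureTheory ProbabilityTheory Filter Topology Finset
open scoped ENNReal Classical
open Pool.Agent.P.MP_c7fa75_pr.T Pool.Agent.P.MP_c7fa75_pr.R2

namespace BARx

theorem num {c : ℝ≥0∞} (h0 : 0 < c) (h1 : c ≤ 1) (L : ℕ) :
    ∃ M : ℕ, (1 - c) ^ M ≤ ENNReal.ofReal (Real.exp (-L)) ∧ M * c ≤ L + 1 := by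
  obtain ⟨t, t0, t1, rfl⟩ : ∃ t : ℝ, 0 < t ∧ t ≤ 1 ∧ ENNReal.ofReal t = c :=
    ⟨c.toReal, ENNReal.toReal_pos h0.ne' (ne_top_of_le_ne_top ENNReal.one_ne_top h1),
      ENNReal.toReal_le_of_le_ofReal zero_le_one (by simpa using h1),
      ENNReal.ofReal_toReal (ne_top_of_le_ne_top ENNReal.one_ne_top h1)⟩
  have a1 : (L : ℝ) ≤ ⌈L / t⌉₊ * t := (div_le_iff₀ t0).1 (Nat.le_ceil _)
  have a2 : (⌈L / t⌉₊ : ℝ) * t ≤ L + 1 := by
    have := mul_le_mul_of_nonneg_right (Nat.ceil_lt_add_one (div_nonneg L.cast_nonneg t0.le)).le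
      t0.le
    rw [add_mul, div_mul_cancel₀ _ t0.ne'] at this
    linarith
  refine ⟨⌈L / t⌉₊, ?_, ?_⟩
  · rw [← ENNReal.ofReal_one, ← ENNReal.ofReal_sub _ t0.le, ← ENNReal.ofReal_pow (by linarith)]
    refine ENNReal.ofReal_le_ofReal ((pow_le_pow_left₀ (by linarith)
      (Real.one_sub_le_exp_neg t) _).trans ?_)
    rw [← Real.exp_nat_mul]
    exact Real.exp_le_exp.2 (by linarith)
  · rw [← ENNReal.ofReal_natCast, ← ENNReal.ofReal_mul (Nat.cast_nonneg _)]
    refine (ENNReal.ofReal_le_ofReal a2).trans_eq ?_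
    rw [ENNReal.ofReal_add L.cast_nonneg zero_le_one, ENNReal.ofReal_natCast, ENNReal.ofReal_one]

theorem bar_of (a : ℤ → ℕ → Bool) (m z : ℕ) (hinf : ∀ x k, ∃ i, k ≤ i ∧ a x i = false)
    (hz : 1 ≤ z) (hA : ∀ i, i < z → a (-(m : ℤ)) i = true)
    (hS : ∀ n, 1 ≤ it Uo (fun i : ℕ => a ((i : ℤ) - m + 1)) z (n + 1)) : Bar a := by
  set s : ℕ → ℕ := it Uo (fun i : ℕ => a ((i : ℤ) - m + 1)) z with hs
  have hr : ∀ n, 1 ≤ s n := fun n => by
    cases n with
    | zero => exact hz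
    | succ n => exact hS n
  have hex : ∀ n : ℕ, ∃ k, Ll (a ((n : ℤ) - m + 1)) k < s n ∧
      Rr (a ((n : ℤ) - m + 1)) k = s (n + 1) := fun n => by
    obtain ⟨N, hN⟩ := exists_Ll_ge (hinf ((n : ℤ) - m + 1)) (s n)
    have h1 := (tau_cases (a ((n : ℤ) - m + 1)) (s n) N).resolve_right fun h => by omega
    obtain ⟨k, h2, h3⟩ := exists_of_tau (a ((n : ℤ) - m + 1)) (hr n) N
    exact ⟨k, h2, h3.trans (Uo_eq_of_tau h1).symm⟩
  choose k hk using hex
  have h0 : Ll (a (-(m : ℤ))) z = 0 :=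
    card_eq_zero.2 (filter_eq_empty_iff.2 fun i hi => by simp [hA i (mem_range.1 hi)])
  refine ⟨m, fun x => Nat.casesOn x z k, h0, fun x => ?_⟩
  have h1 := (hk x).1
  cases x with
  | zero =>
    have h2 := Rr_add_Ll (a (-(m : ℤ))) z
    have h3 : s 0 = z := rfl
    show Ll (a (((0 : ℕ) : ℤ) - m + 1)) (k 0) + 1 ≤ Rr (a (((0 : ℕ) : ℤ) - m)) z
    rw [show ((0 : ℕ) : ℤ) - m = -m by simp] at h1 ⊢
    omega
  | succ x =>
    have h2 := (hk x).2
    show Ll (a (((x + 1 : ℕ) : ℤ) - m + 1)) (k (x + 1)) + 1 ≤ Rr (a (((x + 1 : ℕ) : ℤ) - m)) (k x)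
    rw [show (x : ℤ) - m + 1 = ((x + 1 : ℕ) : ℤ) - m by push_cast; ring] at h2
    omega

theorem ind (P0 : Measure (ℕ → ℝ)) [IsProbabilityMeasure P0] :
    iIndepFun (fun (x : ℤ) (a : ℤ → ℕ → Bool) => a x) (Fld P0) :=
  iIndepFun_infinitePi (X := fun (_ : ℤ) (s : ℕ → Bool) => s) (fun _ => measurable_id)

theorem split (P0 : Measure (ℕ → ℝ)) [IsProbabilityMeasure P0] (m : ℕ) {A : Set (ℕ → Bool)}
    {S : Set (ℕ → ℕ → Bool)} (hA : MeasurableSet A) (hS : MeasurableSet S) :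
    Fld P0 ({a | a (-(m : ℤ)) ∈ A} ∩ {a | (fun i : ℕ => a ((i : ℤ) - m + 1)) ∈ S}) =
      Fld P0 {a | a (-(m : ℤ)) ∈ A} * Fld P0 {a | (fun i : ℕ => a ((i : ℤ) - m + 1)) ∈ S} := by
  have h := indep_iSup_of_disjoint (fun x => (measurable_pi_apply x).comap_le) (ind P0).iIndep
    (S := Set.Iic (-(m : ℤ))) (T := Set.Ioi (-(m : ℤ))) (Set.Iic_disjoint_Ioi le_rfl)
  have hm : ∀ (T : Set ℤ) (x : ℤ), x ∈ T → Measurable[⨆ i ∈ T, MeasurableSpace.comap
      (fun a : ℤ → ℕ → Bool => a i) inferInstance] fun a : ℤ → ℕ → Bool => a x := fun T x hx =>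
    (comap_measurable _).mono (le_iSup₂ (f := fun i (_ : i ∈ T) => MeasurableSpace.comap
      (fun a : ℤ → ℕ → Bool => a i) inferInstance) x hx) le_rfl
  refine (Indep_iff _ _ _).1 h _ _ (hm _ _ Set.self_mem_Iic hA) ?_
  exact @measurable_pi_lambda _ _ _ (_) _ _ (fun i : ℕ => hm _ ((i : ℤ) - m + 1)
    (by simp only [Set.mem_Ioi]; omega)) _ hS

end BARx

theorem p_BAR :
    S_BAR := by
  intro P0 _ f z0 hz0 hf1 hf0 hfs hpos hinf
  have hsup := p_SUP (ℕ → Bool) (Qa P0) Uo 1 z0 f meas_Uo hz0 hf1 hfs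
  have key : ∀ (L z : ℕ), 1 ≤ z →
      Fld P0 {a | ¬ Bar a} ≤ ENNReal.ofReal (Real.exp (-L)) + (L + 1) * f z := by
    intro L z hz
    set A : Set (ℕ → Bool) := {e | ∀ i, i < z → e i = true} with hAd
    set S : Set (ℕ → ℕ → Bool) := {x | ∀ n, 1 ≤ it Uo x z (n + 1)} with hSd
    have hA : MeasurableSet A := by
      simp only [hAd, Set.ofPred_forall]
      exact MeasurableSet.iInter fun i => MeasurableSet.iInter fun _ =>
        measurableSet_eq_fun (measurable_pi_apply i) measurable_const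
    have hS : MeasurableSet S := by
      simp only [hSd, Set.ofPred_forall]
      exact MeasurableSet.iInter fun n =>
        measurableSet_le measurable_const (CHx.meas_it meas_Uo z (n + 1))
    have hc : ∀ (x : ℤ) (B : Set (ℕ → Bool)), MeasurableSet B →
        Fld P0 {a | a x ∈ B} = Qa P0 B := fun x B hB => by
      rw [← fld_map P0 x, Measure.map_apply (measurable_pi_apply x) hB]
      rfl
    have hd : ∀ m : ℕ, Fld P0 {a | (fun i : ℕ => a ((i : ℤ) - m + 1)) ∈ Sᶜ} ≤ f z := fun m => by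
      have hch := p_CH (ℕ → Bool) (ℤ → ℕ → Bool) (Qa P0) (Fld P0)
        (fun (n : ℕ) (a : ℤ → ℕ → Bool) => a ((n : ℤ) - m + 1)) Uo 1 meas_Uo
        (fun n => measurable_pi_apply _) ((BARx.ind P0).precomp
          (g := fun n : ℕ => (n : ℤ) - m + 1) fun a b e => by simpa using e)
        (fun n => fld_map P0 _) z
      have h1 := hsup z
      rw [← hch.2] at h1
      exact (ENNReal.add_le_add_iff_left (measure_ne_top _ _)).1
        ((prob_add_prob_compl hch.1).le.trans h1)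
    obtain ⟨M, hM1, hM2⟩ := BARx.num (hpos z) prob_le_one L
    have h1 : Fld P0 (⋂ m ∈ range M, {a | a (-(m : ℤ)) ∈ Aᶜ}) = (1 - Qa P0 A) ^ M := by
      rw [((BARx.ind P0).precomp (g := fun n : ℕ => -(n : ℤ)) fun a b e => by
        simpa using e).meas_biInter (s := fun m : ℕ => {a | a (-(m : ℤ)) ∈ Aᶜ})
        fun m _ => ⟨Aᶜ, hA.compl, rfl⟩, prod_congr rfl fun m _ => hc _ _ hA.compl, prob_compl_eq_one_sub hA, prod_const, card_range]
    have h2 : Fld P0 (⋃ m ∈ range M, {a | a (-(m : ℤ)) ∈ A} ∩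
        {a | (fun i : ℕ => a ((i : ℤ) - m + 1)) ∈ Sᶜ}) ≤ (L + 1) * f z := by
      refine (measure_biUnion_finset_le _ _).trans ((sum_le_card_nsmul _ _ (Qa P0 A * f z)
        fun m _ => ?_).trans ?_)
      · rw [BARx.split P0 m hA hS.compl, hc _ _ hA]
        exact mul_le_mul_right (hd m) _
      · rw [card_range, nsmul_eq_mul, ← mul_assoc]
        exact mul_le_mul_left hM2 _
    refine (measure_mono_ae (ae_le_set.2 (measure_mono_null (fun a hn => ?_)
      (ae_iff.1 (ae_fld P0 hinf))))).trans ((measure_union_le _ _).trans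
      (add_le_add (h1.le.trans hM1) h2))
    intro ha
    obtain ⟨hb, hn⟩ := hn
    simp only [Set.mem_union, Set.mem_iInter, Set.mem_iUnion, Set.mem_inter_iff, Set.mem_ofPred_eq,
      Set.mem_compl_iff, not_or, not_forall, not_exists, not_and, not_not] at hn
    obtain ⟨⟨m, hm, h3⟩, h4⟩ := hn
    exact hb (BARx.bar_of a m z ha hz h3 (h4 m hm h3))
  have k2 : ∀ L : ℕ, Fld P0 {a | ¬ Bar a} ≤ ENNReal.ofReal (Real.exp (-L)) := fun L => by
    have h := (ENNReal.Tendsto.const_mul (a := (L : ℝ≥0∞) + 1) hf0 (.inr (by simp))).const_add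
      (ENNReal.ofReal (Real.exp (-L)))
    rw [mul_zero, add_zero] at h
    exact ge_of_tendsto h ((eventually_ge_atTop 1).mono (key L))
  have h := ENNReal.tendsto_ofReal
    (Real.tendsto_exp_neg_atTop_nhds_zero.comp tendsto_natCast_atTop_atTop)
  rw [ENNReal.ofReal_zero] at h
  exact le_antisymm (ge_of_tendsto' h k2) zero_le

namespace DIRx

theorem flowZ (q : ℕ → ℤ) (h0 : q 0 = 0) (hn : ∀ n, q (n + 1) = q n + 1 ∨ q (n + 1) = q n - 1)
    (x : ℤ) (t : ℕ) :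
    stp q x true t + (if q t ≤ x then 1 else 0) =
      stp q (x + 1) false t + if 0 ≤ x then 1 else 0 := by
  induction t with
  | zero =>
    rw [h0]
    rfl
  | succ t ih =>
    rw [FLOWx.stp_succ, FLOWx.stp_succ]
    have e := hn t
    simp only [iff_true, Bool.false_eq_true, iff_false]
    split_ifs at ih ⊢ <;> omega

theorem le_time (q : ℕ → ℤ) (h0 : q 0 = 0)
    (hn : ∀ n, q (n + 1) = q n + 1 ∨ q (n + 1) = q n - 1) (t : ℕ) : q t ≤ t := by
  induction t with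
  | zero => rw [h0]; rfl
  | succ t ih =>
    have := hn t
    push_cast
    omega

theorem surv {a : ℤ → ℕ → Bool} (h : Bar a) : Surv a 1 := by
  obtain ⟨m, n, -, h⟩ := h
  refine ⟨fun x => n (x + m), fun x => ?_⟩
  have h1 := h (x + m)
  have e1 : ((x + m : ℕ) : ℤ) - m = x := by push_cast; ring
  have e2 : x + m + 1 = x + 1 + m := by ring
  rw [e1, e2] at h1
  exact h1

theorem bal (a : ℤ → ℕ → Bool) (q : ℕ → ℕ → ℤ) (hNN : NN q) (hF : Follows a q 1) (hT : Tr (q 0))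
    (hb : Tendsto (q 0) atTop atBot) (x : ℤ) :
    Rr (a x) (vis (q 0) x) + 1 =
      Ll (a (x + 1)) (vis (q 0) (x + 1)) + if 0 ≤ x then 1 else 0 := by
  obtain ⟨T1, h1⟩ := FLOWx.visits (q 0) hT x
  obtain ⟨T2, h2⟩ := FLOWx.visits (q 0) hT (x + 1)
  obtain ⟨T3, h3⟩ := eventually_atTop.1 (tendsto_atBot.1 hb x)
  have hG : Good q 0 := fun i hi => absurd hi (Nat.not_lt_zero i)
  have u1 := (p_USE a q 1 0 hF Nat.one_pos hG x (T1 + T2 + T3)).1
  have u2 := (p_USE a q 1 0 hF Nat.one_pos hG (x + 1) (T1 + T2 + T3)).2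
  have o : ∀ y, off q 0 y = 0 := fun y => rfl
  rw [o, zero_add, (h1 _ (by omega)).1, Rr_zero, zero_add] at u1
  rw [o, zero_add, (h2 _ (by omega)).1, Ll_zero, zero_add] at u2
  have f := flowZ (q 0) (hNN.1 0) (hNN.2 0) x (T1 + T2 + T3)
  rw [if_pos (h3 _ (by omega))] at f
  rw [u1, u2]
  exact f

end DIRx

theorem p_DIR :
    S_DIR := by
  intro a q hNN hF hB hinf
  have hG := p_DT p_FLOW p_USE (p_NET p_FLOW p_USE) a q 1 hNN hF (DIRx.surv hB) hinf
  have hT := hG 0 Nat.one_pos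
  refine (FLOWx.sign (q 0) (hNN.2 0) hT).resolve_right fun hb => ?_
  obtain ⟨m, n, h0, hs⟩ := hB
  have bal := DIRx.bal a q hNN hF hT hb
  have key : ∀ j : ℕ, n j < vis (q 0) ((j : ℤ) - m) := by
    intro j
    induction j with
    | zero =>
      by_contra hc
      have b := bal (-(m : ℤ) - 1)
      have e1 : -(m : ℤ) - 1 + 1 = -(m : ℤ) := by ring
      have e2 : ((0 : ℕ) : ℤ) - m = -(m : ℤ) := by simp
      rw [e1, if_neg (by omega)] at b
      rw [e2] at hc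
      have := Ll_mono (a (-(m : ℤ))) (not_lt.1 hc)
      omega
    | succ j ih =>
      by_contra hc
      have e1 : ((j + 1 : ℕ) : ℤ) - m = (j : ℤ) - m + 1 := by push_cast; ring
      rw [e1] at hc
      have b := bal ((j : ℤ) - m)
      have c1 := Ll_mono (a ((j : ℤ) - m + 1)) (not_lt.1 hc)
      have c2 := Rr_mono (a ((j : ℤ) - m)) ih.le
      have c3 := hs j
      split_ifs at b <;> omega
  obtain ⟨T, hT0⟩ := eventually_atTop.1 (tendsto_atBot.1 hb 0)
  have hv := key (m + T + 1)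
  have hpos : 0 < Nat.card {s : ℕ // q 0 s = ((m + T + 1 : ℕ) : ℤ) - m} :=
    lt_of_le_of_lt (Nat.zero_le _) hv
  obtain ⟨⟨s, hs'⟩⟩ := (Nat.card_pos_iff.1 hpos).1
  have h1 := DIRx.le_time (q 0) (hNN.1 0) (hNN.2 0) s
  push_cast at hs'
  by_cases h2 : T ≤ s
  · have := hT0 s h2
    omega
  · omega

namespace RUNx

theorem env_const {Θ : Type} [MeasurableSpace Θ] (μ : Measure Θ) [IsProbabilityMeasure μ]
    (c : ℕ → ℝ) : Env μ (fun (_ : Θ) (_ : ℤ) => c) (Measure.dirac c) := by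
  refine ⟨?_, fun x => ?_⟩
  · rw [iIndepFun_iff_measure_inter_preimage_eq_mul]
    intro S sets _
    by_cases hall : ∀ i ∈ S, c ∈ sets i
    · have h1 : ∀ i ∈ S, (fun _ : Θ => c) ⁻¹' sets i = Set.univ := by
        intro i hi
        ext θ
        simp [hall i hi]
      rw [Finset.prod_congr rfl (fun i hi => by rw [h1 i hi, measure_univ]),
        Set.iInter₂_congr h1]
      simp
    · push Not at hall
      obtain ⟨i, hi, hn⟩ := hall
      have h1 : (fun _ : Θ => c) ⁻¹' sets i = ∅ := by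
        ext θ
        simp [hn]
      rw [Finset.prod_eq_zero hi (by rw [h1, measure_empty])]
      refine measure_mono_null (Set.biInter_subset_of_mem (s := (S : Set ℤ)) hi) ?_
      rw [h1, measure_empty]
  · rw [Measure.map_const]
    simp

variable {Ω : Type} (X : ℕ → Ω → ℤ)

def G : Set Ω := {ω | X 0 ω = 0 ∧ ∀ n, X (n + 1) ω = X n ω + 1 ∨ X (n + 1) ω = X n ω - 1}

noncomputable def Y (ω : Ω) (n : ℕ) : ℤ := if ω ∈ G X then X n ω else n

variable {X}

theorem Y_eq {ω : Ω} (h : ω ∈ G X) (n : ℕ) : Y X ω n = X n ω := if_pos h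

theorem Y_nn (ω : Ω) : NN (fun _ => Y X ω) := by
  by_cases h : ω ∈ G X
  · refine ⟨fun _ => (Y_eq h 0).trans h.1, fun _ n => ?_⟩
    simp only [Y_eq h]
    exact h.2 n
  · refine ⟨fun _ => by simp [Y, h], fun _ n => Or.inl ?_⟩
    simp [Y, h]

variable [MeasurableSpace Ω]

theorem G_meas (hm : ∀ n, Measurable (X n)) : MeasurableSet (G X) := by
  have h1 : ∀ n, MeasurableSet {ω | X (n + 1) ω = X n ω + 1 ∨ X (n + 1) ω = X n ω - 1} := fun n =>
    (measurableSet_eq_fun (hm _) ((hm n).add_const 1)).union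
      (measurableSet_eq_fun (hm _) ((hm n).sub_const 1))
  have h2 := (measurableSet_eq_fun (hm 0) (measurable_const (a := (0 : ℤ)))).inter
    (MeasurableSet.iInter h1)
  convert h2 using 1
  ext ω
  simp [G]

theorem Y_meas (hm : ∀ n, Measurable (X n)) : Measurable (Y X) :=
  measurable_pi_lambda _ fun n => Measurable.ite (G_meas hm) (hm n) measurable_const

end RUNx

open RUNx in
theorem p_RUN :
    S_RUN := by
  intro p Ω m0 P _ X hX
  have hG : ∀ᵐ ω ∂P, ω ∈ G X := by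
    filter_upwards [hX.start, ae_all_iff.2 hX.step] with ω a b using ⟨a, b⟩
  refine ⟨⟨fun _ _ => cw p, fun _ => Y X, measurable_const, fun _ => Y_meas hX.meas, Y_nn, ?_⟩,
    env_const P (cw p), hG.mono fun ω h n => Y_eq h n⟩
  intro j hj t Z hZ hb _
  obtain rfl : j = 0 := by omega
  obtain ⟨h, -, e⟩ := Measurable.exists_eq_measurable_comp hZ
  let φ : (Fin (t + 1) → ℤ) → ℝ := fun v => h (fun _ => cw p, fun i => i.elim0, v)
  have hφ : ∀ ω ∈ G X, Z ω = φ fun m => X m ω := fun ω hω => by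
    rw [e]
    simp only [Function.comp, φ, Y_eq hω]
    congr 3
    exact Subsingleton.elim _ _
  have hv : Measurable fun ω (k : Fin (t + 1)) => X k ω :=
    measurable_pi_lambda _ fun k => hX.meas k
  have hs : MeasurableSet {ω | X (t + 1) ω = X t ω + 1} :=
    measurableSet_eq_fun (hX.meas _) ((hX.meas t).add_const 1)
  have key := CEx.key P (Z := fun ω => φ fun m => X m ω) hv.comap_le
    ((Measurable.of_discrete (f := φ)).comp (comap_measurable _))
    (by filter_upwards [hb, hG] with ω a b using hφ ω b ▸ a)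
    ((integrable_const 1).indicator hs) (hX.cond t)
  refine (integral_congr_ae ?_).trans key
  filter_upwards [hG] with ω hω
  rw [hφ ω hω]
  simp only [idx, off, cnt, Y_eq hω, range_zero, sum_empty, zero_add, cw, Set.indicator,
    Set.mem_ofPred_eq]

namespace LYAx

theorem fin (p : ℕ → unitInterval) (κ : ℕ → ℝ) (h : Summable (gg κ)) (z0 : ℕ) (hk : 1 ≤ z0)
    (hz : ∀ z, z0 ≤ z → Integrable (fun B => ff κ (U z B)) (trials p) ∧
      ff κ z ≤ ∫ B, ff κ (U z B) ∂trials p) :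
    ∃ (f : ℕ → ℝ≥0∞) (z0 : ℕ), 1 ≤ z0 ∧ (∀ z, z < z0 → 1 ≤ f z) ∧ Tendsto f atTop (𝓝 0) ∧
      ∀ z, z0 ≤ z → ∫⁻ B, f (U z B) ∂trials p ≤ f z := by
  set S : ℝ := ∑' i, gg κ i with hS
  have hpos : ∀ x, 0 < S - ff κ x := fun x => sub_pos.2 (LYSx.ff_lt κ h x)
  refine ⟨fun x => ENNReal.ofReal ((S - ff κ x) / (S - ff κ z0)), z0, hk, fun z hzz => ?_, ?_,
    fun z hzz => ?_⟩
  · rw [ENNReal.one_le_ofReal, one_le_div (hpos z0)]
    linarith [ff_mono κ hzz.le]
  · have h1 : Tendsto (fun x => (S - ff κ x) / (S - ff κ z0)) atTop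
        (𝓝 ((S - S) / (S - ff κ z0))) :=
      (tendsto_const_nhds.sub (LYSx.ff_tendsto κ h)).div_const _
    rw [sub_self, zero_div] at h1
    simpa using ENNReal.tendsto_ofReal h1
  · obtain ⟨hi, hle⟩ := hz z hzz
    have hi2 : Integrable (fun B => (S - ff κ (U z B)) / (S - ff κ z0))
        (trials p) := ((integrable_const S).sub hi).div_const _
    rw [← ofReal_integral_eq_lintegral_ofReal hi2
      (ae_of_all _ fun e => div_nonneg (hpos _).le (hpos _).le)]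
    refine ENNReal.ofReal_le_ofReal ?_
    rw [integral_div, integral_sub (integrable_const S) hi]
    refine div_le_div_of_nonneg_right ?_ (hpos _).le
    simp only [integral_const, probReal_univ, smul_eq_mul, one_mul]
    linarith

end LYAx


namespace Topx

theorem in01 (p : ℕ → unitInterval) : In01 (Measure.dirac (cw p)) := by
  unfold In01
  rw [ae_dirac_iff Mainx.meas_in]
  exact fun i => (p i).2

theorem pr_ge {p : ℕ → unitInterval} {ε : ℝ} (h : UE p ε) (i : ℕ) (b : Bool) :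
    ε ≤ pr (cw p i) b := by
  cases b
  · rw [pr_false]; linarith [(h.2 i).2]
  · exact (h.2 i).1

theorem inf {p : ℕ → unitInterval} {ε : ℝ} (h : UE p ε) (b : Bool) :
    ∀ᵐ e ∂Qa (Measure.dirac (cw p)), ∀ m, ∃ i, m ≤ i ∧ e i = b := by
  rw [(p_LAWT.1 p).2, ← (p_LAWT.1 p).1, ae_map_iff (meas_arr _).aemeasurable (measSet_inf b)]
  refine got_INF (cw p) (fun i => (p i).2) b (tendsto_atTop_mono (fun n => ?_)
    (tendsto_natCast_atTop_atTop.atTop_mul_const h.1))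
  have := card_nsmul_le_sum (range n) (fun i => pr (cw p i) b) ε fun i _ => pr_ge h i b
  simpa using this

theorem pos {p : ℕ → unitInterval} {ε : ℝ} (h : UE p ε) (z : ℕ) :
    0 < Qa (Measure.dirac (cw p)) {e | ∀ i, i < z → e i = true} := by
  have mA : MeasurableSet {e : ℕ → Bool | ∀ i, i < z → e i = true} := by
    simp only [Set.ofPred_forall]
    exact MeasurableSet.iInter fun i => MeasurableSet.iInter fun _ =>
      measurableSet_eq_fun (measurable_pi_apply i) measurable_const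
  rw [(p_LAWT.1 p).2, ← (p_LAWT.1 p).1, Measure.map_apply (meas_arr _) mA, pos_iff_ne_zero]
  intro h0
  have h2 := got_CYL ℕ (cw p) (fun i => (p i).2) (range z) (fun _ => true)
  have h3 : lamU ℕ {u | ∀ c ∈ range z, arr (cw p) u c = true} = 0 := by
    simp only [mem_range]
    exact h0
  rw [Measure.real, h3, ENNReal.toReal_zero] at h2
  have h4 : 0 < ∏ c ∈ range z, pr (cw p c) true :=
    prod_pos fun c _ => h.1.trans_le (pr_ge h c true)
  linarith

theorem wl {p : ℕ → unitInterval} {ε : ℝ} (h : UE p ε) : Wl (Measure.dirac (cw p)) := by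
  unfold Wl
  rw [Measure.dirac_apply_of_mem]
  · exact zero_lt_one
  · intro n
    linarith [(h.2 n).2, h.1]

theorem kill {p : ℕ → unitInterval} {ε : ℝ} (h : UE p ε) (f : ℕ → ℝ≥0∞) (z0 : ℕ)
    (hf : ∀ z, f z < ⊤) (hft : Tendsto f atTop (𝓝 ⊤))
    (hfs : ∀ z, z0 ≤ z → ∫⁻ B, f (U z B) ∂trials p ≤ f z) :
    ∀ᵐ a ∂Fld (Measure.dirac (cw p)), ¬ Surv a 1 := by
  set P0 : Measure (ℕ → ℝ) := Measure.dirac (cw p) with hP0
  have mF : ∀ z, Measurable (fun e : ℕ → Bool => Uo e (z + 1 - 1)) := fun z => meas_Uo _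
  have hk := got_KILL (ℕ → Bool) (Qa P0) (fun e z => Uo e (z + 1 - 1)) 1 z0 f mF hf hft
    (fun z hz => by
      have := hfs z hz
      rw [← (p_LAWT.1 p).2] at this
      simpa only [p_LAWT.2, Nat.add_sub_cancel] using this)
    (fun z => KILLQx.pos got_CYL P0 (in01 p) (wl h) _ 1 le_rfl)
  have hnull : ∀ᵐ a ∂Fld P0, ∀ z, ¬ ∀ n, 1 ≤ it (fun e z => Uo e (z + 1 - 1))
      (fun i : ℕ => a ((i : ℤ) + 1)) z (n + 1) := by
    rw [ae_all_iff]
    intro z
    have := (got_CH (ℕ → Bool) (ℤ → ℕ → Bool) (Qa P0) (Fld P0) (fun n a => a ((n : ℤ) + 1))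
      (fun e z => Uo e (z + 1 - 1)) 1 mF (fun n => measurable_pi_apply _) (fld_indep P0)
      (fun n => fld_map P0 _) z).2
    rw [hk z] at this
    rw [ae_iff]
    simpa only [not_not] using this
  filter_upwards [hnull, ae_fld P0 (inf h false)] with a h1 h2 hs
  obtain ⟨z, hz⟩ := KILLQx.alive a 1 h2 hs
  exact h1 z hz

end Topx


theorem all_LIM : S_LIM := p_LIM p_LAWT p_HOR

namespace Finx

theorem lya {p : ℕ → unitInterval} {ε A B : ℝ} (hε : 0 < ε) (hA : 0 ≤ A) (hB : 0 ≤ B)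
    (hM : Mo p ε A B) {κ : ℕ → ℝ} (hvar : Summable (fun n => |κ (n + 1) - κ n|))
    (hle : ∀ᶠ x in atTop, κ x ≤ theta p 1 x) (hsum : Summable (gg κ)) :
    ∃ (f : ℕ → ℝ≥0∞) (z0 : ℕ), 1 ≤ z0 ∧ (∀ z, z < z0 → 1 ≤ f z) ∧ Tendsto f atTop (𝓝 0) ∧
      ∀ z, z0 ≤ z → ∫⁻ B, f (U z B) ∂trials p ≤ f z := by
  obtain ⟨L, hL⟩ := Varx.lim hvar
  obtain ⟨C0, hC0, hloss⟩ := p_LOSS (1 / 2) (by norm_num) (by norm_num)
  obtain ⟨C, x0, hC, hdlo⟩ := Freex.dlo hε hA hB hC0 hM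
  set α : ℕ → ℝ := fun i => |κ (i + 1) - κ i| with hα
  have hal0 : ∀ i, 0 ≤ α i := fun i => abs_nonneg _
  obtain ⟨sl, hsl0, hsl1, hsl2, hsl3⟩ :=
    p_SLACK α (1 / 2) C hal0 hvar (by norm_num) (by norm_num) hC
  obtain ⟨hL1, hsk⟩ := (p_SEQ κ sl L (1 + 1 / 2) hL hsl0 hsl1 hsl2 (by norm_num)).1 hsum
  set ka : ℕ → ℝ := fun n => max 0 (min (1 + 1 / 2) (κ n - sl n)) with hka
  have hev : ∀ᶠ z in atTop, 0 < κ z - sl z :=
    (hL.sub hsl1).eventually (lt_mem_nhds (by linarith))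
  obtain ⟨z1, hz1⟩ := eventually_atTop.1 (hev.and hle)
  refine LYAx.fin p ka hsk (max z1 (max 6 x0)) (by omega) fun z hz => ?_
  have hzz1 : z1 ≤ z := by omega
  have hz6 : 6 ≤ z := by omega
  have hz2 : x0 ≤ z := by omega
  have hw0 : 0 ≤ win α z := sum_nonneg fun i _ => hal0 i
  set err : ℝ := win α z + C / (z : ℝ) ^ (1 / 2 : ℝ) with herr
  have hes : err ≤ sl z := by
    have := hsl3 z z hz6 (by omega) (by omega)
    linarith
  have hte : 0 ≤ κ z - err := by linarith [(hz1 z hzz1).1]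
  set kb : ℝ := min (1 + 1 / 2) (κ z - err) with hkb
  have hkb0 : 0 ≤ kb := le_min (by norm_num) hte
  have hkb2 : kb ≤ 2 := (min_le_left _ _).trans (by norm_num)
  have hkk : ∀ n, 3 * z ≤ 4 * n → 4 * n ≤ 5 * z → ka n ≤ kb := by
    intro n h1 h2
    refine max_le hkb0 (min_le_min_left _ ?_)
    have h3 := hsl3 z n hz6 h1 h2
    have h4 := (abs_le.1 (Varx.win_le κ (z := z) (n := n) (by omega) (by omega))).2
    linarith
  have hkg : ∀ n, ka n ≤ 1 + 1 / 2 := fun n => max_le (by norm_num) (min_le_left _ _)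
  refine hdlo z kb ka hz2 (by omega) (fun n => le_max_left _ _) hkb0 hkb2 hkk
    (hloss ka hkg z (by omega)) ?_
  have : kb ≤ κ z - err := min_le_right _ _
  linarith [(hz1 z hzz1).2]

theorem lyb {p : ℕ → unitInterval} {ε A B : ℝ} (hε : 0 < ε) (hA : 0 ≤ A) (hB : 0 ≤ B)
    (hM : Mo p ε A B) (hμ : ∀ᶠ x : ℕ in atTop, rho p 1 x ≤ x / 2) {κ : ℕ → ℝ}
    (hvar : Summable (fun n => |κ (n + 1) - κ n|))
    (hle : ∀ᶠ x in atTop, theta p 1 x ≤ κ x) (hns : ¬ Summable (gg κ)) :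
    ∃ (f : ℕ → ℝ≥0∞) (z0 : ℕ), (∀ z, f z < ⊤) ∧ Tendsto f atTop (𝓝 ⊤) ∧
      ∀ z, z0 ≤ z → ∫⁻ B, f (U z B) ∂trials p ≤ f z := by
  obtain ⟨L, hL⟩ := Varx.lim hvar
  obtain ⟨C, x0, hC0, hC⟩ := Freex.dup hε hA hB hM hμ
  set α : ℕ → ℝ := fun i => |κ (i + 1) - κ i| with hα
  have hal : ∀ i, 0 ≤ α i := fun i => abs_nonneg _
  obtain ⟨sl, hsl0, hsl, hsls, hslw⟩ :=
    p_SLACK α (1 / 2) C hal hvar (by norm_num) (by norm_num) hC0
  obtain ⟨hL1, hns2⟩ := (p_SEQ κ sl L 2 hL hsl0 hsl hsls (by norm_num)).2 hns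
  set ka : ℕ → ℝ := fun n => max 0 (κ n + sl n) with hka
  have hff : Tendsto (ff ka) atTop atTop :=
    (not_summable_iff_tendsto_nat_atTop_of_nonneg (fun i => (gg_pos ka i).le)).1 hns2
  have hev : ∀ᶠ z in atTop, κ z + sl z < 2 := by
    have h1 : Tendsto (fun z => κ z + sl z) atTop (𝓝 (L + 0)) := hL.add hsl
    exact h1.eventually (gt_mem_nhds (by linarith))
  obtain ⟨z1, hz1⟩ := eventually_atTop.1 (hev.and hle)
  refine ⟨fun x => ENNReal.ofReal (ff ka x), max z1 (max 6 x0), fun _ => ENNReal.ofReal_lt_top,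
    ENNReal.tendsto_ofReal_atTop.comp hff, fun z hz => ?_⟩
  have hza : z1 ≤ z := by omega
  have hz6 : 6 ≤ z := by omega
  have hzk : x0 ≤ z := by omega
  have hw0 : 0 ≤ win α z := sum_nonneg fun i _ => hal i
  set err : ℝ := win α z + C / (z : ℝ) ^ (1 / 2 : ℝ) with herr
  have hkey : ∀ n, 3 * z ≤ 4 * n → 4 * n ≤ 5 * z → κ z + err ≤ κ n + sl n := by
    intro n h1 h2
    have h3 := Varx.win_le κ (z := z) (n := n) (by omega) (by omega)
    have h4 := hslw z n hz6 h1 h2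
    have h5 := (abs_le.1 h3).1
    linarith
  have hkb2 : max 0 (κ z + err) ≤ 2 :=
    max_le (by norm_num) ((hkey z (by omega) (by omega)).trans (hz1 z hza).1.le)
  obtain ⟨hi, hb⟩ := hC z (max 0 (κ z + err)) ka hzk (by omega) (fun n => le_max_left _ _)
    (le_max_left _ _) hkb2 (fun n h1 h2 => max_le_max le_rfl (hkey n h1 h2)) (by
      have h6 : κ z + err ≤ max 0 (κ z + err) := le_max_right _ _
      linarith [(hz1 z hza).2])
  rw [← ofReal_integral_eq_lintegral_ofReal hi (ae_of_all _ fun B => ff_nonneg _ _)]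
  exact ENNReal.ofReal_le_ofReal hb

theorem half {p : ℕ → unitInterval} {ε A B : ℝ} (hM : Mo p ε A B)
    (hμ : Tendsto (fun x : ℕ => (∫ B, (U x B : ℝ) ∂trials p) / x) atTop (𝓝 1)) :
    ∀ᶠ x : ℕ in atTop, rho p 1 x ≤ x / 2 := by
  filter_upwards [hμ.eventually (gt_mem_nhds (show (1 : ℝ) < 3 / 2 by norm_num)),
    eventually_ge_atTop 1] with x hx h1
  have x0 : (0 : ℝ) < x := by exact_mod_cast h1
  have h2 := Freex.mean (hM x h1).1 0
  simp only [sub_zero] at h2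
  rw [h2, div_lt_iff₀ x0] at hx
  linarith

end Finx

theorem final_test :
  ∀ (p : ℕ → unitInterval), (∃ ε : ℝ, 0 < ε ∧ ∀ i, ε ≤ (p i : ℝ) ∧ (p i : ℝ) ≤ 1 - ε) →
    Tendsto (fun x : ℕ => (∫ B, (U x B : ℝ) ∂trials p) / x) atTop (𝓝 1) →
    ∀ κ : ℕ → ℝ, Summable (fun n => |κ (n + 1) - κ n|) →
    ∀ (Ω : Type) [MeasurableSpace Ω] (P : Measure Ω), IsProbabilityMeasure P →
    ∀ X : ℕ → Ω → ℤ, IsERW p P X →
      ((∀ᶠ x in atTop, κ x ≤ theta p 1 x) →
        Summable (fun m : ℕ => Real.exp (-∑ n ∈ Finset.range m, κ (n + 1) / ((n : ℝ) + 1))) →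
        ∀ᵐ ω ∂P, Tendsto (fun n => X n ω) atTop atTop) ∧
      ((∀ᶠ x in atTop, theta p 1 x ≤ κ x) →
        ¬ Summable (fun m : ℕ => Real.exp (-∑ n ∈ Finset.range m, κ (n + 1) / ((n : ℝ) + 1))) →
        P {ω | Tendsto (fun n => X n ω) atTop atTop} = 0) := by
  rintro p ⟨ε, hε, hp⟩ hμ κ hvar Ω _ P hP X hX
  have hU : UE p ε := ⟨hε, hp⟩
  obtain ⟨A, B, hA, hB, hM⟩ := Freex.mo all_LIM (p_CEN p_HOR all_LIM) hU
  obtain ⟨R, hEnv, hRX⟩ := p_RUN p Ω P X hX
  set P0 : Measure (ℕ → ℝ) := Measure.dirac (cw p) with hP0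
  refine ⟨fun hle hs => ?_, fun hle hs => ?_⟩
  · obtain ⟨f, z0, hz0, hf1, hf0, hfs⟩ := Finx.lya hε hA hB hM hvar hle hs
    have hbar := p_BAR P0 f z0 hz0 hf1 hf0 (fun z hz => by
      have := hfs z hz
      rw [← (p_LAWT.1 p).2] at this
      simpa only [p_LAWT.2] using this) (Topx.pos hU) (Topx.inf hU false)
    have hF := got_FLD Ω P 1 R P0 (Topx.in01 p) hEnv
      (fun a => Bar a ∧ ∀ x m, ∃ i, m ≤ i ∧ a x i = true) (hbar.and (ae_fld P0 (Topx.inf hU true)))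
    filter_upwards [hF, hRX] with ω hω hx
    obtain ⟨a, ⟨hb, hinf⟩, hfol⟩ := hω
    exact (p_DIR a _ (R.nn ω) hfol hb hinf).congr hx
  · obtain ⟨f, z0, hf, hft, hfs⟩ := Finx.lyb hε hA hB hM (Finx.half hM hμ) hvar hle hs
    have hN := got_FLD Ω P 1 R P0 (Topx.in01 p) hEnv (fun a => ¬ Surv a 1)
      (Topx.kill hU f z0 hf hft hfs)
    have h3 : ∀ᵐ ω ∂P, ¬ Tendsto (fun n => X n ω) atTop atTop := by
      filter_upwards [hN, hRX] with ω hω hx hT
      have hT' : Tendsto (R.X 0 ω) atTop atTop := hT.congr fun n => (hx n).symm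
      have hG : Good (fun i => R.X i ω) 1 := by
        intro i hi
        obtain rfl : i = 0 := by omega
        exact tendsto_atTop_mono (fun m => le_abs_self _) hT'
      obtain ⟨a, ha, hF⟩ := hω
      refine ha ⟨fun x => off (fun i => R.X i ω) 1 (x : ℤ), fun x => ?_⟩
      have h := got_NET a (fun i => R.X i ω) 1 1 (R.nn ω) hF le_rfl hG x
      rw [Finset.filter_true_of_mem (fun i hi => by
        obtain rfl : i = 0 := by simpa using hi
        exact hT'), Finset.card_range] at h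
      have e : ((x + 1 : ℕ) : ℤ) = (x : ℤ) + 1 := by push_cast; rfl
      simp only [e]
      rw [h]
    rw [ae_iff] at h3
    simpa only [not_not] using h3

end Pool.Agent.P.MP_758450_pr.IT
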