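import Mathlib
import Pool.Agent.P.MP_758450_pr.Super
import Pool.Agent.P.MP_758450_pr.Env

set_option autoImplicit false

open MeasureTheory ProbabilityTheory Filter Topology Finset

namespace Pool.Agent.P.MP_758450_pr

theorem mul_exp_le {a g u : ℝ} (hg : 0 ≤ g) (h : a ≤ g * (1 - u)) : a * Real.exp u ≤ g := by
  have h1 : 1 - u ≤ Real.exp (-u) := by linarith [Real.add_one_le_exp (-u)]
  have h2 : a ≤ g * Real.exp (-u) := h.trans (mul_le_mul_of_nonneg_left h1 hg)
  calc a * Real.exp u ≤ g * Real.exp (-u) * Real.exp u := by gcongr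
    _ = g := by rw [mul_assoc, ← Real.exp_add]; simp

theorem mul_exp_neg_one_le {a g : ℝ} (hg : 0 ≤ g) (h : a ≤ g * (5 / 2)) :
    a * Real.exp (-1) ≤ g := by
  have h1 := Real.exp_one_gt_d9
  rw [Real.exp_neg, ← div_eq_mul_inv, div_le_iff₀ (Real.exp_pos _)]
  nlinarith

theorem ex_eq (γ : ℕ → ℤ) (u : ℤ → ℕ → ℝ) (Y : Finset ℤ) (n : ℕ)
    (hY : ∀ i < n, γ i ∉ Y → ∀ l, u (γ i) l = 0) :
    ex u n γ = Real.exp (∑ y ∈ Y, ∑ l ∈ range (vis γ n y), u y l) := by
  rw [ex, sum_sites γ u Y n hY]

/-- `y` is visited infinitely often -/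
def Inf (γ : ℕ → ℤ) (y : ℤ) : Prop := ∀ M, ∃ n, M ≤ vis γ n y

theorem Inf.exists_ge {γ : ℕ → ℤ} {y : ℤ} (h : Inf γ y) (N : ℕ) : ∃ n, N ≤ n ∧ γ n = y := by
  by_contra hc
  push Not at hc
  obtain ⟨n, hn⟩ := h (vis γ N y + 1)
  have h1 : ∀ k, N ≤ k → vis γ k y = vis γ N y := by
    intro k hk
    induction k, hk using Nat.le_induction with
    | base => rfl
    | succ k hk ih => rw [vis_succ, if_neg (hc k hk), ih]
  rcases le_total n N with h2 | h2
  · have := vis_mono γ y h2
    simp only at this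
    omega
  · rw [h1 n h2] at hn; omega

theorem inf_of_frequently {γ : ℕ → ℤ} {y : ℤ} (h : ∀ N, ∃ n, N ≤ n ∧ γ n = y) : Inf γ y := by
  intro M
  induction M with
  | zero => exact ⟨0, Nat.zero_le _⟩
  | succ M ih =>
    obtain ⟨n, hn⟩ := ih
    obtain ⟨k, hk, hk'⟩ := h n
    refine ⟨k + 1, ?_⟩
    have := vis_mono γ y hk
    simp only at this
    rw [vis_succ, if_pos hk']
    omega

section

variable {Ω : Type} [MeasurableSpace Ω] {P : Measure Ω} [IsProbabilityMeasure P] {X : ℕ → Ω → ℤ}

theorem IsERW.ae_nbr (h : IsERW pp P X) (y s : ℤ) (hs : s = 1 ∨ s = -1) :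
    ∀ᵐ ω ∂P, Inf (fun n => X n ω) y → Inf (fun n => X n ω) (y + s) := by
  have hne : y + s ≠ y := by omega
  filter_upwards [h.ae_bdd (fun x => if x = y + s then 1 / 2 else 1)
    (fun x _ => if x = y then 1 / 8 else if x = y + s then -1 else 0)
    (fun x => by split_ifs <;> norm_num) (by
      intro x l
      have h1 := pp_ge l
      have h2 := pp_le l
      by_cases hx : x = y
      · subst hx
        rw [if_pos rfl, if_neg hne.symm]
        refine mul_exp_le (by norm_num) ?_
        rcases hs with rfl | rfl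
        · rw [if_pos rfl, if_neg (by omega)]; linarith
        · rw [if_neg (by omega), if_pos (by omega)]; linarith
      · rw [if_neg hx]
        by_cases hx' : x = y + s
        · rw [if_pos hx', if_pos hx', if_neg (by omega), if_neg (by omega)]
          exact mul_exp_neg_one_le (by norm_num) (by linarith)
        · rw [if_neg hx', if_neg hx', Real.exp_zero, mul_one]
          split_ifs <;> linarith)] with ω ⟨c, hc⟩ hI
  by_contra hI'
  simp only [Inf, not_forall, not_exists, not_le] at hI'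
  obtain ⟨M, hM⟩ := hI'
  obtain ⟨n, hn⟩ := hI (8 * (M + 2 * ⌈c⌉₊))
  have h1 := hc n
  rw [ex_eq _ _ {y, y + s} n (by
    intro i _ hi l
    simp only [mem_insert, mem_singleton, not_or] at hi
    rw [if_neg hi.1, if_neg hi.2]), sum_pair hne.symm] at h1
  simp only [if_true, if_neg hne, sum_const, card_range, nsmul_eq_mul] at h1
  have h2 := Real.add_one_le_exp ((vis (fun k => X k ω) n y : ℝ) * (1 / 8) +
    (vis (fun k => X k ω) n (y + s) : ℝ) * (-1))
  have h3 : ((8 * (M + 2 * ⌈c⌉₊) : ℕ) : ℝ) ≤ vis (fun k => X k ω) n y := by exact_mod_cast hn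
  have h4 : (vis (fun k => X k ω) n (y + s) : ℝ) ≤ M := by exact_mod_cast (hM n).le
  have h5 := Nat.le_ceil c
  have h6 : (0 : ℝ) ≤ ⌈c⌉₊ := Nat.cast_nonneg _
  push_cast at h3
  split_ifs at h1 <;> linarith

theorem IsERW.ae_not_left (h : IsERW pp P X) :
    ∀ᵐ ω ∂P, ¬ Inf (fun n => X n ω) 0 → ∃ a : ℤ, ∀ n, a ≤ X n ω := by
  filter_upwards [h.ae_bdd (fun x => max (1 - (x : ℝ)) 1)
    (fun x l => if x < 0 then d l / (1 - x) else if x = 0 then -1 else 0)
    (fun x => le_max_of_le_right zero_le_one) (by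
      intro x l
      have h1 := pp_ge l
      have h2 := pp_le l
      push_cast
      rcases lt_trichotomy x 0 with hx | hx | hx
      · have hx' : (x : ℝ) + 1 ≤ 0 := by exact_mod_cast hx
        rw [if_pos hx, max_eq_left (by linarith), max_eq_left (by linarith),
          max_eq_left (by linarith)]
        refine mul_exp_le (by linarith) (le_of_eq ?_)
        have : (1 : ℝ) - x ≠ 0 := by linarith
        rw [pp_coe]; field_simp; ring
      · subst hx
        rw [if_neg (lt_irrefl _), if_pos rfl]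
        refine mul_exp_neg_one_le (by simp) ?_
        norm_num
        linarith
      · have hx' : (1 : ℝ) ≤ x := by exact_mod_cast hx
        rw [if_neg (by omega), if_neg (by omega), max_eq_right (by linarith),
          max_eq_right (by linarith), max_eq_right (by linarith)]
        simp)] with ω ⟨c, hc⟩ hI
  simp only [Inf, not_forall, not_exists, not_le] at hI
  obtain ⟨M, hM⟩ := hI
  refine ⟨-⌈c * Real.exp M⌉, fun n => ?_⟩
  have h1 := hc n
  rw [ex_eq _ _ ((range n).image fun k => X k ω) n (by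
    intro i hi hi'
    exact absurd (mem_image_of_mem _ (mem_range.2 hi)) hi')] at h1
  set γ : ℕ → ℤ := fun k => X k ω
  have h2 : -(M : ℝ) ≤ ∑ y ∈ (range n).image γ, ∑ l ∈ range (vis γ n y),
      (if y < 0 then d l / (1 - y) else if y = 0 then -1 else 0) := by
    have h3 : ∑ y ∈ (range n).image γ, (if y = 0 then -(M : ℝ) else 0) ≤
        ∑ y ∈ (range n).image γ, ∑ l ∈ range (vis γ n y),
          (if y < 0 then d l / (1 - y) else if y = 0 then -1 else 0) := by
      refine sum_le_sum fun y _ => ?_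
      rcases lt_trichotomy y 0 with hy | hy | hy
      · have hy' : (y : ℝ) < 0 := by exact_mod_cast hy
        simp only [if_pos hy, if_neg hy.ne]
        rw [← sum_div, sum_d]
        exact div_nonneg (S_nonneg _) (by linarith)
      · subst hy
        have : (vis γ n 0 : ℝ) ≤ M := by exact_mod_cast (hM n).le
        simpa using this
      · simp [hy.ne', not_lt.2 hy.le]
    refine le_trans ?_ h3
    rw [sum_ite_eq']
    split_ifs <;> simp
  have h4 := Real.exp_le_exp.2 h2
  have h5 : (1 - (X n ω : ℝ)) * Real.exp (-M) ≤ c := by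
    refine le_trans ?_ h1.le
    exact mul_le_mul (le_max_left _ _) h4 (Real.exp_pos _).le (le_max_of_le_right zero_le_one)
  rw [Real.exp_neg, ← div_eq_mul_inv, div_le_iff₀ (Real.exp_pos _)] at h5
  have h6 := Int.le_ceil (c * Real.exp M)
  have h7 : -((⌈c * Real.exp M⌉ : ℤ) : ℝ) ≤ X n ω := by linarith
  exact_mod_cast h7

noncomputable def eps (m : ℕ) : ℝ := (1 - H (m + 1) / H (m + 2)) / 4

theorem eps_pos (m : ℕ) : 0 < eps m := by
  have h0 : (0 : ℝ) ≤ m := Nat.cast_nonneg m
  have h1 := H_lt (t := m + 1) (by linarith)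
  have h2 := H_ge (t := m + 1) (by linarith)
  rw [show (m : ℝ) + 1 + 1 = m + 2 by ring] at h1
  have : H (m + 1) / H (m + 2) < 1 := by rw [div_lt_one (by linarith)]; exact h1
  unfold eps; linarith

noncomputable def GG (m : ℕ) (y : ℤ) : ℝ := H ((m : ℝ) + 1 - (max (-1) (min y m) : ℤ))

noncomputable def uu (m : ℕ) (y : ℤ) (l : ℕ) : ℝ :=
  if 0 ≤ y ∧ y < m then gam (m + 1 - y) + d l * bet (m + 1 - y)
  else if y = -1 then eps m else if y = m then -1 else 0

theorem GG_mid {m : ℕ} {y : ℤ} (h1 : -1 ≤ y) (h2 : y ≤ m) : GG m y = H (m + 1 - y) := by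
  rw [GG, min_eq_left h2, max_eq_right h1]

theorem GG_lo {m : ℕ} {y : ℤ} (h1 : y ≤ -1) : GG m y = H (m + 2) := by
  rw [GG, max_eq_left (by omega)]
  congr 1; push_cast; ring

theorem GG_hi {m : ℕ} {y : ℤ} (h1 : (m : ℤ) ≤ y) : GG m y = 1 := by
  rw [GG, min_eq_right h1, max_eq_right (by omega)]
  simp [H]

theorem GG_pos (m : ℕ) (y : ℤ) : 0 < GG m y := by
  have h1 : (max (-1) (min y m) : ℤ) ≤ m := by omega
  have h2 : ((max (-1) (min y m) : ℤ) : ℝ) ≤ m := by exact_mod_cast h1
  have := H_ge (t := (m : ℝ) + 1 - (max (-1) (min y m) : ℤ)) (by linarith)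
  unfold GG; linarith

theorem GG_super (m : ℕ) (hm : 1 ≤ m) (y : ℤ) (l : ℕ) :
    ((pp l : ℝ) * GG m (y + 1) + (1 - (pp l : ℝ)) * GG m (y - 1)) * Real.exp (uu m y l) ≤
      GG m y := by
  have h1 := pp_ge l
  have h2 := pp_le l
  unfold uu
  split_ifs with ha hb hc
  · refine mul_exp_le (GG_pos m y).le (le_of_eq ?_)
    have h3 := (GG_pos m y).ne'
    rw [GG_mid (by omega) (by omega)] at h3
    rw [GG_mid (by omega) (by omega), GG_mid (by omega) (by omega), GG_mid (by omega) (by omega),
      pp_coe, gam, bet]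
    push_cast
    rw [show (m : ℝ) + 1 - (y + 1) = m + 1 - y - 1 by ring,
      show (m : ℝ) + 1 - (y - 1) = m + 1 - y + 1 by ring]
    field_simp
    ring
  · subst hb
    refine mul_exp_le (GG_pos m _).le ?_
    have h3 := GG_pos m (-1)
    have h4 := eps_pos m
    rw [GG_lo le_rfl] at h3
    rw [GG_mid (by omega) (by omega), GG_lo (by omega), GG_lo le_rfl]
    have h5 : H (m + 1) = H (m + 2) * (1 - 4 * eps m) := by
      unfold eps; field_simp; ring
    norm_num
    rw [h5]
    nlinarith [mul_pos h3 h4]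
  · subst hc
    refine mul_exp_neg_one_le (GG_pos m _).le ?_
    rw [GG_hi (by omega), GG_hi le_rfl, GG_mid (by omega) (by omega)]
    push_cast
    rw [show (m : ℝ) + 1 - (m - 1) = 2 by ring, H]
    linarith
  · rw [Real.exp_zero, mul_one]
    by_cases hy : y < 0
    · rw [GG_lo (by omega), GG_lo (by omega), GG_lo (by omega)]; linarith
    · rw [GG_hi (by omega), GG_hi (by omega), GG_hi (by omega)]; linarith

theorem ex_lower (m : ℕ) (γ : ℕ → ℤ) (n z : ℕ) (h1 : z ≤ vis γ n (-1))
    (h2 : ∀ y : ℤ, 0 ≤ y → y < m → 18 ≤ vis γ n y) (h3 : vis γ n m < 18) :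
    Real.exp (z * eps m - 18) / wt m ≤ ex (uu m) n γ := by
  have hinj : Set.InjOn (fun j : ℕ => (m : ℤ) - 1 - j) (range m) := fun a _ b _ hab => by
    simp only at hab; omega
  rw [ex, sum_sites γ (uu m) (insert (-1) (insert (m : ℤ)
    ((range m).image fun j : ℕ => (m : ℤ) - 1 - j))) n (by
      intro i _ hi l
      simp only [mem_insert, mem_image, mem_range, not_or, not_exists, not_and] at hi
      rw [uu, if_neg, if_neg hi.1, if_neg hi.2.1]
      rintro ⟨ha, hb⟩
      exact hi.2.2 ((m : ℤ) - 1 - γ i).toNat (by omega) (by omega)),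
    sum_insert (by simp only [mem_insert, mem_image, mem_range, not_or, not_exists, not_and]
                   exact ⟨by omega, fun j hj => by omega⟩),
    sum_insert (by simp only [mem_image, mem_range, not_exists, not_and]
                   exact fun j hj => by omega),
    sum_image hinj, wt, ← Real.exp_sub, Real.exp_le_exp]
  have e1 : (z : ℝ) * eps m ≤ ∑ l ∈ range (vis γ n (-1)), uu m (-1) l := by
    have : ∀ l, uu m (-1) l = eps m := fun l => by rw [uu, if_neg (by omega), if_pos rfl]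
    simp only [this, sum_const, card_range, nsmul_eq_mul]
    have h4 : (z : ℝ) ≤ vis γ n (-1) := by exact_mod_cast h1
    exact mul_le_mul_of_nonneg_right h4 (eps_pos m).le
  have e2 : -18 ≤ ∑ l ∈ range (vis γ n m), uu m m l := by
    have : ∀ l, uu m m l = -1 := fun l => by
      rw [uu, if_neg (by omega), if_neg (by omega), if_pos rfl]
    simp only [this, sum_const, card_range, nsmul_eq_mul]
    have h4 : (vis γ n m : ℝ) ≤ 18 := by exact_mod_cast h3.le
    linarith
  have e3 : ∑ j ∈ range m, (1 + 2 / Real.log (((j + 2 : ℕ) : ℝ) + 3)) / (((j + 2 : ℕ) : ℝ) + 1) ≤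
      ∑ j ∈ range m, ∑ l ∈ range (vis γ n ((m : ℤ) - 1 - j)), uu m ((m : ℤ) - 1 - j) l := by
    refine sum_le_sum fun j hj => ?_
    have hj' := mem_range.1 hj
    have : ∀ l, uu m ((m : ℤ) - 1 - j) l = gam ((j + 2 : ℕ) : ℝ) + d l * bet ((j + 2 : ℕ) : ℝ) := by
      intro l
      rw [uu, if_pos (by omega)]
      congr 2 <;> push_cast <;> ring_nf
    simp only [this, sum_add_distrib, sum_const, card_range, nsmul_eq_mul]
    rw [← sum_mul, sum_d]
    have := site_bound (j + 2) (by omega) _ (h2 ((m : ℤ) - 1 - j) (by omega) (by omega))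
    linarith
  linarith

theorem IsERW.ae_finite (h : IsERW pp P X) :
    ∀ᵐ ω ∂P, ¬ (Inf (fun n => X n ω) (-1) ∧ Inf (fun n => X n ω) 0) := by
  rw [ae_iff]
  refine le_antisymm ?_ zero_le
  have h1 : Tendsto (fun z : ℕ => ∑' m : ℕ, wt (m + 1) * Real.exp (18 - z * eps (m + 1))) atTop
      (𝓝 (∑' _m : ℕ, (0 : ℝ))) := by
    refine tendsto_tsum_of_dominated_convergence (bound := fun m => wt (m + 1) * Real.exp 18)
      (((summable_nat_add_iff 1).2 summable_wt).mul_right _) (fun m => ?_)
      (Eventually.of_forall fun z m => ?_)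
    · rw [← mul_zero (wt (m + 1))]
      refine Tendsto.const_mul _ (Real.tendsto_exp_atBot.comp ?_)
      simp only [sub_eq_add_neg]
      refine tendsto_atBot_add_const_left _ _ (tendsto_neg_atTop_atBot.comp ?_)
      exact tendsto_natCast_atTop_atTop.atTop_mul_const (eps_pos _)
    · have hw : 0 < wt (m + 1) := Real.exp_pos _
      have := eps_pos (m + 1)
      rw [Real.norm_of_nonneg (by positivity)]
      gcongr
      have : 0 ≤ (z : ℝ) * eps (m + 1) := by positivity
      linarith
  rw [tsum_zero] at h1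
  have h2 := ENNReal.tendsto_ofReal h1
  rw [ENNReal.ofReal_zero] at h2
  refine ge_of_tendsto' h2 fun z => ?_
  have hw : ∀ m, 0 < wt m := fun m => Real.exp_pos _
  have hsum : Summable fun m : ℕ => wt (m + 1) * Real.exp (18 - z * eps (m + 1)) := by
    refine Summable.of_nonneg_of_le (fun m => mul_nonneg (hw _).le (Real.exp_pos _).le)
      (fun m => ?_) (((summable_nat_add_iff 1).2 summable_wt).mul_right (Real.exp 18))
    have := eps_pos (m + 1)
    have := hw (m + 1)
    gcongr
    have : 0 ≤ (z : ℝ) * eps (m + 1) := by positivity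
    linarith
  rw [ENNReal.ofReal_tsum_of_nonneg (fun m => mul_nonneg (hw _).le (Real.exp_pos _).le) hsum]
  refine le_trans (measure_mono (t := ⋃ m : ℕ, {ω | ∃ n,
    GG (m + 1) 0 * (Real.exp (z * eps (m + 1) - 18) / wt (m + 1)) ≤
      GG (m + 1) (X n ω) * ex (uu (m + 1)) n fun k => X k ω}) ?_)
    ((measure_iUnion_le _).trans (ENNReal.tsum_le_tsum fun m => ?_))
  · intro ω hω
    simp only [not_not, Set.mem_ofPred_eq] at hω
    set γ : ℕ → ℤ := fun k => X k ω
    obtain ⟨n1, hn1⟩ := hω.1 z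
    obtain ⟨n2, hn2⟩ := hω.2 18
    obtain ⟨n, hn, hn'⟩ := hω.1.exists_ge (max n1 n2)
    have h3 : z ≤ vis γ n (-1) := hn1.trans (vis_mono γ _ ((le_max_left _ _).trans hn))
    have h4 : 18 ≤ vis γ n 0 := hn2.trans (vis_mono γ _ ((le_max_right _ _).trans hn))
    have hex : ∃ m : ℕ, vis γ n m < 18 := by
      obtain ⟨m, hm⟩ := Infinite.exists_notMem_finset ((range n).image fun k => (γ k).toNat)
      refine ⟨m, ?_⟩
      have : vis γ n m = 0 := by
        rw [vis, card_eq_zero, filter_eq_empty_iff]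
        intro k hk hk'
        exact hm (mem_image.2 ⟨k, hk, by simp [hk']⟩)
      omega
    classical
    have hm := Nat.find_spec hex
    have hm' : ∀ y : ℤ, 0 ≤ y → y < Nat.find hex → 18 ≤ vis γ n y := by
      intro y hy hy'
      have := Nat.find_min hex (m := y.toNat) (by omega)
      rw [Int.toNat_of_nonneg hy] at this
      omega
    generalize Nat.find hex = m at hm hm'
    obtain _ | m := m
    · simp at hm; omega
    · refine Set.mem_iUnion.2 ⟨m, n, ?_⟩
      have h5 := ex_lower (m + 1) γ n z h3 hm' hm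
      have h6 : GG (m + 1) 0 ≤ GG (m + 1) (X n ω) := by
        have : X n ω = -1 := hn'
        rw [this, GG_lo le_rfl, GG_mid (by omega) (by omega)]
        have h0 : (0 : ℝ) ≤ m := Nat.cast_nonneg m
        have := H_lt (t := ((m + 1 : ℕ) : ℝ) + 1) (by push_cast; linarith)
        rw [show ((m + 1 : ℕ) : ℝ) + 1 + 1 = ((m + 1 : ℕ) : ℝ) + 2 by ring] at this
        simpa using this.le
      exact mul_le_mul h6 h5 (div_pos (Real.exp_pos _) (hw _)).le (GG_pos _ _).le
  · have hG := GG_pos (m + 1) 0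
    have := hw (m + 1)
    refine (h.ville _ _ (fun y => (GG_pos _ y).le) (GG_super (m + 1) (by omega)) _
      (by positivity)).trans (le_of_eq ?_)
    congr 1
    rw [← neg_sub, Real.exp_neg]
    field_simp

theorem tendsto_of_finite {γ : ℕ → ℤ} (hfin : ∀ y, ¬ Inf γ y) {a : ℤ}
    (ha : ∀ n, a ≤ γ n) : Tendsto γ atTop atTop := by
  rw [tendsto_atTop_atTop]
  intro M
  have h1 : ∀ y, ∀ᶠ n in atTop, γ n ≠ y := by
    intro y
    have := mt inf_of_frequently (hfin y)
    push Not at this
    obtain ⟨N, hN⟩ := this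
    exact eventually_atTop.2 ⟨N, hN⟩
  have h2 : ∀ᶠ n in atTop, ∀ y ∈ Finset.Icc a M, γ n ≠ y :=
    (eventually_all_finset _).2 fun y _ => h1 y
  obtain ⟨N, hN⟩ := eventually_atTop.1 h2
  refine ⟨N, fun n hn => ?_⟩
  by_contra hc
  exact hN n hn (γ n) (Finset.mem_Icc.2 ⟨ha n, by omega⟩) rfl

theorem IsERW.transient (h : IsERW pp P X) :
    ∀ᵐ ω ∂P, Tendsto (fun n => X n ω) atTop atTop := by
  filter_upwards [ae_all_iff.2 fun y => h.ae_nbr y 1 (Or.inl rfl),
    ae_all_iff.2 fun y => h.ae_nbr y (-1) (Or.inr rfl), h.ae_not_left, h.ae_finite]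
    with ω h2 h3 h4 h5
  have h0 : ¬ Inf (fun n => X n ω) 0 := fun h0 => h5 ⟨by simpa using h3 0 h0, h0⟩
  have hfin : ∀ y, ¬ Inf (fun n => X n ω) y := by
    intro y
    induction y using Int.induction_on with
    | zero => exact h0
    | succ i ih => exact fun hi => ih (by simpa using h3 _ hi)
    | pred i ih => exact fun hi => ih (by simpa using h2 _ hi)
  obtain ⟨a, ha⟩ := h4 h0
  exact tendsto_of_finite hfin ha

end

end Pool.Agent.P.MP_758450_pr
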